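import Mathlib
set_option autoImplicit false

/-! Fourth moments of sums of independent centered complex random variables. -/

namespace Run7.h750.IF

open MeasureTheory ProbabilityTheory Complex Set
open scoped ENNReal NNReal ComplexConjugate

variable {Ω : Type*} [MeasurableSpace Ω] {P : Measure Ω} [IsProbabilityMeasure P]

theorem norm_add_sq' (s y : ℂ) : ‖s + y‖ ^ 2 = ‖s‖ ^ 2 + 2 * (conj s * y).re + ‖y‖ ^ 2 := by
  have h : ‖s + y‖ ^ 2 = ((s + y) * conj (s + y)).re := by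
    rw [Complex.mul_conj, Complex.normSq_eq_norm_sq]; norm_cast
  have h1 : ‖s‖ ^ 2 = (s * conj s).re := by
    rw [Complex.mul_conj, Complex.normSq_eq_norm_sq]; norm_cast
  have h2 : ‖y‖ ^ 2 = (y * conj y).re := by
    rw [Complex.mul_conj, Complex.normSq_eq_norm_sq]; norm_cast
  rw [h, h1, h2, map_add]
  simp only [Complex.mul_re, Complex.add_re, Complex.add_im, Complex.conj_re, Complex.conj_im]
  ring

theorem norm_add_four (s y : ℂ) : ‖s + y‖ ^ 4 ≤ ‖s‖ ^ 4 + 6 * (‖s‖ ^ 2 * ‖y‖ ^ 2) + ‖y‖ ^ 4 +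
    4 * ((((‖s‖ ^ 2 : ℝ) : ℂ) * conj s) * y).re + 4 * (conj s * (((‖y‖ ^ 2 : ℝ) : ℂ) * y)).re := by
  have h1 : ‖s + y‖ ^ 4 = (‖s + y‖ ^ 2) ^ 2 := by ring
  have h2 : (((‖s‖ ^ 2 : ℝ) : ℂ) * conj s * y).re = ‖s‖ ^ 2 * (conj s * y).re := by
    rw [mul_assoc, Complex.re_ofReal_mul]
  have h3 : (conj s * (((‖y‖ ^ 2 : ℝ) : ℂ) * y)).re = ‖y‖ ^ 2 * (conj s * y).re := by
    rw [mul_left_comm, Complex.re_ofReal_mul]
  rw [h1, norm_add_sq', h2, h3]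
  have h4 : (conj s * y).re ^ 2 ≤ ‖s‖ ^ 2 * ‖y‖ ^ 2 := by
    have a := Complex.abs_re_le_norm (conj s * y)
    rw [norm_mul, Complex.norm_conj] at a
    have b : |(conj s * y).re| ^ 2 ≤ (‖s‖ * ‖y‖) ^ 2 := pow_le_pow_left₀ (abs_nonneg _) a 2
    rw [sq_abs, mul_pow] at b
    exact b
  nlinarith

theorem memLp_two {X : Ω → ℂ} (hX : MemLp X 4 P) : MemLp X 2 P :=
  hX.mono_exponent (by norm_num)

theorem memLp_one {X : Ω → ℂ} (hX : MemLp X 4 P) : Integrable X P :=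
  hX.integrable (by norm_num)

theorem int_sq {X : Ω → ℂ} (hX : MemLp X 4 P) : Integrable (fun ω => ‖X ω‖ ^ 2) P := by
  exact (memLp_two hX).integrable_norm_pow (by norm_num)

omit [IsProbabilityMeasure P] in
theorem int_four {X : Ω → ℂ} (hX : MemLp X 4 P) : Integrable (fun ω => ‖X ω‖ ^ 4) P := by
  exact hX.integrable_norm_pow (by norm_num)

theorem int_three {X : Ω → ℂ} (hX : MemLp X 4 P) :
    Integrable (fun ω => ((‖X ω‖ ^ 2 : ℝ) : ℂ) * X ω) P := by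
  have h3 : MemLp X 3 P := hX.mono_exponent (by norm_num)
  have h : Integrable (fun ω => ‖X ω‖ ^ 3) P := h3.integrable_norm_pow (by norm_num)
  refine h.mono' ?_ (Filter.Eventually.of_forall fun ω => ?_)
  · exact ((Complex.continuous_ofReal.comp_aestronglyMeasurable
      (hX.1.norm.pow 2))).mul hX.1
  · rw [norm_mul, Complex.norm_real, Real.norm_of_nonneg (by positivity)]
    apply le_of_eq; ring

theorem int_three' {X : Ω → ℂ} (hX : MemLp X 4 P) :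
    Integrable (fun ω => ((‖X ω‖ ^ 2 : ℝ) : ℂ) * conj (X ω)) P := by
  refine (int_three hX).norm.mono' ?_ (Filter.Eventually.of_forall fun ω => ?_)
  · exact ((Complex.continuous_ofReal.comp_aestronglyMeasurable
      (hX.1.norm.pow 2))).mul (Complex.continuous_conj.comp_aestronglyMeasurable hX.1)
  · rw [norm_mul, norm_mul, Complex.norm_conj]

theorem step2 {S Y : Ω → ℂ} (hS : MemLp S 4 P) (hY : MemLp Y 4 P) (hi : IndepFun S Y P)
    (hY0 : ∫ ω, Y ω ∂P = 0) :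
    ∫ ω, ‖S ω + Y ω‖ ^ 2 ∂P = ∫ ω, ‖S ω‖ ^ 2 ∂P + ∫ ω, ‖Y ω‖ ^ 2 ∂P := by
  have hm : Measurable fun z : ℂ => conj z := Complex.continuous_conj.measurable
  have hi' : IndepFun (fun ω => conj (S ω)) Y P := hi.comp hm measurable_id
  have hSc : Integrable (fun ω => conj (S ω)) P :=
    (Complex.conjLIE.toContinuousLinearEquiv.integrable_comp_iff).2 (memLp_one hS)
  have hprod : Integrable (fun ω => conj (S ω) * Y ω) P :=
    hi'.integrable_mul hSc (memLp_one hY)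
  have hz : ∫ ω, conj (S ω) * Y ω ∂P = 0 := by
    rw [hi'.integral_fun_mul_eq_mul_integral hSc.1 (memLp_one hY).1, hY0, mul_zero]
  have hz2 : ∫ ω, (conj (S ω) * Y ω).re ∂P = 0 := by
    have := integral_re hprod
    simp only [RCLike.re_to_complex] at this
    rw [this, hz]; simp
  simp_rw [norm_add_sq']
  have a1 : Integrable (fun ω => 2 * (conj (S ω) * Y ω).re) P := hprod.re.const_mul 2
  have a2 : Integrable (fun ω => ‖S ω‖ ^ 2 + 2 * (conj (S ω) * Y ω).re) P := (int_sq hS).add a1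
  rw [integral_add a2 (int_sq hY), integral_add (int_sq hS) a1, integral_const_mul, hz2]
  ring

theorem step4 {S Y : Ω → ℂ} (hS : MemLp S 4 P) (hY : MemLp Y 4 P) (hi : IndepFun S Y P)
    (hS0 : ∫ ω, S ω ∂P = 0) (hY0 : ∫ ω, Y ω ∂P = 0) :
    ∫ ω, ‖S ω + Y ω‖ ^ 4 ∂P ≤ ∫ ω, ‖S ω‖ ^ 4 ∂P +
      6 * ((∫ ω, ‖S ω‖ ^ 2 ∂P) * ∫ ω, ‖Y ω‖ ^ 2 ∂P) + ∫ ω, ‖Y ω‖ ^ 4 ∂P := by
  have hm : Measurable fun z : ℂ => conj z := Complex.continuous_conj.measurable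
  have hm2 : Measurable fun z : ℂ => ((‖z‖ ^ 2 : ℝ) : ℂ) * conj z := by fun_prop
  have hm3 : Measurable fun z : ℂ => ((‖z‖ ^ 2 : ℝ) : ℂ) * z := by fun_prop
  have hm4 : Measurable fun z : ℂ => ‖z‖ ^ 2 := by fun_prop
  -- first cross term
  have i1 : IndepFun (fun ω => ((‖S ω‖ ^ 2 : ℝ) : ℂ) * conj (S ω)) Y P := hi.comp hm2 measurable_id
  have p1 : Integrable (fun ω => ((‖S ω‖ ^ 2 : ℝ) : ℂ) * conj (S ω) * Y ω) P :=
    i1.integrable_mul (int_three' hS) (memLp_one hY)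
  have z1 : ∫ ω, (((‖S ω‖ ^ 2 : ℝ) : ℂ) * conj (S ω) * Y ω).re ∂P = 0 := by
    have := integral_re p1
    simp only [RCLike.re_to_complex] at this
    rw [this, i1.integral_fun_mul_eq_mul_integral (int_three' hS).1 (memLp_one hY).1, hY0,
      mul_zero]
    simp
  -- second cross term
  have i2 : IndepFun (fun ω => conj (S ω)) (fun ω => ((‖Y ω‖ ^ 2 : ℝ) : ℂ) * Y ω) P :=
    hi.comp hm hm3
  have hSc : Integrable (fun ω => conj (S ω)) P :=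
    (Complex.conjLIE.toContinuousLinearEquiv.integrable_comp_iff).2 (memLp_one hS)
  have p2 : Integrable (fun ω => conj (S ω) * (((‖Y ω‖ ^ 2 : ℝ) : ℂ) * Y ω)) P :=
    i2.integrable_mul hSc (int_three hY)
  have hSc0 : ∫ ω, conj (S ω) ∂P = 0 := by
    rw [integral_conj, hS0, map_zero]
  have z2 : ∫ ω, (conj (S ω) * (((‖Y ω‖ ^ 2 : ℝ) : ℂ) * Y ω)).re ∂P = 0 := by
    have := integral_re p2
    simp only [RCLike.re_to_complex] at this
    rw [this, i2.integral_fun_mul_eq_mul_integral hSc.1 (int_three hY).1, hSc0, zero_mul]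
    simp
  -- squares
  have i3 : IndepFun (fun ω => ‖S ω‖ ^ 2) (fun ω => ‖Y ω‖ ^ 2) P := hi.comp hm4 hm4
  have p3 : Integrable (fun ω => ‖S ω‖ ^ 2 * ‖Y ω‖ ^ 2) P :=
    i3.integrable_mul (int_sq hS) (int_sq hY)
  have z3 : ∫ ω, ‖S ω‖ ^ 2 * ‖Y ω‖ ^ 2 ∂P = (∫ ω, ‖S ω‖ ^ 2 ∂P) * ∫ ω, ‖Y ω‖ ^ 2 ∂P :=
    i3.integral_fun_mul_eq_mul_integral (int_sq hS).1 (int_sq hY).1
  have b1 : Integrable (fun ω => 6 * (‖S ω‖ ^ 2 * ‖Y ω‖ ^ 2)) P := p3.const_mul 6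
  have b2 : Integrable (fun ω => 4 * (((‖S ω‖ ^ 2 : ℝ) : ℂ) * conj (S ω) * Y ω).re) P :=
    p1.re.const_mul 4
  have b3 : Integrable (fun ω => 4 * (conj (S ω) * (((‖Y ω‖ ^ 2 : ℝ) : ℂ) * Y ω)).re) P :=
    p2.re.const_mul 4
  have hle : ∫ ω, ‖S ω + Y ω‖ ^ 4 ∂P ≤ ∫ ω, (‖S ω‖ ^ 4 + 6 * (‖S ω‖ ^ 2 * ‖Y ω‖ ^ 2) + ‖Y ω‖ ^ 4 +
      4 * (((‖S ω‖ ^ 2 : ℝ) : ℂ) * conj (S ω) * Y ω).re +
      4 * (conj (S ω) * (((‖Y ω‖ ^ 2 : ℝ) : ℂ) * Y ω)).re) ∂P := by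
    refine integral_mono_ae (int_four (hS.add hY)) ?_
      (Filter.Eventually.of_forall fun ω => norm_add_four _ _)
    exact (((((int_four hS).add b1).add (int_four hY)).add b2).add b3)
  refine hle.trans (le_of_eq ?_)
  have c1 : Integrable (fun ω => ‖S ω‖ ^ 4 + 6 * (‖S ω‖ ^ 2 * ‖Y ω‖ ^ 2)) P :=
    (int_four hS).add b1
  have c2 : Integrable (fun ω => ‖S ω‖ ^ 4 + 6 * (‖S ω‖ ^ 2 * ‖Y ω‖ ^ 2) + ‖Y ω‖ ^ 4) P :=
    c1.add (int_four hY)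
  have c3 : Integrable (fun ω => ‖S ω‖ ^ 4 + 6 * (‖S ω‖ ^ 2 * ‖Y ω‖ ^ 2) + ‖Y ω‖ ^ 4 +
      4 * (((‖S ω‖ ^ 2 : ℝ) : ℂ) * conj (S ω) * Y ω).re) P := c2.add b2
  rw [integral_add c3 b3, integral_add c2 b2, integral_add c1 (int_four hY),
    integral_add (int_four hS) b1, integral_const_mul, integral_const_mul, integral_const_mul,
    z1, z2, z3]
  ring

/-- the fourth moment of a sum -/
theorem moment {ι : Type*} (Z : ι → Ω → ℂ) (hm : ∀ i, Measurable (Z i)) (hi : iIndepFun Z P)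
    (h4 : ∀ i, MemLp (Z i) 4 P) (h0 : ∀ i, ∫ ω, Z i ω ∂P = 0) (β : ι → ℝ) (hβ : ∀ i, 0 ≤ β i)
    (hb : ∀ i, ∫ ω, ‖Z i ω‖ ^ 4 ∂P ≤ β i ^ 2) (s : Finset ι) :
    MemLp (fun ω => ∑ i ∈ s, Z i ω) 4 P ∧ ∫ ω, ∑ i ∈ s, Z i ω ∂P = 0 ∧
      ∫ ω, ‖∑ i ∈ s, Z i ω‖ ^ 2 ∂P ≤ ∑ i ∈ s, β i ∧
      ∫ ω, ‖∑ i ∈ s, Z i ω‖ ^ 4 ∂P ≤ 3 * (∑ i ∈ s, β i) ^ 2 := by
  classical
  have hb2 : ∀ i, ∫ ω, ‖Z i ω‖ ^ 2 ∂P ≤ β i := by
    intro i
    have h1 : (∫ ω, ‖Z i ω‖ ^ 2 ∂P) ^ 2 ≤ ∫ ω, (‖Z i ω‖ ^ 2) ^ 2 ∂P := by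
      have hv := ProbabilityTheory.variance_nonneg (fun ω => ‖Z i ω‖ ^ 2) P
      have hmem : MemLp (fun ω => ‖Z i ω‖ ^ 2) 2 P := by
        refine (memLp_two_iff_integrable_sq ((h4 i).1.norm.pow 2)).2 ?_
        have := int_four (h4 i)
        refine this.congr (Filter.Eventually.of_forall fun ω => ?_)
        simp only [Pi.pow_apply]
        ring
      rw [ProbabilityTheory.variance_eq_sub hmem] at hv
      simp only [Pi.pow_apply] at hv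
      linarith
    have h2 : ∫ ω, (‖Z i ω‖ ^ 2) ^ 2 ∂P = ∫ ω, ‖Z i ω‖ ^ 4 ∂P := by
      refine integral_congr_ae (Filter.Eventually.of_forall fun ω => ?_)
      simp only
      ring
    rw [h2] at h1
    exact le_of_sq_le_sq (h1.trans (hb i)) (hβ i)
  induction s using Finset.induction_on with
  | empty => simp
  | insert i s his ih =>
    obtain ⟨m1, m2, m3, m4⟩ := ih
    have hind : IndepFun (fun ω => ∑ j ∈ s, Z j ω) (Z i) P := by
      have := hi.indepFun_finsetSum_of_notMem hm his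
      convert this using 1
      ext ω
      simp
    have e : (fun ω => ∑ j ∈ insert i s, Z j ω) = fun ω => (∑ j ∈ s, Z j ω) + Z i ω := by
      ext ω
      rw [Finset.sum_insert his, add_comm]
    have s0 : 0 ≤ ∑ j ∈ s, β j := Finset.sum_nonneg fun j _ => hβ j
    have a2 := step2 m1 (h4 i) hind (h0 i)
    have a4 := step4 m1 (h4 i) hind m2 (h0 i)
    have hes : ∑ j ∈ insert i s, β j = (∑ j ∈ s, β j) + β i := by
      rw [Finset.sum_insert his, add_comm]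
    refine ⟨?_, ?_, ?_, ?_⟩
    · rw [e]; exact m1.add (h4 i)
    · have : ∫ ω, ∑ j ∈ insert i s, Z j ω ∂P = ∫ ω, ((∑ j ∈ s, Z j ω) + Z i ω) ∂P := by rw [e]
      rw [this, integral_add (memLp_one m1) (memLp_one (h4 i)), m2, h0 i, add_zero]
    · have : ∫ ω, ‖∑ j ∈ insert i s, Z j ω‖ ^ 2 ∂P =
          ∫ ω, ‖(∑ j ∈ s, Z j ω) + Z i ω‖ ^ 2 ∂P := by
        refine integral_congr_ae (Filter.Eventually.of_forall fun ω => ?_)
        simp only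
        rw [Finset.sum_insert his, add_comm]
      rw [this, a2, hes]
      exact add_le_add m3 (hb2 i)
    · have : ∫ ω, ‖∑ j ∈ insert i s, Z j ω‖ ^ 4 ∂P =
          ∫ ω, ‖(∑ j ∈ s, Z j ω) + Z i ω‖ ^ 4 ∂P := by
        refine integral_congr_ae (Filter.Eventually.of_forall fun ω => ?_)
        simp only
        rw [Finset.sum_insert his, add_comm]
      rw [this, hes]
      have q1 : (∫ ω, ‖∑ j ∈ s, Z j ω‖ ^ 2 ∂P) * ∫ ω, ‖Z i ω‖ ^ 2 ∂P ≤ (∑ j ∈ s, β j) * β i :=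
        mul_le_mul m3 (hb2 i) (integral_nonneg fun ω => by positivity) s0
      have q2 := hb i
      nlinarith [hβ i]

end Run7.h750.IF
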