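import Mathlib
import Pool.Agent.N303.SH.K9
import Pool.Agent.Run7.h750.IF1
set_option autoImplicit false

/-! Random densities with independent spherical harmonic coefficients. -/

namespace Run7.h750.IF

open MeasureTheory ProbabilityTheory Complex Set Filter Topology Metric
open scoped ENNReal NNReal RealInnerProductSpace
open Pool.Agent.N303.SH

/-- orthonormal bases of the spaces of spherical harmonics -/
structure Ons (n : ℕ) (d : ℕ → ℕ) (y : (k : ℕ) → Fin (d k) → C(S n, ℝ)) : Prop where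
  mem : ∀ k i, y k i ∈ H n k
  on : ∀ k i j, ip (y k i) (y k j) = if i = j then 1 else 0
  span : ∀ k, ∀ h ∈ H n k, ∃ a : Fin (d k) → ℝ, h = ∑ i, a i • y k i

variable {n : ℕ} {d : ℕ → ℕ} {y : (k : ℕ) → Fin (d k) → C(S n, ℝ)}

theorem expand (hy : Ons n d y) (k : ℕ) (h : C(S n, ℝ)) (hh : h ∈ H n k) :
    h = ∑ i, ip (y k i) h • y k i := by
  obtain ⟨a, ha⟩ := hy.span k h hh
  have : ∀ i, ip (y k i) h = a i := by
    intro i
    rw [ha, ip_sum]
    simp_rw [ip_smul, hy.on]
    simp
  simp_rw [this]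
  exact ha

theorem Zf_eq (hy : Ons n d y) (k : ℕ) (x : S n) : Zf k x = ∑ i, y k i x • y k i := by
  rw [expand hy k _ (Zf_mem k x)]
  refine Finset.sum_congr rfl fun i _ => ?_
  rw [ip_comm, ip_Zf, pk_of_mem (hy.mem k i)]

theorem ze_sum (hy : Ons n d y) (k : ℕ) (x : S n) : ∑ i, y k i x ^ 2 = ze n k x := by
  have h : ze n k x = Zf k x x := by
    rw [← ip_Zf_self, ip_Zf, pk_of_mem (Zf_mem k x)]
  rw [h, Zf_eq hy k x]
  simp only [ContinuousMap.sum_apply, ContinuousMap.smul_apply, smul_eq_mul]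
  refine Finset.sum_congr rfl fun i _ => ?_
  ring

theorem cp_eq (hy : Ons n d y) (k : ℕ) (g : S n → ℂ) (hg : Integrable g (sg n)) (x : S n) :
    cp k g x = ∑ i, (y k i x : ℂ) * ∫ z, (y k i z : ℂ) * g z ∂(sg n) := by
  have h1 : cp k g x = ∫ z, (Zf k x z : ℂ) * g z ∂(sg n) := by
    unfold cp
    have : ∀ z, (Zf k x z : ℂ) * g z = ∑ i, (e n k i x : ℂ) * ((e n k i z : ℂ) * g z) := by
      intro z
      unfold Zf
      simp only [ContinuousMap.sum_apply, ContinuousMap.smul_apply, smul_eq_mul]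
      push_cast
      rw [Finset.sum_mul]
      refine Finset.sum_congr rfl fun i _ => ?_
      ring
    simp_rw [this]
    rw [integral_finsetSum _ fun i _ => (int_cg hg (e n k i)).const_mul _]
    refine Finset.sum_congr rfl fun i _ => ?_
    rw [integral_const_mul]
  rw [h1]
  have : ∀ z, (Zf k x z : ℂ) * g z = ∑ i, (y k i x : ℂ) * ((y k i z : ℂ) * g z) := by
    intro z
    rw [Zf_eq hy k x]
    simp only [ContinuousMap.sum_apply, ContinuousMap.smul_apply, smul_eq_mul]
    push_cast
    rw [Finset.sum_mul]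
    refine Finset.sum_congr rfl fun i _ => ?_
    ring
  simp_rw [this]
  rw [integral_finsetSum _ fun i _ => (int_cg hg (y k i)).const_mul _]
  refine Finset.sum_congr rfl fun i _ => ?_
  rw [integral_const_mul]

theorem d_eq (hy : Ons n d y) (k : ℕ) (x : S n) : ze n k x * (sg n).real univ = d k := by
  have h1 : ∫ z, (∑ i, y k i z ^ 2) ∂(sg n) = d k := by
    rw [integral_finsetSum _ fun i _ => by
      have := int_c (y k i * y k i)
      refine this.congr (Eventually.of_forall fun z => ?_)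
      simp only [ContinuousMap.mul_apply]
      ring]
    have : ∀ i, ∫ z, y k i z ^ 2 ∂(sg n) = 1 := by
      intro i
      have h2 := hy.on k i i
      unfold ip at h2
      rw [if_pos rfl] at h2
      rw [← h2]
      refine integral_congr_ae (Eventually.of_forall fun z => ?_)
      simp only
      ring
    simp_rw [this]
    simp
  have h2 : ∀ z, ∑ i, y k i z ^ 2 = ze n k x := fun z => by rw [ze_sum hy, ze_const k z x]
  simp_rw [h2] at h1
  rw [integral_const, smul_eq_mul, mul_comm] at h1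
  exact h1

/-- the random coefficients -/
noncomputable def X {Ω : Type*} (y : (k : ℕ) → Fin (d k) → C(S n, ℝ)) (f : Ω → S n → ℂ)
    (p : Σ k, Fin (d k)) (ω : Ω) : ℂ := ∫ z, (y p.1 p.2 z : ℂ) * f ω z ∂(sg n)

/-- the index set of the partial sums -/
def ix (d : ℕ → ℕ) (N : ℕ) : Finset (Σ k, Fin (d k)) := (Finset.range N).sigma fun _ => Finset.univ

theorem ft_partial (hy : Ons n d y) {Ω : Type*} (f : Ω → S n → ℂ) (ω : Ω)
    (hf : Integrable (f ω) (sg n)) (N : ℕ) (ξ : E n) :
    ft (blk (Finset.range N) (f ω)) ξ =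
      ∑ p ∈ ix d N, X y f p ω * ft (fun z => (y p.1 p.2 z : ℂ)) ξ := by
  have h1 : ∀ x, blk (Finset.range N) (f ω) x =
      ∑ p ∈ ix d N, X y f p ω * (y p.1 p.2 x : ℂ) := by
    intro x
    unfold blk ix X
    rw [Finset.sum_sigma]
    refine Finset.sum_congr rfl fun k _ => ?_
    rw [cp_eq hy k _ hf]
    refine Finset.sum_congr rfl fun i _ => ?_
    ring
  have h2 : blk (Finset.range N) (f ω) = fun x => ∑ p ∈ ix d N, X y f p ω * (y p.1 p.2 x : ℂ) :=
    funext h1
  rw [h2, ft_sum_fun]
  · refine Finset.sum_congr rfl fun p _ => ?_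
    unfold ft
    rw [← integral_const_mul]
    refine integral_congr_ae (Eventually.of_forall fun z => ?_)
    simp only
    ring
  · intro p
    exact (int_c (y p.1 p.2)).ofReal.const_mul _

end Run7.h750.IF
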