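import Mathlib
import Pool.Agent.Run7.h750.IF2
set_option autoImplicit false

/-! The estimate for random densities. -/

namespace Run7.h750.IF

open MeasureTheory ProbabilityTheory Complex Set Filter Topology Metric
open scoped ENNReal NNReal RealInnerProductSpace
open Pool.Agent.N303.SH

variable {c : ℕ} {d : ℕ → ℕ} {y : (k : ℕ) → Fin (d k) → C(S (c + 2), ℝ)}
  {Ω : Type*} [MeasurableSpace Ω] {P : Measure Ω} [IsProbabilityMeasure P]

/-- the assumptions on the random density -/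
structure Rand (P : Measure Ω) (y : (k : ℕ) → Fin (d k) → C(S (c + 2), ℝ))
    (f : Ω → S (c + 2) → ℂ) (b : ℕ → ℝ≥0) : Prop where
  memLp : ∀ ω, MemLp (f ω) 2 (sg (c + 2))
  meas : ∀ p, Measurable (X y f p)
  indep : iIndepFun (X y f) P
  mean : ∀ p, ∫ ω, X y f p ω ∂P = 0
  four : ∀ p, ∫⁻ ω, ‖X y f p ω‖ₑ ^ 4 ∂P ≤ (b p.1 : ℝ≥0∞) ^ 4

omit [IsProbabilityMeasure P] in
theorem Rand.L4 {f : Ω → S (c + 2) → ℂ} {b : ℕ → ℝ≥0} (h : Rand P y f b)
    (p : Σ k, Fin (d k)) : MemLp (X y f p) 4 P := by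
  refine ⟨(h.meas p).aestronglyMeasurable, ?_⟩
  rw [eLpNorm_lt_top_iff_lintegral_rpow_enorm_lt_top (by norm_num) (by norm_num)]
  have := h.four p
  have e : ∫⁻ ω, ‖X y f p ω‖ₑ ^ (4 : ℝ≥0∞).toReal ∂P = ∫⁻ ω, ‖X y f p ω‖ₑ ^ 4 ∂P := by
    refine lintegral_congr fun ω => ?_
    rw [show (4 : ℝ≥0∞).toReal = ((4 : ℕ) : ℝ) by norm_num, ENNReal.rpow_natCast]
  rw [e]
  exact this.trans_lt (ENNReal.pow_lt_top ENNReal.coe_lt_top)

omit [IsProbabilityMeasure P] in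
theorem Rand.four' {f : Ω → S (c + 2) → ℂ} {b : ℕ → ℝ≥0} (h : Rand P y f b)
    (p : Σ k, Fin (d k)) : ∫ ω, ‖X y f p ω‖ ^ 4 ∂P ≤ (b p.1 : ℝ) ^ 4 := by
  have h1 := h.four p
  have h2 : ∫⁻ ω, ‖X y f p ω‖ₑ ^ 4 ∂P = ENNReal.ofReal (∫ ω, ‖X y f p ω‖ ^ 4 ∂P) := by
    rw [ofReal_integral_eq_lintegral_ofReal (int_four (h.L4 p))
      (Eventually.of_forall fun ω => by positivity)]
    refine lintegral_congr fun ω => ?_
    rw [ENNReal.ofReal_pow (norm_nonneg _), ofReal_norm]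
  rw [h2] at h1
  have h3 : ((b p.1 : ℝ≥0∞)) ^ 4 = ENNReal.ofReal ((b p.1 : ℝ) ^ 4) := by
    rw [ENNReal.ofReal_pow (by positivity), ENNReal.ofReal_coe_nnreal]
  rw [h3, ENNReal.ofReal_le_ofReal_iff (by positivity)] at h1
  exact h1

/-- pointwise bound for the partial sums -/
theorem point (hy : Ons (c + 2) d y) {f : Ω → S (c + 2) → ℂ} {b : ℕ → ℝ≥0} (h : Rand P y f b)
    {q : ℝ} (hq : 0 < q) (hq4 : q ≤ 4) (N : ℕ) (r : ℝ) (w : S (c + 2)) :
    ∫⁻ ω, ‖ft (blk (Finset.range N) (f ω)) (r • (w : E (c + 2)))‖ₑ ^ q ∂P ≤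
      ENNReal.ofReal 3 ^ (q / 4) * (∑ k ∈ Finset.range N,
        ENNReal.ofReal (‖Ic c k r‖ ^ 2 * ((b k : ℝ) ^ 2 * ze (c + 2) k w))) ^ (q / 2) := by
  set a : (Σ k, Fin (d k)) → ℂ := fun p => Ic c p.1 r * (y p.1 p.2 w : ℂ) with ha
  set Z : (Σ k, Fin (d k)) → Ω → ℂ := fun p ω => a p * X y f p ω with hZ
  have hsum : ∀ ω, ft (blk (Finset.range N) (f ω)) (r • (w : E (c + 2))) =
      ∑ p ∈ ix d N, Z p ω := by
    intro ω
    rw [ft_partial hy f ω ((h.memLp ω).integrable (by norm_num)) N]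
    refine Finset.sum_congr rfl fun p _ => ?_
    have := FHc (u := e0 c) (v := e1 c) (on_e c) p.1 (hy.mem p.1 p.2) r w
    rw [hZ]
    simp only [ha]
    have e : ft (fun z => (y p.1 p.2 z : ℂ)) (r • (w : E (c + 2))) =
        Ic c p.1 r * (y p.1 p.2 w : ℂ) := this
    rw [e]
    ring
  simp_rw [hsum]
  have hZm : ∀ p, Measurable (Z p) := fun p => (h.meas p).const_mul _
  have hZi : iIndepFun Z P := h.indep.comp (fun p z => a p * z) fun p => measurable_const_mul _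
  have hZ4 : ∀ p, MemLp (Z p) 4 P := fun p => (h.L4 p).const_mul _
  have hZ0 : ∀ p, ∫ ω, Z p ω ∂P = 0 := by
    intro p
    simp only [hZ]
    rw [integral_const_mul, h.mean p, mul_zero]
  set β : (Σ k, Fin (d k)) → ℝ := fun p => ‖a p‖ ^ 2 * (b p.1 : ℝ) ^ 2 with hβ
  have hβ0 : ∀ p, 0 ≤ β p := fun p => by positivity
  have hβ4 : ∀ p, ∫ ω, ‖Z p ω‖ ^ 4 ∂P ≤ β p ^ 2 := by
    intro p
    have : ∀ ω, ‖Z p ω‖ ^ 4 = ‖a p‖ ^ 4 * ‖X y f p ω‖ ^ 4 := by
      intro ω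
      simp only [hZ]
      rw [norm_mul, mul_pow]
    simp_rw [this]
    rw [integral_const_mul]
    have h4 := h.four' p
    calc ‖a p‖ ^ 4 * ∫ ω, ‖X y f p ω‖ ^ 4 ∂P ≤ ‖a p‖ ^ 4 * (b p.1 : ℝ) ^ 4 := by gcongr
      _ = β p ^ 2 := by rw [hβ]; ring
  obtain ⟨m1, -, -, m4⟩ := moment Z hZm hZi hZ4 hZ0 β hβ0 hβ4 (ix d N)
  set V : ℝ := ∑ p ∈ ix d N, β p with hV
  have hV0 : 0 ≤ V := Finset.sum_nonneg fun p _ => hβ0 p
  have hVe : V = ∑ k ∈ Finset.range N, ‖Ic c k r‖ ^ 2 * ((b k : ℝ) ^ 2 * ze (c + 2) k w) := by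
    rw [hV]
    unfold ix
    rw [Finset.sum_sigma]
    refine Finset.sum_congr rfl fun k _ => ?_
    simp only [hβ, ha]
    rw [← ze_sum hy k w, Finset.mul_sum, Finset.mul_sum]
    refine Finset.sum_congr rfl fun i _ => ?_
    rw [norm_mul, mul_pow, Complex.norm_real, Real.norm_eq_abs, sq_abs]
    ring
  have hVE : ∑ k ∈ Finset.range N,
        ENNReal.ofReal (‖Ic c k r‖ ^ 2 * ((b k : ℝ) ^ 2 * ze (c + 2) k w)) = ENNReal.ofReal V := by
    rw [hVe, ENNReal.ofReal_sum_of_nonneg]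
    intro k _
    have := ze_nonneg k w
    positivity
  rw [hVE]
  have hl4 : ∫⁻ ω, ‖∑ p ∈ ix d N, Z p ω‖ₑ ^ (4 : ℝ) ∂P ≤ ENNReal.ofReal (3 * V ^ 2) := by
    have e : ∫⁻ ω, ‖∑ p ∈ ix d N, Z p ω‖ₑ ^ (4 : ℝ) ∂P =
        ENNReal.ofReal (∫ ω, ‖∑ p ∈ ix d N, Z p ω‖ ^ 4 ∂P) := by
      rw [ofReal_integral_eq_lintegral_ofReal (int_four m1)
        (Eventually.of_forall fun ω => by positivity)]
      refine lintegral_congr fun ω => ?_
      rw [show (4 : ℝ) = ((4 : ℕ) : ℝ) by norm_num, ENNReal.rpow_natCast,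
        ENNReal.ofReal_pow (norm_nonneg _), ofReal_norm]
    rw [e]
    exact ENNReal.ofReal_le_ofReal m4
  have hmono := eLpNorm'_le_eLpNorm'_of_exponent_le (p := q) (q := 4) hq hq4 P m1.1
  unfold eLpNorm' at hmono
  have h5 := ENNReal.rpow_le_rpow hmono hq.le
  rw [← ENNReal.rpow_mul, ← ENNReal.rpow_mul, one_div_mul_cancel hq.ne', ENNReal.rpow_one] at h5
  refine h5.trans ((ENNReal.rpow_le_rpow hl4 (by positivity)).trans (le_of_eq ?_))
  rw [ENNReal.ofReal_mul (by norm_num), ENNReal.mul_rpow_of_nonneg _ _ (by positivity),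
    ENNReal.ofReal_pow hV0, ← ENNReal.rpow_natCast, ← ENNReal.rpow_mul]
  congr 2
  · ring
  · push_cast
    ring


/-- the weighted radial integral of the sum -/
theorem radial_sum {q : ℝ} (hq2 : 2 < q) {C : ℝ} (hC0 : 0 ≤ C)
    (hC : ∀ k : ℕ, ∫⁻ r in Ioi 0, ENNReal.ofReal (‖Ic c k r‖ ^ q * r ^ (c + 1)) ≤
      ENNReal.ofReal (C * ((k : ℝ) + 1) ^ (1 - sc c * (q - 2)))) (B : ℕ → ℝ)
    (N : ℕ) :
    ∫⁻ r in Ioi (0 : ℝ), ENNReal.ofReal (r ^ (c + 1)) * (∑ k ∈ Finset.range N,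
      ENNReal.ofReal (‖Ic c k r‖ ^ 2 * B k)) ^ (q / 2) ≤
      ENNReal.ofReal C * (∑ k ∈ Finset.range N,
        ENNReal.ofReal (B k) * ENNReal.ofReal (((k : ℝ) + 1) ^ ((1 - sc c * (q - 2)) * (2 / q))))
          ^ (q / 2) := by
  have hq0 : 0 < q := by linarith
  have hp : 1 ≤ q / 2 := by linarith
  have hp0 : 0 < q / 2 := by linarith
  set u : ℕ → ℝ → ℝ≥0∞ := fun k r => ENNReal.ofReal (r ^ (c + 1)) ^ (2 / q) *
    ENNReal.ofReal (‖Ic c k r‖ ^ 2 * B k) with hu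
  have hum : ∀ k, Measurable (u k) := by
    intro k
    have h1 : Measurable fun r : ℝ => ‖Ic c k r‖ ^ 2 * B k :=
      ((Ic_cont c k).norm.measurable.pow_const 2).mul_const _
    exact ((measurable_id.pow_const _).ennreal_ofReal.pow_const _).mul h1.ennreal_ofReal
  have h1 := mink_fin (volume.restrict (Ioi (0 : ℝ))) (q / 2) hp u hum N
  have h2 := ENNReal.rpow_le_rpow h1 hp0.le
  rw [← ENNReal.rpow_mul, one_div_mul_cancel hp0.ne', ENNReal.rpow_one] at h2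
  have e1 : ∀ r : ℝ, (∑ k ∈ Finset.range N, u k r) ^ (q / 2) =
      ENNReal.ofReal (r ^ (c + 1)) * (∑ k ∈ Finset.range N,
      ENNReal.ofReal (‖Ic c k r‖ ^ 2 * B k)) ^ (q / 2) := by
    intro r
    simp only [hu]
    rw [← Finset.mul_sum, ENNReal.mul_rpow_of_nonneg _ _ hp0.le, ← ENNReal.rpow_mul]
    have : 2 / q * (q / 2) = 1 := by field_simp
    rw [this, ENNReal.rpow_one]
  simp_rw [e1] at h2
  refine h2.trans ?_
  -- each term
  have h3 : ∀ k, (∫⁻ r in Ioi (0 : ℝ), u k r ^ (q / 2)) ^ (1 / (q / 2)) ≤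
      ENNReal.ofReal C ^ (2 / q) * (ENNReal.ofReal (B k) *
        ENNReal.ofReal (((k : ℝ) + 1) ^ ((1 - sc c * (q - 2)) * (2 / q)))) := by
    intro k
    have e2 : ∫⁻ r in Ioi (0 : ℝ), u k r ^ (q / 2) = ENNReal.ofReal (B k) ^ (q / 2) *
        ∫⁻ r in Ioi (0 : ℝ), ENNReal.ofReal (‖Ic c k r‖ ^ q * r ^ (c + 1)) := by
      have hm : Measurable fun r : ℝ => ENNReal.ofReal (‖Ic c k r‖ ^ q * r ^ (c + 1)) :=
        (((Ic_cont c k).norm.measurable.pow_const q).mul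
          (measurable_id.pow_const _)).ennreal_ofReal
      rw [← lintegral_const_mul _ hm]
      refine setLIntegral_congr_fun measurableSet_Ioi fun r hr => ?_
      have hr0 : 0 < r := hr
      simp only [hu]
      rw [ENNReal.mul_rpow_of_nonneg _ _ hp0.le, ← ENNReal.rpow_mul]
      have : 2 / q * (q / 2) = 1 := by field_simp
      rw [this, ENNReal.rpow_one, ENNReal.ofReal_mul (by positivity),
        ENNReal.mul_rpow_of_nonneg _ _ hp0.le, ENNReal.ofReal_mul (by positivity),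
        ENNReal.ofReal_rpow_of_nonneg (by positivity) hp0.le]
      have e3 : (‖Ic c k r‖ ^ 2) ^ (q / 2) = ‖Ic c k r‖ ^ q := by
        rw [← Real.rpow_natCast, ← Real.rpow_mul (norm_nonneg _)]
        congr 1
        push_cast
        ring
      rw [e3]
      ring
    rw [e2]
    have e4 : 1 / (q / 2) = 2 / q := by field_simp
    have hk1 : (0 : ℝ) < (k : ℝ) + 1 := by positivity
    rw [e4]
    refine (ENNReal.rpow_le_rpow (mul_le_mul' le_rfl (hC k)) (by positivity)).trans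
      (le_of_eq ?_)
    rw [ENNReal.mul_rpow_of_nonneg _ _ (by positivity), ← ENNReal.rpow_mul]
    have e5 : q / 2 * (2 / q) = 1 := by field_simp
    rw [e5, ENNReal.rpow_one, ENNReal.ofReal_mul hC0,
      ENNReal.mul_rpow_of_nonneg _ _ (by positivity),
      ENNReal.ofReal_rpow_of_nonneg (by positivity : (0:ℝ) ≤ ((k : ℝ) + 1) ^ (1 - sc c * (q - 2)))
        (by positivity), ← Real.rpow_mul hk1.le]
    ring
  refine (ENNReal.rpow_le_rpow (Finset.sum_le_sum fun k _ => h3 k) hp0.le).trans (le_of_eq ?_)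
  rw [← Finset.mul_sum, ENNReal.mul_rpow_of_nonneg _ _ hp0.le, ← ENNReal.rpow_mul]
  have : 2 / q * (q / 2) = 1 := by field_simp
  rw [this, ENNReal.rpow_one]

/-- joint measurability of the partial sums -/
theorem meas_partial (hy : Ons (c + 2) d y) {f : Ω → S (c + 2) → ℂ}
    (hf : ∀ ω, MemLp (f ω) 2 (sg (c + 2))) (hX : ∀ p, Measurable (X y f p)) (N : ℕ) :
    Measurable fun z : Ω × E (c + 2) => ft (blk (Finset.range N) (f z.1)) z.2 := by
  have h : ∀ z : Ω × E (c + 2), ft (blk (Finset.range N) (f z.1)) z.2 =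
      ∑ p ∈ ix d N, X y f p z.1 * ft (fun z => (y p.1 p.2 z : ℂ)) z.2 :=
    fun z => ft_partial hy f z.1 ((hf z.1).integrable (by norm_num)) N z.2
  simp_rw [h]
  refine Finset.measurable_fun_sum _ fun p _ => ?_
  exact ((hX p).comp measurable_fst).mul
    ((ft_cont (int_c (y p.1 p.2)).ofReal).measurable.comp measurable_snd)

/-- joint measurability -/
theorem meas_ft (hy : Ons (c + 2) d y) {f : Ω → S (c + 2) → ℂ}
    (hf : ∀ ω, MemLp (f ω) 2 (sg (c + 2))) (hX : ∀ p, Measurable (X y f p)) :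
    Measurable fun z : Ω × E (c + 2) => ft (f z.1) z.2 := by
  refine measurable_of_tendsto_metrizable (fun N => meas_partial hy hf hX N) ?_
  rw [tendsto_pi_nhds]
  intro z
  exact ft_tendsto (hf z.1) z.2

/-- the main estimate -/
theorem main (hc : 1 ≤ c) {q : ℝ} (hq2 : 2 < q) (hq4 : q < 4) (hγ : 1 < sc c * (q - 2)) :
    ∃ C : ℝ≥0, ∀ (d : ℕ → ℕ) (y : (k : ℕ) → Fin (d k) → C(S (c + 2), ℝ)), Ons (c + 2) d y →
      ∀ (Ω : Type) [MeasurableSpace Ω] (P : Measure Ω) [IsProbabilityMeasure P]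
      (f : Ω → S (c + 2) → ℂ) (b : ℕ → ℝ≥0), Rand P y f b →
      ∫⁻ ω, (∫⁻ ξ, ‖ft (f ω) ξ‖ₑ ^ q) ∂P ≤ C * (∑' k : ℕ, (d k : ℝ≥0∞) * (b k : ℝ≥0∞) ^ 2 *
        ENNReal.ofReal (((k : ℝ) + 1) ^ ((1 - sc c * (q - 2)) * (2 / q)))) ^ (q / 2) := by
  obtain ⟨C, hC0, hC⟩ := Ic_bd hc hq2 hq4 hγ
  have hq0 : 0 < q := by linarith
  have hp0 : 0 < q / 2 := by linarith
  set v : ℝ := (sg (c + 2)).real univ with hv
  have hv0 : 0 < v := V_pos c
  have hvE : sg (c + 2) univ = ENNReal.ofReal v := by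
    rw [hv, Measure.real, ENNReal.ofReal_toReal (measure_ne_top _ _)]
  set K : ℝ≥0∞ := ENNReal.ofReal v * ENNReal.ofReal 3 ^ (q / 4) * ENNReal.ofReal C *
    ENNReal.ofReal v⁻¹ ^ (q / 2) with hK
  have hKt : K ≠ ∞ := by
    refine ENNReal.mul_ne_top (ENNReal.mul_ne_top (ENNReal.mul_ne_top ENNReal.ofReal_ne_top ?_)
      ENNReal.ofReal_ne_top) ?_
    · exact ENNReal.rpow_ne_top_of_nonneg (by positivity) ENNReal.ofReal_ne_top
    · exact ENNReal.rpow_ne_top_of_nonneg (by positivity) ENNReal.ofReal_ne_top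
  refine ⟨K.toNNReal, ?_⟩
  rw [ENNReal.coe_toNNReal hKt]
  intro d y hy Ω _ P _ f b h
  set e : ℕ → ℝ≥0∞ := fun k =>
    ENNReal.ofReal (((k : ℝ) + 1) ^ ((1 - sc c * (q - 2)) * (2 / q))) with he
  have hS : ∀ N, ∫⁻ ω, (∫⁻ ξ, ‖ft (blk (Finset.range N) (f ω)) ξ‖ₑ ^ q) ∂P ≤
      K * (∑' k : ℕ, (d k : ℝ≥0∞) * (b k : ℝ≥0∞) ^ 2 * e k) ^ (q / 2) := by
    intro N
    have hm := meas_partial hy h.memLp h.meas N
    have hm' : Measurable fun z : Ω × E (c + 2) =>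
        ‖ft (blk (Finset.range N) (f z.1)) z.2‖ₑ ^ q := hm.enorm.pow_const q
    rw [lintegral_lintegral_swap (by exact hm'.aemeasurable)]
    have hm2 : Measurable fun ξ : E (c + 2) =>
        ∫⁻ ω, ‖ft (blk (Finset.range N) (f ω)) ξ‖ₑ ^ q ∂P :=
      Measurable.lintegral_prod_left' (f := fun z : Ω × E (c + 2) =>
        ‖ft (blk (Finset.range N) (f z.1)) z.2‖ₑ ^ q) hm'
    rw [polar (by omega) _ hm2]
    have hw : ∀ w : S (c + 2), ∫⁻ r in Ioi (0 : ℝ), ENNReal.ofReal (r ^ (c + 2 - 1)) *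
        ∫⁻ ω, ‖ft (blk (Finset.range N) (f ω)) (r • (w : E (c + 2)))‖ₑ ^ q ∂P ≤
        ENNReal.ofReal 3 ^ (q / 4) * (ENNReal.ofReal C * (ENNReal.ofReal v⁻¹ ^ (q / 2) *
          (∑' k : ℕ, (d k : ℝ≥0∞) * (b k : ℝ≥0∞) ^ 2 * e k) ^ (q / 2))) := by
      intro w
      have h1 := radial_sum hq2 hC0 hC (fun k => (b k : ℝ) ^ 2 * ze (c + 2) k w) N
      have h2 : ∫⁻ r in Ioi (0 : ℝ), ENNReal.ofReal (r ^ (c + 2 - 1)) *
          ∫⁻ ω, ‖ft (blk (Finset.range N) (f ω)) (r • (w : E (c + 2)))‖ₑ ^ q ∂P ≤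
          ∫⁻ r in Ioi (0 : ℝ), ENNReal.ofReal 3 ^ (q / 4) * (ENNReal.ofReal (r ^ (c + 1)) *
            (∑ k ∈ Finset.range N,
              ENNReal.ofReal (‖Ic c k r‖ ^ 2 * ((b k : ℝ) ^ 2 * ze (c + 2) k w))) ^ (q / 2)) := by
        refine lintegral_mono fun r => ?_
        refine (mul_le_mul' le_rfl (point hy h hq0 hq4.le N r w)).trans (le_of_eq ?_)
        rw [show c + 2 - 1 = c + 1 by omega]
        ring
      refine h2.trans ?_
      have hmr : Measurable fun r : ℝ => ENNReal.ofReal (r ^ (c + 1)) *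
            (∑ k ∈ Finset.range N,
              ENNReal.ofReal (‖Ic c k r‖ ^ 2 * ((b k : ℝ) ^ 2 * ze (c + 2) k w))) ^ (q / 2) := by
        refine Measurable.mul (measurable_id.pow_const _).ennreal_ofReal (Measurable.pow_const ?_ _)
        refine Finset.measurable_fun_sum _ fun k _ => ?_
        exact (((Ic_cont c k).norm.measurable.pow_const 2).mul_const _).ennreal_ofReal
      rw [lintegral_const_mul _ hmr]
      refine mul_le_mul' le_rfl (h1.trans (mul_le_mul' le_rfl ?_))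
      rw [← ENNReal.mul_rpow_of_nonneg _ _ hp0.le]
      refine ENNReal.rpow_le_rpow ?_ hp0.le
      rw [← ENNReal.tsum_mul_left]
      refine le_trans (le_of_eq ?_) (ENNReal.sum_le_tsum (Finset.range N))
      refine Finset.sum_congr rfl fun k _ => ?_
      have hd := d_eq hy k w
      have hz : ze (c + 2) k w = v⁻¹ * d k := by
        rw [← hd, ← hv, mul_comm _ v, inv_mul_cancel_left₀ hv0.ne']
      rw [hz, ENNReal.ofReal_mul (by positivity), ENNReal.ofReal_mul (by positivity),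
        ENNReal.ofReal_natCast, ENNReal.ofReal_pow (by positivity), ENNReal.ofReal_coe_nnreal]
      simp only [he]
      ring
    refine (lintegral_mono hw).trans (le_of_eq ?_)
    rw [lintegral_const, hvE, hK]
    ring
  -- Fatou
  have hF : ∀ ω, ∫⁻ ξ, ‖ft (f ω) ξ‖ₑ ^ q ≤
      liminf (fun N => ∫⁻ ξ, ‖ft (blk (Finset.range N) (f ω)) ξ‖ₑ ^ q) atTop := by
    intro ω
    have h1 : ∀ ξ, ‖ft (f ω) ξ‖ₑ ^ q =
        liminf (fun N => ‖ft (blk (Finset.range N) (f ω)) ξ‖ₑ ^ q) atTop := by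
      intro ξ
      have ht := ft_tendsto (h.memLp ω) ξ
      have ht2 : Tendsto (fun N => ‖ft (blk (Finset.range N) (f ω)) ξ‖ₑ ^ q) atTop
          (𝓝 (‖ft (f ω) ξ‖ₑ ^ q)) :=
        ((ENNReal.continuous_rpow_const.tendsto _).comp
          ((continuous_enorm.tendsto _).comp ht))
      exact ht2.liminf_eq.symm
    simp_rw [h1]
    refine lintegral_liminf_le fun N => ?_
    exact (ft_cont ((blk_cont (Finset.range N) (f ω)).integrable_of_hasCompactSupport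
      (HasCompactSupport.of_compactSpace _))).measurable.enorm.pow_const q
  refine (lintegral_mono hF).trans ?_
  refine (lintegral_liminf_le fun N => ?_).trans ?_
  · have hm' : Measurable fun z : Ω × E (c + 2) =>
        ‖ft (blk (Finset.range N) (f z.1)) z.2‖ₑ ^ q :=
      (meas_partial hy h.memLp h.meas N).enorm.pow_const q
    exact Measurable.lintegral_prod_right' (f := fun z : Ω × E (c + 2) =>
        ‖ft (blk (Finset.range N) (f z.1)) z.2‖ₑ ^ q) hm'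
  · refine (liminf_le_liminf (Eventually.of_forall hS)).trans (le_of_eq ?_)
    exact liminf_const _

/-- the almost sure statement -/
theorem almost (hc : 1 ≤ c) (d : ℕ → ℕ) (y : (k : ℕ) → Fin (d k) → C(S (c + 2), ℝ))
    (hy : Ons (c + 2) d y) (Ω : Type) [MeasurableSpace Ω] (P : Measure Ω) [IsProbabilityMeasure P]
    (f : Ω → S (c + 2) → ℂ) (b : ℕ → ℝ≥0) (h : Rand P y f b)
    (hs : ∑' k : ℕ, (d k : ℝ≥0∞) * (b k : ℝ≥0∞) ^ 2 ≠ ∞) :
    ∀ᵐ ω ∂P, ∀ q : ℝ, 1 < sc c * (q - 2) → ∫⁻ ξ, ‖ft (f ω) ξ‖ₑ ^ q ≠ ∞ := by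
  have hsc : 1 ≤ sc c := sc_ge hc
  have hsc0 : 0 < sc c := by linarith
  -- a sequence of exponents
  set t : ℕ → ℝ := fun j => 2 + 1 / sc c + (2 - 1 / sc c) / ((j : ℝ) + 2) with ht
  have h1s : 1 / sc c ≤ 1 := by rw [div_le_one hsc0]; exact hsc
  have h1s0 : 0 < 1 / sc c := by positivity
  have ht0 : ∀ j : ℕ, 0 < (2 - 1 / sc c) / ((j : ℝ) + 2) := fun j => by
    have : 0 < 2 - 1 / sc c := by linarith
    positivity
  have ht1 : ∀ j : ℕ, (2 - 1 / sc c) / ((j : ℝ) + 2) < 2 - 1 / sc c := fun j => by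
    have : 0 < 2 - 1 / sc c := by linarith
    exact div_lt_self this (by have : (0:ℝ) ≤ j := Nat.cast_nonneg j; linarith)
  have hg : ∀ j, 1 < sc c * (t j - 2) := fun j => by
    have e : sc c * (t j - 2) = 1 + sc c * ((2 - 1 / sc c) / ((j : ℝ) + 2)) := by
      simp only [ht]; field_simp; ring
    rw [e]
    have := mul_pos hsc0 (ht0 j)
    linarith
  have hfin : ∀ j, ∀ᵐ ω ∂P, ∫⁻ ξ, ‖ft (f ω) ξ‖ₑ ^ (t j) < ∞ := by
    intro j
    have ht2 : 2 < t j := by simp only [ht]; have := ht0 j; linarith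
    have ht4 : t j < 4 := by simp only [ht]; have := ht1 j; linarith
    obtain ⟨C, hC⟩ := main hc ht2 ht4 (hg j)
    have h2 := hC d y hy Ω P f b h
    have h3 : ∑' k : ℕ, (d k : ℝ≥0∞) * (b k : ℝ≥0∞) ^ 2 *
        ENNReal.ofReal (((k : ℝ) + 1) ^ ((1 - sc c * (t j - 2)) * (2 / t j))) ≤
        ∑' k : ℕ, (d k : ℝ≥0∞) * (b k : ℝ≥0∞) ^ 2 := by
      refine ENNReal.tsum_le_tsum fun k => ?_
      have : ENNReal.ofReal (((k : ℝ) + 1) ^ ((1 - sc c * (t j - 2)) * (2 / t j))) ≤ 1 := by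
        rw [ENNReal.ofReal_le_one]
        refine Real.rpow_le_one_of_one_le_of_nonpos (by have : (0:ℝ) ≤ k := Nat.cast_nonneg k; linarith) ?_
        have := hg j
        refine mul_nonpos_of_nonpos_of_nonneg (by linarith) (div_nonneg (by norm_num) (by linarith))
      calc _ ≤ (d k : ℝ≥0∞) * (b k : ℝ≥0∞) ^ 2 * 1 := mul_le_mul' le_rfl this
        _ = _ := mul_one _
    refine ae_lt_top ?_ ?_
    · exact Measurable.lintegral_prod_right' (f := fun z : Ω × E (c + 2) =>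
        ‖ft (f z.1) z.2‖ₑ ^ (t j)) ((meas_ft hy h.memLp h.meas).enorm.pow_const _)
    · refine ne_top_of_le_ne_top ?_ h2
      refine ENNReal.mul_ne_top ENNReal.coe_ne_top (ENNReal.rpow_ne_top_of_nonneg (by linarith) ?_)
      exact ne_top_of_le_ne_top hs h3
  filter_upwards [ae_all_iff.2 hfin] with ω hω q hq
  -- choose the exponent
  have hq' : 0 < q - (2 + 1 / sc c) := by
    have : 1 / sc c < q - 2 := by rw [div_lt_iff₀ hsc0]; linarith
    linarith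
  obtain ⟨j, hj⟩ := exists_nat_gt ((2 - 1 / sc c) / (q - (2 + 1 / sc c)))
  have htq : t j ≤ q := by
    simp only [ht]
    have hj2 : (2 - 1 / sc c) / ((j : ℝ) + 2) ≤ q - (2 + 1 / sc c) := by
      rw [div_le_iff₀ (by positivity)]
      rw [div_lt_iff₀ hq'] at hj
      nlinarith
    linarith
  set M : ℝ≥0∞ := ∫⁻ z, ‖f ω z‖ₑ ∂(sg (c + 2)) with hM
  have hMt : M ≠ ∞ := ((h.memLp ω).integrable (by norm_num)).2.ne
  have hb : ∀ ξ, ‖ft (f ω) ξ‖ₑ ^ q ≤ M ^ (q - t j) * ‖ft (f ω) ξ‖ₑ ^ (t j) := by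
    intro ξ
    have h1 : ‖ft (f ω) ξ‖ₑ ^ q = ‖ft (f ω) ξ‖ₑ ^ (q - t j) * ‖ft (f ω) ξ‖ₑ ^ (t j) := by
      rw [← ENNReal.rpow_add_of_nonneg _ _ (by linarith) (by simp only [ht]; have := ht0 j; linarith)]
      congr 1
      ring
    rw [h1]
    exact mul_le_mul' (ENNReal.rpow_le_rpow (ft_enorm_le _ _) (by linarith)) le_rfl
  refine ne_top_of_le_ne_top ?_ (lintegral_mono hb)
  have hcm : Measurable fun ξ => ‖ft (f ω) ξ‖ₑ ^ (t j) :=
    (ft_cont ((h.memLp ω).integrable (by norm_num))).measurable.enorm.pow_const _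
  rw [lintegral_const_mul _ hcm]
  exact ENNReal.mul_ne_top (ENNReal.rpow_ne_top_of_nonneg (by linarith) hMt) (hω j).ne

end Run7.h750.IF
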