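import Pool.Agent.Run7.h750.RS3
import Pool.Agent.R462.KC.Layers
set_option autoImplicit false
set_option linter.unusedSectionVars false

/-! Interpolation, the full range and the union. -/

namespace Run7.h750.RS

open MeasureTheory Set Metric ProbabilityTheory
open scoped ENNReal NNReal Pointwise

/-- a power of the logarithm is bounded by a small power -/
theorem log_pow (κ : ℝ) (hκ : 0 < κ) : ∃ C : ℝ, 0 < C ∧ ∀ M : ℝ, 1 ≤ M →
    (1 + Real.log (1 + M)) ^ 2 ≤ C * M ^ κ := by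
  refine ⟨(1 + 2 ^ (κ / 2) / (κ / 2)) ^ 2, by positivity, ?_⟩
  intro M hM
  have hM0 : 0 < M := by linarith
  have h1 : Real.log (1 + M) ≤ (2 * M) ^ (κ / 2) / (κ / 2) := by
    calc Real.log (1 + M) ≤ Real.log (2 * M) := Real.log_le_log (by linarith) (by linarith)
      _ ≤ _ := Real.log_le_rpow_div (by positivity) (by positivity)
  have h2 : 1 ≤ M ^ (κ / 2) := Real.one_le_rpow hM (by positivity)
  have h3 : 1 + Real.log (1 + M) ≤ (1 + 2 ^ (κ / 2) / (κ / 2)) * M ^ (κ / 2) := by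
    rw [Real.mul_rpow (by norm_num) hM0.le] at h1
    calc _ ≤ M ^ (κ / 2) + 2 ^ (κ / 2) * M ^ (κ / 2) / (κ / 2) := by linarith
      _ = _ := by ring
  have h4 : 0 ≤ Real.log (1 + M) := Real.log_nonneg (by linarith)
  calc _ ≤ ((1 + 2 ^ (κ / 2) / (κ / 2)) * M ^ (κ / 2)) ^ 2 := by
        apply pow_le_pow_left₀ (by linarith) h3
    _ = _ := by
        rw [mul_pow]
        congr 1
        rw [← Real.rpow_natCast, ← Real.rpow_mul hM0.le]
        congr 1
        push_cast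
        ring

/-- the setting -/
structure Data (m : ℕ) (J : V (m + 1) →ₗᵢ[ℝ] V (m + 3)) (Ω : Type) [MeasurableSpace Ω]
    (P : Measure Ω) (ι : Type) [Fintype ι] (A δ : ℝ) (a e : ι → V (m + 3))
    (X : ι → Ω → V (m + 1)) : Prop where
  hA : 1 ≤ A
  hδ : 0 < δ
  hδ1 : δ < 1
  he : ∀ i, ‖e i‖ = 1
  hsep : ∀ i j, i ≠ j → δ ≤ ‖e i - e j‖
  hX : ∀ i, Measurable (X i)
  hspr : ∀ i, Spread P A (X i)
  hind : ∀ i j, i ≠ j → IndepFun (X i) (X j) P

theorem Lq (m : ℕ) : ∃ C : ℝ, 0 < C ∧ ∀ (J : V (m + 1) →ₗᵢ[ℝ] V (m + 3)) (Ω : Type)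
    [MeasurableSpace Ω] (P : Measure Ω) [IsProbabilityMeasure P] (ι : Type) [Fintype ι] (A δ : ℝ)
    (a e : ι → V (m + 3)) (X : ι → Ω → V (m + 1)), Data m J Ω P ι A δ a e X →
    ∀ q : ℝ, 1 ≤ q → q ≤ 2 → ∫⁻ z, Sm J δ a e X z ^ q ∂(P.prod volume) ≤
      ENNReal.ofReal (C * A * (1 + Real.log (1 + Fintype.card ι)) ^ 2 *
        (δ ^ (m + 2) * Fintype.card ι)) := by
  obtain ⟨C, hC, hL2⟩ := L2bound m
  refine ⟨max C (2 ^ (m + 2)), lt_of_lt_of_le (by linarith) (le_max_left _ _), ?_⟩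
  intro J Ω _ P _ ι _ A δ a e X hd q hq1 hq2
  obtain ⟨hA, hδ, hδ1, he, hsep, hX, hspr, hind⟩ := hd
  have h2 := hL2 J Ω P ι A δ a e X hA hδ hδ1 he hsep hX hspr hind
  set M : ℝ := (Fintype.card ι : ℝ) with hM
  have hM0 : 0 ≤ M := by positivity
  have hlog : 0 ≤ Real.log (1 + M) := Real.log_nonneg (by linarith)
  have hL : 1 ≤ A * (1 + Real.log (1 + M)) ^ 2 := by
    have : 1 ≤ (1 + Real.log (1 + M)) ^ 2 := one_le_pow₀ (by linarith)
    nlinarith
  set T : ℝ≥0∞ := ENNReal.ofReal (max C (2 ^ (m + 2)) * A * (1 + Real.log (1 + M)) ^ 2 *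
    (δ ^ (m + 2) * M)) with hT
  have hT2 : ∫⁻ z, Sm J δ a e X z ^ 2 ∂(P.prod volume) ≤ T := by
    refine h2.trans (ENNReal.ofReal_le_ofReal ?_)
    gcongr
    exact le_max_left _ _
  have hT1 : ∫⁻ z, Sm J δ a e X z ∂(P.prod volume) ≤ T := by
    rw [Sm_int P J δ a e X hX]
    calc _ ≤ ∑ _i : ι, ENNReal.ofReal ((2 * δ) ^ (m + 2)) :=
          Finset.sum_le_sum fun i _ => vol_tube_le δ hδ (a i) (e i) (he i)
      _ = ENNReal.ofReal (M * (2 * δ) ^ (m + 2)) := by
          rw [Finset.sum_const, Finset.card_univ, nsmul_eq_mul, ← ENNReal.ofReal_natCast,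
            ← ENNReal.ofReal_mul (by positivity)]
      _ ≤ T := by
          apply ENNReal.ofReal_le_ofReal
          have h3 : M * (2 * δ) ^ (m + 2) = 2 ^ (m + 2) * 1 * (δ ^ (m + 2) * M) := by
            rw [mul_pow]; ring
          rw [h3, mul_assoc (max C (2 ^ (m + 2))) A]
          gcongr
          exact le_max_right _ _
  have hm := Sm_meas J δ a e X hX
  have hh := ENNReal.lintegral_mul_norm_pow_le (μ := P.prod volume) (f := Sm J δ a e X)
    (g := fun z => Sm J δ a e X z ^ 2) hm.aemeasurable (hm.pow_const 2).aemeasurable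
    (p := 2 - q) (q := q - 1) (by linarith) (by linarith) (by ring)
  have e1 : ∀ z, Sm J δ a e X z ^ (2 - q) * (Sm J δ a e X z ^ 2) ^ (q - 1) =
      Sm J δ a e X z ^ q := by
    intro z
    rw [← ENNReal.rpow_natCast, ← ENNReal.rpow_mul, ← ENNReal.rpow_add_of_nonneg _ _ (by linarith)
      (by push_cast; linarith)]
    congr 1
    push_cast
    ring
  simp_rw [e1] at hh
  refine hh.trans ?_
  calc _ ≤ T ^ (2 - q) * T ^ (q - 1) :=
        mul_le_mul' (ENNReal.rpow_le_rpow hT1 (by linarith)) (ENNReal.rpow_le_rpow hT2 (by linarith))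
    _ = T := by
        rw [← ENNReal.rpow_add_of_nonneg _ _ (by linarith) (by linarith)]
        have : 2 - q + (q - 1) = 1 := by ring
        rw [this, ENNReal.rpow_one]

theorem Sm_le {m : ℕ} (J : V (m + 1) →ₗᵢ[ℝ] V (m + 3)) {Ω : Type} [MeasurableSpace Ω] {ι : Type}
    [Fintype ι] (δ : ℝ) (a e : ι → V (m + 3)) (X : ι → Ω → V (m + 1)) (z : Ω × V (m + 3)) :
    Sm J δ a e X z ≤ (Fintype.card ι : ℝ≥0∞) := by
  unfold Sm
  calc _ ≤ ∑ _i : ι, (1 : ℝ≥0∞) := Finset.sum_le_sum fun i _ => by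
        unfold ind
        exact indicator_le_self' (fun _ _ => zero_le) _
    _ = _ := by simp

theorem full (m : ℕ) (q : ℝ) (hq : ((m : ℝ) + 3) / ((m : ℝ) + 2) < q) : ∃ C : ℝ, 0 < C ∧
    ∀ (J : V (m + 1) →ₗᵢ[ℝ] V (m + 3)) (Ω : Type)
    [MeasurableSpace Ω] (P : Measure Ω) [IsProbabilityMeasure P] (ι : Type) [Fintype ι] (A δ : ℝ)
    (a e : ι → V (m + 3)) (X : ι → Ω → V (m + 1)), Data m J Ω P ι A δ a e X →
    ∫⁻ z, Sm J δ a e X z ^ q ∂(P.prod volume) ≤
      ENNReal.ofReal (C * A * (δ ^ (m + 2) * (Fintype.card ι : ℝ) ^ (q - 1 / ((m : ℝ) + 2)))) := by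
  obtain ⟨C, hC, hLq⟩ := Lq m
  have hm2 : (0:ℝ) < (m:ℝ) + 2 := by positivity
  have hq' : 1 + 1 / ((m:ℝ) + 2) < q := by
    have : ((m : ℝ) + 3) / ((m : ℝ) + 2) = 1 + 1 / ((m:ℝ) + 2) := by field_simp; ring
    linarith
  have h12 : 0 < 1 / ((m:ℝ) + 2) := by positivity
  have h13 : 1 / ((m:ℝ) + 2) ≤ 1 / 2 := by
    apply one_div_le_one_div_of_le (by norm_num)
    linarith [(Nat.cast_nonneg m : (0:ℝ) ≤ m)]
  set κ : ℝ := min q 2 - 1 - 1 / ((m:ℝ) + 2) with hκ
  have hκ0 : 0 < κ := by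
    rw [hκ]
    rcases min_choice q 2 with h | h
    · rw [h]; linarith
    · rw [h]; linarith
  obtain ⟨C', hC', hlog⟩ := log_pow κ hκ0
  refine ⟨C * C', by positivity, ?_⟩
  intro J Ω _ P _ ι _ A δ a e X hd
  have hA : 1 ≤ A := hd.hA
  have hδ : 0 < δ := hd.hδ
  rcases isEmpty_or_nonempty ι with hem | hne
  · have h0 : ∀ z, Sm J δ a e X z ^ q = 0 := by
      intro z
      unfold Sm
      simp only [Finset.univ_eq_empty, Finset.sum_empty]
      exact ENNReal.zero_rpow_of_pos (by linarith)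
    simp_rw [h0]
    simp
  set M : ℝ := (Fintype.card ι : ℝ) with hM
  have hM1 : 1 ≤ M := by rw [hM]; exact_mod_cast Fintype.card_pos
  have hM0 : 0 < M := by linarith
  set q' : ℝ := min q 2 with hq2
  have hq'1 : 1 ≤ q' := by
    rw [hq2]; exact le_min (by linarith) (by norm_num)
  have hq'2 : q' ≤ 2 := min_le_right _ _
  have hq'q : q' ≤ q := min_le_left _ _
  have h1 := hLq J Ω P ι A δ a e X hd q' hq'1 hq'2
  have hpt : ∀ z, Sm J δ a e X z ^ q ≤ ENNReal.ofReal (M ^ (q - q')) * Sm J δ a e X z ^ q' := by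
    intro z
    have h2 := Sm_le J δ a e X z
    calc Sm J δ a e X z ^ q = Sm J δ a e X z ^ (q - q') * Sm J δ a e X z ^ q' := by
          rw [← ENNReal.rpow_add_of_nonneg _ _ (by linarith) (by linarith)]
          congr 1; ring
      _ ≤ (Fintype.card ι : ℝ≥0∞) ^ (q - q') * Sm J δ a e X z ^ q' :=
          mul_le_mul' (ENNReal.rpow_le_rpow h2 (by linarith)) le_rfl
      _ = _ := by
          congr 1
          rw [← ENNReal.ofReal_rpow_of_pos hM0, hM, ENNReal.ofReal_natCast]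
  calc _ ≤ ∫⁻ z, ENNReal.ofReal (M ^ (q - q')) * Sm J δ a e X z ^ q' ∂(P.prod volume) :=
        lintegral_mono hpt
    _ = ENNReal.ofReal (M ^ (q - q')) * ∫⁻ z, Sm J δ a e X z ^ q' ∂(P.prod volume) :=
        lintegral_const_mul' _ _ ENNReal.ofReal_ne_top
    _ ≤ ENNReal.ofReal (M ^ (q - q')) * ENNReal.ofReal (C * A * (1 + Real.log (1 + M)) ^ 2 *
        (δ ^ (m + 2) * M)) := mul_le_mul' le_rfl h1
    _ ≤ _ := by
        rw [← ENNReal.ofReal_mul (by positivity)]
        apply ENNReal.ofReal_le_ofReal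
        have h3 := hlog M hM1
        have e1 : M ^ (q - 1 / ((m:ℝ) + 2)) = M ^ (q - q') * (M ^ κ * M) := by
          nth_rewrite 4 [← Real.rpow_one M]
          rw [← Real.rpow_add hM0, ← Real.rpow_add hM0]
          congr 1
          rw [hκ]
          ring
        rw [e1]
        calc _ ≤ M ^ (q - q') * (C * A * (C' * M ^ κ) * (δ ^ (m + 2) * M)) := by gcongr
          _ = _ := by ring

/-- the union of the shifted tubes is large on average -/
theorem union (m : ℕ) : ∃ c : ℝ, 0 < c ∧ ∀ (J : V (m + 1) →ₗᵢ[ℝ] V (m + 3)) (Ω : Type)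
    [MeasurableSpace Ω] (P : Measure Ω) [IsProbabilityMeasure P] (ι : Type) [Fintype ι] (A δ : ℝ)
    (a e : ι → V (m + 3)) (X : ι → Ω → V (m + 1)), Data m J Ω P ι A δ a e X →
    ENNReal.ofReal (c * (δ ^ (m + 2) * Fintype.card ι)) ≤
      ENNReal.ofReal (A * (1 + Real.log (1 + Fintype.card ι)) ^ 2) *
      ∫⁻ ω, volume (⋃ i, tube δ (a i + J (X i ω)) (e i)) ∂P := by
  obtain ⟨C, hC, hL2⟩ := L2bound m
  obtain ⟨c, hc, hvol⟩ := Pool.Agent.H742R2.Kk.volume_tube (m + 2)
  refine ⟨c ^ 2 / C, by positivity, ?_⟩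
  intro J Ω _ P _ ι _ A δ a e X hd
  obtain ⟨hA, hδ, hδ1, he, hsep, hX, hspr, hind⟩ := hd
  have h2 := hL2 J Ω P ι A δ a e X hA hδ hδ1 he hsep hX hspr hind
  rcases isEmpty_or_nonempty ι with hem | hne
  · simp
  set M : ℝ := (Fintype.card ι : ℝ) with hM
  have hM1 : 1 ≤ M := by rw [hM]; exact_mod_cast Fintype.card_pos
  have hM0 : 0 < M := by linarith
  have hlog : 0 ≤ Real.log (1 + M) := Real.log_nonneg (by linarith)
  have hm := Sm_meas J δ a e X hX
  set U : Set (Ω × V (m + 3)) := {z | Sm J δ a e X z ≠ 0} with hU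
  have hUm : MeasurableSet U := hm (measurableSet_singleton 0).compl
  have hint : ENNReal.ofReal (c * (δ ^ (m + 2) * M)) ≤
      ∫⁻ z, Sm J δ a e X z ∂(P.prod volume) := by
    rw [Sm_int P J δ a e X hX]
    calc _ = ∑ _i : ι, ENNReal.ofReal (c * δ ^ (m + 2)) := by
          rw [Finset.sum_const, Finset.card_univ, nsmul_eq_mul, ← ENNReal.ofReal_natCast,
            ← ENNReal.ofReal_mul (by positivity)]
          congr 1; ring
      _ ≤ _ := Finset.sum_le_sum fun i _ => hvol δ (e i) (a i) hδ (he i)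
  have hCS : (∫⁻ z, Sm J δ a e X z ∂(P.prod volume)) ^ 2 ≤
      (∫⁻ z, Sm J δ a e X z ^ 2 ∂(P.prod volume)) * (P.prod volume) U := by
    have h := ENNReal.lintegral_mul_norm_pow_le (μ := P.prod volume)
      (f := fun z => Sm J δ a e X z ^ 2) (g := U.indicator 1) (hm.pow_const 2).aemeasurable
      (measurable_one.indicator hUm).aemeasurable (p := 1 / 2) (q := 1 / 2) (by norm_num)
      (by norm_num) (by norm_num)
    have e1 : ∀ z, (Sm J δ a e X z ^ 2) ^ (1 / 2 : ℝ) * (U.indicator 1 z) ^ (1 / 2 : ℝ) =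
        Sm J δ a e X z := by
      intro z
      rw [← ENNReal.rpow_natCast, ← ENNReal.rpow_mul]
      have : ((2 : ℕ) : ℝ) * (1 / 2) = 1 := by norm_num
      rw [this, ENNReal.rpow_one]
      by_cases hz : z ∈ U
      · rw [indicator_of_mem hz]; simp
      · have h0 : Sm J δ a e X z = 0 := by
          by_contra h
          exact hz h
        rw [h0, zero_mul]
    simp_rw [e1] at h
    rw [lintegral_indicator_one hUm] at h
    have h3 := pow_le_pow_left' h 2
    refine h3.trans (le_of_eq ?_)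
    rw [mul_pow, ← ENNReal.rpow_natCast, ← ENNReal.rpow_mul, ← ENNReal.rpow_natCast (_ ^ _),
      ← ENNReal.rpow_mul]
    norm_num
  have hUeq : (P.prod volume) U = ∫⁻ ω, volume (⋃ i, tube δ (a i + J (X i ω)) (e i)) ∂P := by
    rw [Measure.prod_apply hUm]
    apply lintegral_congr
    intro ω
    congr 1
    ext x
    simp only [hU, mem_preimage, mem_ofPred_eq, mem_iUnion]
    unfold Sm
    rw [ne_eq, Finset.sum_eq_zero_iff, not_forall]
    apply exists_congr
    intro i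
    simp only [Finset.mem_univ, forall_const]
    unfold ind
    rw [indicator_apply_eq_zero, not_forall]
    have : x - J (X i ω) - a i = x - (a i + J (X i ω)) := by abel
    simp only [Pi.one_apply, one_ne_zero, not_false_eq_true, exists_prop, and_true]
    unfold tube
    simp only [mem_ofPred_eq, this]
  rw [← hUeq]
  have h5 : ENNReal.ofReal (c * (δ ^ (m + 2) * M)) ^ 2 ≤
      ENNReal.ofReal (C * A * (1 + Real.log (1 + M)) ^ 2 * (δ ^ (m + 2) * M)) *
        (P.prod volume) U :=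
    (pow_le_pow_left' hint 2).trans (hCS.trans (mul_le_mul' h2 le_rfl))
  set D : ℝ := δ ^ (m + 2) * M with hD
  have hD0 : 0 < D := by positivity
  have h6 := mul_le_mul' (le_refl (ENNReal.ofReal (1 / (C * D)))) h5
  have e2 : ENNReal.ofReal (1 / (C * D)) * ENNReal.ofReal (c * D) ^ 2 =
      ENNReal.ofReal (c ^ 2 / C * D) := by
    rw [← ENNReal.ofReal_pow (by positivity), ← ENNReal.ofReal_mul (by positivity)]
    congr 1
    field_simp
  have e3 : ENNReal.ofReal (1 / (C * D)) *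
      (ENNReal.ofReal (C * A * (1 + Real.log (1 + M)) ^ 2 * D) * (P.prod volume) U) =
      ENNReal.ofReal (A * (1 + Real.log (1 + M)) ^ 2) * (P.prod volume) U := by
    rw [← mul_assoc, ← ENNReal.ofReal_mul (by positivity)]
    congr 2
    field_simp
  rwa [e2, e3] at h6

end Run7.h750.RS
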