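import Mathlib
import Pool.Agent.N248.SD.H
import Pool.Agent.N484.KC.A
set_option autoImplicit false

/-! Convolution weights and additive energy for a general function satisfying the quadratic
majorant inequality with a kernel decaying like the square of the Fourier transform of a
hypersurface. -/

namespace Run7.h750.AE

open MeasureTheory Complex Set Metric
open scoped ENNReal NNReal RealInnerProductSpace
open Pool.Agent.N248.SD (rep rep_meas rep_le rep_int rep_eq dbl elow eup br br_meas Rz pot_all riesz)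

/-- the abstract Cauchy-Schwarz inequality for the functions `k ≤ kG` -/
def CS (N : ℕ) (k kG : EuclideanSpace ℝ (Fin N) → ℝ≥0∞) : Prop :=
  ∀ (α β : Measure (EuclideanSpace ℝ (Fin N))), IsFiniteMeasure α → IsFiniteMeasure β →
    (∫⁻ ω, k (ω.2 - ω.1) ∂(α.prod β)) ^ 2 ≤
      (∫⁻ ω, kG (ω.2 - ω.1) ∂(β.prod β)) * ∫⁻ ω, kG (ω.2 - ω.1) ∂(α.prod α)

section

variable {N : ℕ} (k kG : EuclideanSpace ℝ (Fin N) → ℝ≥0∞) (hk : Measurable k)
  (hkG : Measurable kG) (c : ℝ≥0∞) (hb : ∀ x, kG x ≤ c * br N x) (hCS : CS N k kG)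

include hk hkG hb hCS

theorem energy (A B : Set (EuclideanSpace ℝ (Fin N))) (hA : MeasurableSet A)
    (hB : MeasurableSet B) (hAf : volume A ≠ ∞) (hBf : volume B ≠ ∞)
    (l : ℝ≥0∞) (hl : ∀ x ∈ B, l ≤ k x) :
    (l * ∫⁻ w, rep A B w ^ 2) ^ 2 ≤
      (c * Pool.Agent.N248.SD.En N (rep A B)) *
        (c * Pool.Agent.N248.SD.En N (A.indicator 1)) := by
  have hAm : Measurable (A.indicator (1 : EuclideanSpace ℝ (Fin N) → ℝ≥0∞)) :=
    measurable_one.indicator hA
  have hrm := rep_meas A B hA hB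
  have hf1 : IsFiniteMeasure ((volume : Measure (EuclideanSpace ℝ (Fin N))).withDensity
      (A.indicator 1)) := isFiniteMeasure_withDensity (by
    rw [lintegral_indicator_one hA]; exact hAf)
  have hf2 : IsFiniteMeasure ((volume : Measure (EuclideanSpace ℝ (Fin N))).withDensity
      (rep A B)) := isFiniteMeasure_withDensity (by
    rw [rep_int A B hA hB]; exact ENNReal.mul_ne_top hAf hBf)
  have hc := hCS ((volume : Measure (EuclideanSpace ℝ (Fin N))).withDensity (A.indicator 1))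
    ((volume : Measure (EuclideanSpace ℝ (Fin N))).withDensity (rep A B)) hf1 hf2
  have e1 := dbl (A.indicator 1) (rep A B) _ hAm hrm hk
  have e2 := dbl (rep A B) (rep A B) _ hrm hrm hkG
  have e3 := dbl (A.indicator 1) (A.indicator 1) _ hAm hAm hkG
  rw [e1, e2, e3] at hc
  refine le_trans (pow_le_pow_left' (elow A B hA hB _ hk l hl) 2) (hc.trans (mul_le_mul' ?_ ?_))
  · exact eup _ _ hrm _ hb
  · exact eup _ _ hAm _ hb

/-- the energy inequality, normalised -/
theorem energy' (hN : 1 ≤ N) (A B : Set (EuclideanSpace ℝ (Fin N))) (hA : MeasurableSet A)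
    (hB : MeasurableSet B) (hAf : volume A ≠ ∞) (hBf : volume B ≠ ∞)
    (l : ℝ≥0∞) (hl : ∀ x ∈ B, l ≤ k x) :
    l ^ 2 * (∫⁻ w, rep A B w ^ 2) ^ (1 + 1 / (N : ℝ)) ≤
      (c * (Rz N + 1)) ^ 2 * (volume A ^ (1 + 3 / (N : ℝ)) * volume B ^ (2 / (N : ℝ))) := by
  have hN1 : (1 : ℝ) ≤ N := by exact_mod_cast hN
  have hN0 : (0 : ℝ) < N := by linarith
  have hAm : Measurable (A.indicator (1 : EuclideanSpace ℝ (Fin N) → ℝ≥0∞)) :=
    measurable_one.indicator hA
  have hrm := rep_meas A B hA hB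
  set e : ℝ≥0∞ := ∫⁻ w, rep A B w ^ 2 with he
  set a : ℝ≥0∞ := volume A with ha
  set b : ℝ≥0∞ := volume B with hb'
  have hef : e ≠ ∞ := by
    have : e ≤ a * (a * b) := by
      rw [he]
      calc ∫⁻ w, rep A B w ^ 2 ≤ ∫⁻ w, a * rep A B w := by
            refine lintegral_mono fun w => ?_
            rw [sq]
            exact mul_le_mul' (rep_le A B w) le_rfl
        _ = a * (a * b) := by rw [lintegral_const_mul _ hrm, rep_int A B hA hB]
    exact ne_top_of_le_ne_top (ENNReal.mul_ne_top hAf (ENNReal.mul_ne_top hAf hBf)) this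
  rcases eq_or_ne e 0 with he0 | he0
  · rw [he0, ENNReal.zero_rpow_of_pos (by positivity), mul_zero]
    exact zero_le
  have h0 := energy k kG hk hkG c hb hCS A B hA hB hAf hBf l hl
  have h1 := riesz N hN (rep A B) hrm (by
    rw [rep_int A B hA hB]; exact ENNReal.mul_ne_top hAf hBf) hef
  have hA2 : ∫⁻ y, A.indicator (1 : EuclideanSpace ℝ (Fin N) → ℝ≥0∞) y ^ 2 = a := by
    rw [ha, ← lintegral_indicator_one hA]
    refine lintegral_congr fun y => ?_
    by_cases hy : y ∈ A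
    · rw [indicator_of_mem hy]; simp
    · rw [indicator_of_notMem hy]; simp
  have hA1 : ∫⁻ y, A.indicator (1 : EuclideanSpace ℝ (Fin N) → ℝ≥0∞) y = a := by
    rw [lintegral_indicator_one hA]
  have h2 := riesz N hN (A.indicator 1) hAm (by rw [hA1]; exact hAf)
    (by rw [hA2]; exact hAf)
  rw [rep_int A B hA hB] at h1
  rw [hA1, hA2] at h2
  set K : ℝ≥0∞ := c * (Rz N + 1) with hK
  -- split off the power
  have hX0 : e ^ (1 - 1 / (N : ℝ)) ≠ 0 := by
    rw [Ne, ENNReal.rpow_eq_zero_iff]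
    push Not
    exact ⟨fun h => absurd h he0, fun h => absurd h hef⟩
  have h1N : 1 / (N : ℝ) ≤ 1 := by rw [div_le_one hN0]; exact hN1
  have hXt : e ^ (1 - 1 / (N : ℝ)) ≠ ∞ := ENNReal.rpow_ne_top_of_nonneg (by linarith) hef
  rw [← ENNReal.mul_le_mul_iff_left hX0 hXt]
  have hsum : e ^ (1 + 1 / (N : ℝ)) * e ^ (1 - 1 / (N : ℝ)) = e ^ 2 := by
    rw [← ENNReal.rpow_add _ _ he0 hef, ← ENNReal.rpow_natCast]
    congr 1
    push_cast
    ring
  calc l ^ 2 * e ^ (1 + 1 / (N : ℝ)) * e ^ (1 - 1 / (N : ℝ)) = (l * e) ^ 2 := by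
        rw [mul_assoc, hsum, mul_pow]
    _ ≤ (c * Pool.Agent.N248.SD.En N (rep A B)) *
        (c * Pool.Agent.N248.SD.En N (A.indicator 1)) := h0
    _ ≤ (c * ((Rz N + 1) * (e ^ (1 - 1 / (N : ℝ)) *
          ((a * b) ^ 2) ^ (1 / (N : ℝ))))) *
        (c * ((Rz N + 1) * (a ^ (1 - 1 / (N : ℝ)) * (a ^ 2) ^ (1 / (N : ℝ))))) :=
        mul_le_mul' (mul_le_mul' le_rfl h1) (mul_le_mul' le_rfl h2)
    _ = K ^ 2 * (((a * b) ^ 2) ^ (1 / (N : ℝ)) * (a ^ (1 - 1 / (N : ℝ)) *
          (a ^ 2) ^ (1 / (N : ℝ)))) * e ^ (1 - 1 / (N : ℝ)) := by rw [hK]; ring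
    _ = K ^ 2 * (a ^ (1 + 3 / (N : ℝ)) * b ^ (2 / (N : ℝ))) * e ^ (1 - 1 / (N : ℝ)) := by
        congr 2
        have e1 : ((a * b) ^ 2) ^ (1 / (N : ℝ)) = a ^ (2 / (N : ℝ)) * b ^ (2 / (N : ℝ)) := by
          rw [mul_pow, ENNReal.mul_rpow_of_nonneg _ _ (by positivity), ← ENNReal.rpow_natCast,
            ← ENNReal.rpow_natCast, ← ENNReal.rpow_mul, ← ENNReal.rpow_mul]
          congr 2
          · push_cast; ring
          · push_cast; ring
        have e2 : (a ^ 2) ^ (1 / (N : ℝ)) = a ^ (2 / (N : ℝ)) := by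
          rw [← ENNReal.rpow_natCast, ← ENNReal.rpow_mul]
          congr 1
          push_cast; ring
        have e3 : 0 ≤ 1 - 1 / (N : ℝ) := by linarith
        rw [e1, e2]
        have e4 : a ^ (1 + 3 / (N : ℝ)) = a ^ (2 / (N : ℝ)) * (a ^ (1 - 1 / (N : ℝ)) *
            a ^ (2 / (N : ℝ))) := by
          rw [← ENNReal.rpow_add_of_nonneg _ _ e3 (by positivity),
            ← ENNReal.rpow_add_of_nonneg _ _ (by positivity) (by positivity)]
          congr 1
          field_simp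
          ring
        rw [e4]
        ring

/-- the full energy inequality -/
theorem energyAll (hN : 1 ≤ N) (A B : Set (EuclideanSpace ℝ (Fin N)))
    (hA : MeasurableSet A) (hB : MeasurableSet B)
    (l : ℝ≥0∞) (hc0 : c = 0 → ∀ x, k x = 0) (hl : ∀ x ∈ B, l ≤ k x) :
    l ^ 2 * (∫⁻ w, rep A B w ^ 2) ^ (1 + 1 / (N : ℝ)) ≤
      (c * (Rz N + 1)) ^ 2 * (volume A ^ (1 + 3 / (N : ℝ)) * volume B ^ (2 / (N : ℝ))) := by
  have hN1 : (1 : ℝ) ≤ N := by exact_mod_cast hN
  have hN0 : (0 : ℝ) < N := by linarith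
  have hp1 : (0 : ℝ) < 1 + 1 / (N : ℝ) := by positivity
  have hp2 : (0 : ℝ) < 1 + 3 / (N : ℝ) := by positivity
  have hp3 : (0 : ℝ) < 2 / (N : ℝ) := by positivity
  have hnull : volume A = 0 ∨ volume B = 0 → ∫⁻ w, rep A B w ^ 2 = 0 := by
    intro h
    have h1 : ∫⁻ w, rep A B w = 0 := by
      rw [rep_int A B hA hB]
      rcases h with h | h <;> simp [h]
    have h2 := (lintegral_eq_zero_iff (rep_meas A B hA hB)).1 h1
    rw [lintegral_eq_zero_iff ((rep_meas A B hA hB).pow_const 2)]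
    filter_upwards [h2] with w hw
    have : rep A B w = 0 := hw
    simp [this]
  rcases eq_or_ne (volume A) 0 with hA0 | hA0
  · rw [hnull (Or.inl hA0), ENNReal.zero_rpow_of_pos hp1, mul_zero]; exact zero_le
  rcases eq_or_ne (volume B) 0 with hB0 | hB0
  · rw [hnull (Or.inr hB0), ENNReal.zero_rpow_of_pos hp1, mul_zero]; exact zero_le
  have hBne : B.Nonempty := by
    rw [nonempty_iff_ne_empty]
    rintro rfl
    exact hB0 measure_empty
  rcases eq_or_ne c 0 with hc1 | hc1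
  · obtain ⟨x, hx⟩ := hBne
    have h1 := hl x hx
    rw [hc0 hc1 x, nonpos_iff_eq_zero] at h1
    rw [h1, zero_pow (by norm_num), zero_mul]
    exact zero_le
  have hK0 : (c * (Rz N + 1)) ^ 2 ≠ 0 := pow_ne_zero 2 (mul_ne_zero hc1 (by simp))
  have hpos : ∀ (t : ℝ≥0∞) (s : ℝ), t ≠ 0 → 0 < s → t ^ s ≠ 0 := by
    intro t s ht hs h
    rw [ENNReal.rpow_eq_zero_iff] at h
    rcases h with h | h
    · exact ht h.1
    · linarith [h.2]
  rcases eq_or_ne (volume A) ∞ with hAf | hAf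
  · rw [hAf, ENNReal.top_rpow_of_pos hp2, ENNReal.top_mul (hpos _ _ hB0 hp3),
      ENNReal.mul_top hK0]
    exact le_top
  rcases eq_or_ne (volume B) ∞ with hBf | hBf
  · rw [hBf, ENNReal.top_rpow_of_pos hp3, ENNReal.mul_top (hpos _ _ hA0 hp2),
      ENNReal.mul_top hK0]
    exact le_top
  exact energy' k kG hk hkG c hb hCS hN A B hA hB hAf hBf l hl

end

end Run7.h750.AE
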