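import Mathlib
import Pool.Agent.Run7.h750.AE1
set_option autoImplicit false

/-! Convolution weights. -/

namespace Run7.h750.AE

open MeasureTheory Complex Set Metric
open scoped ENNReal NNReal RealInnerProductSpace
open Pool.Agent.N248.SD (dbl eup br br_meas Rz pot_all)
open Pool.Agent.N484.KC (hls pe nr cH)

/-- the double integral -/
noncomputable def DD {N : ℕ} (k h₁ h₂ : EuclideanSpace ℝ (Fin N) → ℝ≥0∞) : ℝ≥0∞ :=
  ∫⁻ y, ∫⁻ w, h₁ y * h₂ w * k (w - y)

section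

variable {N : ℕ} (k kG : EuclideanSpace ℝ (Fin N) → ℝ≥0∞) (hk : Measurable k)
  (hkG : Measurable kG) (c : ℝ≥0∞) (hb : ∀ x, kG x ≤ c * br N x) (hCS : CS N k kG)

theorem br_even (N : ℕ) (v : EuclideanSpace ℝ (Fin N)) : br N (-v) = br N v := by
  unfold br; rw [norm_neg]

include hk hkG hb hCS

theorem wt_fin (hN : 2 ≤ N) (h₁ h₂ : EuclideanSpace ℝ (Fin N) → ℝ≥0∞) (m₁ : Measurable h₁)
    (m₂ : Measurable h₂) (f₁ : ∫⁻ y, h₁ y ≠ ∞) (f₂ : ∫⁻ y, h₂ y ≠ ∞) :
    DD k h₁ h₂ ≤ c * ((Rz N + 1) * (2 * cH (N : ℝ))) * (nr (pe N) h₁ * nr (pe N) h₂) := by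
  have hN' : (1 : ℝ) < N := by exact_mod_cast hN
  have i1 : IsFiniteMeasure ((volume : Measure (EuclideanSpace ℝ (Fin N))).withDensity h₁) :=
    isFiniteMeasure_withDensity f₁
  have i2 : IsFiniteMeasure ((volume : Measure (EuclideanSpace ℝ (Fin N))).withDensity h₂) :=
    isFiniteMeasure_withDensity f₂
  have hc := hCS (volume.withDensity h₁) (volume.withDensity h₂) i1 i2
  rw [dbl h₁ h₂ k m₁ m₂ hk, dbl h₂ h₂ kG m₂ m₂ hkG, dbl h₁ h₁ kG m₁ m₁ hkG] at hc
  have u1 := eup h₁ kG m₁ c hb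
  have u2 := eup h₂ kG m₂ c hb
  have v : ∀ h : EuclideanSpace ℝ (Fin N) → ℝ≥0∞, Measurable h →
      Pool.Agent.N248.SD.En N h ≤ (Rz N + 1) * (2 * cH (N : ℝ)) * nr (pe N) h ^ 2 := by
    intro h hh
    exact hls (br N) (br_meas N) (br_even N) hN' (Rz N + 1)
      (fun B hB y => pot_all N (by omega) B hB y) h hh
  have h3 : DD k h₁ h₂ ^ 2 ≤
      (c * ((Rz N + 1) * (2 * cH (N : ℝ))) * (nr (pe N) h₁ * nr (pe N) h₂)) ^ 2 := by
    refine hc.trans ?_
    refine (mul_le_mul' (u2.trans (mul_le_mul' le_rfl (v h₂ m₂)))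
      (u1.trans (mul_le_mul' le_rfl (v h₁ m₁)))).trans (le_of_eq ?_)
    ring
  exact (ENNReal.pow_le_pow_left_iff (by norm_num)).1 h3

omit hk hkG hb hCS in
/-- truncation -/
theorem DD_symm (hk : Measurable k) (h₁ h₂ : EuclideanSpace ℝ (Fin N) → ℝ≥0∞)
    (m₁ : Measurable h₁) (m₂ : Measurable h₂) :
    DD k h₁ h₂ = ∫⁻ w, h₂ w * ∫⁻ y, h₁ y * k (w - y) := by
  unfold DD
  have hm : Measurable (Function.uncurry fun y w : EuclideanSpace ℝ (Fin N) =>
      h₁ y * h₂ w * k (w - y)) := by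
    unfold Function.uncurry
    fun_prop
  rw [lintegral_lintegral_swap hm.aemeasurable]
  refine lintegral_congr fun w => ?_
  rw [← lintegral_const_mul _ (by fun_prop)]
  refine lintegral_congr fun y => ?_
  ring

/-- the truncations of a function -/
noncomputable def tr (h : EuclideanSpace ℝ (Fin N) → ℝ≥0∞) (j : ℕ) :
    EuclideanSpace ℝ (Fin N) → ℝ≥0∞ := fun x => (ball (0 : EuclideanSpace ℝ (Fin N)) j).indicator
      (fun x => min (h x) j) x

omit k kG hk hkG c hb hCS in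
theorem tr_meas (h : EuclideanSpace ℝ (Fin N) → ℝ≥0∞) (hh : Measurable h) (j : ℕ) :
    Measurable (tr h j) := (hh.min measurable_const).indicator measurableSet_ball

omit k kG hk hkG c hb hCS in
theorem tr_fin (h : EuclideanSpace ℝ (Fin N) → ℝ≥0∞) (j : ℕ) : ∫⁻ y, tr h j y ≠ ∞ := by
  unfold tr
  rw [lintegral_indicator measurableSet_ball]
  have : ∫⁻ y in ball (0 : EuclideanSpace ℝ (Fin N)) j, min (h y) j ≤
      ∫⁻ y in ball (0 : EuclideanSpace ℝ (Fin N)) j, (j : ℝ≥0∞) :=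
    lintegral_mono fun y => min_le_right _ _
  refine ne_top_of_le_ne_top ?_ this
  rw [setLIntegral_const]
  exact ENNReal.mul_ne_top (ENNReal.natCast_ne_top j) measure_ball_lt_top.ne

omit k kG hk hkG c hb hCS in
theorem tr_mono (h : EuclideanSpace ℝ (Fin N) → ℝ≥0∞) : Monotone (tr h) := by
  intro i j hij x
  unfold tr
  by_cases hx : x ∈ ball (0 : EuclideanSpace ℝ (Fin N)) i
  · have hx' : x ∈ ball (0 : EuclideanSpace ℝ (Fin N)) j :=
      ball_subset_ball (by exact_mod_cast hij) hx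
    rw [indicator_of_mem hx, indicator_of_mem hx']
    exact min_le_min le_rfl (by exact_mod_cast hij)
  · rw [indicator_of_notMem hx]
    exact zero_le

omit k kG hk hkG c hb hCS in
theorem tr_le (h : EuclideanSpace ℝ (Fin N) → ℝ≥0∞) (j : ℕ) (x : EuclideanSpace ℝ (Fin N)) :
    tr h j x ≤ h x := by
  unfold tr
  by_cases hx : x ∈ ball (0 : EuclideanSpace ℝ (Fin N)) j
  · rw [indicator_of_mem hx]; exact min_le_left _ _
  · rw [indicator_of_notMem hx]; exact zero_le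

omit k kG hk hkG c hb hCS in
theorem tr_sup (h : EuclideanSpace ℝ (Fin N) → ℝ≥0∞) (x : EuclideanSpace ℝ (Fin N)) :
    ⨆ j, tr h j x = h x := by
  refine le_antisymm (iSup_le fun j => tr_le h j x) ?_
  refine le_of_forall_lt fun a ha => ?_
  obtain ⟨i, hi⟩ := exists_nat_gt ‖x‖
  obtain ⟨j, hj⟩ := ENNReal.exists_nat_gt (ne_top_of_lt ha)
  refine lt_of_lt_of_le ?_ (le_iSup (fun j => tr h j x) (max i j))
  show a < tr h (max i j) x
  unfold tr
  have hx : x ∈ ball (0 : EuclideanSpace ℝ (Fin N)) ((max i j : ℕ) : ℝ) := by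
    rw [mem_ball_zero_iff]
    exact hi.trans_le (by exact_mod_cast le_max_left i j)
  rw [indicator_of_mem hx]
  refine lt_min ha (hj.trans_le ?_)
  exact_mod_cast le_max_right i j

omit k kG hk hkG c hb hCS in
theorem nr_mono {p : ℝ} (hp : 0 ≤ p) (h h' : EuclideanSpace ℝ (Fin N) → ℝ≥0∞)
    (hh : ∀ x, h x ≤ h' x) : nr p h ≤ nr p h' := by
  unfold nr
  refine ENNReal.rpow_le_rpow (lintegral_mono fun y => ENNReal.rpow_le_rpow (hh y) hp)
    (by positivity)

/-- convolution weights -/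
theorem wt (hN : 2 ≤ N) (h₁ h₂ : EuclideanSpace ℝ (Fin N) → ℝ≥0∞) (m₁ : Measurable h₁)
    (m₂ : Measurable h₂) :
    DD k h₁ h₂ ≤ c * ((Rz N + 1) * (2 * cH (N : ℝ))) * (nr (pe N) h₁ * nr (pe N) h₂) := by
  have hN' : (1 : ℝ) < N := by exact_mod_cast hN
  have hp : 0 ≤ pe (N : ℝ) := by have := Pool.Agent.N484.KC.pe_gt hN'; linarith
  -- first function
  have s1 : ∀ i : ℕ, DD k h₁ (tr h₂ i) = ⨆ j, DD k (tr h₁ j) (tr h₂ i) := by
    intro i
    unfold DD
    rw [← lintegral_iSup]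
    · refine lintegral_congr fun y => ?_
      have hm : Measurable fun w => tr h₂ i w * k (w - y) := by
        have := tr_meas h₂ m₂ i
        fun_prop
      have e : ∀ t : ℝ≥0∞, ∫⁻ w, t * tr h₂ i w * k (w - y) =
          t * ∫⁻ w, tr h₂ i w * k (w - y) := by
        intro t
        rw [← lintegral_const_mul _ hm]
        refine lintegral_congr fun w => ?_
        ring
      rw [e]
      simp_rw [e]
      rw [← ENNReal.iSup_mul, tr_sup]
    · intro j
      have a1 := tr_meas h₂ m₂ i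
      have a2 := tr_meas h₁ m₁ j
      have hm : Measurable (Function.uncurry fun y w : EuclideanSpace ℝ (Fin N) =>
          tr h₁ j y * tr h₂ i w * k (w - y)) := by
        unfold Function.uncurry
        fun_prop
      exact hm.lintegral_prod_right'
    · intro j j' hjj y
      refine lintegral_mono fun w => ?_
      exact mul_le_mul' (mul_le_mul' (tr_mono h₁ hjj y) le_rfl) le_rfl
  have s2 : DD k h₁ h₂ = ⨆ i, DD k h₁ (tr h₂ i) := by
    have a : ∀ i, DD k h₁ (tr h₂ i) = ∫⁻ w, tr h₂ i w * ∫⁻ y, h₁ y * k (w - y) :=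
      fun i => DD_symm k hk h₁ (tr h₂ i) m₁ (tr_meas h₂ m₂ i)
    simp_rw [a]
    rw [DD_symm k hk h₁ h₂ m₁ m₂, ← lintegral_iSup]
    · refine lintegral_congr fun w => ?_
      rw [← ENNReal.iSup_mul, tr_sup]
    · intro i
      have a1 := tr_meas h₂ m₂ i
      have hm : Measurable (Function.uncurry fun w y : EuclideanSpace ℝ (Fin N) =>
          h₁ y * k (w - y)) := by
        unfold Function.uncurry
        fun_prop
      exact a1.mul hm.lintegral_prod_right'
    · intro j j' hjj y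
      exact mul_le_mul' (tr_mono h₂ hjj y) le_rfl
  rw [s2]
  refine iSup_le fun i => ?_
  rw [s1]
  refine iSup_le fun j => ?_
  refine (wt_fin k kG hk hkG c hb hCS hN (tr h₁ j) (tr h₂ i) (tr_meas h₁ m₁ j)
    (tr_meas h₂ m₂ i) (tr_fin h₁ j) (tr_fin h₂ i)).trans ?_
  exact mul_le_mul' le_rfl (mul_le_mul' (nr_mono hp _ _ (tr_le h₁ j))
    (nr_mono hp _ _ (tr_le h₂ i)))

end

end Run7.h750.AE
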