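import Mathlib
set_option autoImplicit false
set_option linter.unusedSectionVars false

/-! Separated sets, nets, and the number of the points of a separated set which are close to two
affine subspaces. -/

namespace Run7.h750.LC

open MeasureTheory Set Metric
open scoped ENNReal NNReal Pointwise

section
variable {E : Type*} [NormedAddCommGroup E] [NormedSpace ℝ E] [FiniteDimensional ℝ E]
  [MeasurableSpace E] [BorelSpace E]

/-- `δ`-separated finite sets -/
def Sep (δ : ℝ) (T : Finset E) : Prop := ∀ c ∈ T, ∀ d ∈ T, c ≠ d → δ ≤ ‖c - d‖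

theorem Sep.mono {δ : ℝ} {T T' : Finset E} (h : Sep δ T) (hs : T' ⊆ T) : Sep δ T' :=
  fun c hc d hd => h c (hs hc) d (hs hd)

theorem sep_card {T : Finset E} {δ ρ : ℝ} (hδ : 0 < δ) (hρ : 0 ≤ ρ) {p : E}
    (hsep : Sep δ T) (hb : ∀ c ∈ T, ‖c - p‖ ≤ ρ) :
    (T.card : ℝ) ≤ (2 * ρ / δ + 1) ^ Module.finrank ℝ E := by
  set n := Module.finrank ℝ E with hn
  let μ : Measure E := Measure.addHaar
  have hV0 : μ (ball (0 : E) 1) ≠ 0 := (measure_ball_pos μ _ one_pos).ne'
  have hVt : μ (ball (0 : E) 1) ≠ ⊤ := measure_ball_lt_top.ne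
  have h1 : μ (⋃ c ∈ T, ball c (δ / 2)) ≤ μ (ball p (ρ + δ / 2)) := by
    apply measure_mono
    intro y hy
    simp only [mem_iUnion, mem_ball, exists_prop] at hy ⊢
    obtain ⟨c, hc, hcy⟩ := hy
    have h2 := hb c hc
    rw [← dist_eq_norm] at h2
    linarith [dist_triangle y c p]
  have h2 : μ (⋃ c ∈ T, ball c (δ / 2)) =
      T.card * (ENNReal.ofReal ((δ / 2) ^ n) * μ (ball (0 : E) 1)) := by
    rw [measure_biUnion_finset]
    · rw [Finset.sum_congr rfl fun c _ => Measure.addHaar_ball_of_pos μ c (half_pos hδ)]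
      rw [Finset.sum_const, nsmul_eq_mul]
    · intro c hc d hd hcd
      have h3 := hsep c hc d hd hcd
      rw [← dist_eq_norm] at h3
      exact ball_disjoint_ball (by linarith)
    · intro c _
      exact measurableSet_ball
  rw [h2, Measure.addHaar_ball_of_pos μ p (by positivity : 0 < ρ + δ / 2), ← mul_assoc] at h1
  have h3 := (ENNReal.mul_le_mul_iff_left hV0 hVt).1 h1
  have h4 : (T.card : ℝ≥0∞) = ENNReal.ofReal (T.card : ℝ) := by
    rw [ENNReal.ofReal_natCast]
  rw [h4, ← ENNReal.ofReal_mul (by positivity),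
    ENNReal.ofReal_le_ofReal_iff (by positivity)] at h3
  have h5 : (2 * ρ / δ + 1) ^ n = (ρ + δ / 2) ^ n / (δ / 2) ^ n := by
    rw [← div_pow]
    congr 1
    field_simp
  rw [h5, le_div_iff₀ (by positivity)]
  exact h3

theorem exists_sep_subset (δ : ℝ) (hδ : 0 < δ) (P : Finset E) :
    ∃ T ⊆ P, Sep δ T ∧ ∀ p ∈ P, ∃ z ∈ T, ‖p - z‖ ≤ δ := by
  classical
  let 𝒮 : Finset (Finset E) := P.powerset.filter fun T => Sep δ T
  have hne : 𝒮.Nonempty := ⟨∅, by
    simp only [𝒮, Finset.mem_filter, Finset.empty_mem_powerset, true_and]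
    intro c hc
    simp at hc⟩
  obtain ⟨T, hT, hmax⟩ := 𝒮.exists_max_image Finset.card hne
  simp only [𝒮, Finset.mem_filter, Finset.mem_powerset] at hT hmax
  refine ⟨T, hT.1, hT.2, ?_⟩
  intro p hp
  by_contra hcon
  push Not at hcon
  have hpT : p ∉ T := by
    intro h
    have := hcon p h
    simp at this
    linarith
  have h1 := hmax (insert p T) ⟨?_, ?_⟩
  · rw [Finset.card_insert_of_notMem hpT] at h1
    omega
  · intro c hc
    rcases Finset.mem_insert.1 hc with rfl | hc
    · exact hp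
    · exact hT.1 hc
  · intro c hc d hd hcd
    rcases Finset.mem_insert.1 hc with hc1 | hc1
    · rcases Finset.mem_insert.1 hd with hd1 | hd1
      · exact absurd (hc1.trans hd1.symm) hcd
      · rw [hc1]
        exact (hcon d hd1).le
    · rcases Finset.mem_insert.1 hd with hd1 | hd1
      · rw [hd1, norm_sub_rev]
        exact (hcon c hc1).le
      · exact hT.2 c hc1 d hd1 hcd

theorem exists_net {ρ R : ℝ} (hρ : 0 < ρ) (hR : 0 ≤ R) :
    ∃ T : Finset E, (∀ u : E, ‖u‖ ≤ R → ∃ z ∈ T, ‖u - z‖ ≤ ρ) ∧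
      (T.card : ℝ) ≤ (2 * R / ρ + 1) ^ Module.finrank ℝ E := by
  classical
  let A : Set ℕ := {m | ∃ T : Finset E, Sep ρ T ∧ (∀ c ∈ T, ‖c‖ ≤ R) ∧ T.card = m}
  have hbd : ∀ T : Finset E, Sep ρ T → (∀ c ∈ T, ‖c‖ ≤ R) →
      (T.card : ℝ) ≤ (2 * R / ρ + 1) ^ Module.finrank ℝ E := by
    intro T h1 h2
    exact sep_card hρ hR (p := 0) h1 (by simpa using h2)
  have hA : BddAbove A := by
    refine ⟨⌈(2 * R / ρ + 1) ^ Module.finrank ℝ E⌉₊, ?_⟩
    rintro m ⟨T, h1, h2, rfl⟩
    have := (hbd T h1 h2).trans (Nat.le_ceil _)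
    exact_mod_cast this
  have hne : A.Nonempty := ⟨0, ∅, by intro c hc; simp at hc, by simp, rfl⟩
  obtain ⟨T, h1, h2, h3⟩ := Nat.sSup_mem hne hA
  refine ⟨T, ?_, hbd T h1 h2⟩
  intro u hu
  by_contra hcon
  push Not at hcon
  have huT : u ∉ T := by
    intro h
    have := hcon u h
    simp at this
    linarith
  have h4 : (insert u T).card ∈ A := by
    refine ⟨insert u T, ?_, ?_, rfl⟩
    · intro c hc d hd hcd
      rcases Finset.mem_insert.1 hc with hc1 | hc1
      · rcases Finset.mem_insert.1 hd with hd1 | hd1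
        · exact absurd (hc1.trans hd1.symm) hcd
        · rw [hc1]
          exact (hcon d hd1).le
      · rcases Finset.mem_insert.1 hd with hd1 | hd1
        · rw [hd1, norm_sub_rev]
          exact (hcon c hc1).le
        · exact h1 c hc1 d hd1 hcd
    · intro c hc
      rcases Finset.mem_insert.1 hc with rfl | hc
      · exact hu
      · exact h2 c hc
  have h5 := le_csSup hA h4
  rw [Finset.card_insert_of_notMem huT, h3] at h5
  omega

end

section
variable {E F : Type*} [NormedAddCommGroup E] [NormedSpace ℝ E] [FiniteDimensional ℝ E]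
  [MeasurableSpace E] [BorelSpace E]
  [NormedAddCommGroup F] [NormedSpace ℝ F] [FiniteDimensional ℝ F]
  [MeasurableSpace F] [BorelSpace F]

/-- the part of the unit ball of `F` which `L` maps into the neighbourhood of the range of `L'` -/
def Cap (L L' : F →ₗ[ℝ] E) (r : ℝ) : Set F := {v | ‖v‖ ≤ 1 ∧ infDist (L v) (range L') ≤ r}

theorem Cap.closed (L L' : F →ₗ[ℝ] E) (r : ℝ) : IsClosed (Cap L L' r) := by
  have h1 : Continuous fun v : F => ‖v‖ := continuous_norm
  have h2 : Continuous fun v : F => infDist (L v) (range L') :=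
    (continuous_infDist_pt _).comp (LinearMap.continuous_of_finiteDimensional L)
  exact (isClosed_le h1 continuous_const).inter (isClosed_le h2 continuous_const)

theorem count (ν : Measure F) [ν.IsAddHaarMeasure] {L L' : F →ₗ[ℝ] E} {x x' : E} {Λ R δ : ℝ}
    (hΛ : 1 ≤ Λ) (hR : 0 ≤ R) (hδ : 0 < δ) (hδ1 : δ ≤ 1) (hL : ∀ u, ‖L u‖ ≤ Λ * ‖u‖)
    {T : Finset E} (hT : Sep δ T)
    (h1 : ∀ z ∈ T, ∃ u, ‖u‖ ≤ R ∧ ‖x + L u - z‖ ≤ 2 * δ)
    (h2 : ∀ z ∈ T, ∃ u', ‖x' + L' u' - z‖ ≤ 2 * δ) :
    T.card * (ENNReal.ofReal (δ ^ Module.finrank ℝ F) * ν (ball 0 1)) ≤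
      ENNReal.ofReal ((2 * Λ + 5) ^ Module.finrank ℝ E * (2 * R + 2) ^ Module.finrank ℝ F) *
        ν (Cap L L' ((Λ + 4) * δ)) := by
  classical
  set n := Module.finrank ℝ E with hn
  set k := Module.finrank ℝ F with hk
  rcases T.eq_empty_or_nonempty with hemp | ⟨z0, hz0⟩
  · rw [hemp]
    simp
  choose! u hu1 hu2 using h1
  set U : Set F := ⋃ z ∈ T, ball (u z) δ with hU
  have hcontL : Continuous L := LinearMap.continuous_of_finiteDimensional L
  -- overlap
  have hov : ∀ v : F, ∑ z ∈ T, (ball (u z) δ).indicator (fun _ => (1 : ℝ≥0∞)) v ≤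
      U.indicator (fun _ => ENNReal.ofReal ((2 * Λ + 5) ^ n)) v := by
    intro v
    by_cases hv : v ∈ U
    · rw [indicator_of_mem hv]
      have h3 : ∑ z ∈ T, (ball (u z) δ).indicator (fun _ => (1 : ℝ≥0∞)) v =
          ((T.filter fun z => v ∈ ball (u z) δ).card : ℝ≥0∞) := by
        rw [Finset.card_filter]
        push_cast
        refine Finset.sum_congr rfl fun z _ => ?_
        by_cases h : v ∈ ball (u z) δ
        · simp [h]
        · simp [h]
      rw [h3]
      have h4 : ((T.filter fun z => v ∈ ball (u z) δ).card : ℝ) ≤ (2 * Λ + 5) ^ n := by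
        have h5 := sep_card (E := E) (T := T.filter fun z => v ∈ ball (u z) δ) hδ
          (ρ := (Λ + 2) * δ) (by positivity) (p := x + L v)
          (hT.mono (Finset.filter_subset _ _)) ?_
        · have h6 : 2 * ((Λ + 2) * δ) / δ + 1 = 2 * Λ + 5 := by
            field_simp
            ring
          rwa [h6] at h5
        · intro z hz
          rw [Finset.mem_filter] at hz
          have h7 : ‖v - u z‖ < δ := by
            rw [← dist_eq_norm]
            exact hz.2
          have h8 : z - (x + L v) = -(x + L (u z) - z) - L (v - u z) := by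
            rw [map_sub]
            abel
          rw [h8]
          have h9 := hu2 z hz.1
          have h10 := hL (v - u z)
          have h11 : Λ * ‖v - u z‖ ≤ Λ * δ := by
            apply mul_le_mul_of_nonneg_left h7.le
            linarith
          calc ‖-(x + L (u z) - z) - L (v - u z)‖ ≤ ‖-(x + L (u z) - z)‖ + ‖L (v - u z)‖ :=
                norm_sub_le _ _
            _ ≤ 2 * δ + Λ * δ := by
                rw [norm_neg]
                linarith
            _ = (Λ + 2) * δ := by ring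
      have h12 : (((T.filter fun z => v ∈ ball (u z) δ).card : ℕ) : ℝ≥0∞) =
          ENNReal.ofReal ((T.filter fun z => v ∈ ball (u z) δ).card : ℝ) := by
        rw [ENNReal.ofReal_natCast]
      rw [h12]
      exact ENNReal.ofReal_le_ofReal h4
    · rw [indicator_of_notMem hv]
      apply le_of_eq
      apply Finset.sum_eq_zero
      intro z hz
      apply indicator_of_notMem
      intro h
      apply hv
      rw [hU]
      simp only [mem_iUnion]
      exact ⟨z, hz, h⟩
  have hUm : MeasurableSet U := by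
    apply Finset.measurableSet_biUnion
    intro z _
    exact measurableSet_ball
  have h3 : T.card * (ENNReal.ofReal (δ ^ k) * ν (ball 0 1)) ≤
      ENNReal.ofReal ((2 * Λ + 5) ^ n) * ν U := by
    calc T.card * (ENNReal.ofReal (δ ^ k) * ν (ball 0 1))
        = ∑ z ∈ T, ν (ball (u z) δ) := by
          rw [Finset.sum_congr rfl fun z _ => Measure.addHaar_ball_of_pos ν (u z) hδ]
          rw [Finset.sum_const, nsmul_eq_mul]
      _ = ∑ z ∈ T, ∫⁻ v, (ball (u z) δ).indicator (fun _ => (1 : ℝ≥0∞)) v ∂ν := by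
          refine Finset.sum_congr rfl fun z _ => ?_
          rw [lintegral_indicator measurableSet_ball]
          simp
      _ = ∫⁻ v, ∑ z ∈ T, (ball (u z) δ).indicator (fun _ => (1 : ℝ≥0∞)) v ∂ν := by
          rw [lintegral_finsetSum]
          intro z _
          exact measurable_const.indicator measurableSet_ball
      _ ≤ ∫⁻ v, U.indicator (fun _ => ENNReal.ofReal ((2 * Λ + 5) ^ n)) v ∂ν :=
          lintegral_mono hov
      _ = ENNReal.ofReal ((2 * Λ + 5) ^ n) * ν U := by
          rw [lintegral_indicator hUm]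
          simp
  have hc : (0 : ℝ) < 2 * R + 2 := by positivity
  have hsub : U ⊆ (fun v => v + (-u z0)) ⁻¹' ((fun v => (2 * R + 2)⁻¹ • v) ⁻¹'
      Cap L L' ((Λ + 4) * δ)) := by
    intro v hv
    rw [hU] at hv
    simp only [mem_iUnion, exists_prop] at hv
    obtain ⟨z, hz, hvz⟩ := hv
    have h7 : ‖v - u z‖ < δ := by
      rw [← dist_eq_norm]
      exact hvz
    -- points of the second subspace
    have hnear : ∀ w : F, ∀ y ∈ T, ‖w - u y‖ ≤ δ → ∃ a : F,
        ‖x + L w - (x' + L' a)‖ ≤ (Λ + 4) * δ := by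
      intro w y hy hw
      obtain ⟨a, ha⟩ := h2 y hy
      refine ⟨a, ?_⟩
      have h8 : x + L w - (x' + L' a) = (x + L (u y) - y) - (x' + L' a - y) + L (w - u y) := by
        rw [map_sub]
        abel
      rw [h8]
      have h10 := hL (w - u y)
      have h11 : Λ * ‖w - u y‖ ≤ Λ * δ := by
        apply mul_le_mul_of_nonneg_left hw
        linarith
      calc ‖(x + L (u y) - y) - (x' + L' a - y) + L (w - u y)‖
          ≤ ‖(x + L (u y) - y) - (x' + L' a - y)‖ + ‖L (w - u y)‖ := norm_add_le _ _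
        _ ≤ ‖x + L (u y) - y‖ + ‖x' + L' a - y‖ + ‖L (w - u y)‖ := by
            gcongr
            exact norm_sub_le _ _
        _ ≤ 2 * δ + 2 * δ + Λ * δ := by
            have := hu2 y hy
            linarith
        _ = (Λ + 4) * δ := by ring
    obtain ⟨a, ha⟩ := hnear v z hz h7.le
    obtain ⟨b, hb⟩ := hnear (u z0) z0 hz0 (by simp [hδ.le])
    refine ⟨?_, ?_⟩
    · show ‖(2 * R + 2)⁻¹ • (v + -u z0)‖ ≤ 1
      rw [norm_smul, Real.norm_of_nonneg (by positivity)]
      have h8 : ‖v + -u z0‖ ≤ 2 * R + 2 := by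
        have h9 : v + -u z0 = (v - u z) + u z - u z0 := by abel
        rw [h9]
        have h10 := norm_sub_le (v - u z + u z) (u z0)
        have h11 := norm_add_le (v - u z) (u z)
        have h12 := hu1 z hz
        have h13 := hu1 z0 hz0
        linarith
      rw [inv_mul_le_iff₀ hc]
      linarith
    · show infDist (L ((2 * R + 2)⁻¹ • (v + -u z0))) (range L') ≤ (Λ + 4) * δ
      have h8 : infDist (L ((2 * R + 2)⁻¹ • (v + -u z0))) (range L') ≤
          dist (L ((2 * R + 2)⁻¹ • (v + -u z0))) (L' ((2 * R + 2)⁻¹ • (a - b))) :=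
        infDist_le_dist_of_mem ⟨_, rfl⟩
      refine h8.trans ?_
      rw [dist_eq_norm]
      have h9 : L ((2 * R + 2)⁻¹ • (v + -u z0)) - L' ((2 * R + 2)⁻¹ • (a - b)) =
          (2 * R + 2)⁻¹ • ((x + L v - (x' + L' a)) - (x + L (u z0) - (x' + L' b))) := by
        rw [map_smul, map_smul, ← smul_sub, map_add, map_neg, map_sub]
        congr 1
        abel
      rw [h9, norm_smul, Real.norm_of_nonneg (by positivity), inv_mul_le_iff₀ hc]
      have h10 := norm_sub_le (x + L v - (x' + L' a)) (x + L (u z0) - (x' + L' b))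
      have h11 : 0 ≤ (Λ + 4) * δ := by positivity
      nlinarith [mul_nonneg hR h11]
  have h4 : ν U ≤ ENNReal.ofReal ((2 * R + 2) ^ k) * ν (Cap L L' ((Λ + 4) * δ)) := by
    refine (measure_mono hsub).trans ?_
    rw [measure_preimage_add_right, Measure.addHaar_preimage_smul ν (inv_ne_zero hc.ne')]
    apply le_of_eq
    congr 2
    rw [inv_pow, inv_inv, abs_of_pos (by positivity)]
  calc T.card * (ENNReal.ofReal (δ ^ k) * ν (ball 0 1))
      ≤ ENNReal.ofReal ((2 * Λ + 5) ^ n) * ν U := h3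
    _ ≤ ENNReal.ofReal ((2 * Λ + 5) ^ n) *
          (ENNReal.ofReal ((2 * R + 2) ^ k) * ν (Cap L L' ((Λ + 4) * δ))) := by gcongr
    _ = _ := by
        rw [← mul_assoc, ← ENNReal.ofReal_mul (by positivity)]

end

end Run7.h750.LC
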