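import Mathlib
import Pool.Agent.Run7.h750.LC1
set_option autoImplicit false
set_option linter.unusedSectionVars false

/-! The estimate at one scale. -/

namespace Run7.h750.LC

open MeasureTheory Set Metric Filter
open scoped ENNReal NNReal Pointwise Topology

/-- choice of members of a non null set with small interaction -/
theorem greedy {Ω : Type*} [MeasurableSpace Ω] (μ : Measure Ω) [IsFiniteMeasure μ]
    (g : Ω → Ω → ℝ≥0∞) (hg : ∀ ω', Measurable fun ω => g ω ω') {B : ℝ≥0∞} (hB0 : B ≠ 0)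
    (hBt : B ≠ ⊤) (hB : ∀ ω', ∫⁻ ω, g ω ω' ∂μ ≤ B) {S : Set Ω} (hS : μ S ≠ 0) (N : ℕ) :
    ∃ f : ℕ → Ω, ∀ i < N, f i ∈ S ∧
      ∑ l ∈ Finset.range i, g (f i) (f l) ≤ i * (2 * B / μ S) := by
  have hne : S.Nonempty := by
    rw [nonempty_iff_ne_empty]
    rintro rfl
    simp at hS
  have hSt : μ S ≠ ⊤ := measure_ne_top μ S
  induction N with
  | zero =>
    obtain ⟨ω, hω⟩ := hne
    exact ⟨fun _ => ω, fun i hi => absurd hi (by omega)⟩
  | succ N ih =>
    obtain ⟨f, hf⟩ := ih
    have key : ∃ ω ∈ S, ∑ l ∈ Finset.range N, g ω (f l) ≤ N * (2 * B / μ S) := by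
      rcases Nat.eq_zero_or_pos N with h0 | h0
      · obtain ⟨ω, hω⟩ := hne
        exact ⟨ω, hω, by rw [h0]; simp⟩
      · by_contra hcon
        push Not at hcon
        have hN0 : (N : ℝ≥0∞) ≠ 0 := by exact_mod_cast h0.ne'
        have hNt : (N : ℝ≥0∞) ≠ ⊤ := ENNReal.natCast_ne_top N
        have hε0 : (N : ℝ≥0∞) * (2 * B / μ S) ≠ 0 := by
          apply mul_ne_zero hN0
          rw [Ne, ENNReal.div_eq_zero_iff, not_or]
          exact ⟨mul_ne_zero (by norm_num) hB0, hSt⟩
        have hεt : (N : ℝ≥0∞) * (2 * B / μ S) ≠ ⊤ :=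
          ENNReal.mul_ne_top hNt (ENNReal.div_ne_top (ENNReal.mul_ne_top (by norm_num) hBt) hS)
        have hm : Measurable fun ω => ∑ l ∈ Finset.range N, g ω (f l) :=
          Finset.measurable_sum _ fun l _ => hg (f l)
        have h1 : μ S ≤ μ {ω | (N : ℝ≥0∞) * (2 * B / μ S) ≤ ∑ l ∈ Finset.range N, g ω (f l)} :=
          measure_mono fun ω hω => (hcon ω hω).le
        have h2 := meas_ge_le_lintegral_div hm.aemeasurable (μ := μ) hε0 hεt
        have h3 : ∫⁻ ω, ∑ l ∈ Finset.range N, g ω (f l) ∂μ ≤ N * B := by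
          rw [lintegral_finsetSum _ fun l _ => hg (f l)]
          calc ∑ l ∈ Finset.range N, ∫⁻ ω, g ω (f l) ∂μ ≤ ∑ l ∈ Finset.range N, B :=
                Finset.sum_le_sum fun l _ => hB (f l)
            _ = N * B := by rw [Finset.sum_const, Finset.card_range, nsmul_eq_mul]
        have h4 : μ S ≤ N * B / ((N : ℝ≥0∞) * (2 * B / μ S)) :=
          h1.trans (h2.trans (ENNReal.div_le_div_right h3 _))
        have h5 : (N : ℝ≥0∞) * B / ((N : ℝ≥0∞) * (2 * B / μ S)) = μ S / 2 := by
          rw [ENNReal.mul_div_mul_left _ _ hN0 hNt]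
          rw [ENNReal.div_eq_inv_mul (a := B), ENNReal.inv_div (Or.inl hSt) (Or.inl hS),
            ENNReal.div_eq_inv_mul, ENNReal.mul_inv (Or.inl (by norm_num)) (Or.inr hB0)]
          calc 2⁻¹ * B⁻¹ * μ S * B = 2⁻¹ * μ S * (B⁻¹ * B) := by ring
            _ = μ S / 2 := by
              rw [ENNReal.inv_mul_cancel hB0 hBt, mul_one, ENNReal.div_eq_inv_mul]
        rw [h5] at h4
        exact absurd h4 (not_le.2 (ENNReal.half_lt_self hS hSt))
    obtain ⟨ω, hωS, hω⟩ := key
    refine ⟨fun i => if i < N then f i else ω, ?_⟩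
    intro i hi
    by_cases hiN : i < N
    · have h1 : ∀ l ∈ Finset.range i, (if l < N then f l else ω) = f l := by
        intro l hl
        rw [if_pos (by rw [Finset.mem_range] at hl; omega)]
      simp only [hiN, if_true]
      refine ⟨(hf i hiN).1, ?_⟩
      rw [Finset.sum_congr rfl fun l hl => by rw [h1 l hl]]
      exact (hf i hiN).2
    · have hiN' : i = N := by omega
      subst hiN'
      simp only [lt_irrefl, if_false]
      refine ⟨hωS, ?_⟩
      have h1 : ∀ l ∈ Finset.range i, (if l < i then f l else ω) = f l := by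
        intro l hl
        rw [if_pos (Finset.mem_range.1 hl)]
      rw [Finset.sum_congr rfl fun l hl => by rw [h1 l hl]]
      exact hω

theorem sq_sum_le (h : ℕ → ℝ) (h0 : ∀ i, 0 ≤ h i) (h1 : ∀ i, h i ≤ 1) (N : ℕ) :
    (∑ i ∈ Finset.range N, h i) ^ 2 ≤
      N + 2 * ∑ i ∈ Finset.range N, ∑ l ∈ Finset.range i, h i * h l := by
  induction N with
  | zero => simp
  | succ N ih =>
    rw [Finset.sum_range_succ, Finset.sum_range_succ (fun i => ∑ l ∈ Finset.range i, h i * h l),
      ← Finset.mul_sum]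
    push_cast
    have h2 := h0 N
    have h3 := h1 N
    nlinarith

section
variable {E F Ω : Type*} [NormedAddCommGroup E] [NormedSpace ℝ E] [FiniteDimensional ℝ E]
  [MeasurableSpace E] [BorelSpace E]
  [NormedAddCommGroup F] [NormedSpace ℝ F] [FiniteDimensional ℝ F]
  [MeasurableSpace F] [BorelSpace F] [MeasurableSpace Ω]

theorem joint_measurable {L : Ω → F →ₗ[ℝ] E} (hL : ∀ u, Measurable fun ω => L ω u) :
    Measurable fun p : Ω × F => L p.1 p.2 := by
  let b := Module.finBasis ℝ F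
  have h1 : (fun p : Ω × F => L p.1 p.2) = fun p : Ω × F => ∑ i, b.repr p.2 i • L p.1 (b i) := by
    funext p
    conv_lhs => rw [← b.sum_repr p.2]
    rw [map_sum]
    refine Finset.sum_congr rfl fun i _ => ?_
    rw [map_smul]
  rw [h1]
  refine Finset.measurable_sum _ fun i _ => ?_
  have h2 : Measurable fun p : Ω × F => b.repr p.2 i := by
    have h3 : Continuous fun u : F => b.repr u i := by
      have h4 : (fun u : F => b.repr u i) = fun u : F => b.coord i u := by
        funext u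
        rw [Module.Basis.coord_apply]
      rw [h4]
      exact LinearMap.continuous_of_finiteDimensional _
    exact h3.measurable.comp measurable_snd
  exact h2.smul ((hL (b i)).comp measurable_fst)

theorem cap_measurable (ν : Measure F) [ν.IsAddHaarMeasure] {L : Ω → F →ₗ[ℝ] E}
    (hL : ∀ u, Measurable fun ω => L ω u) (L' : F →ₗ[ℝ] E) (r : ℝ) :
    Measurable fun ω => ν (Cap (L ω) L' r) := by
  have h1 : MeasurableSet {p : Ω × F | ‖p.2‖ ≤ 1 ∧ infDist (L p.1 p.2) (range L') ≤ r} := by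
    have h2 : Measurable fun p : Ω × F => ‖p.2‖ := measurable_norm.comp measurable_snd
    have h3 : Measurable fun p : Ω × F => infDist (L p.1 p.2) (range L') :=
      (continuous_infDist_pt _).measurable.comp (joint_measurable hL)
    exact (measurableSet_le h2 measurable_const).inter (measurableSet_le h3 measurable_const)
  exact measurable_measure_prodMk_left h1

theorem cap_ne_top (ν : Measure F) [ν.IsAddHaarMeasure] (L L' : F →ₗ[ℝ] E) (r : ℝ) :
    ν (Cap L L' r) ≠ ⊤ := by
  have h1 : ν (Cap L L' r) ≤ ν (closedBall 0 1) := by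
    apply measure_mono
    rintro v ⟨hv, _⟩
    simpa using hv
  exact ne_top_of_le_ne_top measure_closedBall_lt_top.ne h1

/-- hit by the affine subspace -/
def Hit (L : F →ₗ[ℝ] E) (x : E) (R δ : ℝ) (z : E) : Prop := ∃ u, ‖u‖ ≤ R ∧ ‖x + L u - z‖ ≤ 2 * δ

open Classical in
theorem scale (μ : Measure Ω) [IsFiniteMeasure μ] (ν : Measure F) [ν.IsAddHaarMeasure]
    {L : Ω → F →ₗ[ℝ] E} (hLm : ∀ u, Measurable fun ω => L ω u) {Λ R β : ℝ}
    (hΛ : 1 ≤ Λ) (hR : 0 ≤ R) (hL : ∀ ω u, ‖L ω u‖ ≤ Λ * ‖u‖) {C0 : ℝ≥0}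
    (hsp : ∀ ω' r, 0 < r → ∫⁻ ω, ν (Cap (L ω) (L ω') r) ∂μ ≤ C0 * ENNReal.ofReal (r ^ β)) :
    ∃ C : ℝ, 0 < C ∧ ∀ (δ : ℝ), 0 < δ → δ ≤ 1 → ∀ T : Finset E, Sep δ T → ∀ x : Ω → E,
      ∀ S : Set Ω, μ S ≠ 0 → ∀ lam : ℝ, 0 ≤ lam →
      (∀ ω ∈ S, lam ≤ ((T.filter fun z => Hit (L ω) (x ω) R δ z).card : ℝ)) →
      lam ^ 2 * (μ S).toReal ≤ C * T.card * δ ^ (β - Module.finrank ℝ F) := by
  set n := Module.finrank ℝ E with hn
  set k := Module.finrank ℝ F with hk
  set v1 : ℝ := (ν (ball (0 : F) 1)).toReal with hv1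
  have hv1t : ν (ball (0 : F) 1) ≠ ⊤ := measure_ball_lt_top.ne
  have hv10 : 0 < v1 := ENNReal.toReal_pos (measure_ball_pos ν _ one_pos).ne' hv1t
  set C2 : ℝ := (2 * Λ + 5) ^ n * (2 * R + 2) ^ k with hC2
  have hC20 : 0 < C2 := by positivity
  refine ⟨2 * C2 * ((C0 + 1) * (Λ + 4) ^ β) / v1, by positivity, ?_⟩
  intro δ hδ hδ1 T hT x S hS lam hlam hM
  have hSt : μ S ≠ ⊤ := measure_ne_top μ S
  set η : ℝ := (μ S).toReal with hη
  have hη0 : 0 < η := ENNReal.toReal_pos hS hSt
  set g : Ω → Ω → ℝ≥0∞ := fun ω ω' => ν (Cap (L ω) (L ω') ((Λ + 4) * δ)) with hg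
  have hr : 0 < (Λ + 4) * δ := by positivity
  set Br : ℝ := (C0 + 1) * ((Λ + 4) * δ) ^ β with hBr
  have hBr0 : 0 < Br := by positivity
  have hB : ∀ ω', ∫⁻ ω, g ω ω' ∂μ ≤ ENNReal.ofReal Br := by
    intro ω'
    refine (hsp ω' _ hr).trans ?_
    rw [hBr, ENNReal.ofReal_mul (by positivity)]
    gcongr
    rw [← ENNReal.ofReal_coe_nnreal]
    exact ENNReal.ofReal_le_ofReal (by linarith)
  -- bound for every N
  have key : ∀ N : ℕ, 0 < N → lam ^ 2 ≤ (T.card : ℝ) ^ 2 * (1 / N) +
      T.card * (2 * C2 * Br / (δ ^ k * v1 * η)) := by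
    intro N hN
    obtain ⟨f, hf⟩ := greedy μ g (fun ω' => cap_measurable ν hLm (L ω') _)
      (ENNReal.ofReal_pos.2 hBr0).ne' ENNReal.ofReal_ne_top hB hS N
    set h : ℕ → E → ℝ := fun i z => if Hit (L (f i)) (x (f i)) R δ z then 1 else 0 with hh
    have hh0 : ∀ i z, 0 ≤ h i z := fun i z => by
      simp only [hh]
      split_ifs <;> norm_num
    have hh1 : ∀ i z, h i z ≤ 1 := fun i z => by
      simp only [hh]
      split_ifs <;> norm_num
    have hMi : ∀ i, ((T.filter fun z => Hit (L (f i)) (x (f i)) R δ z).card : ℝ) =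
        ∑ z ∈ T, h i z := by
      intro i
      rw [Finset.card_filter]
      push_cast
      rfl
    -- pairs
    have hpair : ∀ i < N, ∑ l ∈ Finset.range i, ∑ z ∈ T, h i z * h l z ≤
        C2 / (δ ^ k * v1) * (i * (2 * Br / η)) := by
      intro i hi
      have h1 : ∀ l, ∑ z ∈ T, h i z * h l z ≤
          C2 / (δ ^ k * v1) * (g (f i) (f l)).toReal := by
        intro l
        set T2 := T.filter fun z => Hit (L (f i)) (x (f i)) R δ z ∧
          Hit (L (f l)) (x (f l)) R δ z with hT2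
        have h2 : ∑ z ∈ T, h i z * h l z = (T2.card : ℝ) := by
          rw [hT2, Finset.card_filter]
          push_cast
          refine Finset.sum_congr rfl fun z _ => ?_
          simp only [hh]
          by_cases ha : Hit (L (f i)) (x (f i)) R δ z
          · by_cases hb : Hit (L (f l)) (x (f l)) R δ z
            · simp [ha, hb]
            · simp [ha, hb]
          · simp [ha]
        have h3 := count ν (L := L (f i)) (L' := L (f l)) (x := x (f i)) (x' := x (f l)) hΛ hR
          hδ hδ1 (hL (f i)) (T := T2) (hT.mono (Finset.filter_subset _ _))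
          (fun z hz => (Finset.mem_filter.1 hz).2.1)
          (fun z hz => by
            obtain ⟨u, _, hu⟩ := (Finset.mem_filter.1 hz).2.2
            exact ⟨u, hu⟩)
        rw [h2, div_mul_eq_mul_div, le_div_iff₀ (by positivity)]
        have h4 := ENNReal.toReal_mono (ENNReal.mul_ne_top ENNReal.ofReal_ne_top
          (cap_ne_top ν (L (f i)) (L (f l)) ((Λ + 4) * δ))) h3
        rw [ENNReal.toReal_mul, ENNReal.toReal_mul, ENNReal.toReal_mul,
          ENNReal.toReal_ofReal (by positivity), ENNReal.toReal_ofReal (by positivity),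
          ENNReal.toReal_natCast] at h4
        exact h4
      have h5 : (∑ l ∈ Finset.range i, (g (f i) (f l)).toReal) ≤ i * (2 * Br / η) := by
        rw [← ENNReal.toReal_sum fun l _ => cap_ne_top ν _ _ _]
        have h6 := ENNReal.toReal_mono (by
          refine ENNReal.mul_ne_top (ENNReal.natCast_ne_top i) (ENNReal.div_ne_top
            (ENNReal.mul_ne_top (by norm_num) ENNReal.ofReal_ne_top) hS)) (hf i hi).2
        rw [ENNReal.toReal_mul, ENNReal.toReal_div, ENNReal.toReal_mul,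
          ENNReal.toReal_ofReal hBr0.le, ENNReal.toReal_natCast] at h6
        exact h6
      calc ∑ l ∈ Finset.range i, ∑ z ∈ T, h i z * h l z
          ≤ ∑ l ∈ Finset.range i, C2 / (δ ^ k * v1) * (g (f i) (f l)).toReal :=
            Finset.sum_le_sum fun l _ => h1 l
        _ = C2 / (δ ^ k * v1) * ∑ l ∈ Finset.range i, (g (f i) (f l)).toReal := by
            rw [Finset.mul_sum]
        _ ≤ _ := by gcongr
    have hsumi : ∑ i ∈ Finset.range N, (i : ℝ) ≤ (N : ℝ) ^ 2 / 2 := by
      have h1 := Finset.sum_range_id_mul_two N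
      have h2 : (∑ i ∈ Finset.range N, (i : ℝ)) * 2 = N * ((N - 1 : ℕ) : ℝ) := by
        rw [← Nat.cast_sum, ← Nat.cast_mul, ← h1]
        push_cast
        ring
      have h3 : ((N - 1 : ℕ) : ℝ) ≤ N := by exact_mod_cast Nat.sub_le N 1
      have h4 : (0 : ℝ) ≤ N := Nat.cast_nonneg N
      nlinarith
    have hX : (N : ℝ) * lam ≤ ∑ z ∈ T, ∑ i ∈ Finset.range N, h i z := by
      rw [Finset.sum_comm]
      calc (N : ℝ) * lam = ∑ i ∈ Finset.range N, lam := by
            rw [Finset.sum_const, Finset.card_range, nsmul_eq_mul]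
        _ ≤ ∑ i ∈ Finset.range N, ∑ z ∈ T, h i z := by
            refine Finset.sum_le_sum fun i hi => ?_
            rw [← hMi i]
            exact hM (f i) (hf i (Finset.mem_range.1 hi)).1
    have hY : (∑ z ∈ T, ∑ i ∈ Finset.range N, h i z) ^ 2 ≤
        T.card * (T.card * N + (2 * C2 * Br / (δ ^ k * v1 * η)) * N ^ 2) := by
      calc (∑ z ∈ T, ∑ i ∈ Finset.range N, h i z) ^ 2
          ≤ T.card * ∑ z ∈ T, (∑ i ∈ Finset.range N, h i z) ^ 2 := sq_sum_le_card_mul_sum_sq
        _ ≤ T.card * (T.card * N + (2 * C2 * Br / (δ ^ k * v1 * η)) * N ^ 2) := by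
            gcongr
            calc ∑ z ∈ T, (∑ i ∈ Finset.range N, h i z) ^ 2
                ≤ ∑ z ∈ T, ((N : ℝ) + 2 * ∑ i ∈ Finset.range N, ∑ l ∈ Finset.range i,
                    h i z * h l z) :=
                  Finset.sum_le_sum fun z _ => sq_sum_le (fun i => h i z) (fun i => hh0 i z)
                    (fun i => hh1 i z) N
              _ = T.card * N + 2 * ∑ i ∈ Finset.range N, ∑ l ∈ Finset.range i,
                    ∑ z ∈ T, h i z * h l z := by
                  rw [Finset.sum_add_distrib, Finset.sum_const, nsmul_eq_mul, ← Finset.mul_sum]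
                  congr 2
                  rw [Finset.sum_comm]
                  refine Finset.sum_congr rfl fun i _ => ?_
                  rw [Finset.sum_comm]
              _ ≤ T.card * N + 2 * ∑ i ∈ Finset.range N,
                    C2 / (δ ^ k * v1) * (i * (2 * Br / η)) := by
                  gcongr with i hi
                  exact hpair i (Finset.mem_range.1 hi)
              _ = T.card * N + 2 * (C2 / (δ ^ k * v1) * (2 * Br / η)) *
                    ∑ i ∈ Finset.range N, (i : ℝ) := by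
                  congr 1
                  rw [Finset.mul_sum, Finset.mul_sum]
                  refine Finset.sum_congr rfl fun i _ => ?_
                  ring
              _ ≤ T.card * N + 2 * (C2 / (δ ^ k * v1) * (2 * Br / η)) * ((N : ℝ) ^ 2 / 2) := by
                  gcongr
              _ = _ := by
                  field_simp
    have hNr : (0 : ℝ) < N := by exact_mod_cast hN
    have hZ : ((N : ℝ) * lam) ^ 2 ≤
        T.card * (T.card * N + (2 * C2 * Br / (δ ^ k * v1 * η)) * N ^ 2) :=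
      (pow_le_pow_left₀ (by positivity) hX 2).trans hY
    have hW : lam ^ 2 * (N : ℝ) ^ 2 ≤ ((T.card : ℝ) ^ 2 * (1 / N) +
        T.card * (2 * C2 * Br / (δ ^ k * v1 * η))) * (N : ℝ) ^ 2 := by
      calc lam ^ 2 * (N : ℝ) ^ 2 = ((N : ℝ) * lam) ^ 2 := by ring
        _ ≤ _ := hZ
        _ = _ := by
          field_simp
    exact le_of_mul_le_mul_right hW (by positivity)
  have hlim : Tendsto (fun N : ℕ => (T.card : ℝ) ^ 2 * (1 / ((N + 1 : ℕ) : ℝ)) +
      T.card * (2 * C2 * Br / (δ ^ k * v1 * η))) atTop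
      (𝓝 ((T.card : ℝ) ^ 2 * 0 + T.card * (2 * C2 * Br / (δ ^ k * v1 * η)))) := by
    apply Tendsto.add_const
    apply Tendsto.const_mul
    have h1 := tendsto_one_div_add_atTop_nhds_zero_nat (𝕜 := ℝ)
    simpa using h1
  have hfin : lam ^ 2 ≤ (T.card : ℝ) ^ 2 * 0 + T.card * (2 * C2 * Br / (δ ^ k * v1 * η)) :=
    ge_of_tendsto' hlim fun N => key (N + 1) (Nat.succ_pos N)
  rw [mul_zero, zero_add] at hfin
  have hpow : δ ^ (β - k) = δ ^ β / δ ^ k := by
    rw [Real.rpow_sub hδ, Real.rpow_natCast]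
  calc lam ^ 2 * η ≤ T.card * (2 * C2 * Br / (δ ^ k * v1 * η)) * η := by gcongr
    _ = 2 * C2 * ((C0 + 1) * (Λ + 4) ^ β) / v1 * T.card * δ ^ (β - k) := by
        rw [hpow, hBr, Real.mul_rpow (by positivity) hδ.le]
        field_simp

end

end Run7.h750.LC
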