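import Mathlib
import Pool.Agent.Run7.h750.LC2
import Pool.Agent.Helper41.CoverDim
set_option autoImplicit false
set_option linter.unusedSectionVars false

/-! The dimension estimate for families of subspaces. -/

namespace Run7.h750.LC

open MeasureTheory Set Metric Filter
open scoped ENNReal NNReal Pointwise Topology

theorem exists_big {X : Type*} [EMetricSpace X] [MeasurableSpace X] [BorelSpace X] {t : ℝ}
    (ht : 0 < t) {A : Set X} (hA : μH[t] A ≠ 0) :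
    ∃ m : ℕ, ∀ (ι : Type) [Countable ι] (c : ι → Set X), A ⊆ ⋃ i, c i →
      (1 / ((m : ℝ≥0∞) + 1)) ≤ ∑' i, ediam (c i) ^ t := by
  by_contra hcon
  push Not at hcon
  choose ι hι c hc1 hc2 using hcon
  apply hA
  have hz : Tendsto (fun m : ℕ => (1 / ((m : ℝ≥0∞) + 1))) atTop (𝓝 0) := by
    have h1 : Tendsto (fun m : ℕ => (((m + 1 : ℕ) : ℝ≥0∞))⁻¹) atTop (𝓝 0) :=
      (tendsto_add_atTop_iff_nat 1).2 ENNReal.tendsto_inv_nat_nhds_zero
    refine h1.congr fun m => ?_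
    rw [one_div]
    push_cast
    rfl
  have h1 : μH[t] A ≤ liminf (fun m => ∑' i, ediam (c m i) ^ t) atTop := by
    have : ∀ m, Countable (ι m) := hι
    refine Measure.hausdorffMeasure_le_liminf_tsum (ι := ι) t A
      (fun m : ℕ => (1 / ((m : ℝ≥0∞) + 1)) ^ t⁻¹) ?_ c ?_ ?_
    · have h2 := ((ENNReal.continuous_rpow_const (y := t⁻¹)).tendsto 0).comp hz
      rw [ENNReal.zero_rpow_of_pos (inv_pos.2 ht)] at h2
      exact h2
    · refine Eventually.of_forall fun m i => ?_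
      rw [ENNReal.le_rpow_inv_iff ht]
      exact (ENNReal.le_tsum i).trans (hc2 m).le
    · exact Eventually.of_forall fun m => hc1 m
  have h2 : liminf (fun m => ∑' i, ediam (c m i) ^ t) atTop ≤
      liminf (fun m : ℕ => (1 / ((m : ℝ≥0∞) + 1))) atTop :=
    liminf_le_liminf (Eventually.of_forall fun m => (hc2 m).le)
  rw [hz.liminf_eq] at h2
  exact le_antisymm (h1.trans h2) bot_le

section
variable {E : Type*} [NormedAddCommGroup E] [NormedSpace ℝ E] [FiniteDimensional ℝ E]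
  [MeasurableSpace E] [BorelSpace E]

theorem exists_levels {A : Set E} {d ρ : ℝ} (hd : 0 ≤ d) (hρ : 0 < ρ) (hA : μH[d] A = 0) {ε : ℝ}
    (hε : 0 < ε) :
    ∃ T : ℕ → Finset E, (∀ j, Sep ((1 / 2 : ℝ) ^ j) (T j)) ∧
      (∀ y ∈ A, ∃ j, ∃ z ∈ T j, ‖y - z‖ ≤ 2 * (1 / 2 : ℝ) ^ j) ∧
      ∀ j, ((T j).card : ℝ) * ((1 / 2 : ℝ) ^ j) ^ (d + ρ) ≤ ε := by
  classical
  set ε1 : ℝ≥0∞ := ENNReal.ofReal (ε / (2 ^ d + 1)) with hε1
  have hp : (0 : ℝ) < 2 ^ d + 1 := by positivity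
  have hε1p : 0 < ε1 := ENNReal.ofReal_pos.2 (by positivity)
  obtain ⟨t, ht1, ht2, ht3⟩ := Pool.Agent.Helper41.exists_cover_of_hausdorff_zero (r := 1) hA
    zero_lt_one hε1p
  obtain ⟨δ, hδ, hδsum⟩ := ENNReal.exists_pos_sum_of_countable' hε1p.ne' ℕ
  choose nn hnn1 hnn2 hnn3 using fun i => Pool.Agent.Helper41.exists_scale (t i) (n₁ := 0)
    (by simpa using ht2 i) hd hρ (hδ i)
  have hsum : ∑' i, ((1 / 2 : ℝ≥0∞) ^ nn i) ^ (d + ρ) ≤ ENNReal.ofReal ε := by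
    calc ∑' i, ((1 / 2 : ℝ≥0∞) ^ nn i) ^ (d + ρ)
        ≤ ∑' i, (2 ^ d * (⨆ _ : (t i).Nonempty, ediam (t i) ^ d) + δ i) :=
          ENNReal.tsum_le_tsum hnn3
      _ = 2 ^ d * ∑' i, (⨆ _ : (t i).Nonempty, ediam (t i) ^ d) + ∑' i, δ i := by
          rw [ENNReal.tsum_add, ENNReal.tsum_mul_left]
      _ ≤ 2 ^ d * ε1 + ε1 := by gcongr
      _ = ENNReal.ofReal ε := by
          have h1 : (2 : ℝ≥0∞) ^ d = ENNReal.ofReal (2 ^ d) := by
            rw [← ENNReal.ofReal_rpow_of_pos (by norm_num)]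
            norm_num
          rw [h1, hε1, ← ENNReal.ofReal_mul (by positivity), ← ENNReal.ofReal_add (by positivity)
            (by positivity)]
          congr 1
          field_simp
  have hfin : ∀ j, {i | nn i = j}.Finite := by
    intro j
    have h1 := ENNReal.finite_const_le_of_tsum_ne_top (a := fun i => ((1 / 2 : ℝ≥0∞) ^ nn i) ^ (d + ρ))
      (ne_top_of_le_ne_top ENNReal.ofReal_ne_top hsum)
      (ε := ((1 / 2 : ℝ≥0∞) ^ j) ^ (d + ρ)) (by
        refine (ENNReal.rpow_pos (ENNReal.pow_pos (by norm_num) j) ?_).ne'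
        exact ENNReal.pow_ne_top (by norm_num))
    refine h1.subset ?_
    intro i hi
    simp only [mem_setOf_eq] at hi ⊢
    rw [hi]
  -- points
  let p : ℕ → E := fun i => if h : (t i).Nonempty then h.some else 0
  let P : ℕ → Finset E := fun j => (hfin j).toFinset.image p
  choose T hTP hTsep hTnet using fun j => exists_sep_subset ((1 / 2 : ℝ) ^ j) (by positivity) (P j)
  refine ⟨T, hTsep, ?_, ?_⟩
  · intro y hy
    obtain ⟨i, hi⟩ := mem_iUnion.1 (ht1 hy)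
    have hne : (t i).Nonempty := ⟨y, hi⟩
    have hp1 : p i ∈ t i := by
      simp only [p]
      rw [dif_pos hne]
      exact hne.some_mem
    have hp2 : p i ∈ P (nn i) := by
      simp only [P]
      apply Finset.mem_image_of_mem
      simp
    obtain ⟨z, hz, hz2⟩ := hTnet (nn i) (p i) hp2
    refine ⟨nn i, z, hz, ?_⟩
    have h1 : edist y (p i) ≤ (1 / 2 : ℝ≥0∞) ^ nn i :=
      (edist_le_ediam_of_mem hi hp1).trans (hnn2 i)
    have h2 : ‖y - p i‖ ≤ (1 / 2 : ℝ) ^ nn i := by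
      rw [← dist_eq_norm, dist_edist]
      have h3 := ENNReal.toReal_mono (ENNReal.pow_ne_top (by norm_num)) h1
      rw [ENNReal.toReal_pow] at h3
      simpa using h3
    have h3 : y - z = (y - p i) + (p i - z) := by abel
    rw [h3]
    calc ‖(y - p i) + (p i - z)‖ ≤ ‖y - p i‖ + ‖p i - z‖ := norm_add_le _ _
      _ ≤ 2 * (1 / 2 : ℝ) ^ nn i := by linarith
  · intro j
    have h1 : (T j).card ≤ (hfin j).toFinset.card :=
      (Finset.card_le_card (hTP j)).trans Finset.card_image_le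
    have h2 : ((hfin j).toFinset.card : ℝ≥0∞) * ((1 / 2 : ℝ≥0∞) ^ j) ^ (d + ρ) ≤
        ENNReal.ofReal ε := by
      refine le_trans ?_ hsum
      calc ((hfin j).toFinset.card : ℝ≥0∞) * ((1 / 2 : ℝ≥0∞) ^ j) ^ (d + ρ)
          = ∑ i ∈ (hfin j).toFinset, ((1 / 2 : ℝ≥0∞) ^ nn i) ^ (d + ρ) := by
            rw [Finset.sum_congr rfl fun i hi => ?_, Finset.sum_const, nsmul_eq_mul]
            simp only [Finite.mem_toFinset, mem_setOf_eq] at hi
            rw [hi]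
        _ ≤ _ := ENNReal.sum_le_tsum _
    have h3 : ((1 / 2 : ℝ≥0∞) ^ j) ^ (d + ρ) = ENNReal.ofReal (((1 / 2 : ℝ) ^ j) ^ (d + ρ)) := by
      rw [← ENNReal.ofReal_rpow_of_pos (by positivity), ENNReal.ofReal_pow (by positivity)]
      congr 2
      rw [ENNReal.ofReal_div_of_pos (by norm_num)]
      norm_num
    rw [h3, ← ENNReal.ofReal_natCast, ← ENNReal.ofReal_mul (by positivity),
      ENNReal.ofReal_le_ofReal_iff hε.le] at h2
    refine le_trans ?_ h2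
    gcongr

end

section
variable {E F Ω : Type} [NormedAddCommGroup E] [NormedSpace ℝ E] [FiniteDimensional ℝ E]
  [MeasurableSpace E] [BorelSpace E]
  [NormedAddCommGroup F] [NormedSpace ℝ F] [FiniteDimensional ℝ F]
  [MeasurableSpace F] [BorelSpace F] [MeasurableSpace Ω]

theorem furst_core (μ : Measure Ω) [IsFiniteMeasure μ] (ν : Measure F) [ν.IsAddHaarMeasure]
    {L : Ω → F →ₗ[ℝ] E} (hLm : ∀ u, Measurable fun ω => L ω u) {Λ β : ℝ}
    (hΛ : 1 ≤ Λ) (hL : ∀ ω u, ‖L ω u‖ ≤ Λ * ‖u‖) (hL' : ∀ ω u, ‖u‖ ≤ Λ * ‖L ω u‖) {C0 : ℝ≥0}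
    (hsp : ∀ ω' r, 0 < r → ∫⁻ ω, ν (Cap (L ω) (L ω') r) ∂μ ≤ C0 * ENNReal.ofReal (r ^ β))
    {K : Set E} {x : Ω → E} {S : Set Ω} (hS : μ S ≠ 0) {t d κ : ℝ} (ht : 0 < t) (hd : 0 ≤ d)
    (hκ : 0 < κ) (hexp : 4 * κ ≤ 2 * t + β - Module.finrank ℝ F - d) (hK0 : μH[d] K = 0)
    (hK : ∀ ω ∈ S, μH[t] {u : F | x ω + L ω u ∈ K} ≠ 0) : False := by
  classical
  set k := Module.finrank ℝ F with hk
  have hΛ0 : 0 < Λ := by linarith
  -- step 0
  let Big : ℕ → ℕ → Set Ω := fun R m => {ω | ω ∈ S ∧ ∀ (ι : Type) [Countable ι] (c : ι → Set F),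
    {u : F | x ω + L ω u ∈ K ∧ ‖u‖ ≤ R} ⊆ ⋃ i, c i →
      (1 / ((m : ℝ≥0∞) + 1)) ≤ ∑' i, ediam (c i) ^ t}
  have hcov : S ⊆ ⋃ R, ⋃ m, Big R m := by
    intro ω hω
    have h1 : {u : F | x ω + L ω u ∈ K} = ⋃ R : ℕ, {u : F | x ω + L ω u ∈ K ∧ ‖u‖ ≤ R} := by
      ext u
      simp only [mem_setOf_eq, mem_iUnion]
      constructor
      · intro h
        obtain ⟨R, hR⟩ := exists_nat_ge ‖u‖
        exact ⟨R, h, hR⟩
      · rintro ⟨R, h, _⟩
        exact h
    have h2 : ∃ R : ℕ, μH[t] {u : F | x ω + L ω u ∈ K ∧ ‖u‖ ≤ R} ≠ 0 := by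
      by_contra hcon
      push Not at hcon
      apply hK ω hω
      rw [h1]
      exact measure_iUnion_null hcon
    obtain ⟨R, hR⟩ := h2
    obtain ⟨m, hm⟩ := exists_big ht hR
    exact mem_iUnion.2 ⟨R, mem_iUnion.2 ⟨m, hω, hm⟩⟩
  have hex : ∃ R m, μ (Big R m) ≠ 0 := by
    by_contra hcon
    push Not at hcon
    apply hS
    refine measure_mono_null hcov ?_
    exact measure_iUnion_null fun R => measure_iUnion_null fun m => hcon R m
  obtain ⟨R, m, hRm⟩ := hex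
  set S1 := Big R m with hS1
  have hS1t : μ S1 ≠ ⊤ := measure_ne_top μ S1
  set η : ℝ := (μ S1).toReal with hη
  have hη0 : 0 < η := ENNReal.toReal_pos hRm hS1t
  obtain ⟨C, hC0, hC⟩ := scale μ ν hLm hΛ (Nat.cast_nonneg R) hL hsp (β := β)
  -- geometric series
  have hq0 : (0 : ℝ) < (1 / 2) ^ κ := by positivity
  have hq1 : ((1 / 2 : ℝ)) ^ κ < 1 := Real.rpow_lt_one (by norm_num) (by norm_num) hκ
  set q : ℝ := (1 / 2 : ℝ) ^ κ with hq
  set G : ℝ := (1 - q)⁻¹ with hG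
  have hG0 : 0 < G := inv_pos.2 (by linarith)
  have hgeo : ∀ a : ℝ, 0 ≤ a → ∑' j : ℕ, ENNReal.ofReal (a * q ^ j) = ENNReal.ofReal (a * G) := by
    intro a ha
    rw [← ENNReal.ofReal_tsum_of_nonneg (fun j => by positivity)
      ((summable_geometric_of_lt_one hq0.le hq1).mul_left a), tsum_mul_left,
      tsum_geometric_of_lt_one hq0.le hq1]
  have hqj : ∀ j : ℕ, ((1 / 2 : ℝ) ^ j) ^ κ = q ^ j := by
    intro j
    rw [hq, ← Real.rpow_natCast, ← Real.rpow_mul (by norm_num), ← Real.rpow_natCast,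
      ← Real.rpow_mul (by norm_num), mul_comm]
  set a : ℝ := 1 / (2 * (m + 1) * G) with ha
  have ha0 : 0 < a := by positivity
  set b : ℝ := η / (2 * G) with hb
  have hb0 : 0 < b := by positivity
  set A0 : ℝ := a ^ 2 * ((4 * Λ) ^ (-t)) ^ 2 * b with hA0
  have hA00 : 0 < A0 := by positivity
  obtain ⟨T, hT1, hT2, hT3⟩ := exists_levels (E := E) hd hκ hK0 (ε := A0 / (2 * C)) (by positivity)
  -- numbers of hits
  let M : ℕ → Ω → ℕ := fun j ω => ((T j).filter fun z => Hit (L ω) (x ω) R ((1 / 2 : ℝ) ^ j) z).card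
  have hsum : ∀ ω ∈ S1, (1 / ((m : ℝ≥0∞) + 1)) ≤
      ∑' j, ENNReal.ofReal ((M j ω : ℝ) * (4 * Λ * (1 / 2 : ℝ) ^ j) ^ t) := by
    intro ω hω
    let ι : Type := Σ j : ℕ, {z // z ∈ (T j).filter fun z => Hit (L ω) (x ω) R ((1 / 2 : ℝ) ^ j) z}
    let c : ι → Set F := fun i => {u | ‖u‖ ≤ R ∧ ‖x ω + L ω u - i.2.1‖ ≤ 2 * (1 / 2 : ℝ) ^ i.1}
    have hc := hω.2 ι c ?_
    · refine hc.trans ?_
      have h1 : ∑' i : ι, ediam (c i) ^ t = ∑' j, ∑' z : {z // z ∈ (T j).filter fun z =>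
          Hit (L ω) (x ω) R ((1 / 2 : ℝ) ^ j) z}, ediam (c ⟨j, z⟩) ^ t :=
        ENNReal.tsum_sigma' _
      rw [h1]
      refine ENNReal.tsum_le_tsum fun j => ?_
      have h2 : ∀ z : {z // z ∈ (T j).filter fun z =>
          Hit (L ω) (x ω) R ((1 / 2 : ℝ) ^ j) z}, ediam (c ⟨j, z⟩) ^ t ≤
          ENNReal.ofReal ((4 * Λ * (1 / 2 : ℝ) ^ j) ^ t) := by
        intro z
        rw [← ENNReal.ofReal_rpow_of_nonneg (by positivity) ht.le]
        apply ENNReal.rpow_le_rpow _ ht.le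
        apply ediam_le
        intro u hu v hv
        rw [edist_dist]
        apply ENNReal.ofReal_le_ofReal
        rw [dist_eq_norm]
        have h3 := hL' ω (u - v)
        have h4 : L ω (u - v) = (x ω + L ω u - z.1) - (x ω + L ω v - z.1) := by
          rw [map_sub]
          abel
        have h5 : ‖L ω (u - v)‖ ≤ 4 * (1 / 2 : ℝ) ^ j := by
          rw [h4]
          refine (norm_sub_le _ _).trans ?_
          have h6 := hu.2
          have h7 := hv.2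
          simp only at h6 h7
          linarith
        calc ‖u - v‖ ≤ Λ * ‖L ω (u - v)‖ := h3
          _ ≤ Λ * (4 * (1 / 2 : ℝ) ^ j) := by gcongr
          _ = 4 * Λ * (1 / 2 : ℝ) ^ j := by ring
      calc ∑' z : {z // z ∈ (T j).filter fun z =>
            Hit (L ω) (x ω) R ((1 / 2 : ℝ) ^ j) z}, ediam (c ⟨j, z⟩) ^ t
          ≤ ∑' z : {z // z ∈ (T j).filter fun z =>
            Hit (L ω) (x ω) R ((1 / 2 : ℝ) ^ j) z},
            ENNReal.ofReal ((4 * Λ * (1 / 2 : ℝ) ^ j) ^ t) := ENNReal.tsum_le_tsum h2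
        _ = M j ω * ENNReal.ofReal ((4 * Λ * (1 / 2 : ℝ) ^ j) ^ t) := by
            rw [tsum_fintype, Finset.sum_const, nsmul_eq_mul, Finset.card_univ,
              Fintype.card_coe]
        _ = ENNReal.ofReal ((M j ω : ℝ) * (4 * Λ * (1 / 2 : ℝ) ^ j) ^ t) := by
            rw [ENNReal.ofReal_mul (by positivity), ENNReal.ofReal_natCast]
    · intro u hu
      obtain ⟨j, z, hz, hz2⟩ := hT2 _ hu.1
      refine mem_iUnion.2 ⟨⟨j, z, ?_⟩, hu.2, hz2⟩
      rw [Finset.mem_filter]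
      exact ⟨hz, u, hu.2, hz2⟩
  let lam : ℕ → ℝ := fun j => a * (4 * Λ) ^ (-t) * ((1 / 2 : ℝ) ^ j) ^ (κ - t)
  have hlam0 : ∀ j, 0 ≤ lam j := fun j => by positivity
  have hsel : ∀ ω ∈ S1, ∃ j, lam j ≤ (M j ω : ℝ) := by
    intro ω hω
    by_contra hcon
    push Not at hcon
    have h1 : ∀ j, (M j ω : ℝ) * (4 * Λ * (1 / 2 : ℝ) ^ j) ^ t ≤ a * q ^ j := by
      intro j
      have hδ : (0 : ℝ) < (1 / 2 : ℝ) ^ j := by positivity
      calc (M j ω : ℝ) * (4 * Λ * (1 / 2 : ℝ) ^ j) ^ t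
          ≤ lam j * (4 * Λ * (1 / 2 : ℝ) ^ j) ^ t := by
            gcongr
            exact (hcon j).le
        _ = a * ((4 * Λ) ^ (-t) * (4 * Λ) ^ t) *
            (((1 / 2 : ℝ) ^ j) ^ (κ - t) * ((1 / 2 : ℝ) ^ j) ^ t) := by
            simp only [lam]
            rw [Real.mul_rpow (by positivity) hδ.le]
            ring
        _ = a * q ^ j := by
            rw [← Real.rpow_add (by positivity), ← Real.rpow_add hδ, neg_add_cancel,
              Real.rpow_zero, sub_add_cancel, hqj, mul_one]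
    have h2 := hsum ω hω
    have h3 : ∑' j, ENNReal.ofReal ((M j ω : ℝ) * (4 * Λ * (1 / 2 : ℝ) ^ j) ^ t) ≤
        ENNReal.ofReal (a * G) := by
      rw [← hgeo a ha0.le]
      exact ENNReal.tsum_le_tsum fun j => ENNReal.ofReal_le_ofReal (h1 j)
    have h4 := h2.trans h3
    have h5 : (1 / ((m : ℝ≥0∞) + 1)) = ENNReal.ofReal (1 / ((m : ℝ) + 1)) := by
      rw [ENNReal.ofReal_div_of_pos (by positivity), ENNReal.ofReal_add (by positivity)
        (by norm_num), ENNReal.ofReal_natCast, ENNReal.ofReal_one]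
    rw [h5, ENNReal.ofReal_le_ofReal_iff (by positivity)] at h4
    have h6 : a * G = 1 / ((m : ℝ) + 1) / 2 := by
      rw [ha]
      field_simp
    rw [h6] at h4
    have h7 : (0 : ℝ) < 1 / ((m : ℝ) + 1) := by positivity
    linarith
  let S' : ℕ → Set Ω := fun j => {ω | ω ∈ S1 ∧ lam j ≤ (M j ω : ℝ)}
  have hS' : S1 ⊆ ⋃ j, S' j := by
    intro ω hω
    obtain ⟨j, hj⟩ := hsel ω hω
    exact mem_iUnion.2 ⟨j, hω, hj⟩
  have hj : ∃ j, ENNReal.ofReal (b * q ^ j) < μ (S' j) := by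
    by_contra hcon
    push Not at hcon
    have h1 : μ S1 ≤ ENNReal.ofReal (b * G) := by
      rw [← hgeo b hb0.le]
      exact (measure_mono hS').trans ((measure_iUnion_le _).trans (ENNReal.tsum_le_tsum hcon))
    rw [← ENNReal.ofReal_toReal hS1t, ENNReal.ofReal_le_ofReal_iff (by positivity)] at h1
    have h2 : b * G = η / 2 := by
      rw [hb]
      field_simp
    rw [h2] at h1
    linarith
  obtain ⟨j, hj⟩ := hj
  have hδ : (0 : ℝ) < (1 / 2 : ℝ) ^ j := by positivity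
  have hδ1 : (1 / 2 : ℝ) ^ j ≤ 1 := pow_le_one₀ (by norm_num) (by norm_num)
  have h1 := hC ((1 / 2 : ℝ) ^ j) hδ hδ1 (T j) (hT1 j) x (S' j)
    (ne_of_gt (lt_of_le_of_lt bot_le hj)) (lam j) (hlam0 j) (fun ω hω => hω.2)
  have h2 : b * q ^ j ≤ (μ (S' j)).toReal := by
    have h3 := ENNReal.toReal_mono (measure_ne_top μ (S' j)) hj.le
    rwa [ENNReal.toReal_ofReal (by positivity)] at h3
  have h3 := hT3 j
  set δ : ℝ := (1 / 2 : ℝ) ^ j with hδdef
  have h4 : lam j ^ 2 * (b * q ^ j) ≤ C * (T j).card * δ ^ (β - k) := by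
    refine le_trans ?_ h1
    gcongr
  have h5 : A0 * δ ^ (2 * (κ - t) + κ) = lam j ^ 2 * (b * q ^ j) := by
    simp only [lam]
    rw [← hqj j, hA0, Real.rpow_add hδ, two_mul, Real.rpow_add hδ]
    ring
  have h6 : A0 * δ ^ (2 * (κ - t) + κ) * δ ^ (d + κ) ≤ C * (A0 / (2 * C)) * δ ^ (β - k) := by
    rw [h5]
    calc lam j ^ 2 * (b * q ^ j) * δ ^ (d + κ)
        ≤ C * (T j).card * δ ^ (β - k) * δ ^ (d + κ) := by gcongr
      _ = C * ((T j).card * δ ^ (d + κ)) * δ ^ (β - k) := by ring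
      _ ≤ C * (A0 / (2 * C)) * δ ^ (β - k) := by gcongr
  have h7 : C * (A0 / (2 * C)) = A0 / 2 := by
    field_simp
  rw [h7, mul_assoc, ← Real.rpow_add hδ] at h6
  have h8 : δ ^ (β - k) ≤ δ ^ (2 * (κ - t) + κ + (d + κ)) := by
    apply Real.rpow_le_rpow_of_exponent_ge hδ hδ1
    linarith
  have h9 : 0 < δ ^ (2 * (κ - t) + κ + (d + κ)) := by positivity
  nlinarith

end

end Run7.h750.LC
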