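import Mathlib
import Pool.Agent.Run7.h750.LC3
set_option autoImplicit false
set_option linter.unusedSectionVars false

/-! The dimension estimate, and families of bounded multiplicity. -/

namespace Run7.h750.LC

open MeasureTheory Set Metric Filter
open scoped ENNReal NNReal Pointwise Topology

section
variable {E F Ω : Type} [NormedAddCommGroup E] [NormedSpace ℝ E] [FiniteDimensional ℝ E]
  [MeasurableSpace E] [BorelSpace E]
  [NormedAddCommGroup F] [NormedSpace ℝ F] [FiniteDimensional ℝ F]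
  [MeasurableSpace F] [BorelSpace F] [MeasurableSpace Ω]

theorem beta_le (μ : Measure Ω) [IsFiniteMeasure μ] (ν : Measure F) [ν.IsAddHaarMeasure]
    {L : Ω → F →ₗ[ℝ] E} {Λ β : ℝ} (hμ : μ ≠ 0)
    (hΛ : 1 ≤ Λ) (hL : ∀ ω u, ‖L ω u‖ ≤ Λ * ‖u‖) {C0 : ℝ≥0}
    (hsp : ∀ ω' r, 0 < r → ∫⁻ ω, ν (Cap (L ω) (L ω') r) ∂μ ≤ C0 * ENNReal.ofReal (r ^ β)) :
    β ≤ Module.finrank ℝ F := by
  set k := Module.finrank ℝ F with hk
  by_contra hcon
  push Not at hcon
  have hne : Nonempty Ω := by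
    by_contra h
    rw [not_nonempty_iff] at h
    exact hμ (Measure.eq_zero_of_isEmpty μ)
  obtain ⟨ω'⟩ := hne
  set v1 : ℝ := (ν (ball (0 : F) 1)).toReal with hv1
  have hv1t : ν (ball (0 : F) 1) ≠ ⊤ := measure_ball_lt_top.ne
  have hv10 : 0 < v1 := ENNReal.toReal_pos (measure_ball_pos ν _ one_pos).ne' hv1t
  set M : ℝ := (μ univ).toReal with hM
  have hM0 : 0 < M := ENNReal.toReal_pos (by simpa using hμ) (measure_ne_top μ _)
  have key : ∀ r : ℝ, 0 < r → r ≤ 1 → (1 / Λ) ^ k * v1 * M ≤ C0 * r ^ (β - k) := by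
    intro r hr hr1
    have h1 : ∀ ω, ENNReal.ofReal ((r / Λ) ^ k * v1) ≤ ν (Cap (L ω) (L ω') r) := by
      intro ω
      have h2 : ball (0 : F) (r / Λ) ⊆ Cap (L ω) (L ω') r := by
        intro v hv
        rw [mem_ball_zero_iff] at hv
        have h3 : r / Λ ≤ 1 := (div_le_one (by linarith)).2 (by linarith)
        refine ⟨by linarith, ?_⟩
        have h4 : infDist (L ω v) (range (L ω')) ≤ dist (L ω v) 0 :=
          infDist_le_dist_of_mem ⟨0, map_zero _⟩
        rw [dist_zero_right] at h4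
        have h5 := hL ω v
        have h6 : Λ * ‖v‖ ≤ Λ * (r / Λ) := by gcongr
        have h7 : Λ * (r / Λ) = r := by field_simp
        linarith
      refine le_trans ?_ (measure_mono h2)
      rw [Measure.addHaar_ball_of_pos ν 0 (by positivity), ENNReal.ofReal_mul (by positivity), hv1,
        ENNReal.ofReal_toReal hv1t]
    have h2 : ENNReal.ofReal ((r / Λ) ^ k * v1) * μ univ ≤ C0 * ENNReal.ofReal (r ^ β) := by
      refine le_trans ?_ (hsp ω' r hr)
      rw [← lintegral_const]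
      exact lintegral_mono h1
    have h3 : (r / Λ) ^ k * v1 * M ≤ C0 * r ^ β := by
      have h4 := ENNReal.toReal_mono (ENNReal.mul_ne_top ENNReal.coe_ne_top
        ENNReal.ofReal_ne_top) h2
      rwa [ENNReal.toReal_mul, ENNReal.toReal_mul, ENNReal.toReal_ofReal (by positivity),
        ENNReal.toReal_ofReal (by positivity), ENNReal.coe_toReal] at h4
    rw [Real.rpow_sub hr, Real.rpow_natCast, ← mul_div_assoc, le_div_iff₀ (by positivity)]
    calc (1 / Λ) ^ k * v1 * M * r ^ k = (r / Λ) ^ k * v1 * M := by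
          rw [div_pow, div_pow, one_pow]
          ring
      _ ≤ _ := h3
  have hlim : Tendsto (fun j : ℕ => (C0 : ℝ) * (1 / ((j : ℝ) + 1)) ^ (β - k)) atTop (𝓝 (C0 * 0)) := by
    apply Tendsto.const_mul
    have h1 := tendsto_one_div_add_atTop_nhds_zero_nat (𝕜 := ℝ)
    have h2 : Tendsto (fun y : ℝ => y ^ (β - k)) (𝓝 0) (𝓝 0) := by
      have h3 := (Real.continuous_rpow_const (q := β - k) (by linarith)).tendsto 0
      rwa [Real.zero_rpow (by linarith)] at h3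
    exact h2.comp h1
  rw [mul_zero] at hlim
  have h4 := ge_of_tendsto' hlim fun j => key (1 / ((j : ℝ) + 1)) (by positivity) (by
    rw [div_le_one (by positivity)]
    linarith [(Nat.cast_nonneg j : (0 : ℝ) ≤ j)])
  have h5 : 0 < (1 / Λ) ^ k * v1 * M := by positivity
  linarith

theorem furst (μ : Measure Ω) [IsFiniteMeasure μ] (ν : Measure F) [ν.IsAddHaarMeasure]
    {L : Ω → F →ₗ[ℝ] E} (hLm : ∀ u, Measurable fun ω => L ω u) {Λ β : ℝ}
    (hΛ : 1 ≤ Λ) (hL : ∀ ω u, ‖L ω u‖ ≤ Λ * ‖u‖) (hL' : ∀ ω u, ‖u‖ ≤ Λ * ‖L ω u‖)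
    (hβ : 0 ≤ β) {C0 : ℝ≥0}
    (hsp : ∀ ω' r, 0 < r → ∫⁻ ω, ν (Cap (L ω) (L ω') r) ∂μ ≤ C0 * ENNReal.ofReal (r ^ β))
    {K : Set E} {x : Ω → E} {S : Set Ω} (hS : μ S ≠ 0) {s : ℝ≥0}
    (hs : ∀ ω ∈ S, (s : ℝ≥0∞) ≤ dimH {u : F | x ω + L ω u ∈ K}) :
    2 * (s : ℝ≥0∞) + ENNReal.ofReal β ≤ dimH K + Module.finrank ℝ F := by
  set k := Module.finrank ℝ F with hk
  by_contra hcon
  push Not at hcon
  have hμ : μ ≠ 0 := by
    rintro rfl
    simp at hS
  have hβk := beta_le μ ν hμ hΛ hL hsp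
  rw [← hk] at hβk
  have hDt : dimH K ≠ ⊤ := by
    intro h
    rw [h, top_add] at hcon
    exact absurd hcon (by simp)
  set D : ℝ := (dimH K).toReal with hD
  have hD0 : 0 ≤ D := ENNReal.toReal_nonneg
  have hDe : dimH K = ENNReal.ofReal D := (ENNReal.ofReal_toReal hDt).symm
  have h1 : D + k < 2 * s + β := by
    have h2 : dimH K + (k : ℝ≥0∞) = ENNReal.ofReal (D + k) := by
      rw [hDe, ENNReal.ofReal_add hD0 (by positivity), ENNReal.ofReal_natCast]
    have h3 : 2 * (s : ℝ≥0∞) + ENNReal.ofReal β = ENNReal.ofReal (2 * s + β) := by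
      rw [ENNReal.ofReal_add (by positivity) hβ, ENNReal.ofReal_mul (by norm_num),
        ENNReal.ofReal_coe_nnreal]
      norm_num
    rw [h2, h3] at hcon
    exact (ENNReal.ofReal_lt_ofReal_iff_of_nonneg (by positivity)).1 hcon
  set gap : ℝ := 2 * s + β - (D + k) with hgap
  have hgap0 : 0 < gap := by rw [hgap]; linarith
  have hsgap : gap / 8 < (s : ℝ) := by
    rw [hgap]
    nlinarith
  refine furst_core μ ν hLm hΛ hL hL' hsp hS (t := s - gap / 8) (d := D + gap / 8)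
    (κ := gap / 16) (by linarith) (by linarith) (by linarith) ?_ (K := K) (x := x) ?_ ?_
  · rw [← hk]
    linarith
  · have h2 : dimH K < ((Real.toNNReal (D + gap / 8) : ℝ≥0) : ℝ≥0∞) := by
      rw [hDe]
      exact (ENNReal.ofReal_lt_ofReal_iff (by linarith)).2 (by linarith)
    have h3 := hausdorffMeasure_of_dimH_lt h2
    rwa [Real.coe_toNNReal _ (by linarith)] at h3
  · intro ω hω
    have h2 : ((Real.toNNReal (s - gap / 8) : ℝ≥0) : ℝ≥0∞) < dimH {u : F | x ω + L ω u ∈ K} := by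
      refine lt_of_lt_of_le ?_ (hs ω hω)
      rw [ENNReal.coe_lt_coe, ← NNReal.coe_lt_coe, Real.coe_toNNReal _ (by linarith)]
      linarith
    have h3 := hausdorffMeasure_of_lt_dimH h2
    rw [Real.coe_toNNReal _ (by linarith)] at h3
    rw [h3]
    exact ENNReal.top_ne_zero

end

section
variable {E F Ω : Type} [NormedAddCommGroup E] [NormedSpace ℝ E] [FiniteDimensional ℝ E]
  [MeasurableSpace E] [BorelSpace E]
  [NormedAddCommGroup F] [NormedSpace ℝ F] [FiniteDimensional ℝ F]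
  [MeasurableSpace F] [BorelSpace F] [MeasurableSpace Ω]

/-- the neighbourhood of a subspace in a ball -/
def Nb (L' : F →ₗ[ℝ] E) (Λ ρ : ℝ) : Set E := {y | ‖y‖ ≤ Λ ∧ infDist y (range L') ≤ ρ}

theorem Nb.closed (L' : F →ₗ[ℝ] E) (Λ ρ : ℝ) : IsClosed (Nb L' Λ ρ) :=
  (isClosed_le continuous_norm continuous_const).inter
    (isClosed_le (continuous_infDist_pt _) continuous_const)

theorem nb_le (m : Measure E) [m.IsAddHaarMeasure] {Λ : ℝ} (hΛ : 1 ≤ Λ) :
    ∃ C : ℝ, 0 < C ∧ ∀ L' : F →ₗ[ℝ] E, (∀ u, ‖L' u‖ ≤ Λ * ‖u‖) → (∀ u, ‖u‖ ≤ Λ * ‖L' u‖) →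
      ∀ ρ β : ℝ, 0 < ρ → 0 ≤ β → β ≤ (Module.finrank ℝ E : ℝ) - Module.finrank ℝ F →
      m (Nb L' Λ ρ) ≤ ENNReal.ofReal (C * ρ ^ β) := by
  classical
  set n := Module.finrank ℝ E with hn
  set k := Module.finrank ℝ F with hk
  set m1 : ℝ := (m (ball (0 : E) 1)).toReal with hm1
  have hm1t : m (ball (0 : E) 1) ≠ ⊤ := measure_ball_lt_top.ne
  have hm10 : 0 < m1 := ENNReal.toReal_pos (measure_ball_pos m _ one_pos).ne' hm1t
  have hm1e : m (ball (0 : E) 1) = ENNReal.ofReal m1 := (ENNReal.ofReal_toReal hm1t).symm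
  set R : ℝ := Λ * (Λ + 2) with hR
  have hR0 : 0 < R := by positivity
  set C1 : ℝ := (2 * R + 1) ^ k * (Λ + 2) ^ n * m1 with hC1
  have hC10 : 0 < C1 := by positivity
  set C2 : ℝ := Λ ^ n * m1 with hC2
  have hC20 : 0 < C2 := by positivity
  refine ⟨C1 + C2, by positivity, ?_⟩
  intro L' hL1 hL2 ρ β hρ hβ0 hβ
  rcases le_or_gt ρ 1 with hρ1 | hρ1
  · obtain ⟨T, hT1, hT2⟩ := exists_net (E := F) hρ hR0.le
    have hsub : Nb L' Λ ρ ⊆ ⋃ z ∈ T, closedBall (L' z) ((Λ + 2) * ρ) := by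
      rintro y ⟨hy1, hy2⟩
      have h1 : infDist y (range L') < 2 * ρ := by linarith
      obtain ⟨_, ⟨u, rfl⟩, hu⟩ := (infDist_lt_iff (range_nonempty _)).1 h1
      rw [dist_eq_norm] at hu
      have h2 : ‖L' u‖ ≤ Λ + 2 := by
        have h3 : L' u = y - (y - L' u) := by abel
        rw [h3]
        have h4 := norm_sub_le y (y - L' u)
        linarith
      have h3 : ‖u‖ ≤ R := (hL2 u).trans (by rw [hR]; gcongr)
      obtain ⟨z, hz, hz2⟩ := hT1 u h3
      refine mem_iUnion₂.2 ⟨z, hz, ?_⟩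
      rw [mem_closedBall, dist_eq_norm]
      have h4 : y - L' z = (y - L' u) + L' (u - z) := by
        rw [map_sub]
        abel
      rw [h4]
      have h5 := norm_add_le (y - L' u) (L' (u - z))
      have h6 := hL1 (u - z)
      have h7 : Λ * ‖u - z‖ ≤ Λ * ρ := by gcongr
      linarith
    calc m (Nb L' Λ ρ) ≤ m (⋃ z ∈ T, closedBall (L' z) ((Λ + 2) * ρ)) := measure_mono hsub
      _ ≤ ∑ z ∈ T, m (closedBall (L' z) ((Λ + 2) * ρ)) := measure_biUnion_finset_le _ _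
      _ = ∑ z ∈ T, ENNReal.ofReal (((Λ + 2) * ρ) ^ n * m1) := by
          refine Finset.sum_congr rfl fun z _ => ?_
          rw [Measure.addHaar_closedBall m _ (by positivity), hm1e,
            ← ENNReal.ofReal_mul (by positivity)]
      _ = ENNReal.ofReal (T.card * (((Λ + 2) * ρ) ^ n * m1)) := by
          rw [Finset.sum_const, nsmul_eq_mul,
            ENNReal.ofReal_mul (p := (T.card : ℝ)) (Nat.cast_nonneg _), ENNReal.ofReal_natCast]
      _ ≤ ENNReal.ofReal ((C1 + C2) * ρ ^ β) := by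
          apply ENNReal.ofReal_le_ofReal
          have h1 : (T.card : ℝ) ≤ (2 * R + 1) ^ k / ρ ^ k := by
            refine hT2.trans ?_
            rw [← div_pow]
            gcongr
            rw [add_div]
            gcongr
            rw [le_div_iff₀ hρ]
            linarith
          have h2 : ρ ^ n / ρ ^ k ≤ ρ ^ β := by
            rw [← Real.rpow_natCast, ← Real.rpow_natCast, ← Real.rpow_sub hρ]
            exact Real.rpow_le_rpow_of_exponent_ge hρ hρ1 hβ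
          calc (T.card : ℝ) * (((Λ + 2) * ρ) ^ n * m1)
              ≤ (2 * R + 1) ^ k / ρ ^ k * (((Λ + 2) * ρ) ^ n * m1) := by gcongr
            _ = C1 * (ρ ^ n / ρ ^ k) := by
                rw [hC1, mul_pow]
                field_simp
            _ ≤ C1 * ρ ^ β := by gcongr
            _ ≤ (C1 + C2) * ρ ^ β := by
                gcongr
                linarith
  · have hsub : Nb L' Λ ρ ⊆ closedBall 0 Λ := by
      rintro y ⟨hy1, _⟩
      simpa using hy1
    calc m (Nb L' Λ ρ) ≤ m (closedBall 0 Λ) := measure_mono hsub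
      _ = ENNReal.ofReal C2 := by
          rw [Measure.addHaar_closedBall m _ (by positivity), hm1e,
            ← ENNReal.ofReal_mul (by positivity)]
      _ ≤ _ := by
          apply ENNReal.ofReal_le_ofReal
          have h1 : 1 ≤ ρ ^ β := Real.one_le_rpow hρ1.le hβ0
          nlinarith

theorem spread_of_bdd (μ : Measure Ω) [IsFiniteMeasure μ] (ν : Measure F) [ν.IsAddHaarMeasure]
    (m : Measure E) [m.IsAddHaarMeasure]
    {L : Ω → F →ₗ[ℝ] E} (hLm : ∀ u, Measurable fun ω => L ω u) {Λ β : ℝ}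
    (hΛ : 1 ≤ Λ) (hL : ∀ ω u, ‖L ω u‖ ≤ Λ * ‖u‖) (hL' : ∀ ω u, ‖u‖ ≤ Λ * ‖L ω u‖)
    (hβ : 0 ≤ β) (hβk : β < Module.finrank ℝ F)
    (hβn : β ≤ (Module.finrank ℝ E : ℝ) - Module.finrank ℝ F) {C : ℝ≥0}
    (hb : ∀ A : Set E, MeasurableSet A →
      ∫⁻ ω, ν {u | 1 / 2 ≤ ‖u‖ ∧ ‖u‖ ≤ 1 ∧ L ω u ∈ A} ∂μ ≤ C * m A) :
    ∃ C0 : ℝ≥0, ∀ ω' r, 0 < r →
      ∫⁻ ω, ν (Cap (L ω) (L ω') r) ∂μ ≤ C0 * ENNReal.ofReal (r ^ β) := by
  set n := Module.finrank ℝ E with hn
  set k := Module.finrank ℝ F with hk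
  have hk0 : 0 < k := by
    by_contra h
    have h0 : k = 0 := by omega
    rw [h0] at hβk
    simp at hβk
    linarith
  have hnt : Nontrivial F := Module.nontrivial_of_finrank_pos (R := ℝ) hk0
  obtain ⟨C1, hC1, hnb⟩ := nb_le (F := F) m hΛ
  set q : ℝ := (1 / 2 : ℝ) ^ ((k : ℝ) - β) with hq
  have hq0 : 0 < q := by positivity
  have hq1 : q < 1 := Real.rpow_lt_one (by norm_num) (by norm_num) (by linarith)
  refine ⟨Real.toNNReal (C * C1 * (1 - q)⁻¹), ?_⟩
  intro ω' r hr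
  -- dyadic annuli
  let An : ℕ → Ω → Set F := fun i ω => (fun v => (2 : ℝ) ^ i • v) ⁻¹'
    {u | 1 / 2 ≤ ‖u‖ ∧ ‖u‖ ≤ 1 ∧ L ω u ∈ Nb (L ω') Λ (2 ^ i * r)}
  have hcov : ∀ ω, Cap (L ω) (L ω') r ⊆ {0} ∪ ⋃ i, An i ω := by
    rintro ω v ⟨hv1, hv2⟩
    rcases eq_or_ne v 0 with h0 | h0
    · exact Or.inl h0
    · right
      have hv0 : 0 < ‖v‖ := norm_pos_iff.2 h0
      obtain ⟨i, hi1, hi2⟩ := exists_nat_pow_near_of_lt_one hv0 hv1 (y := (1 / 2 : ℝ))
        (by norm_num) (by norm_num)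
      refine mem_iUnion.2 ⟨i, ?_⟩
      have h2i : (0 : ℝ) < 2 ^ i := by positivity
      have hn1 : ‖(2 : ℝ) ^ i • v‖ = 2 ^ i * ‖v‖ := by
        rw [norm_smul, Real.norm_of_nonneg h2i.le]
      have hhalf : (1 / 2 : ℝ) ^ i = (2 ^ i)⁻¹ := by
        rw [one_div, inv_pow]
      have hhalf1 : (1 / 2 : ℝ) ^ (i + 1) = (2 ^ i)⁻¹ * (1 / 2) := by
        rw [pow_succ, hhalf]
      have hle : 2 ^ i * ‖v‖ ≤ 1 := by
        rw [hhalf] at hi2
        calc 2 ^ i * ‖v‖ ≤ 2 ^ i * (2 ^ i)⁻¹ := by gcongr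
          _ = 1 := mul_inv_cancel₀ h2i.ne'
      refine ⟨?_, ?_, ?_, ?_⟩
      · show 1 / 2 ≤ ‖(2 : ℝ) ^ i • v‖
        rw [hn1]
        rw [hhalf1] at hi1
        calc (1 / 2 : ℝ) = 2 ^ i * ((2 ^ i)⁻¹ * (1 / 2)) := by
              rw [← mul_assoc, mul_inv_cancel₀ h2i.ne', one_mul]
          _ ≤ 2 ^ i * ‖v‖ := by gcongr
      · show ‖(2 : ℝ) ^ i • v‖ ≤ 1
        rw [hn1]
        exact hle
      · show ‖L ω ((2 : ℝ) ^ i • v)‖ ≤ Λ
        refine (hL ω _).trans ?_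
        rw [hn1]
        nlinarith
      · show infDist (L ω ((2 : ℝ) ^ i • v)) (range (L ω')) ≤ 2 ^ i * r
        refine le_of_forall_pos_lt_add fun ε hε => ?_
        have h1 : infDist (L ω v) (range (L ω')) < r + ε / 2 ^ i := by
          have : 0 < ε / 2 ^ i := by positivity
          linarith
        obtain ⟨_, ⟨w, rfl⟩, hw⟩ := (infDist_lt_iff (range_nonempty _)).1 h1
        refine lt_of_le_of_lt (infDist_le_dist_of_mem ⟨(2 : ℝ) ^ i • w, rfl⟩) ?_
        rw [map_smul, map_smul, dist_smul₀, Real.norm_of_nonneg h2i.le]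
        calc 2 ^ i * dist (L ω v) (L ω' w) < 2 ^ i * (r + ε / 2 ^ i) := by gcongr
          _ = 2 ^ i * r + ε := by
              rw [mul_add, mul_div_cancel₀ _ h2i.ne']
  have hmeasA : ∀ (i : ℕ), Measurable fun ω => ν {u | 1 / 2 ≤ ‖u‖ ∧ ‖u‖ ≤ 1 ∧
      L ω u ∈ Nb (L ω') Λ (2 ^ i * r)} := by
    intro i
    have h1 : MeasurableSet {p : Ω × F | 1 / 2 ≤ ‖p.2‖ ∧ ‖p.2‖ ≤ 1 ∧
        L p.1 p.2 ∈ Nb (L ω') Λ (2 ^ i * r)} := by
      have h2 : Measurable fun p : Ω × F => ‖p.2‖ := measurable_norm.comp measurable_snd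
      exact (measurableSet_le measurable_const h2).inter
        ((measurableSet_le h2 measurable_const).inter
          ((Nb.closed _ _ _).measurableSet.preimage (joint_measurable hLm)))
    exact measurable_measure_prodMk_left h1
  have hAn : ∀ i ω, ν (An i ω) = ENNReal.ofReal (((1 / 2 : ℝ) ^ i) ^ k) *
      ν {u | 1 / 2 ≤ ‖u‖ ∧ ‖u‖ ≤ 1 ∧ L ω u ∈ Nb (L ω') Λ (2 ^ i * r)} := by
    intro i ω
    have h2i : (0 : ℝ) < 2 ^ i := by positivity
    simp only [An]
    rw [Measure.addHaar_preimage_smul ν h2i.ne', abs_of_pos (by positivity)]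
    congr 2
    rw [one_div, inv_pow, inv_pow]
  have hint : ∀ i, ∫⁻ ω, ν (An i ω) ∂μ ≤
      ENNReal.ofReal (C * C1 * r ^ β * q ^ i) := by
    intro i
    have h2i : (0 : ℝ) < 2 ^ i := by positivity
    calc ∫⁻ ω, ν (An i ω) ∂μ
        = ENNReal.ofReal (((1 / 2 : ℝ) ^ i) ^ k) * ∫⁻ ω, ν {u | 1 / 2 ≤ ‖u‖ ∧ ‖u‖ ≤ 1 ∧
          L ω u ∈ Nb (L ω') Λ (2 ^ i * r)} ∂μ := by
          simp only [hAn i]
          rw [lintegral_const_mul _ (hmeasA i)]
      _ ≤ ENNReal.ofReal (((1 / 2 : ℝ) ^ i) ^ k) * (C * m (Nb (L ω') Λ (2 ^ i * r))) := by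
          gcongr
          exact hb _ (Nb.closed _ _ _).measurableSet
      _ ≤ ENNReal.ofReal (((1 / 2 : ℝ) ^ i) ^ k) *
          (C * ENNReal.ofReal (C1 * (2 ^ i * r) ^ β)) := by
          gcongr
          exact hnb (L ω') (hL ω') (hL' ω') _ β (by positivity) hβ hβn
      _ = ENNReal.ofReal (C * C1 * r ^ β * q ^ i) := by
          rw [← ENNReal.ofReal_coe_nnreal, ← ENNReal.ofReal_mul (by positivity),
            ← ENNReal.ofReal_mul (by positivity)]
          congr 1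
          have h1 : q ^ i = ((1 / 2 : ℝ) ^ i) ^ k * ((2 : ℝ) ^ i) ^ β := by
            rw [hq, ← Real.rpow_natCast, ← Real.rpow_mul (by norm_num), sub_mul,
              Real.rpow_sub (by norm_num), ← Real.rpow_natCast (2 : ℝ) i,
              ← Real.rpow_mul (by norm_num), ← Real.rpow_natCast ((1 / 2 : ℝ) ^ i) k,
              ← Real.rpow_natCast (1 / 2 : ℝ) i, ← Real.rpow_mul (by norm_num)]
            rw [div_eq_mul_inv, ← Real.rpow_neg (by norm_num), mul_comm (k : ℝ) (i : ℝ)]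
            congr 1
            rw [one_div, Real.inv_rpow (by norm_num), ← Real.rpow_neg (by norm_num), neg_neg,
              mul_comm]
          rw [h1, Real.mul_rpow h2i.le hr.le]
          ring
  calc ∫⁻ ω, ν (Cap (L ω) (L ω') r) ∂μ ≤ ∫⁻ ω, ∑' i, ν (An i ω) ∂μ := by
        refine lintegral_mono fun ω => ?_
        refine (measure_mono (hcov ω)).trans ((measure_union_le _ _).trans ?_)
        rw [measure_singleton, zero_add]
        exact measure_iUnion_le _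
    _ = ∑' i, ∫⁻ ω, ν (An i ω) ∂μ := by
        rw [lintegral_tsum]
        intro i
        simp only [hAn i]
        exact ((hmeasA i).const_mul _).aemeasurable
    _ ≤ ∑' i : ℕ, ENNReal.ofReal (C * C1 * r ^ β * q ^ i) := ENNReal.tsum_le_tsum hint
    _ = ENNReal.ofReal (C * C1 * r ^ β * (1 - q)⁻¹) := by
        rw [← ENNReal.ofReal_tsum_of_nonneg (fun j => by positivity)
          ((summable_geometric_of_lt_one hq0.le hq1).mul_left _), tsum_mul_left,
          tsum_geometric_of_lt_one hq0.le hq1]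
    _ = (Real.toNNReal (C * C1 * (1 - q)⁻¹) : ℝ≥0) * ENNReal.ofReal (r ^ β) := by
        have h1 : 0 ≤ (1 - q)⁻¹ := inv_nonneg.2 (by linarith)
        rw [show ((Real.toNNReal (C * C1 * (1 - q)⁻¹) : ℝ≥0) : ℝ≥0∞) =
          ENNReal.ofReal (C * C1 * (1 - q)⁻¹) from rfl, ← ENNReal.ofReal_mul (by positivity)]
        congr 1
        ring

end

end Run7.h750.LC
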