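import Mathlib
import Pool.Agent.Run7.h750.LC4
set_option autoImplicit false
set_option linter.unusedSectionVars false

/-! Families of subspaces of `ℝ^n`, towers, families of graphs. -/

namespace Run7.h750.LC

open MeasureTheory Set Metric Filter
open scoped ENNReal NNReal Pointwise Topology

/-- `ℝ^n` with its Euclidean norm -/
abbrev E (n : ℕ) := EuclideanSpace ℝ (Fin n)

/-- Lebesgue (outer) measure on `ℝ^n` -/
noncomputable def vol {n : ℕ} (A : Set (E n)) : ℝ≥0∞ := volume A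

/-- The linear map `Z` and its inverse are bounded by `Λ`. -/
def Bilip {k n : ℕ} (Λ : ℝ) (Z : E k →ₗ[ℝ] E n) : Prop :=
  ∀ u, ‖Z u‖ ≤ Λ * ‖u‖ ∧ ‖u‖ ≤ Λ * ‖Z u‖

/-- A measurable family of `k`-dimensional linear subspaces `range (L ω)` of `ℝ^n`. The index `ω`
runs through a finite measure space, and the subspace number `ω` is parametrised by an injective
linear map `L ω : ℝ^k → ℝ^n`, which depends measurably on `ω`, with uniform bounds for `L ω` and
its inverse. -/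
structure Family (k n : ℕ) where
  Ω : Type
  mΩ : MeasurableSpace Ω
  μ : Measure Ω
  fin : μ univ < ⊤
  L : Ω → E k →ₗ[ℝ] E n
  meas : ∀ u, Measurable fun ω => L ω u
  Λ : ℝ
  bound : ∀ ω, Bilip Λ (L ω)

attribute [instance] Family.mΩ

/-- The family is `β`-spread: on average over `ω`, the volume of the part of the unit ball of the
subspace number `ω` which lies in the `r`-neighbourhood of the subspace number `ω'` is at most
`C r^β`, for all `ω'` and all `r > 0`. -/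
def Family.Spread {k n : ℕ} (𝓕 : Family k n) (β : ℝ) : Prop :=
  ∃ C : ℝ≥0, ∀ ω' r, 0 < r →
    ∫⁻ ω, volume {u : E k | ‖u‖ ≤ 1 ∧ infDist (𝓕.L ω u) (range (𝓕.L ω')) ≤ r} ∂𝓕.μ ≤
      C * ENNReal.ofReal (r ^ β)

/-- Bounded multiplicity: the subspaces of the family cover the set `A ⊆ ℝ^n`, counted with
multiplicity, by at most `C` times its volume (for subsets of a spherical shell). -/
def Family.BoundedMultiplicity {k n : ℕ} (𝓕 : Family k n) : Prop :=
  ∃ C : ℝ≥0, ∀ A : Set (E n), MeasurableSet A →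
    ∫⁻ ω, volume {u : E k | 1 / 2 ≤ ‖u‖ ∧ ‖u‖ ≤ 1 ∧ 𝓕.L ω u ∈ A} ∂𝓕.μ ≤ C * volume A

/-- Towers: sets of positive outer length on the line, and subsets of `ℝ^n` which, for the members
of a non null set of members of a family of `k`-dimensional subspaces that is `β`-spread for all
`β < n - k`, contain a set of this kind in a translate of the subspace. -/
inductive Tower : (n : ℕ) → Set (E n) → Prop
  | line (K : Set (E 1)) (h : vol K ≠ 0) : Tower 1 K
  | step {k n : ℕ} (𝓕 : Family k n) (h : ∀ β : ℝ, 0 ≤ β → β < (n : ℝ) - k → 𝓕.Spread β)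
      (S : Set 𝓕.Ω) (hS : 𝓕.μ S ≠ 0) (x : 𝓕.Ω → E n) (K : Set (E n))
      (hK : ∀ ω ∈ S, Tower k {u | x ω + 𝓕.L ω u ∈ K}) : Tower n K

instance Family.finite {k n : ℕ} (𝓕 : Family k n) : IsFiniteMeasure 𝓕.μ := ⟨𝓕.fin⟩

theorem Family.bounds {k n : ℕ} (𝓕 : Family k n) : (∀ ω u, ‖𝓕.L ω u‖ ≤ max 𝓕.Λ 1 * ‖u‖) ∧
    ∀ ω u, ‖u‖ ≤ max 𝓕.Λ 1 * ‖𝓕.L ω u‖ := by
  constructor
  · intro ω u
    refine (𝓕.bound ω u).1.trans ?_
    gcongr
    exact le_max_left _ _
  · intro ω u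
    refine (𝓕.bound ω u).2.trans ?_
    gcongr
    exact le_max_left _ _

theorem Family.furst {k n : ℕ} (𝓕 : Family k n) {β : ℝ} (hβ : 0 ≤ β) (h : 𝓕.Spread β)
    (x : 𝓕.Ω → E n) (K : Set (E n)) {S : Set 𝓕.Ω} (hS : 𝓕.μ S ≠ 0) {s : ℝ≥0}
    (hs : ∀ ω ∈ S, (s : ℝ≥0∞) ≤ dimH {u | x ω + 𝓕.L ω u ∈ K}) :
    2 * (s : ℝ≥0∞) + ENNReal.ofReal β ≤ dimH K + k := by
  obtain ⟨C, hC⟩ := h
  have h1 := LC.furst 𝓕.μ (volume : Measure (E k)) 𝓕.meas (le_max_right 𝓕.Λ 1) 𝓕.bounds.1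
    𝓕.bounds.2 hβ (C0 := C) hC (x := x) (K := K) hS hs
  simpa using h1

theorem Family.spread_of_boundedMultiplicity {k n : ℕ} (𝓕 : Family k n)
    (h : 𝓕.BoundedMultiplicity) {β : ℝ} (hβ : 0 ≤ β) (hβk : β < k) (hβn : β ≤ (n : ℝ) - k) :
    𝓕.Spread β := by
  obtain ⟨C, hC⟩ := h
  obtain ⟨C0, h0⟩ := spread_of_bdd 𝓕.μ (volume : Measure (E k)) (volume : Measure (E n)) 𝓕.meas
    (le_max_right 𝓕.Λ 1) 𝓕.bounds.1 𝓕.bounds.2 hβ (by simpa using hβk) (by simpa using hβn)
    (C := C) hC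
  exact ⟨C0, h0⟩

theorem Family.spread_zero {k n : ℕ} (𝓕 : Family k n) : 𝓕.Spread 0 := by
  set V : ℝ≥0∞ := volume (closedBall (0 : E k) 1) * 𝓕.μ univ with hV
  have hVt : V ≠ ⊤ := ENNReal.mul_ne_top measure_closedBall_lt_top.ne 𝓕.fin.ne
  refine ⟨V.toNNReal, fun ω' r _ => ?_⟩
  rw [Real.rpow_zero, ENNReal.ofReal_one, mul_one, ENNReal.coe_toNNReal hVt, hV, ← lintegral_const]
  apply lintegral_mono
  intro ω
  apply measure_mono
  rintro u ⟨hu, _⟩
  simpa using hu

theorem Tower.dim {n : ℕ} {K : Set (E n)} (h : Tower n K) : dimH K = n := by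
  have hup : ∀ (n : ℕ) (K : Set (E n)), dimH K ≤ n := by
    intro n K
    have h1 : dimH K ≤ dimH (univ : Set (E n)) := dimH_mono (subset_univ _)
    have h2 : dimH (univ : Set (E n)) = Module.finrank ℝ (E n) := Real.dimH_univ_eq_finrank _
    rw [h2] at h1
    simpa using h1
  induction h with
  | line K h =>
    apply le_antisymm (by simpa using hup 1 K)
    have h1 : μH[((1 : ℝ≥0) : ℝ)] K ≠ 0 := by
      intro h0
      apply h
      have h2 : volume K = 0 := by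
        have h3 : (volume : Measure (E 1)) ≪ μH[((1 : ℝ≥0) : ℝ)] := by
          have h4 := MeasureTheory.isAddHaarMeasure_hausdorffMeasure (E := E 1)
          have h5 : (Module.finrank ℝ (E 1) : ℝ) = ((1 : ℝ≥0) : ℝ) := by simp
          rw [h5] at h4
          exact Measure.absolutelyContinuous_isAddHaarMeasure _ _
        exact h3 h0
      exact h2
    have h2 := le_dimH_of_hausdorffMeasure_ne_zero h1
    simpa using h2
  | @step k n 𝓕 h S hS x K hK ih =>
    apply le_antisymm (hup n K)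
    have key : ∀ β : ℝ, 0 ≤ β → 𝓕.Spread β → (k : ℝ≥0∞) + ENNReal.ofReal β ≤ dimH K := by
      intro β hβ hsp
      have h1 := 𝓕.furst hβ hsp x K hS (s := (k : ℝ≥0)) (fun ω hω => by
        rw [ih ω hω]
        simp)
      have h2 : 2 * (((k : ℝ≥0) : ℝ≥0∞)) + ENNReal.ofReal β =
          ((k : ℝ≥0∞) + ENNReal.ofReal β) + k := by
        push_cast
        ring
      rw [h2] at h1
      exact (ENNReal.add_le_add_iff_right (ENNReal.natCast_ne_top k)).1 h1
    by_contra hcon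
    push Not at hcon
    have hDt : dimH K ≠ ⊤ := (lt_of_lt_of_le hcon le_top).ne
    set D : ℝ := (dimH K).toReal with hD
    have hD0 : 0 ≤ D := ENNReal.toReal_nonneg
    have hDe : dimH K = ENNReal.ofReal D := (ENNReal.ofReal_toReal hDt).symm
    have hDn : D < n := by
      rw [hDe, ← ENNReal.ofReal_natCast] at hcon
      exact (ENNReal.ofReal_lt_ofReal_iff_of_nonneg hD0).1 hcon
    have hkey : ∀ β : ℝ, 0 ≤ β → 𝓕.Spread β → k + β ≤ D := by
      intro β hβ hsp
      have h1 := key β hβ hsp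
      rw [hDe, ← ENNReal.ofReal_natCast, ← ENNReal.ofReal_add (by positivity) hβ,
        ENNReal.ofReal_le_ofReal_iff hD0] at h1
      exact h1
    have h1 := hkey 0 le_rfl 𝓕.spread_zero
    have h2 := hkey ((D + n) / 2 - k) (by linarith) (h _ (by linarith) (by linarith))
    linarith

/-- The graph of the linear map `b ω : ℝ^k → ℝ^m`, parametrised by `ℝ^k`. -/
def graph {p k m : ℕ} (b : E p →ₗ[ℝ] E k →ₗ[ℝ] E m) (ω : E p) : E k →ₗ[ℝ] E (k + m) where
  toFun u := WithLp.toLp 2 (Fin.append u (b ω u))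
  map_add' u v := by
    ext i
    refine Fin.addCases (fun i => ?_) (fun i => ?_) i <;> simp
  map_smul' c u := by
    ext i
    refine Fin.addCases (fun i => ?_) (fun i => ?_) i <;> simp

theorem norm_append {k m : ℕ} (u : E k) (v : E m) :
    ‖(WithLp.toLp 2 (Fin.append u v) : E (k + m))‖ ^ 2 = ‖u‖ ^ 2 + ‖v‖ ^ 2 := by
  rw [EuclideanSpace.norm_sq_eq, EuclideanSpace.norm_sq_eq, EuclideanSpace.norm_sq_eq,
    Fin.sum_univ_add]
  simp

/-- The family of the graphs of `b ω` is nondegenerate of order `β`. -/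
def NonDeg {p k m : ℕ} (b : E p →ₗ[ℝ] E k →ₗ[ℝ] E m) (β : ℝ) : Prop :=
  ∀ ρ : ℝ, ∃ C : ℝ≥0, ∀ r : ℝ, 0 < r →
    ∫⁻ w in closedBall 0 ρ, volume {u : E k | ‖u‖ ≤ 1 ∧ ‖b w u‖ ≤ r} ≤ C * ENNReal.ofReal (r ^ β)

theorem exists_bilin_bound {p k m : ℕ} (b : E p →ₗ[ℝ] E k →ₗ[ℝ] E m) :
    ∃ B : ℝ, 0 ≤ B ∧ ∀ w u, ‖b w u‖ ≤ B * ‖w‖ * ‖u‖ := by
  let b1 : E p →ₗ[ℝ] (E k →L[ℝ] E m) :=
    (LinearMap.toContinuousLinearMap : (E k →ₗ[ℝ] E m) ≃ₗ[ℝ] (E k →L[ℝ] E m)).toLinearMap ∘ₗ b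
  let b2 : E p →L[ℝ] (E k →L[ℝ] E m) := LinearMap.toContinuousLinearMap b1
  exact ⟨‖b2‖, b2.opNorm_nonneg, fun w u => b2.le_opNorm₂ w u⟩

theorem graph_apply {p k m : ℕ} (b : E p →ₗ[ℝ] E k →ₗ[ℝ] E m) (ω : E p) (u : E k) :
    graph b ω u = WithLp.toLp 2 (Fin.append u (b ω u)) := rfl

theorem graph_measurable {p k m : ℕ} (b : E p →ₗ[ℝ] E k →ₗ[ℝ] E m) (u : E k) :
    Measurable fun ω => graph b ω u := by
  have h1 : Continuous fun ω => graph b ω u := by
    have h2 : Continuous fun ω => b ω u := by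
      obtain ⟨B, hB0, hB⟩ := exists_bilin_bound b
      exact LinearMap.continuous_of_finiteDimensional (b.flip u)
    simp only [graph_apply]
    refine (PiLp.continuous_toLp 2 _).comp ?_
    refine continuous_pi fun i => ?_
    refine Fin.addCases (fun i => ?_) (fun i => ?_) i
    · simp only [Fin.append_left]
      exact continuous_const
    · simp only [Fin.append_right]
      exact (EuclideanSpace.proj i).continuous.comp h2
  exact h1.measurable

/-- The family of the graphs, with `ω` in a ball. -/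
noncomputable def graphFamily {p k m : ℕ} (b : E p →ₗ[ℝ] E k →ₗ[ℝ] E m) (ρ : ℕ) :
    Family k (k + m) := by
  classical
  exact {
    Ω := E p
    mΩ := inferInstance
    μ := volume.restrict (closedBall 0 ρ)
    fin := by
      rw [Measure.restrict_apply_univ]
      exact measure_closedBall_lt_top
    L := fun ω => if ‖ω‖ ≤ ρ then graph b ω else graph b 0
    meas := by
      intro u
      have h1 : (fun ω : E p => (if ‖ω‖ ≤ ρ then graph b ω else graph b 0) u) =
          fun ω => if ‖ω‖ ≤ ρ then graph b ω u else graph b 0 u := by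
        funext ω
        split_ifs <;> rfl
      rw [h1]
      exact Measurable.ite (measurableSet_le measurable_norm measurable_const)
        (graph_measurable b u) measurable_const
    Λ := 1 + (exists_bilin_bound b).choose * ρ
    bound := by
      obtain ⟨hB0, hB⟩ := (exists_bilin_bound b).choose_spec
      set B := (exists_bilin_bound b).choose
      have hρ : (0 : ℝ) ≤ ρ := Nat.cast_nonneg ρ
      have key : ∀ ω : E p, ‖ω‖ ≤ ρ → ∀ u, ‖graph b ω u‖ ≤ (1 + B * ρ) * ‖u‖ ∧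
          ‖u‖ ≤ (1 + B * ρ) * ‖graph b ω u‖ := by
        intro ω hω u
        have h1 := norm_append u (b ω u)
        rw [← graph_apply] at h1
        have h2 : ‖b ω u‖ ≤ B * ρ * ‖u‖ := (hB ω u).trans (by gcongr)
        have h3 : 0 ≤ B * ρ := by positivity
        constructor
        · have h4 : ‖graph b ω u‖ ≤ ‖u‖ + ‖b ω u‖ := by
            apply le_of_sq_le_sq _ (by positivity)
            rw [h1]
            nlinarith [norm_nonneg u, norm_nonneg (b ω u)]
          nlinarith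
        · have h4 : ‖u‖ ≤ ‖graph b ω u‖ := by
            apply le_of_sq_le_sq _ (norm_nonneg _)
            rw [h1]
            nlinarith [norm_nonneg (b ω u)]
          nlinarith [norm_nonneg (graph b ω u)]
      intro ω u
      by_cases hω : ‖ω‖ ≤ ρ
      · simp only [hω, if_true]
        exact key ω hω u
      · simp only [hω, if_false]
        exact key 0 (by simp) u }

theorem graph_cap {p k m : ℕ} (b : E p →ₗ[ℝ] E k →ₗ[ℝ] E m) {B : ℝ} (hB0 : 0 ≤ B)
    (hB : ∀ w u, ‖b w u‖ ≤ B * ‖w‖ * ‖u‖) {ρ : ℝ} {ω ω' : E p} (hω' : ‖ω'‖ ≤ ρ) {r : ℝ}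
    (hr : 0 < r) {u : E k} (hu : infDist (graph b ω u) (range (graph b ω')) ≤ r) :
    ‖b (ω - ω') u‖ ≤ (2 + 2 * B * ρ) * r := by
  have h1 : infDist (graph b ω u) (range (graph b ω')) < 2 * r := by linarith
  obtain ⟨_, ⟨v, rfl⟩, hv⟩ := (infDist_lt_iff (range_nonempty _)).1 h1
  rw [dist_eq_norm] at hv
  have h2 : graph b ω u - graph b ω' v =
      (WithLp.toLp 2 (Fin.append (u - v : E k) (b ω u - b ω' v : E m)) : E (k + m)) := by
    rw [graph_apply, graph_apply]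
    ext i
    refine Fin.addCases (fun i => ?_) (fun i => ?_) i <;> simp
  have h3 := norm_append (u - v) (b ω u - b ω' v)
  rw [← h2] at h3
  have h4 : ‖u - v‖ ≤ 2 * r := by
    apply le_of_sq_le_sq _ (by positivity)
    nlinarith [norm_nonneg (b ω u - b ω' v), norm_nonneg (graph b ω u - graph b ω' v)]
  have h5 : ‖b ω u - b ω' v‖ ≤ 2 * r := by
    apply le_of_sq_le_sq _ (by positivity)
    nlinarith [norm_nonneg (u - v), norm_nonneg (graph b ω u - graph b ω' v)]
  have h6 : b (ω - ω') u = (b ω u - b ω' v) - b ω' (u - v) := by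
    rw [map_sub, map_sub, LinearMap.sub_apply]
    abel
  rw [h6]
  have h7 := hB ω' (u - v)
  have hρ : 0 ≤ ρ := (norm_nonneg _).trans hω'
  have h8 : B * ‖ω'‖ * ‖u - v‖ ≤ B * ρ * (2 * r) := by gcongr
  calc ‖(b ω u - b ω' v) - b ω' (u - v)‖ ≤ ‖b ω u - b ω' v‖ + ‖b ω' (u - v)‖ := norm_sub_le _ _
    _ ≤ (2 + 2 * B * ρ) * r := by linarith

theorem graph_spread {p k m : ℕ} (b : E p →ₗ[ℝ] E k →ₗ[ℝ] E m) {β : ℝ}
    (hb : NonDeg b β) (ρ : ℕ) : (graphFamily b ρ).Spread β := by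
  classical
  obtain ⟨B, hB0, hB⟩ := exists_bilin_bound b
  have hρ : (0 : ℝ) ≤ ρ := Nat.cast_nonneg ρ
  obtain ⟨C, hC⟩ := hb (2 * ρ)
  set c : ℝ := 2 + 2 * B * ρ with hc
  have hc0 : 0 < c := by positivity
  refine ⟨C * Real.toNNReal (c ^ β), fun ω' r hr => ?_⟩
  -- the reference member
  have hall : ∀ w : E p, ∃ w' : E p, ‖w'‖ ≤ ρ ∧ (graphFamily b ρ).L w = graph b w' := by
    intro w
    by_cases h : ‖w‖ ≤ ρ
    · exact ⟨w, h, if_pos h⟩
    · exact ⟨0, by simp, if_neg h⟩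
  obtain ⟨w', hw', hL'⟩ := hall ω'
  rw [hL']
  let f : E p → ℝ≥0∞ := fun w => volume {u : E k | ‖u‖ ≤ 1 ∧ ‖b w u‖ ≤ c * r}
  have h1 : ∫⁻ ω, volume {u : E k | ‖u‖ ≤ 1 ∧ infDist ((graphFamily b ρ).L ω u)
      (range (graph b w')) ≤ r} ∂(graphFamily b ρ).μ ≤
      ∫⁻ ω in closedBall 0 ρ, (closedBall (0 : E p) (2 * ρ)).indicator f (ω - w') := by
    show ∫⁻ ω : E p, volume {u : E k | ‖u‖ ≤ 1 ∧ infDist ((graphFamily b ρ).L ω u)
      (range (graph b w')) ≤ r} ∂(volume.restrict (closedBall 0 ρ)) ≤ _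
    refine setLIntegral_mono' measurableSet_closedBall fun ω hω => ?_
    rw [mem_closedBall_zero_iff] at hω
    rw [indicator_of_mem]
    · apply measure_mono
      rintro u ⟨hu1, hu2⟩
      refine ⟨hu1, ?_⟩
      have hL : (graphFamily b ρ).L ω = graph b ω := if_pos hω
      rw [hL] at hu2
      exact graph_cap b hB0 hB hw' hr hu2
    · rw [mem_closedBall_zero_iff]
      calc ‖ω - w'‖ ≤ ‖ω‖ + ‖w'‖ := norm_sub_le _ _
        _ ≤ 2 * ρ := by linarith
  refine h1.trans ?_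
  calc ∫⁻ ω in closedBall 0 ρ, (closedBall (0 : E p) (2 * ρ)).indicator f (ω - w')
      ≤ ∫⁻ ω, (closedBall (0 : E p) (2 * ρ)).indicator f (ω - w') := setLIntegral_le_lintegral _ _
    _ = ∫⁻ ω, (closedBall (0 : E p) (2 * ρ)).indicator f ω :=
        lintegral_sub_right_eq_self _ w'
    _ = ∫⁻ ω in closedBall (0 : E p) (2 * ρ), f ω := by
        rw [lintegral_indicator measurableSet_closedBall]
    _ ≤ C * ENNReal.ofReal ((c * r) ^ β) := hC (c * r) (by positivity)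
    _ = _ := by
        rw [Real.mul_rpow hc0.le hr.le, ENNReal.ofReal_mul (by positivity), ENNReal.coe_mul,
          mul_assoc]
        rfl

theorem tower_graph {p k m : ℕ} (b : E p →ₗ[ℝ] E k →ₗ[ℝ] E m)
    (hb : ∀ β : ℝ, 0 ≤ β → β < m → NonDeg b β) {S : Set (E p)} (hS : volume S ≠ 0)
    (x : E p → E (k + m)) (K : Set (E (k + m)))
    (hK : ∀ ω ∈ S, Tower k {u | x ω + graph b ω u ∈ K}) : Tower (k + m) K := by
  classical
  have hcov : S ⊆ ⋃ ρ : ℕ, S ∩ closedBall 0 (ρ : ℝ) := by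
    intro ω hω
    obtain ⟨ρ, hρ⟩ := exists_nat_ge ‖ω‖
    exact mem_iUnion.2 ⟨ρ, hω, by simpa using hρ⟩
  have hex : ∃ ρ : ℕ, volume (S ∩ closedBall 0 (ρ : ℝ)) ≠ 0 := by
    by_contra hcon
    push Not at hcon
    exact hS (measure_mono_null hcov (measure_iUnion_null hcon))
  obtain ⟨ρ, hρ⟩ := hex
  let S' : Set (E p) := S ∩ closedBall 0 (ρ : ℝ)
  refine Tower.step (graphFamily b ρ) ?_ S' ?_ x K ?_
  · intro β h1 h2
    refine graph_spread b (hb β h1 ?_) ρ
    have h3 : (((k + m : ℕ) : ℝ)) - k = m := by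
      push_cast
      ring
    rwa [h3] at h2
  · show volume.restrict (closedBall 0 (ρ : ℝ)) (S ∩ closedBall 0 (ρ : ℝ)) ≠ 0
    rw [Measure.restrict_apply' measurableSet_closedBall, inter_assoc, inter_self]
    exact hρ
  · intro ω hω
    have h0 : (ω : E p) ∈ closedBall (0 : E p) (ρ : ℝ) := hω.2
    have hL : (graphFamily b ρ).L ω = graph b ω := if_pos (mem_closedBall_zero_iff.1 h0)
    rw [hL]
    exact hK ω hω.1

end Run7.h750.LC
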