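import Mathlib
import Pool.Agent.Run7.h750.LC5
import Pool.Agent.H023R3.KakGen
set_option autoImplicit false
set_option linter.unusedSectionVars false

/-! Products of lines. -/

namespace Run7.h750.LC

open MeasureTheory Set Metric Filter
open scoped ENNReal NNReal Pointwise Topology

/-- The bilinear map `(w, u) ↦ (w_1 u_1, ..., w_m u_m)`, `w ∈ ℝ^m`, `u ∈ ℝ^(m + l)`. -/
def prodMap (m l : ℕ) : E m →ₗ[ℝ] E (m + l) →ₗ[ℝ] E m :=
  LinearMap.mk₂ ℝ (fun w u => WithLp.toLp 2 fun i => w i * u (Fin.castAdd l i))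
    (by intro w w' u; ext i; simp [add_mul])
    (by intro c w u; ext i; simp [mul_assoc])
    (by intro w u u'; ext i; simp [mul_add])
    (by intro c w u; ext i; simp [mul_left_comm])

theorem prodMap_apply (m l : ℕ) (w : E m) (u : E (m + l)) (i : Fin m) :
    prodMap m l w u i = w i * u (Fin.castAdd l i) := rfl

theorem abs_coord_le {n : ℕ} (u : E n) (i : Fin n) : |u i| ≤ ‖u‖ := by
  have h := PiLp.norm_apply_le u i
  rwa [Real.norm_eq_abs] at h

theorem one_factor {w r θ : ℝ} (hr : 0 < r) (hθ0 : 0 < θ) (hθ1 : θ < 1) :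
    volume {s : ℝ | |s| ≤ 1 ∧ |w * s| ≤ r} ≤
      2 * ENNReal.ofReal r ^ θ * ENNReal.ofReal |w| ^ (-θ) := by
  rcases eq_or_ne w 0 with h0 | h0
  · rw [h0, abs_zero, ENNReal.ofReal_zero, ENNReal.zero_rpow_of_neg (by linarith), ENNReal.mul_top]
    · exact le_top
    · apply mul_ne_zero (by norm_num)
      exact (ENNReal.rpow_pos (ENNReal.ofReal_pos.2 hr) ENNReal.ofReal_ne_top).ne'
  · have hw : 0 < |w| := abs_pos.2 h0
    set c : ℝ := min 1 (r / |w|) with hc
    have hc0 : 0 < c := lt_min one_pos (by positivity)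
    have hsub : {s : ℝ | |s| ≤ 1 ∧ |w * s| ≤ r} ⊆ Icc (-c) c := by
      rintro s ⟨h1, h2⟩
      rw [abs_mul] at h2
      have h3 : |s| ≤ r / |w| := by
        rw [le_div_iff₀ hw]
        linarith
      exact abs_le.1 (le_min h1 h3)
    have hcθ : c ≤ (r / |w|) ^ θ := by
      rcases le_total 1 (r / |w|) with h | h
      · exact (min_le_left _ _).trans (Real.one_le_rpow h hθ0.le)
      · refine (min_le_right _ _).trans ?_
        have h4 := Real.rpow_le_rpow_of_exponent_ge (by positivity : 0 < r / |w|) h hθ1.le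
        rwa [Real.rpow_one] at h4
    calc volume {s : ℝ | |s| ≤ 1 ∧ |w * s| ≤ r} ≤ volume (Icc (-c) c) := measure_mono hsub
      _ = ENNReal.ofReal (2 * c) := by
          rw [Real.volume_Icc]
          congr 1
          ring
      _ ≤ ENNReal.ofReal (2 * (r ^ θ * |w| ^ (-θ))) := by
          apply ENNReal.ofReal_le_ofReal
          rw [Real.rpow_neg hw.le, ← div_eq_mul_inv, ← Real.div_rpow hr.le hw.le]
          linarith
      _ = _ := by
          rw [ENNReal.ofReal_mul (by norm_num), ENNReal.ofReal_mul (by positivity),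
            ← ENNReal.ofReal_rpow_of_pos hr, ← ENNReal.ofReal_rpow_of_pos hw, ← mul_assoc]
          norm_num

theorem prod_slice {m l : ℕ} (w : E m) {r θ : ℝ} (hr : 0 < r) (hθ0 : 0 < θ) (hθ1 : θ < 1) :
    volume {u : E (m + l) | ‖u‖ ≤ 1 ∧ ‖prodMap m l w u‖ ≤ r} ≤
      2 ^ l * ∏ i : Fin m, (2 * ENNReal.ofReal r ^ θ * ENNReal.ofReal |w i| ^ (-θ)) := by
  let T : Fin (m + l) → Set ℝ := Fin.addCases (motive := fun _ => Set ℝ)
    (fun i : Fin m => {s : ℝ | |s| ≤ 1 ∧ |w i * s| ≤ r}) (fun _ => {s : ℝ | |s| ≤ 1})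
  have hsub : {u : E (m + l) | ‖u‖ ≤ 1 ∧ ‖prodMap m l w u‖ ≤ r} ⊆
      (WithLp.ofLp : E (m + l) → (Fin (m + l) → ℝ)) ⁻¹' (Set.pi univ T) := by
    rintro u ⟨hu1, hu2⟩
    intro j _
    refine Fin.addCases (fun i => ?_) (fun i => ?_) j
    · show u (Fin.castAdd l i) ∈ T (Fin.castAdd l i)
      simp only [T, Fin.addCases_left]
      exact ⟨(abs_coord_le u _).trans hu1, (abs_coord_le (prodMap m l w u) i).trans hu2⟩
    · show u (Fin.natAdd m i) ∈ T (Fin.natAdd m i)
      simp only [T, Fin.addCases_right]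
      exact (abs_coord_le u _).trans hu1
  have hTm : ∀ j, MeasurableSet (T j) := by
    intro j
    refine Fin.addCases (fun i => ?_) (fun i => ?_) j
    · simp only [T, Fin.addCases_left]
      exact ((isClosed_le continuous_abs continuous_const).inter
        (isClosed_le (by fun_prop : Continuous fun s : ℝ => |w i * s|)
          continuous_const)).measurableSet
    · simp only [T, Fin.addCases_right]
      exact (isClosed_le continuous_abs continuous_const).measurableSet
  calc volume {u : E (m + l) | ‖u‖ ≤ 1 ∧ ‖prodMap m l w u‖ ≤ r}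
      ≤ volume ((WithLp.ofLp : E (m + l) → (Fin (m + l) → ℝ)) ⁻¹' (Set.pi univ T)) :=
        measure_mono hsub
    _ = volume (Set.pi univ T) :=
        (PiLp.volume_preserving_ofLp (Fin (m + l))).measure_preimage
          (MeasurableSet.univ_pi hTm).nullMeasurableSet
    _ = ∏ j, volume (T j) := by
        rw [volume_pi_pi]
    _ = (∏ i : Fin m, volume {s : ℝ | |s| ≤ 1 ∧ |w i * s| ≤ r}) *
          ∏ i : Fin l, volume {s : ℝ | |s| ≤ 1} := by
        rw [Fin.prod_univ_add]
        simp only [T, Fin.addCases_left, Fin.addCases_right]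
    _ ≤ (∏ i : Fin m, (2 * ENNReal.ofReal r ^ θ * ENNReal.ofReal |w i| ^ (-θ))) * 2 ^ l := by
        gcongr with i
        · exact one_factor hr hθ0 hθ1
        · rw [Finset.prod_const, Finset.card_univ, Fintype.card_fin]
          gcongr
          have h1 : {s : ℝ | |s| ≤ 1} = Icc (-1 : ℝ) 1 := by
            ext s
            exact (abs_le : |s| ≤ 1 ↔ -1 ≤ s ∧ s ≤ 1)
          rw [h1, Real.volume_Icc]
          norm_num
    _ = _ := mul_comm _ _

theorem nonDeg_prodMap (m l : ℕ) {β : ℝ} (hβ : 0 ≤ β) (hβm : β < m) :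
    NonDeg (prodMap m l) β := by
  intro ρ
  rcases hβ.eq_or_lt with h0 | h0
  · subst h0
    set V : ℝ≥0∞ := volume (closedBall (0 : E (m + l)) 1) * volume (closedBall (0 : E m) ρ) with hV
    have hVt : V ≠ ⊤ := ENNReal.mul_ne_top measure_closedBall_lt_top.ne
      measure_closedBall_lt_top.ne
    refine ⟨V.toNNReal, fun r _ => ?_⟩
    rw [Real.rpow_zero, ENNReal.ofReal_one, mul_one, ENNReal.coe_toNNReal hVt, hV,
      ← setLIntegral_const]
    apply lintegral_mono
    intro ω
    apply measure_mono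
    rintro u ⟨hu, _⟩
    simpa using hu
  · have hm0 : (0 : ℝ) < m := lt_trans h0 hβm
    set θ : ℝ := β / m with hθ
    have hθ0 : 0 < θ := by positivity
    have hθ1 : θ < 1 := (div_lt_one hm0).2 hβm
    obtain ⟨C1, hC1, h1⟩ := Pool.Agent.H023R3.KG.one_dim hθ0 hθ1 ρ
    set C : ℝ≥0∞ := 2 ^ l * (2 * C1) ^ m with hC
    have hCt : C ≠ ⊤ := ENNReal.mul_ne_top (by simp) (ENNReal.pow_ne_top
      (ENNReal.mul_ne_top (by norm_num) hC1))
    refine ⟨C.toNNReal, fun r hr => ?_⟩
    rw [ENNReal.coe_toNNReal hCt]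
    let g : ℝ → ℝ≥0∞ := fun s => 2 * ENNReal.ofReal r ^ θ * ENNReal.ofReal |s| ^ (-θ)
    have hg : Measurable g := by
      apply Measurable.const_mul
      exact (ENNReal.measurable_ofReal.comp measurable_abs).pow_const _
    have hG : Measurable fun x : Fin m → ℝ => ∏ i, g (x i) :=
      Finset.measurable_prod _ fun i _ => hg.comp (measurable_pi_apply i)
    have hsub : closedBall (0 : E m) ρ ⊆
        (WithLp.ofLp : E m → (Fin m → ℝ)) ⁻¹' (Set.pi univ fun _ => Icc (-ρ) ρ) := by
      intro w hw j _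
      rw [mem_closedBall_zero_iff] at hw
      exact abs_le.1 ((abs_coord_le w j).trans hw)
    have hbox : MeasurableSet (Set.pi univ fun _ : Fin m => Icc (-ρ) ρ) :=
      MeasurableSet.univ_pi fun _ => measurableSet_Icc
    calc ∫⁻ w in closedBall (0 : E m) ρ,
          volume {u : E (m + l) | ‖u‖ ≤ 1 ∧ ‖prodMap m l w u‖ ≤ r}
        ≤ ∫⁻ w in closedBall (0 : E m) ρ, 2 ^ l * ∏ i : Fin m, g (w i) :=
          lintegral_mono fun w => prod_slice w hr hθ0 hθ1
      _ ≤ ∫⁻ w in (WithLp.ofLp : E m → (Fin m → ℝ)) ⁻¹' (Set.pi univ fun _ => Icc (-ρ) ρ),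
            2 ^ l * ∏ i : Fin m, g (w i) := lintegral_mono_set hsub
      _ = ∫⁻ x in Set.pi univ fun _ : Fin m => Icc (-ρ) ρ, 2 ^ l * ∏ i : Fin m, g (x i) :=
          (PiLp.volume_preserving_ofLp (Fin m)).setLIntegral_comp_preimage hbox
            (hG.const_mul (2 ^ l))
      _ = 2 ^ l * ∫⁻ x in Set.pi univ fun _ : Fin m => Icc (-ρ) ρ, ∏ i : Fin m, g (x i) := by
          rw [lintegral_const_mul _ hG]
      _ = 2 ^ l * ∏ _i : Fin m, ∫⁻ s in Icc (-ρ) ρ, g s := by
          congr 1
          rw [volume_pi, Measure.restrict_pi_pi]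
          exact Pool.Agent.H023R3.KG.lint_prod (volume.restrict (Icc (-ρ) ρ)) m (fun _ => g)
            (fun _ => hg)
      _ ≤ 2 ^ l * ∏ _i : Fin m, (2 * ENNReal.ofReal r ^ θ * C1) := by
          gcongr with i
          have h2 := h1 0 1
          simp only [zero_add, mul_one, abs_one, ENNReal.ofReal_one, ENNReal.one_rpow] at h2
          calc ∫⁻ s in Icc (-ρ) ρ, g s
              = 2 * ENNReal.ofReal r ^ θ * ∫⁻ s in Icc (-ρ) ρ, ENNReal.ofReal |s| ^ (-θ) := by
                rw [← lintegral_const_mul]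
                exact (ENNReal.measurable_ofReal.comp measurable_abs).pow_const _
            _ ≤ _ := by gcongr
      _ = C * ENNReal.ofReal (r ^ β) := by
          rw [Finset.prod_const, Finset.card_univ, Fintype.card_fin, hC]
          have h3 : ENNReal.ofReal (r ^ β) = (ENNReal.ofReal r ^ θ) ^ m := by
            rw [← ENNReal.ofReal_rpow_of_pos hr, ← ENNReal.rpow_natCast, ← ENNReal.rpow_mul, hθ,
              div_mul_cancel₀ _ hm0.ne']
          rw [h3]
          ring

end Run7.h750.LC
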