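import Mathlib
import Pool.Agent.Run7.h750.LC6
set_option autoImplicit false
set_option linter.unusedSectionVars false

/-! Kakeya sets in `ℝ^4`. -/

namespace Run7.h750.LC

open MeasureTheory Set Metric Filter
open scoped ENNReal NNReal Pointwise Topology

theorem tower_prod {m l : ℕ} {S : Set (E m)} (hS : volume S ≠ 0) (x : E m → E (m + l + m))
    (K : Set (E (m + l + m)))
    (hK : ∀ ω ∈ S, Tower (m + l) {u | x ω + graph (prodMap m l) ω u ∈ K}) :
    Tower (m + l + m) K :=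
  tower_graph (prodMap m l) (fun _ h1 h2 => nonDeg_prodMap m l h1 h2) hS x K hK

theorem volume_one (A : Set ℝ) : volume {u : E 1 | u 0 ∈ A} = volume A := by
  let e : E 1 ≃ᵐ ℝ := (MeasurableEquiv.toLp 2 (Fin 1 → ℝ)).symm.trans
    (MeasurableEquiv.funUnique (Fin 1) ℝ)
  have h1 : MeasurePreserving e volume volume :=
    (volume_preserving_funUnique (Fin 1) ℝ).comp (PiLp.volume_preserving_ofLp (Fin 1))
  have h2 := h1.measure_preimage_equiv A
  rw [← h2]
  rfl

theorem graph_two (ω : E 2) (v : E 2) :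
    (graph (prodMap 2 0) ω v : E 4) = !₂[v 0, v 1, ω 0 * v 0, ω 1 * v 1] := by
  ext i
  fin_cases i <;> rfl

theorem graph_one (σ : E 1) (u : E 1) :
    (graph (prodMap 1 0) σ u : E 2) = !₂[u 0, σ 0 * u 0] := by
  ext i
  fin_cases i <;> rfl

theorem tower_plane {K : Set (E 2)} {Θ : Set ℝ} (hΘ : volume Θ ≠ 0)
    (h : ∀ σ ∈ Θ, ∃ p : ℝ, volume {t : ℝ | !₂[t, p + σ * t] ∈ K} ≠ 0) : Tower 2 K := by
  classical
  choose! p hp using h
  let S1 : Set (E 1) := {w | w 0 ∈ Θ}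
  have hS1 : volume S1 ≠ 0 := by
    simp only [S1]
    rw [volume_one]
    exact hΘ
  let x1 : E 1 → E (1 + 0 + 1) := fun w => (!₂[0, p (w 0)] : E 2)
  have key := tower_prod (m := 1) (l := 0) hS1 x1 K ?_
  · exact key
  · intro w hw
    apply Tower.line
    intro h0
    change volume _ = 0 at h0
    apply hp (w 0) hw
    rw [← h0, ← volume_one]
    congr 1
    ext u
    have h1 : (!₂[u 0, p (w 0) + w 0 * u 0] : E 2) = x1 w + graph (prodMap 1 0) w u := by
      have h2 := graph_one w u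
      have h3 : x1 w + graph (prodMap 1 0) w u = (!₂[0, p (w 0)] : E 2) + !₂[u 0, w 0 * u 0] := by
        rw [← h2]
      rw [h3]
      ext i
      fin_cases i <;> simp
    show !₂[u 0, p (w 0) + w 0 * u 0] ∈ K ↔ x1 w + graph (prodMap 1 0) w u ∈ K
    rw [h1]

theorem kakeya_four (K : Set (E 4)) {S : Set (E 2)} (hS : volume S ≠ 0) (x : E 2 → E 4)
    (h : ∀ ω ∈ S, ∃ Θ : Set ℝ, volume Θ ≠ 0 ∧ ∀ σ ∈ Θ, ∃ p : ℝ,
      volume {t : ℝ | x ω + !₂[t, p + σ * t, ω 0 * t, ω 1 * (p + σ * t)] ∈ K} ≠ 0) :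
    dimH K = 4 := by
  have key := tower_prod (m := 2) (l := 0) hS x K ?_
  · have h1 := key.dim
    simpa using h1
  · intro ω hω
    obtain ⟨Θ, hΘ, h2⟩ := h ω hω
    refine tower_plane hΘ fun σ hσ => ?_
    obtain ⟨p, hp⟩ := h2 σ hσ
    refine ⟨p, ?_⟩
    intro h0
    apply hp
    rw [← h0]
    congr 1
    ext t
    have h3 := graph_two ω (!₂[t, p + σ * t])
    have h4 : x ω + !₂[t, p + σ * t, ω 0 * t, ω 1 * (p + σ * t)] =
        x ω + graph (prodMap 2 0) ω (!₂[t, p + σ * t]) := by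
      rw [h3]
      congr 1
    show x ω + !₂[t, p + σ * t, ω 0 * t, ω 1 * (p + σ * t)] ∈ K ↔
      x ω + graph (prodMap 2 0) ω (!₂[t, p + σ * t]) ∈ K
    rw [h4]

end Run7.h750.LC
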