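import Mathlib
import Pool.Agent.Run7.h750.LC5
set_option autoImplicit false
set_option linter.unusedSectionVars false

/-! The determinant criterion. -/

namespace Run7.h750.LC

open MeasureTheory Set Metric Filter
open scoped ENNReal NNReal Pointwise Topology

section
variable {E F G : Type} [NormedAddCommGroup E] [NormedSpace ℝ E] [FiniteDimensional ℝ E]
  [MeasurableSpace E] [BorelSpace E]
  [NormedAddCommGroup F] [NormedSpace ℝ F] [FiniteDimensional ℝ F]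
  [MeasurableSpace F] [BorelSpace F]
  [NormedAddCommGroup G] [NormedSpace ℝ G] [FiniteDimensional ℝ G]
  [MeasurableSpace G] [BorelSpace G]

/-- the endomorphism of `G × F` whose determinant measures the transversality -/
noncomputable def mixMap (e : E ≃ₗ[ℝ] G × F) (L L' : F →ₗ[ℝ] E) (J J' : G →ₗ[ℝ] F) :
    G × F →ₗ[ℝ] G × F := e.toLinearMap ∘ₗ ((L ∘ₗ J + L' ∘ₗ J').coprod L')

/-- the set of the small vectors which `L ∘ J` maps near the range of `L'` -/
def Hs (L L' : F →ₗ[ℝ] E) (J : G →ₗ[ℝ] F) (ρ : ℝ) : Set G :=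
  {w | ‖w‖ ≤ 2 ∧ infDist (L (J w)) (range L') ≤ ρ}

theorem Hs.closed (L L' : F →ₗ[ℝ] E) (J : G →ₗ[ℝ] F) (ρ : ℝ) : IsClosed (Hs L L' J ρ) := by
  have h2 : Continuous fun v : G => infDist (L (J v)) (range L') :=
    (continuous_infDist_pt _).comp ((LinearMap.continuous_of_finiteDimensional L).comp
      (LinearMap.continuous_of_finiteDimensional J))
  exact (isClosed_le continuous_norm continuous_const).inter (isClosed_le h2 continuous_const)

theorem exists_equiv_bound (e : E ≃ₗ[ℝ] G × F) : ∃ A : ℝ, 1 ≤ A ∧ (∀ y, ‖e y‖ ≤ A * ‖y‖) ∧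
    ∀ y, ‖y‖ ≤ A * ‖e y‖ := by
  let e1 : E →L[ℝ] G × F := LinearMap.toContinuousLinearMap e.toLinearMap
  let e2 : G × F →L[ℝ] E := LinearMap.toContinuousLinearMap e.symm.toLinearMap
  refine ⟨max 1 (max ‖e1‖ ‖e2‖), le_max_left _ _, fun y => ?_, fun y => ?_⟩
  · have h1 : ‖e y‖ ≤ ‖e1‖ * ‖y‖ := e1.le_opNorm y
    refine h1.trans ?_
    gcongr
    exact (le_max_left _ _).trans (le_max_right _ _)
  · have h1 : ‖e2 (e y)‖ ≤ ‖e2‖ * ‖e y‖ := e2.le_opNorm (e y)
    have h2 : e2 (e y) = y := e.symm_apply_apply y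
    rw [h2] at h1
    refine h1.trans ?_
    gcongr
    exact (le_max_right _ _).trans (le_max_right _ _)

theorem slice_bound (νF : Measure F) [νF.IsAddHaarMeasure] (νG : Measure G) [νG.IsAddHaarMeasure]
    (e : E ≃ₗ[ℝ] G × F) {Λ : ℝ} (hΛ : 1 ≤ Λ) :
    ∃ C : ℝ, 0 < C ∧ ∀ (L L' : F →ₗ[ℝ] E) (J J' : G →ₗ[ℝ] F) (ρ : ℝ), 0 < ρ →
      (∀ u, ‖L u‖ ≤ Λ * ‖u‖) → (∀ u, ‖L' u‖ ≤ Λ * ‖u‖) → (∀ u, ‖u‖ ≤ Λ * ‖L' u‖) →
      (∀ v, ‖J v‖ ≤ ‖v‖) → (∀ v, ‖J' v‖ ≤ ‖v‖) →
      νG (Hs L L' J ρ) * ENNReal.ofReal |LinearMap.det (mixMap e L L' J J')| ≤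
        ENNReal.ofReal (C * ρ ^ Module.finrank ℝ G) := by
  obtain ⟨A, hA1, hA2, hA3⟩ := exists_equiv_bound e
  set Λ2 : ℝ := A * (5 * Λ) with hΛ2
  have hΛ21 : 1 ≤ Λ2 := by
    rw [hΛ2]
    nlinarith
  set v1 : ℝ := (νF (closedBall (0 : F) 1)).toReal with hv1
  have hv1t : νF (closedBall (0 : F) 1) ≠ ⊤ := measure_closedBall_lt_top.ne
  have hv10 : 0 < v1 := ENNReal.toReal_pos (measure_closedBall_pos νF _ one_pos).ne' hv1t
  obtain ⟨C, hC, hnb⟩ := nb_le (E := G × F) (F := F) (νG.prod νF) hΛ21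
  have hfr : (Module.finrank ℝ (G × F) : ℝ) - Module.finrank ℝ F = Module.finrank ℝ G := by
    rw [Module.finrank_prod]
    push_cast
    ring
  refine ⟨C * A ^ Module.finrank ℝ G / v1, by positivity, ?_⟩
  intro L L' J J' ρ hρ hL hL1 hL2 hJ hJ'
  set L2 : F →ₗ[ℝ] G × F := e.toLinearMap ∘ₗ L' with hL2def
  have h1 := hnb L2 (fun u => by
      calc ‖L2 u‖ = ‖e (L' u)‖ := rfl
        _ ≤ A * ‖L' u‖ := hA2 _
        _ ≤ A * (Λ * ‖u‖) := by gcongr; exact hL1 u
        _ ≤ Λ2 * ‖u‖ := by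
            rw [hΛ2]
            have h0 : 0 ≤ A * (Λ * ‖u‖) := by positivity
            nlinarith)
    (fun u => by
      calc ‖u‖ ≤ Λ * ‖L' u‖ := hL2 u
        _ ≤ Λ * (A * ‖e (L' u)‖) := by gcongr; exact hA3 _
        _ ≤ Λ2 * ‖L2 u‖ := by
            rw [hΛ2]
            have h0 : 0 ≤ Λ * (A * ‖e (L' u)‖) := by positivity
            have h00 : ‖L2 u‖ = ‖e (L' u)‖ := rfl
            rw [h00]
            nlinarith)
    (A * ρ) (Module.finrank ℝ G) (by positivity) (Nat.cast_nonneg _) hfr.ge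
  set f := mixMap e L L' J J' with hf
  have hsub : f '' (Hs L L' J ρ ×ˢ closedBall 0 1) ⊆ Nb L2 Λ2 (A * ρ) := by
    rintro _ ⟨⟨w, v⟩, ⟨⟨hw1, hw2⟩, hv⟩, rfl⟩
    have hv : ‖v‖ ≤ 1 := by simpa using hv
    have hfe : f (w, v) = e (L (J w) + L' (J' w) + L' v) := rfl
    rw [hfe]
    constructor
    · calc ‖e (L (J w) + L' (J' w) + L' v)‖ ≤ A * ‖L (J w) + L' (J' w) + L' v‖ := hA2 _
        _ ≤ A * (‖L (J w)‖ + ‖L' (J' w)‖ + ‖L' v‖) := by gcongr; exact norm_add₃_le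
        _ ≤ A * (Λ * 2 + Λ * 2 + Λ * 1) := by
            have h2 : ‖L (J w)‖ ≤ Λ * 2 := (hL _).trans (by
              gcongr
              exact (hJ w).trans hw1)
            have h4 : ‖L' (J' w)‖ ≤ Λ * 2 := (hL1 _).trans (by
              gcongr
              exact (hJ' w).trans hw1)
            have h3 : ‖L' v‖ ≤ Λ * 1 := (hL1 v).trans (by gcongr)
            gcongr
        _ = Λ2 := by rw [hΛ2]; ring
    · refine le_of_forall_pos_lt_add fun ε hε => ?_
      have h2 : infDist (L (J w)) (range L') < ρ + ε / A := by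
        have : 0 < ε / A := by positivity
        linarith
      obtain ⟨_, ⟨z, rfl⟩, hz⟩ := (infDist_lt_iff (range_nonempty _)).1 h2
      refine lt_of_le_of_lt (infDist_le_dist_of_mem ⟨z + J' w + v, rfl⟩) ?_
      have h3 : e (L (J w) + L' (J' w) + L' v) - L2 (z + J' w + v) = e (L (J w) - L' z) := by
        rw [hL2def]
        simp only [LinearMap.coe_comp, LinearEquiv.coe_coe, Function.comp_apply, map_add, map_sub]
        abel
      rw [dist_eq_norm, h3]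
      rw [dist_eq_norm] at hz
      calc ‖e (L (J w) - L' z)‖ ≤ A * ‖L (J w) - L' z‖ := hA2 _
        _ < A * (ρ + ε / A) := by gcongr
        _ = A * ρ + ε := by field_simp
  have h2 : νG (Hs L L' J ρ) * ENNReal.ofReal |LinearMap.det f| * ENNReal.ofReal v1 ≤
      ENNReal.ofReal (C * (A * ρ) ^ (Module.finrank ℝ G : ℝ)) := by
    refine le_trans ?_ ((measure_mono hsub).trans h1)
    rw [Measure.addHaar_image_linearMap, Measure.prod_prod, hv1, ENNReal.ofReal_toReal hv1t]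
    apply le_of_eq
    ring
  have h3 : ENNReal.ofReal v1 ≠ 0 := (ENNReal.ofReal_pos.2 hv10).ne'
  rw [← ENNReal.mul_le_mul_iff_left h3 ENNReal.ofReal_ne_top]
  refine h2.trans ?_
  rw [← ENNReal.ofReal_mul (by positivity)]
  apply ENNReal.ofReal_le_ofReal
  rw [Real.rpow_natCast, mul_pow]
  apply le_of_eq
  field_simp

theorem cap_det (νF : Measure F) [νF.IsAddHaarMeasure] (νG : Measure G) [νG.IsAddHaarMeasure]
    (e : E ≃ₗ[ℝ] G × F) {Λ : ℝ} (hΛ : 1 ≤ Λ) :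
    ∃ C : ℝ, 0 < C ∧ ∀ (L L' : F →ₗ[ℝ] E) (J J' : G →ₗ[ℝ] F) (r : ℝ), 0 < r →
      (∀ u, ‖L u‖ ≤ Λ * ‖u‖) → (∀ u, ‖L' u‖ ≤ Λ * ‖u‖) → (∀ u, ‖u‖ ≤ Λ * ‖L' u‖) →
      (∀ v, ‖J v‖ ≤ ‖v‖) → (∀ v, ‖J' v‖ ≤ ‖v‖) →
      νF (Cap L L' r) * ENNReal.ofReal |LinearMap.det (mixMap e L L' J J')| ≤
        ENNReal.ofReal (C * r ^ Module.finrank ℝ G) := by
  obtain ⟨C, hC, h⟩ := slice_bound νF νG e hΛ
  set V2 : ℝ := (νF (closedBall (0 : F) 2)).toReal with hV2
  have hV2t : νF (closedBall (0 : F) 2) ≠ ⊤ := measure_closedBall_lt_top.ne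
  have hV20 : 0 < V2 := ENNReal.toReal_pos (measure_closedBall_pos νF _ two_pos).ne' hV2t
  set g1 : ℝ := (νG (closedBall (0 : G) 1)).toReal with hg1
  have hg1t : νG (closedBall (0 : G) 1) ≠ ⊤ := measure_closedBall_lt_top.ne
  have hg10 : 0 < g1 := ENNReal.toReal_pos (measure_closedBall_pos νG _ one_pos).ne' hg1t
  refine ⟨V2 * C * 2 ^ Module.finrank ℝ G / g1, by positivity, ?_⟩
  intro L L' J J' r hr hL hL1 hL2 hJ hJ'
  have hJc : Continuous J := LinearMap.continuous_of_finiteDimensional J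
  -- the auxiliary set
  let Z : Set (G × F) := {p | ‖p.1‖ ≤ 1 ∧ p.2 + J p.1 ∈ Cap L L' r}
  have hZ : MeasurableSet Z := by
    have h1 : IsClosed {p : G × F | ‖p.1‖ ≤ 1} := isClosed_le (by fun_prop) continuous_const
    have h2 : IsClosed {p : G × F | p.2 + J p.1 ∈ Cap L L' r} :=
      (Cap.closed L L' r).preimage (by fun_prop)
    exact (h1.inter h2).measurableSet
  have hZ1 : (νG.prod νF) Z = νF (Cap L L' r) * νG (closedBall 0 1) := by
    rw [Measure.prod_apply hZ, ← setLIntegral_const, ← lintegral_indicator measurableSet_closedBall]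
    refine lintegral_congr fun v => ?_
    by_cases hv : v ∈ closedBall (0 : G) 1
    · rw [indicator_of_mem hv]
      have h1 : Prod.mk v ⁻¹' Z = (fun u => u + J v) ⁻¹' Cap L L' r := by
        ext u
        simp only [Z, mem_preimage, mem_ofPred_eq]
        rw [mem_closedBall_zero_iff] at hv
        simp [hv]
      rw [h1, measure_preimage_add_right]
    · rw [indicator_of_notMem hv]
      have h1 : Prod.mk v ⁻¹' Z = ∅ := by
        ext u
        simp only [Z, mem_preimage, mem_ofPred_eq, mem_empty_iff_false, iff_false, not_and]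
        rw [mem_closedBall_zero_iff] at hv
        intro h2
        exact absurd h2 hv
      rw [h1, measure_empty]
  have hZ2 : (νG.prod νF) Z ≤ νG (Hs L L' J (2 * r)) * νF (closedBall 0 2) := by
    rw [Measure.prod_apply_symm hZ, ← setLIntegral_const,
      ← lintegral_indicator measurableSet_closedBall]
    refine lintegral_mono fun u => ?_
    by_cases hu : u ∈ closedBall (0 : F) 2
    · rw [indicator_of_mem hu]
      rcases ((fun v => (v, u)) ⁻¹' Z).eq_empty_or_nonempty with h0 | ⟨v0, hv0⟩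
      · rw [h0, measure_empty]
        exact bot_le
      · have h1 : (fun v => (v, u)) ⁻¹' Z ⊆ (fun v => v + (-v0)) ⁻¹' Hs L L' J (2 * r) := by
          intro v hv
          obtain ⟨hv1, hv2, hv3⟩ := hv
          obtain ⟨hw1, hw2, hw3⟩ := hv0
          simp only at hv1 hv2 hv3 hw1 hw2 hw3
          constructor
          · calc ‖v + -v0‖ ≤ ‖v‖ + ‖-v0‖ := norm_add_le _ _
              _ ≤ 2 := by
                  rw [norm_neg]
                  linarith
          · show infDist (L (J (v + -v0))) (range L') ≤ 2 * r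
            refine le_of_forall_pos_lt_add fun ε hε => ?_
            obtain ⟨_, ⟨a, rfl⟩, ha⟩ := (infDist_lt_iff (range_nonempty L')).1
              (show infDist (L (u + J v)) (range L') < r + ε / 2 by linarith)
            obtain ⟨_, ⟨b, rfl⟩, hb⟩ := (infDist_lt_iff (range_nonempty L')).1
              (show infDist (L (u + J v0)) (range L') < r + ε / 2 by linarith)
            refine lt_of_le_of_lt (infDist_le_dist_of_mem ⟨a - b, rfl⟩) ?_
            rw [dist_eq_norm] at ha hb ⊢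
            have h2 : L (J (v + -v0)) - L' (a - b) =
                (L (u + J v) - L' a) - (L (u + J v0) - L' b) := by
              simp only [map_add, map_neg, map_sub]
              abel
            rw [h2]
            refine lt_of_le_of_lt (norm_sub_le _ _) ?_
            linarith
        refine (measure_mono h1).trans ?_
        rw [measure_preimage_add_right]
    · rw [indicator_of_notMem hu]
      have h1 : (fun v => (v, u)) ⁻¹' Z = ∅ := by
        ext v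
        simp only [Z, mem_preimage, mem_ofPred_eq, mem_empty_iff_false, iff_false, not_and]
        rintro h2 ⟨h3, _⟩
        apply hu
        rw [mem_closedBall_zero_iff]
        have h4 : u = (u + J v) - J v := by abel
        rw [h4]
        have h5 := norm_sub_le (u + J v) (J v)
        have h6 := hJ v
        linarith
      rw [h1, measure_empty]
  have h1 := h L L' J J' (2 * r) (by positivity) hL hL1 hL2 hJ hJ'
  have h2 : νF (Cap L L' r) * ENNReal.ofReal |LinearMap.det (mixMap e L L' J J')| *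
      ENNReal.ofReal g1 ≤ ENNReal.ofReal (C * (2 * r) ^ Module.finrank ℝ G) * ENNReal.ofReal V2 := by
    calc νF (Cap L L' r) * ENNReal.ofReal |LinearMap.det (mixMap e L L' J J')| * ENNReal.ofReal g1
        = (νG.prod νF) Z * ENNReal.ofReal |LinearMap.det (mixMap e L L' J J')| := by
          rw [hZ1, hg1, ENNReal.ofReal_toReal hg1t]
          ring
      _ ≤ νG (Hs L L' J (2 * r)) * νF (closedBall 0 2) *
          ENNReal.ofReal |LinearMap.det (mixMap e L L' J J')| := by gcongr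
      _ = (νG (Hs L L' J (2 * r)) * ENNReal.ofReal |LinearMap.det (mixMap e L L' J J')|) *
          ENNReal.ofReal V2 := by
          rw [hV2, ENNReal.ofReal_toReal hV2t]
          ring
      _ ≤ _ := by gcongr
  have h3 : ENNReal.ofReal g1 ≠ 0 := (ENNReal.ofReal_pos.2 hg10).ne'
  rw [← ENNReal.mul_le_mul_iff_left h3 ENNReal.ofReal_ne_top]
  refine h2.trans ?_
  rw [← ENNReal.ofReal_mul (by positivity), ← ENNReal.ofReal_mul (by positivity)]
  apply ENNReal.ofReal_le_ofReal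
  rw [mul_pow]
  apply le_of_eq
  field_simp

theorem cap_rpow (νF : Measure F) [νF.IsAddHaarMeasure] (νG : Measure G) [νG.IsAddHaarMeasure]
    (e : E ≃ₗ[ℝ] G × F) {Λ : ℝ} (hΛ : 1 ≤ Λ) :
    ∃ C : ℝ, 0 < C ∧ ∀ (L L' : F →ₗ[ℝ] E) (J J' : G →ₗ[ℝ] F) (r D τ : ℝ), 0 < r →
      (∀ u, ‖L u‖ ≤ Λ * ‖u‖) → (∀ u, ‖L' u‖ ≤ Λ * ‖u‖) → (∀ u, ‖u‖ ≤ Λ * ‖L' u‖) →
      (∀ v, ‖J v‖ ≤ ‖v‖) → (∀ v, ‖J' v‖ ≤ ‖v‖) → D ≤ |LinearMap.det (mixMap e L L' J J')| → 0 < τ → τ ≤ 1 →
      νF (Cap L L' r) ≤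
        ENNReal.ofReal (C * r ^ (Module.finrank ℝ G * τ)) * ENNReal.ofReal D ^ (-τ) := by
  obtain ⟨C, hC, h⟩ := cap_det νF νG e hΛ
  set v1 : ℝ := (νF (closedBall (0 : F) 1)).toReal with hv1
  have hv1t : νF (closedBall (0 : F) 1) ≠ ⊤ := measure_closedBall_lt_top.ne
  have hv10 : 0 < v1 := ENNReal.toReal_pos (measure_closedBall_pos νF _ one_pos).ne' hv1t
  refine ⟨C + v1, by positivity, ?_⟩
  intro L L' J J' r D τ hr hL hL1 hL2 hJ hJ' hD hτ0 hτ1
  set m := Module.finrank ℝ G with hm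
  rcases le_or_gt D 0 with hD0 | hD0
  · rw [ENNReal.ofReal_of_nonpos hD0, ENNReal.zero_rpow_of_neg (by linarith), ENNReal.mul_top]
    · exact le_top
    · exact (ENNReal.ofReal_pos.2 (by positivity)).ne'
  · have h1 := h L L' J J' r hr hL hL1 hL2 hJ hJ'
    have hcap : νF (Cap L L' r) ≠ ⊤ := cap_ne_top νF L L' r
    set X : ℝ := (νF (Cap L L' r)).toReal with hX
    have hX0 : 0 ≤ X := ENNReal.toReal_nonneg
    have hXe : νF (Cap L L' r) = ENNReal.ofReal X := (ENNReal.ofReal_toReal hcap).symm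
    have h2 : X * D ≤ C * r ^ m := by
      have h3 : ENNReal.ofReal (X * D) ≤ ENNReal.ofReal (C * r ^ m) := by
        refine le_trans ?_ h1
        rw [ENNReal.ofReal_mul hX0, hXe]
        gcongr
      exact (ENNReal.ofReal_le_ofReal_iff (by positivity)).1 h3
    have h3 : X ≤ v1 := by
      apply ENNReal.toReal_mono hv1t
      apply measure_mono
      rintro v ⟨hv, _⟩
      simpa using hv
    have h4 : ENNReal.ofReal D ^ (-τ) = ENNReal.ofReal (D ^ (-τ)) := by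
      rw [← ENNReal.ofReal_rpow_of_pos hD0]
    rw [h4, ← ENNReal.ofReal_mul (by positivity), hXe]
    apply ENNReal.ofReal_le_ofReal
    set q : ℝ := r ^ m / D with hq
    have hq0 : 0 < q := by positivity
    have h5 : (C + v1) * r ^ (m * τ) * D ^ (-τ) = (C + v1) * q ^ τ := by
      rw [hq, Real.div_rpow (by positivity) hD0.le, Real.rpow_neg hD0.le, ← Real.rpow_natCast,
        ← Real.rpow_mul hr.le]
      field_simp
    rw [h5]
    rcases le_total 1 q with h6 | h6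
    · have h7 : 1 ≤ q ^ τ := Real.one_le_rpow h6 hτ0.le
      nlinarith
    · have h7 : X ≤ C * q := by
        rw [hq, ← mul_div_assoc, le_div_iff₀ hD0]
        exact h2
      have h8 : q ≤ q ^ τ := by
        have h9 := Real.rpow_le_rpow_of_exponent_ge hq0 h6 hτ1
        rwa [Real.rpow_one] at h9
      have h10 : 0 ≤ v1 * q ^ τ := by positivity
      nlinarith

end

/-- Transversality on average (general form). -/
def Family.Transversal' {k m n : ℕ} (𝓕 : Family k n) (e : E n ≃ₗ[ℝ] E m × E k)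
    (D : 𝓕.Ω → 𝓕.Ω → ℝ) : Prop :=
  (∀ ω ω', ∃ J J' : E m →ₗ[ℝ] E k, (∀ v, ‖J v‖ ≤ ‖v‖) ∧ (∀ v, ‖J' v‖ ≤ ‖v‖) ∧
    D ω ω' ≤ |LinearMap.det (e.toLinearMap ∘ₗ ((𝓕.L ω ∘ₗ J + 𝓕.L ω' ∘ₗ J').coprod (𝓕.L ω')))|) ∧
  ∀ τ : ℝ, 0 < τ → τ < 1 → ∃ C : ℝ≥0, ∀ ω', ∫⁻ ω, ENNReal.ofReal (D ω ω') ^ (-τ) ∂𝓕.μ ≤ C

theorem Family.spread_of_transversal' {k m n : ℕ} (𝓕 : Family k n) (e : E n ≃ₗ[ℝ] E m × E k)
    (D : 𝓕.Ω → 𝓕.Ω → ℝ) (h : 𝓕.Transversal' e D) {β : ℝ} (hβ : 0 ≤ β) (hβm : β < m) :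
    𝓕.Spread β := by
  rcases hβ.eq_or_lt with h0 | h0
  · rw [← h0]
    exact 𝓕.spread_zero
  · obtain ⟨h1, h2⟩ := h
    have hm0 : (0 : ℝ) < m := lt_trans h0 hβm
    set τ : ℝ := β / m with hτ
    have hτ0 : 0 < τ := by positivity
    have hτ1 : τ < 1 := (div_lt_one hm0).2 hβm
    obtain ⟨C1, hC1⟩ := h2 τ hτ0 hτ1
    obtain ⟨C, hC, hcap⟩ := cap_rpow (volume : Measure (E k)) (volume : Measure (E m)) e
      (le_max_right 𝓕.Λ 1)
    refine ⟨Real.toNNReal C * C1, fun ω' r hr => ?_⟩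
    have hmτ : ((Module.finrank ℝ (E m) : ℕ) : ℝ) * τ = β := by
      rw [finrank_euclideanSpace, Fintype.card_fin, hτ]
      field_simp
    have h3 : ∀ ω, volume {u : E k | ‖u‖ ≤ 1 ∧ infDist (𝓕.L ω u) (range (𝓕.L ω')) ≤ r} ≤
        ENNReal.ofReal (C * r ^ β) * ENNReal.ofReal (D ω ω') ^ (-τ) := by
      intro ω
      obtain ⟨J, J', hJ1, hJ1', hJ2⟩ := h1 ω ω'
      have h4 := hcap (𝓕.L ω) (𝓕.L ω') J J' r (D ω ω') τ hr (𝓕.bounds.1 ω) (𝓕.bounds.1 ω')
        (𝓕.bounds.2 ω') hJ1 hJ1' hJ2 hτ0 hτ1.le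
      rw [hmτ] at h4
      exact h4
    calc ∫⁻ ω, volume {u : E k | ‖u‖ ≤ 1 ∧ infDist (𝓕.L ω u) (range (𝓕.L ω')) ≤ r} ∂𝓕.μ
        ≤ ∫⁻ ω, ENNReal.ofReal (C * r ^ β) * ENNReal.ofReal (D ω ω') ^ (-τ) ∂𝓕.μ :=
          lintegral_mono h3
      _ = ENNReal.ofReal (C * r ^ β) * ∫⁻ ω, ENNReal.ofReal (D ω ω') ^ (-τ) ∂𝓕.μ := by
          rw [lintegral_const_mul' _ _ ENNReal.ofReal_ne_top]
      _ ≤ ENNReal.ofReal (C * r ^ β) * C1 := by
          gcongr
          exact hC1 ω'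
      _ = _ := by
          rw [ENNReal.coe_mul, ENNReal.ofReal_mul hC.le]
          have h5 : ((Real.toNNReal C : ℝ≥0) : ℝ≥0∞) = ENNReal.ofReal C := rfl
          rw [h5]
          ring

/-- Transversality on average: the volume of the parallelepiped spanned by the subspace number
`ω'` and by the image under `L ω` of some `m`-dimensional subspace, `m = n - k`, is at least
`D ω ω'`, and the negative powers `D ^ (-τ)`, `τ < 1`, have bounded integrals in `ω`. The linear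
isomorphism `e` only fixes the coordinates in which the determinant is computed. -/
def Family.Transversal {k m n : ℕ} (𝓕 : Family k n) (e : E n ≃ₗ[ℝ] E m × E k)
    (D : 𝓕.Ω → 𝓕.Ω → ℝ) : Prop :=
  (∀ ω ω', ∃ J : E m →ₗ[ℝ] E k, (∀ v, ‖J v‖ ≤ ‖v‖) ∧
    D ω ω' ≤ |LinearMap.det (e.toLinearMap ∘ₗ ((𝓕.L ω ∘ₗ J).coprod (𝓕.L ω')))|) ∧
  ∀ τ : ℝ, 0 < τ → τ < 1 → ∃ C : ℝ≥0, ∀ ω', ∫⁻ ω, ENNReal.ofReal (D ω ω') ^ (-τ) ∂𝓕.μ ≤ C

theorem Family.spread_of_transversal {k m n : ℕ} (𝓕 : Family k n) (e : E n ≃ₗ[ℝ] E m × E k)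
    (D : 𝓕.Ω → 𝓕.Ω → ℝ) (h : 𝓕.Transversal e D) {β : ℝ} (hβ : 0 ≤ β) (hβm : β < m) :
    𝓕.Spread β := by
  refine 𝓕.spread_of_transversal' e D ⟨fun ω ω' => ?_, h.2⟩ hβ hβm
  obtain ⟨J, hJ1, hJ2⟩ := h.1 ω ω'
  refine ⟨J, 0, hJ1, fun v => by simp, ?_⟩
  rw [LinearMap.comp_zero, add_zero]
  exact hJ2

end Run7.h750.LC
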