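import Mathlib
import Pool.Agent.Run7.h750.LC7
import Pool.Agent.Run7.h750.LC8
set_option autoImplicit false
set_option linter.unusedSectionVars false

/-! The secant planes of the rational normal curve. -/

namespace Run7.h750.LC

open MeasureTheory Set Metric Filter
open scoped ENNReal NNReal Pointwise Topology

theorem append_addNat {m : ℕ} (u v : Fin m → ℝ) (i : Fin m) :
    Fin.append u v (i.addNat m) = v i := by
  rw [← Fin.natAdd_eq_addNat, Fin.append_right]

/-- The moment curve `t ↦ (1, t, ..., t^(n-1))` of `ℝ^n`. -/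
noncomputable def moment (n : ℕ) (t : ℝ) : E n := WithLp.toLp 2 fun i => t ^ (i : ℕ)

/-- The subspace of `ℝ^(2 m)` spanned by the points with parameters `ω_0, ..., ω_(m-1)` of the
moment curve, parametrised by `ℝ^m`. -/
noncomputable def secant (m : ℕ) (ω : E m) : E m →ₗ[ℝ] E (m + m) where
  toFun u := ∑ i, u i • moment (m + m) (ω i)
  map_add' u v := by
    simp [add_smul, Finset.sum_add_distrib]
  map_smul' c u := by
    simp [mul_smul, Finset.smul_sum]

theorem secant_apply (m : ℕ) (ω : E m) (u : E m) :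
    secant m ω u = ∑ i, u i • moment (m + m) (ω i) := rfl

theorem secant_coord (m : ℕ) (ω : E m) (u : E m) (j : Fin (m + m)) :
    secant m ω u j = ∑ i, u i * ω i ^ (j : ℕ) := by
  rw [secant_apply]
  simp [moment]

/-- splitting the coordinates -/
noncomputable def splitE (m : ℕ) : E (m + m) ≃ₗ[ℝ] E m × E m where
  toFun y := (WithLp.toLp 2 fun i => y (Fin.castAdd m i), WithLp.toLp 2 fun i => y (Fin.natAdd m i))
  invFun p := WithLp.toLp 2 (Fin.append p.1 p.2)
  map_add' x y := by
    ext i <;> simp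
  map_smul' c y := by
    ext i <;> simp
  left_inv y := by
    ext i
    refine Fin.addCases (fun i => ?_) (fun i => ?_) i <;> simp [append_addNat]
  right_inv p := by
    ext i <;> simp [append_addNat]

theorem secant_det (m : ℕ) (ω ω' : E m) :
    LinearMap.det ((splitE m).toLinearMap ∘ₗ
      ((secant m ω ∘ₗ (LinearMap.id : E m →ₗ[ℝ] E m)).coprod (secant m ω'))) =
      (Matrix.vandermonde (Fin.append ω ω' : Fin (m + m) → ℝ)).det := by
  set f := (splitE m).toLinearMap ∘ₗ
      ((secant m ω ∘ₗ (LinearMap.id : E m →ₗ[ℝ] E m)).coprod (secant m ω')) with hf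
  let b := (EuclideanSpace.basisFun (Fin m) ℝ).toBasis.prod (EuclideanSpace.basisFun (Fin m) ℝ).toBasis
  rw [← LinearMap.det_toMatrix b f]
  have h1 : LinearMap.toMatrix b b f =
      (Matrix.vandermonde (Fin.append ω ω' : Fin (m + m) → ℝ)).transpose.submatrix
        finSumFinEquiv finSumFinEquiv := by
    ext i j
    rw [LinearMap.toMatrix_apply]
    have hfa : ∀ p : E m × E m, f p = splitE m (secant m ω p.1 + secant m ω' p.2) := fun p => rfl
    rcases i with i | i <;> rcases j with j | j
    · simp [b, hfa, splitE, secant_coord, Matrix.vandermonde_apply]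
    · simp [b, hfa, splitE, secant_coord, Matrix.vandermonde_apply, append_addNat]
    · simp [b, hfa, splitE, secant_coord, Matrix.vandermonde_apply]
    · simp [b, hfa, splitE, secant_coord, Matrix.vandermonde_apply, append_addNat]
  rw [h1, Matrix.det_submatrix_equiv_self, Matrix.det_transpose]

/-- the parameters of the secant subspaces which are considered -/
def box (m : ℕ) : Set (E m) := {ω | ∀ i : Fin m, ω i ∈ Icc (2 * (i : ℝ)) (2 * i + 1)}

theorem one_le_abs_sub {a b : ℕ} (hab : a ≠ b) {s t : ℝ} (hs : s ∈ Icc (2 * (a : ℝ)) (2 * a + 1))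
    (ht : t ∈ Icc (2 * (b : ℝ)) (2 * b + 1)) : 1 ≤ |s - t| := by
  rcases lt_or_gt_of_ne hab with h | h
  · have h1 : (a : ℝ) + 1 ≤ b := by exact_mod_cast h
    rw [abs_sub_comm, le_abs]
    left
    linarith [hs.2, ht.1]
  · have h1 : (b : ℝ) + 1 ≤ a := by exact_mod_cast h
    rw [le_abs]
    left
    linarith [hs.1, ht.2]

theorem one_le_prod_real {ι : Type*} (s : Finset ι) (f : ι → ℝ) (h : ∀ i ∈ s, 1 ≤ f i) :
    1 ≤ ∏ i ∈ s, f i := by
  have h1 := Finset.prod_le_prod (s := s) (f := fun _ => (1 : ℝ)) (g := f)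
    (fun _ _ => zero_le_one) h
  simpa using h1

theorem vandermonde_bound {m : ℕ} {ω ω' : E m} (h : ω ∈ box m) (h' : ω' ∈ box m) :
    ∏ i, |ω' i - ω i| ≤ |(Matrix.vandermonde (Fin.append ω ω' : Fin (m + m) → ℝ)).det| := by
  rw [Matrix.det_vandermonde, Finset.abs_prod, Fin.prod_univ_add]
  have h1 : ∀ i : Fin m, |ω' i - ω i| ≤ |∏ j ∈ Finset.Ioi (Fin.castAdd m i),
      (Fin.append ω ω' j - Fin.append ω ω' (Fin.castAdd m i))| := by
    intro i
    rw [Finset.abs_prod]
    have hmem : Fin.natAdd m i ∈ Finset.Ioi (Fin.castAdd m i) := by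
      rw [Finset.mem_Ioi, Fin.lt_def]
      simp only [Fin.val_castAdd, Fin.val_natAdd]
      omega
    rw [← Finset.mul_prod_erase _ _ hmem, Fin.append_right, Fin.append_left]
    have h2 : 1 ≤ ∏ x ∈ (Finset.Ioi (Fin.castAdd m i)).erase (Fin.natAdd m i),
        |Fin.append ω ω' x - ω i| := by
      apply one_le_prod_real
      intro j hj
      rw [Finset.mem_erase, Finset.mem_Ioi] at hj
      obtain ⟨hj1, hj2⟩ := hj
      revert hj1 hj2
      refine Fin.addCases (fun j => ?_) (fun j => ?_) j
      · intro _ hj2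
        rw [Fin.append_left]
        have h3 : (j : ℕ) ≠ i := by
          rw [Fin.lt_def] at hj2
          simp only [Fin.val_castAdd] at hj2
          omega
        exact one_le_abs_sub h3 (h j) (h i)
      · intro hj1 _
        rw [Fin.append_right]
        have h3 : (j : ℕ) ≠ i := by
          intro h4
          apply hj1
          rw [Fin.ext h4]
        exact one_le_abs_sub h3 (h' j) (h i)
    nlinarith [abs_nonneg (ω' i - ω i)]
  have h2 : ∀ i : Fin m, 1 ≤ |∏ j ∈ Finset.Ioi (Fin.natAdd m i),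
      (Fin.append ω ω' j - Fin.append ω ω' (Fin.natAdd m i))| := by
    intro i
    rw [Finset.abs_prod]
    apply one_le_prod_real
    intro j hj
    rw [Finset.mem_Ioi] at hj
    revert hj
    refine Fin.addCases (fun j => ?_) (fun j => ?_) j
    · intro hj
      rw [Fin.lt_def] at hj
      simp only [Fin.val_castAdd, Fin.val_natAdd] at hj
      omega
    · intro hj
      rw [Fin.append_right, Fin.append_right]
      have h3 : (j : ℕ) ≠ i := by
        rw [Fin.lt_def] at hj
        simp only [Fin.val_natAdd] at hj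
        omega
      exact one_le_abs_sub h3 (h' j) (h' i)
  calc ∏ i, |ω' i - ω i| = (∏ i, |ω' i - ω i|) * 1 := (mul_one _).symm
    _ ≤ _ := by
        apply mul_le_mul
        · exact Finset.prod_le_prod (fun i _ => abs_nonneg _) fun i _ => h1 i
        · exact one_le_prod_real _ _ fun i _ => h2 i
        · exact zero_le_one
        · exact Finset.prod_nonneg fun i _ => abs_nonneg _

theorem box_closed (m : ℕ) : IsClosed (box m) := by
  have h1 : box m = ⋂ i : Fin m, {ω : E m | ω i ∈ Icc (2 * (i : ℝ)) (2 * i + 1)} := by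
    ext ω
    simp [box]
  rw [h1]
  refine isClosed_iInter fun i => ?_
  exact isClosed_Icc.preimage (EuclideanSpace.proj i).continuous

theorem box_abs {m : ℕ} {ω : E m} (h : ω ∈ box m) (i : Fin m) : |ω i| ≤ 2 * m := by
  have h1 := h i
  have h2 : (i : ℝ) + 1 ≤ m := by exact_mod_cast i.2
  have h3 : (0 : ℝ) ≤ i := Nat.cast_nonneg _
  rw [abs_le]
  constructor
  · linarith [h1.1]
  · linarith [h1.2]

theorem box_compact (m : ℕ) : IsCompact (box m) := by
  have h1 : Bornology.IsBounded (box m) := by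
    rw [isBounded_iff_forall_norm_le]
    refine ⟨Real.sqrt (∑ _i : Fin m, (2 * (m : ℝ)) ^ 2), fun ω hω => ?_⟩
    rw [EuclideanSpace.norm_eq]
    apply Real.sqrt_le_sqrt
    refine Finset.sum_le_sum fun i _ => ?_
    rw [Real.norm_eq_abs]
    exact pow_le_pow_left₀ (abs_nonneg _) (box_abs hω i) 2
  exact isCompact_of_isClosed_isBounded (box_closed m) h1

theorem moment_continuous (n : ℕ) : Continuous (moment n) := by
  refine (PiLp.continuous_toLp 2 _).comp ?_
  exact continuous_pi fun i => continuous_pow _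

theorem secant_continuous (m : ℕ) : Continuous fun p : E m × E m => secant m p.1 p.2 := by
  simp only [secant_apply]
  refine continuous_finsetSum _ fun i _ => ?_
  have h1 : Continuous fun p : E m × E m => p.2 i :=
    (EuclideanSpace.proj (𝕜 := ℝ) i).continuous.comp continuous_snd
  have h2 : Continuous fun p : E m × E m => moment (m + m) (p.1 i) :=
    (moment_continuous _).comp ((EuclideanSpace.proj (𝕜 := ℝ) i).continuous.comp continuous_fst)
  exact h1.smul h2

theorem secant_inj {m : ℕ} {ω : E m} (h : ω ∈ box m) {u : E m} (hu : secant m ω u = 0) : u = 0 := by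
  have hinj : Function.Injective (fun i => ω i) := by
    intro i j hij
    by_contra hne
    have h1 : (i : ℕ) ≠ j := fun h2 => hne (Fin.ext h2)
    have h2 := one_le_abs_sub h1 (h i) (h j)
    simp only at hij
    rw [hij] at h2
    simp at h2
    linarith
  have hdet : (Matrix.vandermonde fun i => ω i).det ≠ 0 := Matrix.det_vandermonde_ne_zero_iff.2 hinj
  have h1 : Matrix.vecMul (fun i => u i) (Matrix.vandermonde fun i => ω i) = 0 := by
    ext j
    have h2 := secant_coord m ω u (Fin.castAdd m j)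
    rw [hu] at h2
    simp only [Matrix.vecMul, dotProduct, Matrix.vandermonde_apply, Pi.zero_apply]
    rw [Fin.val_castAdd] at h2
    rw [← h2]
    rfl
  have h3 := Matrix.eq_zero_of_vecMul_eq_zero hdet h1
  ext i
  exact congrFun h3 i

theorem secant_bounds (m : ℕ) : ∃ Λ : ℝ, ∀ ω ∈ box m, ∀ u : E m,
    ‖secant m ω u‖ ≤ Λ * ‖u‖ ∧ ‖u‖ ≤ Λ * ‖secant m ω u‖ := by
  have hK : IsCompact (box m ×ˢ sphere (0 : E m) 1) := (box_compact m).prod (isCompact_sphere _ _)
  have hc : Continuous fun p : E m × E m => ‖secant m p.1 p.2‖ := (secant_continuous m).norm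
  rcases (box m ×ˢ sphere (0 : E m) 1).eq_empty_or_nonempty with h0 | hne
  · refine ⟨1, fun ω hω u => ?_⟩
    have hu : u = 0 := by
      by_contra hu
      have h1 : (ω, ‖u‖⁻¹ • u) ∈ (box m ×ˢ sphere (0 : E m) 1) := by
        refine ⟨hω, ?_⟩
        simp only [mem_sphere_iff_norm, sub_zero]
        rw [norm_smul, norm_inv, norm_norm, inv_mul_cancel₀ (norm_ne_zero_iff.2 hu)]
      rw [h0] at h1
      exact h1
    rw [hu]
    simp
  · obtain ⟨p, hp, hpmin⟩ := hK.exists_isMinOn hne hc.continuousOn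
    obtain ⟨q, hq, hqmax⟩ := hK.exists_isMaxOn hne hc.continuousOn
    have hmin : ∀ a ∈ box m ×ˢ sphere (0 : E m) 1, ‖secant m p.1 p.2‖ ≤ ‖secant m a.1 a.2‖ :=
      isMinOn_iff.1 hpmin
    have hmax : ∀ a ∈ box m ×ˢ sphere (0 : E m) 1, ‖secant m a.1 a.2‖ ≤ ‖secant m q.1 q.2‖ :=
      isMaxOn_iff.1 hqmax
    have hc0 : 0 < ‖secant m p.1 p.2‖ := by
      rw [norm_pos_iff]
      intro h1
      have h2 := secant_inj hp.1 h1
      have h3 := hp.2
      rw [h2] at h3
      simp at h3
    clear hpmin hqmax hK hc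
    generalize ‖secant m p.1 p.2‖ = c at hmin hc0
    generalize ‖secant m q.1 q.2‖ = C at hmax
    refine ⟨max C c⁻¹, fun ω hω u => ?_⟩
    rcases eq_or_ne u 0 with hu | hu
    · rw [hu]
      simp
    · have hu0 : 0 < ‖u‖ := norm_pos_iff.2 hu
      have h1 : (ω, ‖u‖⁻¹ • u) ∈ (box m ×ˢ sphere (0 : E m) 1) := by
        refine ⟨hω, ?_⟩
        simp only [mem_sphere_iff_norm, sub_zero]
        rw [norm_smul, norm_inv, norm_norm, inv_mul_cancel₀ (norm_ne_zero_iff.2 hu)]
      have h2 : ‖secant m ω (‖u‖⁻¹ • u)‖ = ‖u‖⁻¹ * ‖secant m ω u‖ := by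
        rw [map_smul, norm_smul, norm_inv, norm_norm]
      have h3 := hmin _ h1
      have h4 := hmax _ h1
      simp only at h3 h4
      rw [h2] at h3 h4
      constructor
      · rw [inv_mul_le_iff₀ hu0, mul_comm] at h4
        exact h4.trans (mul_le_mul_of_nonneg_right (le_max_left _ _) (norm_nonneg _))
      · rw [le_inv_mul_iff₀ hu0] at h3
        have h5 : ‖u‖ = c⁻¹ * (‖u‖ * c) := by
          rw [mul_comm ‖u‖ c, ← mul_assoc, inv_mul_cancel₀ hc0.ne', one_mul]
        have h6 : c⁻¹ * (‖u‖ * c) ≤ c⁻¹ * ‖secant m ω u‖ :=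
          mul_le_mul_of_nonneg_left h3 (inv_pos.2 hc0).le
        have h7 : c⁻¹ * ‖secant m ω u‖ ≤ max C c⁻¹ * ‖secant m ω u‖ :=
          mul_le_mul_of_nonneg_right (le_max_right _ _) (norm_nonneg _)
        exact h5.le.trans (h6.trans h7)

end Run7.h750.LC
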