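import Mathlib
import Pool.Agent.Run7.h750.LC9
set_option autoImplicit false
set_option linter.unusedSectionVars false

/-! Kakeya sets organised by the secant subspaces of the rational normal curve. -/

namespace Run7.h750.LC

open MeasureTheory Set Metric Filter
open scoped ENNReal NNReal Pointwise Topology

/-- a member of the box -/
noncomputable def base (m : ℕ) : E m := WithLp.toLp 2 fun i => 2 * (i : ℝ)

theorem base_mem (m : ℕ) : base m ∈ box m := by
  intro i
  simp [base]

open Classical in
/-- retraction to the box -/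
noncomputable def retr {m : ℕ} (ω : E m) : E m := if ω ∈ box m then ω else base m

theorem retr_mem {m : ℕ} (ω : E m) : retr ω ∈ box m := by
  unfold retr
  split_ifs with h
  · exact h
  · exact base_mem m

theorem retr_of_mem {m : ℕ} {ω : E m} (h : ω ∈ box m) : retr ω = ω := if_pos h

theorem retr_measurable (m : ℕ) : Measurable (retr : E m → E m) := by
  classical
  exact Measurable.ite (box_closed m).measurableSet measurable_id measurable_const

/-- the family of the secant subspaces -/
noncomputable def secFamily (m : ℕ) : Family m (m + m) where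
  Ω := E m
  mΩ := inferInstance
  μ := volume.restrict (box m)
  fin := by
    rw [Measure.restrict_apply_univ]
    exact (box_compact m).measure_lt_top
  L := fun ω => secant m (retr ω)
  meas := by
    intro u
    have h1 : Continuous fun ω : E m => secant m ω u :=
      (secant_continuous m).comp (continuous_id.prodMk continuous_const)
    exact h1.measurable.comp (retr_measurable m)
  Λ := (secant_bounds m).choose
  bound := fun ω u => (secant_bounds m).choose_spec (retr ω) (retr_mem ω) u

theorem secFamily_transversal (m : ℕ) :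
    (secFamily m).Transversal (splitE m)
      (fun ω ω' => ∏ i, |(retr (ω' : E m)) i - (retr (ω : E m)) i|) := by
  constructor
  · intro ω ω'
    refine ⟨LinearMap.id, fun v => le_rfl, ?_⟩
    have h1 := secant_det m (retr (ω : E m)) (retr (ω' : E m))
    have h2 := vandermonde_bound (retr_mem (ω : E m)) (retr_mem (ω' : E m))
    rw [← h1] at h2
    exact h2
  · intro τ hτ0 hτ1
    set R : ℝ := 2 * m with hR
    obtain ⟨C1, hC1, hone⟩ := Pool.Agent.H023R3.KG.one_dim hτ0 hτ1 R
    refine ⟨(C1 ^ m).toNNReal, fun ω' => ?_⟩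
    rw [ENNReal.coe_toNNReal (ENNReal.pow_ne_top hC1)]
    set z : E m := retr (ω' : E m) with hz
    let g : Fin m → ℝ → ℝ≥0∞ := fun i s => ENNReal.ofReal |z i + s * (-1)| ^ (-τ)
    have hg : ∀ i, Measurable (g i) := by
      intro i
      have h1 : Measurable fun s : ℝ => |z i + s * (-1)| := by fun_prop
      exact (ENNReal.measurable_ofReal.comp h1).pow_const _
    have hG : Measurable fun x : Fin m → ℝ => ∏ i, g i (x i) :=
      Finset.measurable_prod _ fun i _ => (hg i).comp (measurable_pi_apply i)
    have hsub : box m ⊆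
        (WithLp.ofLp : E m → (Fin m → ℝ)) ⁻¹' (Set.pi univ fun _ => Icc (-R) R) := by
      intro w hw j _
      exact abs_le.1 (box_abs hw j)
    have hbox : MeasurableSet (Set.pi univ fun _ : Fin m => Icc (-R) R) :=
      MeasurableSet.univ_pi fun _ => measurableSet_Icc
    calc ∫⁻ ω : E m, ENNReal.ofReal (∏ i, |z i - (retr ω) i|) ^ (-τ) ∂(volume.restrict (box m))
        = ∫⁻ ω in box m, ∏ i, g i (ω i) := by
          refine setLIntegral_congr_fun (box_closed m).measurableSet fun ω hω => ?_
          simp only [retr_of_mem hω, g]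
          rw [ENNReal.ofReal_prod_of_nonneg fun i _ => abs_nonneg _,
            ENNReal.prod_rpow_of_ne_top fun i _ => ENNReal.ofReal_ne_top]
          refine congrArg (fun y : ℝ≥0∞ => y ^ (-τ)) (Finset.prod_congr rfl fun i _ => ?_)
          rw [mul_neg_one, sub_eq_add_neg]
      _ ≤ ∫⁻ ω in (WithLp.ofLp : E m → (Fin m → ℝ)) ⁻¹' (Set.pi univ fun _ => Icc (-R) R),
            ∏ i : Fin m, g i (ω i) := lintegral_mono_set hsub
      _ = ∫⁻ x in Set.pi univ fun _ : Fin m => Icc (-R) R, ∏ i : Fin m, g i (x i) :=
          (PiLp.volume_preserving_ofLp (Fin m)).setLIntegral_comp_preimage hbox hG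
      _ = ∏ i : Fin m, ∫⁻ s in Icc (-R) R, g i s := by
          rw [volume_pi, Measure.restrict_pi_pi]
          exact Pool.Agent.H023R3.KG.lint_prod (volume.restrict (Icc (-R) R)) m g hg
      _ ≤ ∏ _i : Fin m, C1 := by
          refine Finset.prod_le_prod' fun i _ => ?_
          have h2 := hone (z i) (-1)
          rw [abs_neg, abs_one, ENNReal.ofReal_one, ENNReal.one_rpow, mul_one] at h2
          exact h2
      _ = C1 ^ m := by
          rw [Finset.prod_const, Finset.card_univ, Fintype.card_fin]

theorem secFamily_spread (m : ℕ) {β : ℝ} (hβ : 0 ≤ β) (hβm : β < m) : (secFamily m).Spread β :=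
  (secFamily m).spread_of_transversal (splitE m) _ (secFamily_transversal m) hβ hβm

/-- Sets which are towers in translates of the secant subspaces. -/
theorem tower_secant {m : ℕ} {S : Set (E m)} (hS : volume S ≠ 0) (hSb : S ⊆ box m)
    (x : E m → E (m + m)) (K : Set (E (m + m)))
    (hK : ∀ ω ∈ S, Tower m {u | x ω + secant m ω u ∈ K}) : Tower (m + m) K := by
  refine Tower.step (secFamily m) ?_ (show Set (E m) from S) ?_ x K ?_
  · intro β h1 h2
    refine secFamily_spread m h1 ?_
    have h3 : (((m + m : ℕ) : ℝ)) - m = m := by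
      push_cast
      ring
    rwa [h3] at h2
  · show volume.restrict (box m) S ≠ 0
    rw [Measure.restrict_apply' (box_closed m).measurableSet, inter_eq_left.2 hSb]
    exact hS
  · intro ω hω
    have h1 : (secFamily m).L ω = secant m ω := by
      show secant m (retr (ω : E m)) = secant m ω
      rw [retr_of_mem (hSb hω)]
    rw [h1]
    exact hK ω hω

/-- The Kakeya property in `ℝ^4` for lines organised by the secant planes of the moment curve. -/
theorem kakeya_secant (K : Set (E 4)) {S : Set (E 2)} (hS : volume S ≠ 0)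
    (hSb : ∀ ω ∈ S, ω 0 ∈ Icc 0 1 ∧ ω 1 ∈ Icc 2 3) (x : E 2 → E 4)
    (h : ∀ ω ∈ S, ∃ Θ : Set ℝ, volume Θ ≠ 0 ∧ ∀ σ ∈ Θ, ∃ p : ℝ,
      volume {t : ℝ | x ω + t • moment 4 (ω 0) + (p + σ * t) • moment 4 (ω 1) ∈ K} ≠ 0) :
    dimH K = 4 := by
  have hSb' : S ⊆ box 2 := by
    intro ω hω i
    obtain ⟨h1, h2⟩ := hSb ω hω
    fin_cases i
    · simpa using h1
    · show ω 1 ∈ Icc (2 * ((1 : ℕ) : ℝ)) (2 * ((1 : ℕ) : ℝ) + 1)
      norm_num
      exact h2
  have key := tower_secant (m := 2) hS hSb' x K ?_
  · have h1 := key.dim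
    simpa using h1
  · intro ω hω
    obtain ⟨Θ, hΘ, h2⟩ := h ω hω
    refine tower_plane hΘ fun σ hσ => ?_
    obtain ⟨p, hp⟩ := h2 σ hσ
    refine ⟨p, ?_⟩
    intro h0
    apply hp
    rw [← h0]
    congr 1
    ext t
    have h4 : x ω + t • moment 4 (ω 0) + (p + σ * t) • moment 4 (ω 1) =
        x ω + secant 2 ω (!₂[t, p + σ * t]) := by
      rw [secant_apply, Fin.sum_univ_two, add_assoc]
      rfl
    show x ω + t • moment 4 (ω 0) + (p + σ * t) • moment 4 (ω 1) ∈ K ↔
      x ω + secant 2 ω (!₂[t, p + σ * t]) ∈ K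
    rw [h4]

end Run7.h750.LC
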