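import Mathlib
import Pool.Agent.Run7.h750.LC8
import Pool.Agent.H023R3.KakGen
set_option autoImplicit false
set_option linter.unusedSectionVars false

/-! Local families, and families of class `C^1` of elliptic type. -/

namespace Run7.h750.LC

open MeasureTheory Set Metric Filter
open scoped ENNReal NNReal Pointwise Topology

theorem prod_integral {m : ℕ} (R : ℝ) {τ : ℝ} (hτ0 : 0 < τ) (hτ1 : τ < 1) :
    ∃ C : ℝ≥0∞, C ≠ ⊤ ∧ ∀ (z : E m) (B : Set (E m)), (∀ ω ∈ B, ∀ i, |ω i| ≤ R) →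
      ∫⁻ ω in B, ENNReal.ofReal (∏ i, |z i - ω i|) ^ (-τ) ≤ C := by
  obtain ⟨C1, hC1, hone⟩ := Pool.Agent.H023R3.KG.one_dim hτ0 hτ1 R
  refine ⟨C1 ^ m, ENNReal.pow_ne_top hC1, fun z B hB => ?_⟩
  let g : Fin m → ℝ → ℝ≥0∞ := fun i s => ENNReal.ofReal |z i + s * (-1)| ^ (-τ)
  have hg : ∀ i, Measurable (g i) := by
    intro i
    have h1 : Measurable fun s : ℝ => |z i + s * (-1)| := by fun_prop
    exact (ENNReal.measurable_ofReal.comp h1).pow_const _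
  have hG : Measurable fun x : Fin m → ℝ => ∏ i, g i (x i) :=
    Finset.measurable_prod _ fun i _ => (hg i).comp (measurable_pi_apply i)
  have hsub : B ⊆ (WithLp.ofLp : E m → (Fin m → ℝ)) ⁻¹' (Set.pi univ fun _ => Icc (-R) R) := by
    intro w hw j _
    exact abs_le.1 (hB w hw j)
  have hbox : MeasurableSet (Set.pi univ fun _ : Fin m => Icc (-R) R) :=
    MeasurableSet.univ_pi fun _ => measurableSet_Icc
  calc ∫⁻ ω in B, ENNReal.ofReal (∏ i, |z i - ω i|) ^ (-τ)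
      = ∫⁻ ω in B, ∏ i, g i (ω i) := by
        refine lintegral_congr fun ω => ?_
        simp only [g]
        rw [ENNReal.ofReal_prod_of_nonneg fun i _ => abs_nonneg _,
          ENNReal.prod_rpow_of_ne_top fun i _ => ENNReal.ofReal_ne_top]
        refine congrArg (fun y : ℝ≥0∞ => y ^ (-τ)) (Finset.prod_congr rfl fun i _ => ?_)
        rw [mul_neg_one, sub_eq_add_neg]
    _ ≤ ∫⁻ ω in (WithLp.ofLp : E m → (Fin m → ℝ)) ⁻¹' (Set.pi univ fun _ => Icc (-R) R),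
          ∏ i : Fin m, g i (ω i) := lintegral_mono_set hsub
    _ = ∫⁻ x in Set.pi univ fun _ : Fin m => Icc (-R) R, ∏ i : Fin m, g i (x i) :=
        (PiLp.volume_preserving_ofLp (Fin m)).setLIntegral_comp_preimage hbox hG
    _ = ∏ i : Fin m, ∫⁻ s in Icc (-R) R, g i s := by
        rw [volume_pi, Measure.restrict_pi_pi]
        exact Pool.Agent.H023R3.KG.lint_prod (volume.restrict (Icc (-R) R)) m g hg
    _ ≤ ∏ _i : Fin m, C1 := by
        refine Finset.prod_le_prod' fun i _ => ?_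
        have h2 := hone (z i) (-1)
        rw [abs_neg, abs_one, ENNReal.ofReal_one, ENNReal.one_rpow, mul_one] at h2
        exact h2
    _ = C1 ^ m := by
        rw [Finset.prod_const, Finset.card_univ, Fintype.card_fin]

open Classical in
/-- a family with parameters in a compact set -/
noncomputable def locFamily {k m n : ℕ} (B : Set (E m)) (hB : IsCompact B) (b0 : E m)
    (L : E m → (E k →L[ℝ] E n)) (hL : ContinuousOn L B) (Λ : ℝ) (hb0 : b0 ∈ B)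
    (hΛ : ∀ ω ∈ B, ∀ u, ‖L ω u‖ ≤ Λ * ‖u‖ ∧ ‖u‖ ≤ Λ * ‖L ω u‖) : Family k n where
  Ω := E m
  mΩ := inferInstance
  μ := volume.restrict B
  fin := by
    rw [Measure.restrict_apply_univ]
    exact hB.measure_lt_top
  L := fun ω => (L (if ω ∈ B then ω else b0) : E k →ₗ[ℝ] E n)
  meas := by
    intro u
    have h1 : (fun ω : E m => (L (if ω ∈ B then ω else b0) : E k →ₗ[ℝ] E n) u) =
        B.piecewise (fun ω => L ω u) (fun _ => L b0 u) := by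
      funext ω
      by_cases h : ω ∈ B
      · simp [h]
      · simp [h]
    rw [h1]
    refine ContinuousOn.measurable_piecewise ?_ continuousOn_const hB.measurableSet
    exact hL.clm_apply continuousOn_const
  Λ := Λ
  bound := by
    intro ω u
    by_cases h : ω ∈ B
    · simp only [h, if_true]
      exact hΛ ω h u
    · simp only [h, if_false]
      exact hΛ b0 hb0 u

open Classical in
theorem locFamily_L {k m n : ℕ} {B : Set (E m)} {hB : IsCompact B} {b0 : E m}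
    {L : E m → (E k →L[ℝ] E n)} {hL : ContinuousOn L B} {Λ : ℝ} {hb0 : b0 ∈ B}
    {hΛ : ∀ ω ∈ B, ∀ u, ‖L ω u‖ ≤ Λ * ‖u‖ ∧ ‖u‖ ≤ Λ * ‖L ω u‖} {ω : E m} (h : ω ∈ B) :
    (locFamily B hB b0 L hL Λ hb0 hΛ).L ω = (L ω : E k →ₗ[ℝ] E n) := by
  show (L (if ω ∈ B then ω else b0) : E k →ₗ[ℝ] E n) = _
  rw [if_pos h]

open Classical in
/-- every member is a member with parameter in the compact set -/
theorem locFamily_mem {k m n : ℕ} {B : Set (E m)} {hB : IsCompact B} {b0 : E m}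
    {L : E m → (E k →L[ℝ] E n)} {hL : ContinuousOn L B} {Λ : ℝ} {hb0 : b0 ∈ B}
    {hΛ : ∀ ω ∈ B, ∀ u, ‖L ω u‖ ≤ Λ * ‖u‖ ∧ ‖u‖ ≤ Λ * ‖L ω u‖} (ω : E m) :
    ∃ ω' ∈ B, (locFamily B hB b0 L hL Λ hb0 hΛ).L ω = (L ω' : E k →ₗ[ℝ] E n) := by
  by_cases h : ω ∈ B
  · exact ⟨ω, h, locFamily_L h⟩
  · refine ⟨b0, hb0, ?_⟩
    show (L (if ω ∈ B then ω else b0) : E k →ₗ[ℝ] E n) = _
    rw [if_neg h]

theorem tower_local {k m n : ℕ} (hn : n = m + k) {B : Set (E m)} (hB : IsCompact B) {b0 : E m}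
    {L : E m → (E k →L[ℝ] E n)} (hL : ContinuousOn L B) {Λ : ℝ} (hb0 : b0 ∈ B)
    (hΛ : ∀ ω ∈ B, ∀ u, ‖L ω u‖ ≤ Λ * ‖u‖ ∧ ‖u‖ ≤ Λ * ‖L ω u‖)
    (hsp : ∀ β : ℝ, 0 ≤ β → β < m → (locFamily B hB b0 L hL Λ hb0 hΛ).Spread β)
    {S : Set (E m)} (hS : volume S ≠ 0) (hSB : S ⊆ B) (x : E m → E n) (K : Set (E n))
    (hK : ∀ ω ∈ S, Tower k {u | x ω + L ω u ∈ K}) : Tower n K := by
  refine Tower.step (locFamily B hB b0 L hL Λ hb0 hΛ) ?_ (show Set (E m) from S) ?_ x K ?_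
  · intro β h1 h2
    refine hsp β h1 ?_
    have h3 : ((n : ℕ) : ℝ) - k = m := by
      rw [hn]
      push_cast
      ring
    rwa [h3] at h2
  · show volume.restrict B S ≠ 0
    rw [Measure.restrict_apply' hB.measurableSet, inter_eq_left.2 hSB]
    exact hS
  · intro ω hω
    have h1 := locFamily_L (hB := hB) (b0 := b0) (hL := hL) (Λ := Λ) (hb0 := hb0) (hΛ := hΛ)
      (hSB hω)
    rw [h1]
    exact hK ω hω

/-- bounds near a point of continuity -/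
theorem local_bounds {k m n : ℕ} {L : E m → (E k →L[ℝ] E n)} {ω0 : E m}
    (hc : ContinuousAt L ω0) (hinj : Function.Injective (L ω0)) :
    ∃ ρ > 0, ∃ Λ : ℝ, ∀ ω ∈ closedBall ω0 ρ, ∀ u,
      ‖L ω u‖ ≤ Λ * ‖u‖ ∧ ‖u‖ ≤ Λ * ‖L ω u‖ := by
  have hker : LinearMap.ker (L ω0 : E k →ₗ[ℝ] E n) = ⊥ := LinearMap.ker_eq_bot.2 hinj
  obtain ⟨Γ, hΓ0, hΓ⟩ := (L ω0 : E k →ₗ[ℝ] E n).exists_antilipschitzWith hker
  have hΓ' : ∀ u, ‖u‖ ≤ Γ * ‖L ω0 u‖ := fun u => by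
    have h1 := hΓ.le_mul_norm_sub (x := u) (y := 0)
    simpa using h1
  have hΓr : (0 : ℝ) < Γ := by exact_mod_cast hΓ0
  have h1 : ∀ᶠ ω in 𝓝 ω0, ‖L ω - L ω0‖ < 1 / (2 * Γ) := by
    have h2 := (tendsto_iff_norm_sub_tendsto_zero.1 hc.tendsto)
    exact h2.eventually (gt_mem_nhds (by positivity))
  obtain ⟨ρ, hρ, hball⟩ := Metric.eventually_nhds_iff_ball.1 h1
  refine ⟨ρ / 2, by positivity, max (‖L ω0‖ + 1 / (2 * Γ)) (2 * Γ), ?_⟩
  intro ω hω u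
  have hω' : ω ∈ ball ω0 ρ := by
    rw [mem_closedBall] at hω
    rw [mem_ball]
    linarith
  have h2 := hball ω hω'
  have h3 : ‖L ω u - L ω0 u‖ ≤ 1 / (2 * Γ) * ‖u‖ := by
    rw [← sub_apply]
    refine ((L ω - L ω0).le_opNorm u).trans ?_
    gcongr
  constructor
  · have h4 : ‖L ω u‖ ≤ (‖L ω0‖ + 1 / (2 * Γ)) * ‖u‖ := by
      have h5 : L ω u = L ω0 u + (L ω u - L ω0 u) := by abel
      calc ‖L ω u‖ = ‖L ω0 u + (L ω u - L ω0 u)‖ := by rw [← h5]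
        _ ≤ ‖L ω0 u‖ + ‖L ω u - L ω0 u‖ := norm_add_le _ _
        _ ≤ ‖L ω0‖ * ‖u‖ + 1 / (2 * Γ) * ‖u‖ := add_le_add ((L ω0).le_opNorm u) h3
        _ = _ := by ring
    exact h4.trans (mul_le_mul_of_nonneg_right (le_max_left _ _) (norm_nonneg _))
  · have h4 : ‖u‖ ≤ Γ * (‖L ω u‖ + 1 / (2 * Γ) * ‖u‖) := by
      refine (hΓ' u).trans ?_
      gcongr
      have h5 : L ω0 u = L ω u - (L ω u - L ω0 u) := by abel
      calc ‖L ω0 u‖ = ‖L ω u - (L ω u - L ω0 u)‖ := by rw [← h5]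
        _ ≤ ‖L ω u‖ + ‖L ω u - L ω0 u‖ := norm_sub_le _ _
        _ ≤ _ := by linarith
    have h5 : Γ * (‖L ω u‖ + 1 / (2 * Γ) * ‖u‖) = Γ * ‖L ω u‖ + ‖u‖ / 2 := by
      field_simp
    rw [h5] at h4
    have h6 : ‖u‖ ≤ 2 * Γ * ‖L ω u‖ := by linarith
    exact h6.trans (mul_le_mul_of_nonneg_right (le_max_right _ _) (norm_nonneg _))

/-- strict differentiability, in a closed ball -/
theorem strict_bound {V W : Type*} [NormedAddCommGroup V] [NormedSpace ℝ V]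
    [NormedAddCommGroup W] [NormedSpace ℝ W] {L : V → W} {T : V →L[ℝ] W}
    {ω0 : V} (hT : HasStrictFDerivAt L T ω0) {ε : ℝ} (hε : 0 < ε) :
    ∃ ρ > 0, ∀ ω ∈ closedBall ω0 ρ, ∀ ω' ∈ closedBall ω0 ρ,
      ‖L ω - L ω' - T (ω - ω')‖ ≤ ε * ‖ω - ω'‖ := by
  have h1 : ∀ᶠ p : V × V in 𝓝 (ω0, ω0), ‖L p.1 - L p.2 - T (p.1 - p.2)‖ ≤ ε * ‖p.1 - p.2‖ :=
    hT.isLittleO.def hε
  obtain ⟨ρ, hρ, hball⟩ := Metric.eventually_nhds_iff.1 h1
  refine ⟨ρ / 2, by positivity, fun ω hω ω' hω' => ?_⟩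
  have h2 : dist (ω, ω') (ω0, ω0) < ρ := by
    rw [Prod.dist_eq, max_lt_iff]
    rw [mem_closedBall] at hω hω'
    constructor
    · show dist ω ω0 < ρ
      linarith
    · show dist ω' ω0 < ρ
      linarith
  exact hball h2

end Run7.h750.LC
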