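import Mathlib
import Pool.Agent.Run7.h750.LC11
set_option autoImplicit false
set_option linter.unusedSectionVars false

/-! Differentiable families of elliptic type. -/

namespace Run7.h750.LC

open MeasureTheory Set Metric Filter
open scoped ENNReal NNReal Pointwise Topology

section
variable {k m n : ℕ}

/-- the determinant -/
noncomputable def dd (e : E n ≃ₗ[ℝ] E m × E k) (J : E m →L[ℝ] E k) (Y Z : E k →L[ℝ] E n) : ℝ :=
  LinearMap.det (e.toLinearMap ∘ₗ
    (((Y : E k →ₗ[ℝ] E n) ∘ₗ (J : E m →ₗ[ℝ] E k)).coprod (Z : E k →ₗ[ℝ] E n)))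

theorem dd_continuous (e : E n ≃ₗ[ℝ] E m × E k) (J : E m →L[ℝ] E k) :
    Continuous fun p : (E k →L[ℝ] E n) × (E k →L[ℝ] E n) => dd e J p.1 p.2 := by
  let ec : E n →L[ℝ] E m × E k := LinearMap.toContinuousLinearMap e.toLinearMap
  let f : (E k →L[ℝ] E n) × (E k →L[ℝ] E n) → (E m × E k →L[ℝ] E m × E k) := fun p =>
    ec.comp (p.1.comp (J.comp (ContinuousLinearMap.fst ℝ (E m) (E k))) +
      p.2.comp (ContinuousLinearMap.snd ℝ (E m) (E k)))
  have hf : Continuous f := by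
    have h1 : Continuous fun p : (E k →L[ℝ] E n) × (E k →L[ℝ] E n) =>
        p.1.comp (J.comp (ContinuousLinearMap.fst ℝ (E m) (E k))) :=
      continuous_fst.clm_comp continuous_const
    have h2 : Continuous fun p : (E k →L[ℝ] E n) × (E k →L[ℝ] E n) =>
        p.2.comp (ContinuousLinearMap.snd ℝ (E m) (E k)) :=
      continuous_snd.clm_comp continuous_const
    exact continuous_const.clm_comp (h1.add h2)
  have h3 : (fun p : (E k →L[ℝ] E n) × (E k →L[ℝ] E n) => dd e J p.1 p.2) =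
      fun p => (f p).det := by
    funext p
    rw [ContinuousLinearMap.det, dd]
    congr 1
  rw [h3]
  exact ContinuousLinearMap.continuous_det.comp hf

theorem det_smul_left (e : E n ≃ₗ[ℝ] E m × E k) (c : ℝ) (X : E m →ₗ[ℝ] E n)
    (Z : E k →ₗ[ℝ] E n) :
    LinearMap.det (e.toLinearMap ∘ₗ ((c • X).coprod Z)) =
      c ^ m * LinearMap.det (e.toLinearMap ∘ₗ (X.coprod Z)) := by
  have h1 : e.toLinearMap ∘ₗ ((c • X).coprod Z) = (e.toLinearMap ∘ₗ (X.coprod Z)) ∘ₗ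
      ((c • (LinearMap.id : E m →ₗ[ℝ] E m)).prodMap (LinearMap.id : E k →ₗ[ℝ] E k)) := by
    apply LinearMap.ext
    rintro ⟨v, u⟩
    simp
  rw [h1, LinearMap.det_comp, LinearMap.det_prodMap, LinearMap.det_smul, LinearMap.det_id,
    LinearMap.det_id, finrank_euclideanSpace, Fintype.card_fin]
  ring

theorem dd_smul_J (e : E n ≃ₗ[ℝ] E m × E k) (J : E m →L[ℝ] E k) (Y Z : E k →L[ℝ] E n) (c : ℝ) :
    dd e (c • J) Y Z = c ^ m * dd e J Y Z := by
  rw [dd, dd, ← det_smul_left]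
  congr 3
  ext v
  simp

/-- the family is elliptic at a point: the derivative in the direction of every non zero vector
maps, modulo the subspace, onto the quotient -/
theorem elliptic_local (hm : 0 < m) (e : E n ≃ₗ[ℝ] E m × E k) {L : E m → (E k →L[ℝ] E n)}
    {T : E m →L[ℝ] (E k →L[ℝ] E n)} {ω0 : E m} (hT : HasStrictFDerivAt L T ω0)
    (hell : ∀ v : E m, v ≠ 0 → ∃ J : E m →L[ℝ] E k, dd e J (T v) (L ω0) ≠ 0) :
    ∃ ρ > 0, ∃ c > 0, ∀ ω ∈ closedBall ω0 ρ, ∀ ω' ∈ closedBall ω0 ρ, ∃ J : E m →L[ℝ] E k,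
      ‖J‖ ≤ 1 ∧ c * ‖ω - ω'‖ ^ m ≤ |dd e J (L ω - L ω') (L ω')| := by
  let W : ℕ → Set ((E k →L[ℝ] E n) × (E k →L[ℝ] E n)) := fun i =>
    ⋃ J ∈ {J : E m →L[ℝ] E k | ‖J‖ ≤ 1}, {p | 1 / ((i : ℝ) + 1) < |dd e J p.1 p.2|}
  have hWo : ∀ i, IsOpen (W i) := by
    intro i
    refine isOpen_biUnion fun J _ => ?_
    exact isOpen_lt continuous_const (dd_continuous e J).abs
  have hWm : Monotone W := by
    intro i j hij p hp
    simp only [W, mem_iUnion, mem_ofPred_eq, exists_prop] at hp ⊢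
    obtain ⟨J, hJ, hp⟩ := hp
    refine ⟨J, hJ, lt_of_le_of_lt ?_ hp⟩
    have h1 : (i : ℝ) ≤ j := by exact_mod_cast hij
    gcongr
  let Kc : Set ((E k →L[ℝ] E n) × (E k →L[ℝ] E n)) :=
    (fun v : E m => (T v, L ω0)) '' sphere 0 1
  have hKc : IsCompact Kc := (isCompact_sphere _ _).image (T.continuous.prodMk continuous_const)
  have hcov : Kc ⊆ ⋃ i, W i := by
    rintro _ ⟨v, hv, rfl⟩
    have hv0 : v ≠ 0 := by
      rintro rfl
      simp at hv
    obtain ⟨J, hJ⟩ := hell v hv0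
    set s : ℝ := (‖J‖ + 1)⁻¹ with hs
    have hs0 : 0 < s := by positivity
    have h1 : 0 < |dd e (s • J) (T v) (L ω0)| := by
      rw [dd_smul_J, abs_pos]
      exact mul_ne_zero (pow_pos hs0 m).ne' hJ
    obtain ⟨i, hi⟩ := exists_nat_one_div_lt h1
    refine mem_iUnion.2 ⟨i, ?_⟩
    simp only [W, mem_iUnion, mem_ofPred_eq, exists_prop]
    refine ⟨s • J, ?_, hi⟩
    rw [norm_smul, Real.norm_of_nonneg hs0.le, hs, inv_mul_le_iff₀ (by positivity)]
    linarith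
  obtain ⟨i, hi⟩ := hKc.elim_directed_cover W hWo hcov hWm.directed_le
  obtain ⟨ε, hε, hth⟩ := hKc.exists_thickening_subset_open (hWo i) hi
  obtain ⟨ρ1, hρ1, h1⟩ := strict_bound hT hε
  -- continuity
  have h2 : ∀ᶠ ω in 𝓝 ω0, ‖L ω - L ω0‖ < ε := by
    have h2 := (tendsto_iff_norm_sub_tendsto_zero.1 hT.hasFDerivAt.continuousAt.tendsto)
    exact h2.eventually (gt_mem_nhds hε)
  obtain ⟨ρ2, hρ2, h3⟩ := Metric.eventually_nhds_iff_ball.1 h2
  obtain ⟨ρ3, hρ3, h4⟩ := strict_bound hT (half_pos hε)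
  refine ⟨min ρ3 (ρ2 / 2), lt_min hρ3 (by positivity), 1 / ((i : ℝ) + 1), by positivity, ?_⟩
  intro ω hω ω' hω'
  rcases eq_or_ne ω ω' with heq | hne
  · refine ⟨0, by simp, ?_⟩
    rw [heq, sub_self, norm_zero, zero_pow hm.ne', mul_zero]
    exact abs_nonneg _
  · have hpos : 0 < ‖ω - ω'‖ := norm_pos_iff.2 (sub_ne_zero.2 hne)
    have hb : ∀ y ∈ closedBall ω0 (min ρ3 (ρ2 / 2)), y ∈ closedBall ω0 ρ3 ∧ y ∈ ball ω0 ρ2 := by
      intro y hy
      rw [mem_closedBall] at hy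
      rw [mem_closedBall, mem_ball]
      have h5 := min_le_left ρ3 (ρ2 / 2)
      have h6 := min_le_right ρ3 (ρ2 / 2)
      constructor <;> linarith
    have h5 := h4 ω (hb ω hω).1 ω' (hb ω' hω').1
    have h6 := h3 ω' (hb ω' hω').2
    set Y : E k →L[ℝ] E n := ‖ω - ω'‖⁻¹ • (L ω - L ω') with hY
    set v : E m := ‖ω - ω'‖⁻¹ • (ω - ω') with hv
    have hvs : v ∈ sphere (0 : E m) 1 := by
      rw [mem_sphere_iff_norm, sub_zero, hv, norm_smul, norm_inv, norm_norm,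
        inv_mul_cancel₀ hpos.ne']
    have h7 : ‖Y - T v‖ < ε := by
      have h8 : Y - T v = ‖ω - ω'‖⁻¹ • (L ω - L ω' - T (ω - ω')) := by
        rw [hY, hv, map_smul, smul_sub _ (L ω - L ω')]
      rw [h8, norm_smul, norm_inv, norm_norm, inv_mul_lt_iff₀ hpos]
      have : 0 < ‖ω - ω'‖ * (ε / 2) := by positivity
      linarith
    have h8 : (Y, L ω') ∈ thickening ε Kc := by
      rw [mem_thickening_iff]
      refine ⟨(T v, L ω0), ⟨v, hvs, rfl⟩, ?_⟩
      rw [Prod.dist_eq, max_lt_iff, dist_eq_norm, dist_eq_norm]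
      exact ⟨h7, h6⟩
    have h9 := hth h8
    simp only [W, mem_iUnion, mem_ofPred_eq, exists_prop] at h9
    obtain ⟨J, hJ, h10⟩ := h9
    refine ⟨J, hJ, ?_⟩
    have h11 : dd e J (L ω - L ω') (L ω') = ‖ω - ω'‖ ^ m * dd e J Y (L ω') := by
      rw [dd, dd, ← det_smul_left]
      congr 3
      ext w
      simp only [hY, LinearMap.comp_apply, ContinuousLinearMap.coe_coe, LinearMap.smul_apply,
        smul_apply]
      rw [smul_smul, mul_inv_cancel₀ hpos.ne', one_smul]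
    rw [h11, abs_mul, abs_of_pos (pow_pos hpos m), mul_comm]
    gcongr

end

/-- Towers from differentiable families of elliptic type. -/
theorem tower_elliptic {k m n : ℕ} (hm : 0 < m) (e : E n ≃ₗ[ℝ] E m × E k)
    {L : E m → (E k →L[ℝ] E n)} {T : E m →L[ℝ] (E k →L[ℝ] E n)} {ω0 : E m}
    (hT : HasStrictFDerivAt L T ω0) (hinj : Function.Injective (L ω0))
    (hell : ∀ v : E m, v ≠ 0 → ∃ J : E m →L[ℝ] E k, dd e J (T v) (L ω0) ≠ 0) :
    ∃ ρ > 0, ∀ S : Set (E m), volume S ≠ 0 → S ⊆ closedBall ω0 ρ → ∀ (x : E m → E n)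
      (K : Set (E n)), (∀ ω ∈ S, Tower k {u | x ω + L ω u ∈ K}) → Tower n K := by
  have hn : n = m + k := by
    have h1 := e.finrank_eq
    rw [Module.finrank_prod] at h1
    simpa using h1
  obtain ⟨ρ1, hρ1, c, hc, h1⟩ := elliptic_local hm e hT hell
  obtain ⟨ρ2, hρ2, Λ, h2⟩ := local_bounds hT.hasFDerivAt.continuousAt hinj
  obtain ⟨ρ3, hρ3, h3⟩ := strict_bound hT one_pos
  set ρ := min ρ1 (min ρ2 ρ3) with hρ
  have hρ0 : 0 < ρ := lt_min hρ1 (lt_min hρ2 hρ3)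
  have hs1 : closedBall ω0 ρ ⊆ closedBall ω0 ρ1 := closedBall_subset_closedBall (min_le_left _ _)
  have hs2 : closedBall ω0 ρ ⊆ closedBall ω0 ρ2 :=
    closedBall_subset_closedBall ((min_le_right _ _).trans (min_le_left _ _))
  have hs3 : closedBall ω0 ρ ⊆ closedBall ω0 ρ3 :=
    closedBall_subset_closedBall ((min_le_right _ _).trans (min_le_right _ _))
  have hcont : ContinuousOn L (closedBall ω0 ρ) := by
    have hlip : LipschitzOnWith (Real.toNNReal (1 + ‖T‖)) L (closedBall ω0 ρ) := by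
      refine LipschitzOnWith.of_dist_le_mul fun a ha b hb => ?_
      rw [dist_eq_norm, dist_eq_norm, Real.coe_toNNReal _ (by positivity)]
      have h4 := h3 a (hs3 ha) b (hs3 hb)
      have h5 : L a - L b = (L a - L b - T (a - b)) + T (a - b) := by abel
      rw [h5]
      refine (norm_add_le _ _).trans ?_
      have h6 := T.le_opNorm (a - b)
      linarith
    exact hlip.continuousOn
  have hB : IsCompact (closedBall ω0 ρ) := isCompact_closedBall _ _
  have hb0 : ω0 ∈ closedBall ω0 ρ := mem_closedBall_self hρ0.le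
  have hΛ : ∀ ω ∈ closedBall ω0 ρ, ∀ u, ‖L ω u‖ ≤ Λ * ‖u‖ ∧ ‖u‖ ≤ Λ * ‖L ω u‖ :=
    fun ω hω u => h2 ω (hs2 hω) u
  refine ⟨ρ, hρ0, fun S hS hSB x K hK => ?_⟩
  refine tower_local hn hB hcont hb0 hΛ (fun β hβ0 hβm => ?_) hS hSB x K hK
  classical
  set 𝓕 := locFamily (closedBall ω0 ρ) hB ω0 L hcont Λ hb0 hΛ with h𝓕
  -- choice of the retraction
  let rt : E m → E m := fun ω => if ω ∈ closedBall ω0 ρ then ω else ω0
  have hrt : ∀ ω, rt ω ∈ closedBall ω0 ρ := by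
    intro ω
    simp only [rt]
    split_ifs with h
    · exact h
    · exact hb0
  have hLrt : ∀ ω : E m, 𝓕.L ω = (L (rt ω) : E k →ₗ[ℝ] E n) := by
    intro ω
    show (L (@ite (E m) _ (Classical.propDecidable _) ω ω0) : E k →ₗ[ℝ] E n) = _
    congr 2
  refine 𝓕.spread_of_transversal' e
    (fun ω ω' => c * ∏ i, |(rt (ω' : E m)) i - (rt (ω : E m)) i|) ⟨?_, ?_⟩ hβ0 hβm
  · intro ω ω'
    obtain ⟨J, hJ, h4⟩ := h1 (rt ω) (hs1 (hrt ω)) (rt ω') (hs1 (hrt ω'))
    have hJn : ∀ v, ‖J v‖ ≤ ‖v‖ := fun v => by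
      have h5 := J.le_of_opNorm_le hJ v
      linarith
    refine ⟨(J : E m →ₗ[ℝ] E k), -(J : E m →ₗ[ℝ] E k), hJn, fun v => ?_, ?_⟩
    · simpa using hJn v
    · rw [hLrt ω, hLrt ω']
      have h5 : ((L (rt ω) : E k →ₗ[ℝ] E n) ∘ₗ (J : E m →ₗ[ℝ] E k) +
          (L (rt ω') : E k →ₗ[ℝ] E n) ∘ₗ (-(J : E m →ₗ[ℝ] E k))) =
          ((L (rt ω) - L (rt ω') : E k →L[ℝ] E n) : E k →ₗ[ℝ] E n) ∘ₗ (J : E m →ₗ[ℝ] E k) := by
        ext v
        simp [sub_eq_add_neg]
      rw [h5]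
      refine le_trans ?_ h4
      refine mul_le_mul_of_nonneg_left ?_ hc.le
      calc ∏ i, |(rt ω') i - (rt ω) i| ≤ ∏ _i : Fin m, ‖rt ω - rt ω'‖ := by
            refine Finset.prod_le_prod (fun i _ => abs_nonneg _) fun i _ => ?_
            rw [abs_sub_comm]
            have h6 := PiLp.norm_apply_le (rt ω - rt ω') i
            rwa [Real.norm_eq_abs] at h6
        _ = ‖rt ω - rt ω'‖ ^ m := by
            rw [Finset.prod_const, Finset.card_univ, Fintype.card_fin]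
  · intro τ hτ0 hτ1
    obtain ⟨C, hC, h4⟩ := prod_integral (m := m) (‖ω0‖ + ρ) hτ0 hτ1
    refine ⟨(ENNReal.ofReal c ^ (-τ) * C).toNNReal, fun ω' => ?_⟩
    have hct : ENNReal.ofReal c ^ (-τ) ≠ ⊤ := by
      rw [ENNReal.rpow_neg]
      exact ENNReal.inv_ne_top.2 (ENNReal.rpow_pos (ENNReal.ofReal_pos.2 hc)
        ENNReal.ofReal_ne_top).ne'
    rw [ENNReal.coe_toNNReal (ENNReal.mul_ne_top hct hC)]
    calc ∫⁻ ω : E m, ENNReal.ofReal (c * ∏ i, |(rt (ω' : E m)) i - (rt ω) i|) ^ (-τ)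
          ∂(volume.restrict (closedBall ω0 ρ))
        = ∫⁻ ω in closedBall ω0 ρ, ENNReal.ofReal c ^ (-τ) *
            ENNReal.ofReal (∏ i, |(rt (ω' : E m)) i - ω i|) ^ (-τ) := by
          refine setLIntegral_congr_fun measurableSet_closedBall fun ω hω => ?_
          have h5 : rt ω = ω := if_pos hω
          simp only [h5]
          rw [ENNReal.ofReal_mul hc.le, ENNReal.mul_rpow_of_ne_top ENNReal.ofReal_ne_top
            ENNReal.ofReal_ne_top]
      _ = ENNReal.ofReal c ^ (-τ) * ∫⁻ ω in closedBall ω0 ρ,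
            ENNReal.ofReal (∏ i, |(rt (ω' : E m)) i - ω i|) ^ (-τ) := by
          rw [lintegral_const_mul' _ _ hct]
      _ ≤ ENNReal.ofReal c ^ (-τ) * C := by
          gcongr
          refine h4 _ _ fun ω hω i => ?_
          have h5 := PiLp.norm_apply_le ω i
          rw [Real.norm_eq_abs] at h5
          refine h5.trans ?_
          rw [mem_closedBall, dist_eq_norm] at hω
          have h6 : ω = ω0 + (ω - ω0) := by abel
          rw [h6]
          exact (norm_add_le _ _).trans (by linarith)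

end Run7.h750.LC
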