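import Mathlib
import Pool.Agent.Run7.h750.LC9
import Pool.Agent.Run7.h750.LC12
set_option autoImplicit false
set_option linter.unusedSectionVars false

/-! Differentiable families of planes of `ℝ^4` of hyperbolic type: the determinant. -/

namespace Run7.h750.LC

open MeasureTheory Set Metric Filter
open scoped ENNReal NNReal Pointwise Topology

/-- the determinant of four vectors of `ℝ^4` -/
noncomputable def det4 (a b c d : E 4) : ℝ :=
  Matrix.det (Matrix.of ![(a : Fin 4 → ℝ), b, c, d])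

theorem det4_add_left (a a' b c d : E 4) : det4 (a + a') b c d = det4 a b c d + det4 a' b c d := by
  simp only [det4, Matrix.det_succ_row_zero, Fin.sum_univ_succ, Matrix.of_apply]
  simp [Fin.succAbove]
  ring

theorem det4_add_right (a b b' c d : E 4) :
    det4 a (b + b') c d = det4 a b c d + det4 a b' c d := by
  simp only [det4, Matrix.det_succ_row_zero, Fin.sum_univ_succ, Matrix.of_apply]
  simp [Fin.succAbove]
  ring

theorem det4_smul_left (t : ℝ) (a b c d : E 4) : det4 (t • a) b c d = t * det4 a b c d := by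
  simp only [det4, Matrix.det_succ_row_zero, Fin.sum_univ_succ, Matrix.of_apply]
  simp [Fin.succAbove]
  ring

theorem det4_smul_right (t : ℝ) (a b c d : E 4) : det4 a (t • b) c d = t * det4 a b c d := by
  simp only [det4, Matrix.det_succ_row_zero, Fin.sum_univ_succ, Matrix.of_apply]
  simp [Fin.succAbove]
  ring

theorem det4_continuous : Continuous fun p : E 4 × E 4 × E 4 × E 4 =>
    det4 p.1 p.2.1 p.2.2.1 p.2.2.2 := by
  refine Continuous.matrix_det ?_
  refine continuous_matrix fun i j => ?_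
  fin_cases i
  · exact (EuclideanSpace.proj (𝕜 := ℝ) j).continuous.comp continuous_fst
  · exact (EuclideanSpace.proj (𝕜 := ℝ) j).continuous.comp (continuous_fst.comp continuous_snd)
  · exact (EuclideanSpace.proj (𝕜 := ℝ) j).continuous.comp
      (continuous_fst.comp (continuous_snd.comp continuous_snd))
  · exact (EuclideanSpace.proj (𝕜 := ℝ) j).continuous.comp
      (continuous_snd.comp (continuous_snd.comp continuous_snd))

/-- the determinant of the first column of `X`, the second column of `Y` and the columns of `Z` -/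
noncomputable def qd (X Y Z : E 2 →L[ℝ] E 4) : ℝ :=
  det4 (X (EuclideanSpace.single 0 1)) (Y (EuclideanSpace.single 1 1))
    (Z (EuclideanSpace.single 0 1)) (Z (EuclideanSpace.single 1 1))

theorem qd_add_left (X X' Y Z : E 2 →L[ℝ] E 4) : qd (X + X') Y Z = qd X Y Z + qd X' Y Z :=
  det4_add_left _ _ _ _ _

theorem qd_add_right (X Y Y' Z : E 2 →L[ℝ] E 4) : qd X (Y + Y') Z = qd X Y Z + qd X Y' Z :=
  det4_add_right _ _ _ _ _

theorem qd_smul_left (t : ℝ) (X Y Z : E 2 →L[ℝ] E 4) : qd (t • X) Y Z = t * qd X Y Z :=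
  det4_smul_left _ _ _ _ _

theorem qd_smul_right (t : ℝ) (X Y Z : E 2 →L[ℝ] E 4) : qd X (t • Y) Z = t * qd X Y Z :=
  det4_smul_right _ _ _ _ _

theorem qd_continuous : Continuous fun p : (E 2 →L[ℝ] E 4) × (E 2 →L[ℝ] E 4) × (E 2 →L[ℝ] E 4) =>
    qd p.1 p.2.1 p.2.2 := by
  have h1 : Continuous fun p : (E 2 →L[ℝ] E 4) × (E 2 →L[ℝ] E 4) × (E 2 →L[ℝ] E 4) =>
      (p.1 (EuclideanSpace.single 0 1), p.2.1 (EuclideanSpace.single 1 1),
        p.2.2 (EuclideanSpace.single 0 1), p.2.2 (EuclideanSpace.single 1 1)) := by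
    refine (continuous_fst.clm_apply continuous_const).prodMk ?_
    refine ((continuous_fst.comp continuous_snd).clm_apply continuous_const).prodMk ?_
    exact ((continuous_snd.comp continuous_snd).clm_apply continuous_const).prodMk
      ((continuous_snd.comp continuous_snd).clm_apply continuous_const)
  have h2 := Continuous.comp det4_continuous h1
  simp only [Function.comp_def] at h2
  simp only [qd]
  exact h2

/-- splitting the coordinates of `ℝ^4` -/
noncomputable def split4 : E 4 ≃ₗ[ℝ] E 2 × E 2 where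
  toFun y := (!₂[y 0, y 1], !₂[y 2, y 3])
  invFun p := !₂[p.1 0, p.1 1, p.2 0, p.2 1]
  map_add' x y := by
    ext i <;> fin_cases i <;> simp
  map_smul' c y := by
    ext i <;> fin_cases i <;> simp
  left_inv y := by
    ext i
    fin_cases i <;> simp
  right_inv p := by
    ext i <;> fin_cases i <;> simp

theorem qd_det (Y Z : E 2 →L[ℝ] E 4) :
    LinearMap.det (split4.toLinearMap ∘ₗ
      ((Y : E 2 →ₗ[ℝ] E 4).coprod (Z : E 2 →ₗ[ℝ] E 4))) = qd Y Y Z := by
  set f := split4.toLinearMap ∘ₗ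
      ((Y : E 2 →ₗ[ℝ] E 4).coprod (Z : E 2 →ₗ[ℝ] E 4)) with hf
  let b := (EuclideanSpace.basisFun (Fin 2) ℝ).toBasis.prod
    (EuclideanSpace.basisFun (Fin 2) ℝ).toBasis
  let σ : Fin 2 ⊕ Fin 2 ≃ Fin 4 := finSumFinEquiv
  rw [← LinearMap.det_toMatrix b f]
  let M : Matrix (Fin 4) (Fin 4) ℝ :=
      Matrix.of ![((Y (EuclideanSpace.single 0 1) : E 4) : Fin 4 → ℝ),
        Y (EuclideanSpace.single 1 1), Z (EuclideanSpace.single 0 1),
        Z (EuclideanSpace.single 1 1)]
  have s0 : σ (Sum.inl 0) = 0 := rfl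
  have s1 : σ (Sum.inl 1) = 1 := rfl
  have s2 : σ (Sum.inr 0) = 2 := rfl
  have s3 : σ (Sum.inr 1) = 3 := rfl
  have b0 : b (Sum.inl 0) = (EuclideanSpace.single 0 1, 0) := by simp [b]
  have b1 : b (Sum.inl 1) = (EuclideanSpace.single 1 1, 0) := by simp [b]
  have b2 : b (Sum.inr 0) = (0, EuclideanSpace.single 0 1) := by simp [b]
  have b3 : b (Sum.inr 1) = (0, EuclideanSpace.single 1 1) := by simp [b]
  have r0 : ∀ p : E 2 × E 2, b.repr p (Sum.inl 0) = p.1 0 := fun p => by simp [b]
  have r1 : ∀ p : E 2 × E 2, b.repr p (Sum.inl 1) = p.1 1 := fun p => by simp [b]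
  have r2 : ∀ p : E 2 × E 2, b.repr p (Sum.inr 0) = p.2 0 := fun p => by simp [b]
  have r3 : ∀ p : E 2 × E 2, b.repr p (Sum.inr 1) = p.2 1 := fun p => by simp [b]
  have hfa : ∀ p : E 2 × E 2, f p = (!₂[(Y p.1 + Z p.2) 0, (Y p.1 + Z p.2) 1],
    !₂[(Y p.1 + Z p.2) 2, (Y p.1 + Z p.2) 3]) := fun p => rfl
  have h1 : LinearMap.toMatrix b b f = M.transpose.submatrix σ σ := by
    ext i j
    rw [LinearMap.toMatrix_apply, Matrix.submatrix_apply, Matrix.transpose_apply]
    rcases i with i | i <;> rcases j with j | j <;> fin_cases i <;> fin_cases j <;>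
      simp only [Fin.zero_eta, Fin.mk_one, s0, s1, s2, s3, b0, b1, b2, b3, r0, r1, r2, r3, hfa,
        map_zero, add_zero, zero_add] <;> rfl
  rw [h1, Matrix.det_submatrix_equiv_self, Matrix.det_transpose]
  rfl

end Run7.h750.LC
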