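import Mathlib
import Pool.Agent.Run7.h750.LC13
set_option autoImplicit false
set_option linter.unusedSectionVars false

/-! Differentiable families of planes of `ℝ^4` of hyperbolic type: expansion. -/

namespace Run7.h750.LC

open MeasureTheory Set Metric Filter
open scoped ENNReal NNReal Pointwise Topology

/-- linear maps -/
abbrev V := (E 2 →L[ℝ] E 4)

theorem qd_cont {α : Type*} [TopologicalSpace α] {X Y Z : α → V} (hX : Continuous X)
    (hY : Continuous Y) (hZ : Continuous Z) : Continuous fun a => qd (X a) (Y a) (Z a) := by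
  have h1 : Continuous fun a => (X a, Y a, Z a) := hX.prodMk (hY.prodMk hZ)
  have h2 := Continuous.comp qd_continuous h1
  simp only [Function.comp_def] at h2
  exact h2

/-- the determinant is expanding in a direction in which the derivative is degenerate -/
theorem hyp_expand {L : E 2 → (E 2 →L[ℝ] E 4)} {T : E 2 →L[ℝ] (E 2 →L[ℝ] E 4)} {ω0 : E 2}
    (hT : HasStrictFDerivAt L T ω0) {v1 v2 : E 2}
    (hq : qd (T v1) (T v1) (L ω0) = 0)
    (hb : qd (T v1) (T v2) (L ω0) + qd (T v2) (T v1) (L ω0) ≠ 0) :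
    ∃ ρ > 0, ∃ c > 0, ∀ ω ∈ closedBall ω0 ρ, ∀ ω2 ∈ closedBall ω0 ρ, ∀ ω' ∈ closedBall ω0 ρ,
      ∀ r s h : ℝ, ω - ω2 = s • v1 → ω2 - ω' = r • v1 + h • v2 → |r| ≤ |h| → |s| ≤ 2 * |h| →
      c * (|s| * |h|) ≤ |qd (L ω - L ω') (L ω - L ω') (L ω') -
        qd (L ω2 - L ω') (L ω2 - L ω') (L ω')| := by
  set b : ℝ := qd (T v1) (T v2) (L ω0) + qd (T v2) (T v1) (L ω0) with hbdef
  have hb0 : 0 < |b| := abs_pos.2 hb
  let Φ : V × V × V × ℝ → ℝ := fun p =>
    qd p.1 p.2.1 p.2.2.1 + qd p.2.1 p.1 p.2.2.1 + p.2.2.2 * qd p.1 p.1 p.2.2.1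
  have hΦ : Continuous Φ := by
    have c1 : Continuous fun p : V × V × V × ℝ => p.1 := continuous_fst
    have c2 : Continuous fun p : V × V × V × ℝ => p.2.1 := continuous_fst.comp continuous_snd
    have c3 : Continuous fun p : V × V × V × ℝ => p.2.2.1 :=
      continuous_fst.comp (continuous_snd.comp continuous_snd)
    have c4 : Continuous fun p : V × V × V × ℝ => p.2.2.2 :=
      continuous_snd.comp (continuous_snd.comp continuous_snd)
    exact ((qd_cont c1 c2 c3).add (qd_cont c2 c1 c3)).add (c4.mul (qd_cont c1 c1 c3))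
  let g : ℝ × ℝ → V × V × V × ℝ := fun q => (T v1, T (q.1 • v1 + v2), L ω0, q.2)
  have hg : Continuous g := by
    have e1 : Continuous fun q : ℝ × ℝ => T (q.1 • v1 + v2) := by
      refine T.continuous.comp ?_
      fun_prop
    exact continuous_const.prodMk (e1.prodMk (continuous_const.prodMk continuous_snd))
  let Kc : Set (V × V × V × ℝ) := g '' (Icc (-1) 1 ×ˢ Icc (-2) 2)
  have hKc : IsCompact Kc := (isCompact_Icc.prod isCompact_Icc).image hg
  let U : Set (V × V × V × ℝ) := {p | |b| / 2 < |Φ p|}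
  have hU : IsOpen U := isOpen_lt continuous_const hΦ.abs
  have hKU : Kc ⊆ U := by
    rintro _ ⟨q, _, rfl⟩
    have h1 : Φ (g q) = b := by
      show qd (T v1) (T (q.1 • v1 + v2)) (L ω0) + qd (T (q.1 • v1 + v2)) (T v1) (L ω0) +
        q.2 * qd (T v1) (T v1) (L ω0) = b
      rw [map_add, map_smul, qd_add_right, qd_add_left, qd_smul_right, qd_smul_left, hq, hbdef]
      ring
    show |b| / 2 < |Φ (g q)|
    rw [h1]
    linarith
  obtain ⟨ε, hε, hth⟩ := hKc.exists_thickening_subset_open hU hKU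
  set A : ℝ := ‖v1‖ + ‖v2‖ + 1 with hA
  have hA0 : 0 < A := by positivity
  obtain ⟨ρ1, hρ1, h1⟩ := strict_bound hT (show 0 < ε / (2 * A) by positivity)
  have h2 : ∀ᶠ ω in 𝓝 ω0, ‖L ω - L ω0‖ < ε := by
    have h2 := (tendsto_iff_norm_sub_tendsto_zero.1 hT.hasFDerivAt.continuousAt.tendsto)
    exact h2.eventually (gt_mem_nhds hε)
  obtain ⟨ρ2, hρ2, h3⟩ := Metric.eventually_nhds_iff_ball.1 h2
  refine ⟨min ρ1 (ρ2 / 2), lt_min hρ1 (by positivity), |b| / 2, by positivity, ?_⟩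
  intro ω hω ω2 hω2 ω' hω' r s h hs hr hrh hsh
  have hball : ∀ y ∈ closedBall ω0 (min ρ1 (ρ2 / 2)), y ∈ closedBall ω0 ρ1 ∧ y ∈ ball ω0 ρ2 := by
    intro y hy
    rw [mem_closedBall] at hy
    rw [mem_closedBall, mem_ball]
    have h5 := min_le_left ρ1 (ρ2 / 2)
    have h6 := min_le_right ρ1 (ρ2 / 2)
    constructor <;> linarith
  rcases eq_or_ne s 0 with hs0 | hs0
  · rw [hs0, abs_zero, zero_mul, mul_zero]
    exact abs_nonneg _
  have hh0 : h ≠ 0 := by
    rintro rfl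
    rw [abs_zero, mul_zero] at hsh
    exact hs0 (abs_eq_zero.1 (le_antisymm hsh (abs_nonneg _)))
  have hsp : 0 < |s| := abs_pos.2 hs0
  have hhp : 0 < |h| := abs_pos.2 hh0
  set X : V := s⁻¹ • (L ω - L ω2) with hX
  set Y : V := h⁻¹ • (L ω2 - L ω') with hY
  have hεA : ε / (2 * A) * A = ε / 2 := by field_simp
  have hX1 : ‖X - T v1‖ < ε := by
    have h5 : X - T v1 = s⁻¹ • (L ω - L ω2 - T (ω - ω2)) := by
      rw [hX, hs, map_smul, smul_sub _ (L ω - L ω2), smul_smul, inv_mul_cancel₀ hs0, one_smul]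
    have h6 := h1 ω (hball ω hω).1 ω2 (hball ω2 hω2).1
    rw [h5, norm_smul, norm_inv, Real.norm_eq_abs, inv_mul_lt_iff₀ hsp]
    have h7 : ‖ω - ω2‖ ≤ |s| * A := by
      rw [hs, norm_smul, Real.norm_eq_abs]
      refine mul_le_mul_of_nonneg_left ?_ hsp.le
      have := norm_nonneg v2
      linarith
    calc ‖L ω - L ω2 - T (ω - ω2)‖ ≤ ε / (2 * A) * ‖ω - ω2‖ := h6
      _ ≤ ε / (2 * A) * (|s| * A) := by gcongr
      _ = |s| * (ε / 2) := by rw [← hεA]; ring
      _ < |s| * ε := by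
        refine mul_lt_mul_of_pos_left ?_ hsp
        linarith
  have hY1 : ‖Y - T ((r / h) • v1 + v2)‖ < ε := by
    have h5 : Y - T ((r / h) • v1 + v2) = h⁻¹ • (L ω2 - L ω' - T (ω2 - ω')) := by
      rw [hY, hr, smul_sub _ (L ω2 - L ω'), ← map_smul T h⁻¹, smul_add, smul_smul, smul_smul,
        inv_mul_cancel₀ hh0, one_smul, div_eq_inv_mul]
    have h6 := h1 ω2 (hball ω2 hω2).1 ω' (hball ω' hω').1
    rw [h5, norm_smul, norm_inv, Real.norm_eq_abs, inv_mul_lt_iff₀ hhp]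
    have h7 : ‖ω2 - ω'‖ ≤ |h| * A := by
      rw [hr]
      refine (norm_add_le _ _).trans ?_
      rw [norm_smul, norm_smul, Real.norm_eq_abs, Real.norm_eq_abs]
      have h8 : |r| * ‖v1‖ ≤ |h| * ‖v1‖ := by gcongr
      have h9 : |h| * A = |h| * ‖v1‖ + |h| * ‖v2‖ + |h| := by rw [hA]; ring
      linarith
    calc ‖L ω2 - L ω' - T (ω2 - ω')‖ ≤ ε / (2 * A) * ‖ω2 - ω'‖ := h6
      _ ≤ ε / (2 * A) * (|h| * A) := by gcongr
      _ = |h| * (ε / 2) := by rw [← hεA]; ring
      _ < |h| * ε := by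
        refine mul_lt_mul_of_pos_left ?_ hhp
        linarith
  have hmem : (X, Y, L ω', s / h) ∈ thickening ε Kc := by
    rw [mem_thickening_iff]
    refine ⟨g (r / h, s / h), ⟨(r / h, s / h), ⟨?_, ?_⟩, rfl⟩, ?_⟩
    · have h5 : |r / h| ≤ 1 := by
        rw [abs_div]
        exact div_le_one_of_le₀ hrh hhp.le
      exact abs_le.1 h5
    · have h5 : |s / h| ≤ 2 := by
        rw [abs_div, div_le_iff₀ hhp]
        exact hsh
      exact abs_le.1 h5
    · show dist (X, Y, L ω', s / h) (T v1, T ((r / h) • v1 + v2), L ω0, s / h) < ε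
      rw [Prod.dist_eq, Prod.dist_eq, Prod.dist_eq, max_lt_iff, max_lt_iff, max_lt_iff,
        dist_eq_norm, dist_eq_norm, dist_eq_norm, dist_self]
      exact ⟨hX1, hY1, h3 ω' (hball ω' hω').2, hε⟩
  have hU1 : |b| / 2 < |Φ (X, Y, L ω', s / h)| := hth hmem
  have hid : qd (L ω - L ω') (L ω - L ω') (L ω') - qd (L ω2 - L ω') (L ω2 - L ω') (L ω') =
      s * h * Φ (X, Y, L ω', s / h) := by
    have e1 : L ω2 - L ω' = h • Y := by
      rw [hY, smul_smul, mul_inv_cancel₀ hh0, one_smul]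
    have e2 : L ω - L ω' = s • X + h • Y := by
      rw [← e1, hX, smul_smul, mul_inv_cancel₀ hs0, one_smul]
      abel
    show _ = s * h * (qd X Y (L ω') + qd Y X (L ω') + s / h * qd X X (L ω'))
    rw [e2, e1]
    simp only [qd_add_left, qd_add_right, qd_smul_left, qd_smul_right]
    field_simp
    ring
  rw [hid, abs_mul, abs_mul, mul_comm]
  gcongr

end Run7.h750.LC
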