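import Mathlib
import Pool.Agent.Run7.h750.LC14
set_option autoImplicit false
set_option linter.unusedSectionVars false

/-! An integral over the plane. -/

namespace Run7.h750.LC

open MeasureTheory Set Metric Filter
open scoped ENNReal NNReal Pointwise Topology

/-- an expanding function is large outside a neighbourhood of a point -/
theorem exists_center {A : Set ℝ} {g : ℝ → ℝ} {κ : ℝ} (hκ : 0 < κ)
    (h : ∀ a ∈ A, ∀ a2 ∈ A, κ * |a - a2| ≤ |g a - g a2|) : ∃ s, ∀ a ∈ A, κ * |a - s| ≤ |g a| := by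
  rcases A.eq_empty_or_nonempty with hA | hA
  · exact ⟨0, by simp [hA]⟩
  have key : ∀ a ∈ A, ∀ a2 ∈ A, a2 - |g a2| / κ ≤ a + |g a| / κ := by
    intro a ha a2 ha2
    have h1 := h a ha a2 ha2
    have h2 : |g a - g a2| ≤ |g a| + |g a2| := abs_sub _ _
    have h3 : |a - a2| ≤ (|g a| + |g a2|) / κ := by
      rw [le_div_iff₀ hκ]
      linarith
    have h4 := neg_abs_le (a - a2)
    rw [add_div] at h3
    linarith
  set s : ℝ := sSup ((fun a => a - |g a| / κ) '' A) with hs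
  obtain ⟨a0, ha0⟩ := hA
  have hbdd : BddAbove ((fun a => a - |g a| / κ) '' A) := by
    refine ⟨a0 + |g a0| / κ, ?_⟩
    rintro _ ⟨a2, ha2, rfl⟩
    exact key a0 ha0 a2 ha2
  refine ⟨s, fun a ha => ?_⟩
  have h1 : a - |g a| / κ ≤ s := le_csSup hbdd ⟨a, ha, rfl⟩
  have h2 : s ≤ a + |g a| / κ := by
    refine csSup_le ⟨_, ⟨a0, ha0, rfl⟩⟩ ?_
    rintro _ ⟨a2, ha2, rfl⟩
    exact key a ha a2 ha2
  have h3 : |a - s| ≤ |g a| / κ := by
    rw [abs_le]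
    constructor <;> linarith
  rw [le_div_iff₀ hκ] at h3
  linarith

theorem rpow_anti {x y : ℝ≥0∞} (h : x ≤ y) {τ : ℝ} (hτ : 0 < τ) : y ^ (-τ) ≤ x ^ (-τ) := by
  rw [ENNReal.rpow_neg, ENNReal.rpow_neg]
  exact ENNReal.inv_le_inv.2 (ENNReal.rpow_le_rpow h hτ.le)

theorem half_integral {τ : ℝ} (hτ0 : 0 < τ) (hτ1 : τ < 1) (R : ℝ) {c : ℝ} (hc : 0 < c) :
    ∃ C : ℝ≥0∞, C ≠ ⊤ ∧ ∀ (B : Set (ℝ × ℝ)), MeasurableSet B →
      (∀ p ∈ B, |p.1| ≤ R ∧ |p.2| ≤ R) → ∀ (q : ℝ × ℝ) (G : ℝ × ℝ → ℝ), Measurable G →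
      (∀ b a a2, (a, b) ∈ B → (a2, b) ∈ B → |a - q.1| ≤ |b - q.2| → |a2 - q.1| ≤ |b - q.2| →
        c * (|a - a2| * |b - q.2|) ≤ |G (a, b) - G (a2, b)|) →
      ∫⁻ p in B ∩ {p | |p.1 - q.1| ≤ |p.2 - q.2|}, ENNReal.ofReal |G p| ^ (-τ) ≤ C := by
  obtain ⟨C1, hC1, hone⟩ := Pool.Agent.H023R3.KG.one_dim hτ0 hτ1 R
  have hct : ENNReal.ofReal |c| ^ (-τ) ≠ ⊤ := by
    rw [ENNReal.rpow_neg, abs_of_pos hc]
    exact ENNReal.inv_ne_top.2 (ENNReal.rpow_pos (ENNReal.ofReal_pos.2 hc)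
      ENNReal.ofReal_ne_top).ne'
  refine ⟨(C1 + 1) * (C1 * ENNReal.ofReal |c| ^ (-τ)), ENNReal.mul_ne_top
    (ENNReal.add_ne_top.2 ⟨hC1, ENNReal.one_ne_top⟩) (ENNReal.mul_ne_top hC1 hct), ?_⟩
  intro B hB hBR q G hG hexp
  have hU2 : MeasurableSet {p : ℝ × ℝ | |p.1 - q.1| ≤ |p.2 - q.2|} :=
    measurableSet_le (by fun_prop) (by fun_prop)
  set U : Set (ℝ × ℝ) := B ∩ {p | |p.1 - q.1| ≤ |p.2 - q.2|} with hU
  have hUm : MeasurableSet U := hB.inter hU2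
  set f : ℝ × ℝ → ℝ≥0∞ := fun p => ENNReal.ofReal |G p| ^ (-τ) with hf
  have hfm : Measurable f := (ENNReal.measurable_ofReal.comp hG.abs).pow_const _
  have h1 : ∫⁻ p in U, f p = ∫⁻ b : ℝ, ∫⁻ a : ℝ, U.indicator f (a, b) := by
    rw [← lintegral_indicator hUm, Measure.volume_eq_prod,
      lintegral_prod_symm _ (hfm.indicator hUm).aemeasurable]
  rw [h1]
  have h2 : ∀ b : ℝ, ∫⁻ a : ℝ, U.indicator f (a, b) ≤ (Icc (-R) R).indicator
      (fun b => (C1 + 1) * ENNReal.ofReal |-(c * q.2) + b * c| ^ (-τ)) b := by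
    intro b
    by_cases hb : b ∈ Icc (-R) R
    · rw [indicator_of_mem hb]
      rcases eq_or_ne b q.2 with hbq | hbq
      · have h3 : -(c * q.2) + b * c = 0 := by rw [hbq]; ring
        rw [h3, abs_zero, ENNReal.ofReal_zero, ENNReal.zero_rpow_of_neg (by linarith),
          ENNReal.mul_top (by simp)]
        exact le_top
      · have hbp : 0 < |b - q.2| := abs_pos.2 (sub_ne_zero.2 hbq)
        set κ : ℝ := c * |b - q.2| with hκ
        have hκ0 : 0 < κ := by positivity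
        obtain ⟨s, hs⟩ := exists_center (A := {a | (a, b) ∈ U}) (g := fun a => G (a, b)) hκ0 (by
          intro a ha a2 ha2
          have h3 := hexp b a a2 ha.1 ha2.1 ha.2 ha2.2
          rw [hκ]
          calc c * |b - q.2| * |a - a2| = c * (|a - a2| * |b - q.2|) := by ring
            _ ≤ _ := h3)
        have h3 : ∀ a : ℝ, U.indicator f (a, b) ≤ (Icc (-R) R).indicator
            (fun a => ENNReal.ofReal |-(s * κ) + a * κ| ^ (-τ)) a := by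
          intro a
          by_cases ha : (a, b) ∈ U
          · have haR : a ∈ Icc (-R) R := abs_le.1 (hBR (a, b) ha.1).1
            rw [indicator_of_mem ha, indicator_of_mem haR]
            refine rpow_anti (ENNReal.ofReal_le_ofReal ?_) hτ0
            have h4 := hs a ha
            have h5 : -(s * κ) + a * κ = κ * (a - s) := by ring
            rw [h5, abs_mul, abs_of_pos hκ0]
            exact h4
          · rw [indicator_of_notMem ha]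
            exact zero_le
        calc ∫⁻ a : ℝ, U.indicator f (a, b)
            ≤ ∫⁻ a : ℝ, (Icc (-R) R).indicator
                (fun a => ENNReal.ofReal |-(s * κ) + a * κ| ^ (-τ)) a := lintegral_mono h3
          _ = ∫⁻ a in Icc (-R) R, ENNReal.ofReal |-(s * κ) + a * κ| ^ (-τ) := by
              rw [lintegral_indicator measurableSet_Icc]
          _ ≤ C1 * ENNReal.ofReal |κ| ^ (-τ) := hone _ _
          _ ≤ (C1 + 1) * ENNReal.ofReal |-(c * q.2) + b * c| ^ (-τ) := by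
              have h4 : |κ| = |-(c * q.2) + b * c| := by
                have h5 : -(c * q.2) + b * c = c * (b - q.2) := by ring
                rw [h5, hκ, abs_mul, abs_mul, abs_abs]
              rw [h4]
              gcongr
              exact le_self_add
    · rw [indicator_of_notMem hb]
      have h3 : ∀ a : ℝ, U.indicator f (a, b) = 0 := by
        intro a
        apply indicator_of_notMem
        rintro ⟨h4, _⟩
        exact hb (abs_le.1 (hBR _ h4).2)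
      simp [h3]
  calc ∫⁻ b : ℝ, ∫⁻ a : ℝ, U.indicator f (a, b)
      ≤ ∫⁻ b : ℝ, (Icc (-R) R).indicator
          (fun b => (C1 + 1) * ENNReal.ofReal |-(c * q.2) + b * c| ^ (-τ)) b := lintegral_mono h2
    _ = ∫⁻ b in Icc (-R) R, (C1 + 1) * ENNReal.ofReal |-(c * q.2) + b * c| ^ (-τ) := by
        rw [lintegral_indicator measurableSet_Icc]
    _ = (C1 + 1) * ∫⁻ b in Icc (-R) R, ENNReal.ofReal |-(c * q.2) + b * c| ^ (-τ) := by
        rw [lintegral_const_mul' _ _ (ENNReal.add_ne_top.2 ⟨hC1, ENNReal.one_ne_top⟩)]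
    _ ≤ (C1 + 1) * (C1 * ENNReal.ofReal |c| ^ (-τ)) := by
        gcongr
        exact hone _ _

theorem two_integral {τ : ℝ} (hτ0 : 0 < τ) (hτ1 : τ < 1) (R : ℝ) {c : ℝ} (hc : 0 < c) :
    ∃ C : ℝ≥0∞, C ≠ ⊤ ∧ ∀ (B : Set (ℝ × ℝ)), MeasurableSet B →
      (∀ p ∈ B, |p.1| ≤ R ∧ |p.2| ≤ R) → ∀ (q : ℝ × ℝ) (G : ℝ × ℝ → ℝ), Measurable G →
      (∀ b a a2, (a, b) ∈ B → (a2, b) ∈ B → |a - q.1| ≤ |b - q.2| → |a2 - q.1| ≤ |b - q.2| →
        c * (|a - a2| * |b - q.2|) ≤ |G (a, b) - G (a2, b)|) →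
      (∀ a b b2, (a, b) ∈ B → (a, b2) ∈ B → |b - q.2| ≤ |a - q.1| → |b2 - q.2| ≤ |a - q.1| →
        c * (|b - b2| * |a - q.1|) ≤ |G (a, b) - G (a, b2)|) →
      ∫⁻ p in B, ENNReal.ofReal |G p| ^ (-τ) ≤ C := by
  obtain ⟨C, hC, h⟩ := half_integral hτ0 hτ1 R hc
  refine ⟨C + C, ENNReal.add_ne_top.2 ⟨hC, hC⟩, ?_⟩
  intro B hB hBR q G hG h1 h2
  set f : ℝ × ℝ → ℝ≥0∞ := fun p => ENNReal.ofReal |G p| ^ (-τ) with hf
  have hfm : Measurable f := (ENNReal.measurable_ofReal.comp hG.abs).pow_const _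
  have hsub : B ⊆ (B ∩ {p | |p.1 - q.1| ≤ |p.2 - q.2|}) ∪
      (B ∩ {p | |p.2 - q.2| ≤ |p.1 - q.1|}) := by
    intro p hp
    rcases le_total |p.1 - q.1| |p.2 - q.2| with h3 | h3
    · exact Or.inl ⟨hp, h3⟩
    · exact Or.inr ⟨hp, h3⟩
  have hU2 : MeasurableSet {p : ℝ × ℝ | |p.2 - q.2| ≤ |p.1 - q.1|} :=
    measurableSet_le (by fun_prop) (by fun_prop)
  have hsw : MeasurePreserving (Prod.swap : ℝ × ℝ → ℝ × ℝ) volume volume :=
    Measure.measurePreserving_swap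
  have h3 : ∫⁻ p in B ∩ {p | |p.2 - q.2| ≤ |p.1 - q.1|}, f p ≤ C := by
    rw [← hsw.setLIntegral_comp_preimage (hB.inter hU2) hfm]
    have h4 := h (Prod.swap ⁻¹' B) (measurable_swap hB) (fun p hp => (hBR _ hp).symm)
      (Prod.swap q) (fun p => G (Prod.swap p)) (hG.comp measurable_swap) (by
        intro b a a2 ha ha2 h5 h6
        exact h2 b a a2 ha ha2 h5 h6)
    exact h4
  calc ∫⁻ p in B, f p ≤ ∫⁻ p in (B ∩ {p | |p.1 - q.1| ≤ |p.2 - q.2|}) ∪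
      (B ∩ {p | |p.2 - q.2| ≤ |p.1 - q.1|}), f p := lintegral_mono_set hsub
    _ ≤ (∫⁻ p in B ∩ {p | |p.1 - q.1| ≤ |p.2 - q.2|}, f p) +
        ∫⁻ p in B ∩ {p | |p.2 - q.2| ≤ |p.1 - q.1|}, f p := lintegral_union_le _ _ _
    _ ≤ C + C := add_le_add (h B hB hBR q G hG h1) h3

/-- the version for `E 2` -/
theorem plane_integral {τ : ℝ} (hτ0 : 0 < τ) (hτ1 : τ < 1) (R : ℝ) {c : ℝ} (hc : 0 < c) :
    ∃ C : ℝ≥0∞, C ≠ ⊤ ∧ ∀ (B : Set (E 2)), MeasurableSet B →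
      (∀ ω ∈ B, |ω 0| ≤ R ∧ |ω 1| ≤ R) → ∀ (q : E 2) (G : E 2 → ℝ), Measurable G →
      (∀ ω ∈ B, ∀ ω2 ∈ B, ω 1 = ω2 1 → |ω 0 - q 0| ≤ |ω2 1 - q 1| →
        |ω2 0 - q 0| ≤ |ω2 1 - q 1| →
        c * (|ω 0 - ω2 0| * |ω2 1 - q 1|) ≤ |G ω - G ω2|) →
      (∀ ω ∈ B, ∀ ω2 ∈ B, ω 0 = ω2 0 → |ω 1 - q 1| ≤ |ω2 0 - q 0| →
        |ω2 1 - q 1| ≤ |ω2 0 - q 0| →
        c * (|ω 1 - ω2 1| * |ω2 0 - q 0|) ≤ |G ω - G ω2|) →
      ∫⁻ ω in B, ENNReal.ofReal |G ω| ^ (-τ) ≤ C := by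
  obtain ⟨C, hC, h⟩ := two_integral hτ0 hτ1 R hc
  refine ⟨C, hC, ?_⟩
  intro B hB hBR q G hG h1 h2
  let ψ : E 2 → ℝ × ℝ := fun ω => (ω 0, ω 1)
  have hψ : MeasurePreserving ψ volume volume :=
    (volume_preserving_finTwoArrow ℝ).comp (PiLp.volume_preserving_ofLp (Fin 2))
  let φ : ℝ × ℝ → E 2 := fun p => !₂[p.1, p.2]
  have hφψ : ∀ ω, φ (ψ ω) = ω := by
    intro ω
    ext i
    fin_cases i <;> rfl
  have hφm : Measurable φ := by
    have h3 : Continuous φ := by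
      refine (PiLp.continuous_toLp 2 _).comp ?_
      refine continuous_pi fun i => ?_
      fin_cases i
      · exact continuous_fst
      · exact continuous_snd
    exact h3.measurable
  have hpre : ψ ⁻¹' (φ ⁻¹' B) = B := by
    ext ω
    show φ (ψ ω) ∈ B ↔ ω ∈ B
    rw [hφψ]
  have h3 := h (φ ⁻¹' B) (hφm hB) (fun p hp => hBR _ hp) (ψ q) (fun p => G (φ p))
    (hG.comp hφm) (by
      intro b a a2 ha ha2 h5 h6
      exact h1 _ ha _ ha2 rfl h5 h6) (by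
      intro a b b2 ha ha2 h5 h6
      exact h2 _ ha _ ha2 rfl h5 h6)
  have hfm : Measurable fun p : ℝ × ℝ => ENNReal.ofReal |G (φ p)| ^ (-τ) :=
    (ENNReal.measurable_ofReal.comp (hG.comp hφm).abs).pow_const _
  calc ∫⁻ ω in B, ENNReal.ofReal |G ω| ^ (-τ)
      = ∫⁻ ω in ψ ⁻¹' (φ ⁻¹' B), ENNReal.ofReal |G (φ (ψ ω))| ^ (-τ) := by
        rw [hpre]
        simp only [hφψ]
    _ = ∫⁻ p in φ ⁻¹' B, ENNReal.ofReal |G (φ p)| ^ (-τ) :=
        hψ.setLIntegral_comp_preimage (hφm hB) hfm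
    _ ≤ C := h3

end Run7.h750.LC
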