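import Mathlib
import Pool.Agent.Run7.h750.LC15
set_option autoImplicit false
set_option linter.unusedSectionVars false

/-! Differentiable families of planes of `ℝ^4` of hyperbolic type. -/

namespace Run7.h750.LC

open MeasureTheory Set Metric Filter
open scoped ENNReal NNReal Pointwise Topology

/-- Hyperbolic families: the coordinate directions are isotropic. -/
theorem tower_hyp0 {L : E 2 → V} {T : E 2 →L[ℝ] V} {ω0 : E 2}
    (hT : HasStrictFDerivAt L T ω0) (hinj : Function.Injective (L ω0))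
    (hq0 : qd (T (EuclideanSpace.single 0 1)) (T (EuclideanSpace.single 0 1)) (L ω0) = 0)
    (hq1 : qd (T (EuclideanSpace.single 1 1)) (T (EuclideanSpace.single 1 1)) (L ω0) = 0)
    (hb : qd (T (EuclideanSpace.single 0 1)) (T (EuclideanSpace.single 1 1)) (L ω0) +
      qd (T (EuclideanSpace.single 1 1)) (T (EuclideanSpace.single 0 1)) (L ω0) ≠ 0) :
    ∃ ρ > 0, ∀ S : Set (E 2), volume S ≠ 0 → S ⊆ closedBall ω0 ρ → ∀ (x : E 2 → E 4)
      (K : Set (E 4)), (∀ ω ∈ S, Tower 2 {u | x ω + L ω u ∈ K}) → Tower 4 K := by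
  obtain ⟨ρ1, hρ1, c1, hc1, h1⟩ := hyp_expand hT hq0 hb
  obtain ⟨ρ4, hρ4, c4, hc4, h4⟩ := hyp_expand hT hq1 (by rwa [add_comm] at hb)
  obtain ⟨ρ2, hρ2, Λ, h2⟩ := local_bounds hT.hasFDerivAt.continuousAt hinj
  obtain ⟨ρ3, hρ3, h3⟩ := strict_bound hT one_pos
  set ρ := min (min ρ1 ρ4) (min ρ2 ρ3) with hρ
  have hρ0 : 0 < ρ := lt_min (lt_min hρ1 hρ4) (lt_min hρ2 hρ3)
  have hs1 : closedBall ω0 ρ ⊆ closedBall ω0 ρ1 :=
    closedBall_subset_closedBall ((min_le_left _ _).trans (min_le_left _ _))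
  have hs4 : closedBall ω0 ρ ⊆ closedBall ω0 ρ4 :=
    closedBall_subset_closedBall ((min_le_left _ _).trans (min_le_right _ _))
  have hs2 : closedBall ω0 ρ ⊆ closedBall ω0 ρ2 :=
    closedBall_subset_closedBall ((min_le_right _ _).trans (min_le_left _ _))
  have hs3 : closedBall ω0 ρ ⊆ closedBall ω0 ρ3 :=
    closedBall_subset_closedBall ((min_le_right _ _).trans (min_le_right _ _))
  have hcont : ContinuousOn L (closedBall ω0 ρ) := by
    have hlip : LipschitzOnWith (Real.toNNReal (1 + ‖T‖)) L (closedBall ω0 ρ) := by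
      refine LipschitzOnWith.of_dist_le_mul fun a ha b hb => ?_
      rw [dist_eq_norm, dist_eq_norm, Real.coe_toNNReal _ (by positivity)]
      have h4 := h3 a (hs3 ha) b (hs3 hb)
      have h5 : L a - L b = (L a - L b - T (a - b)) + T (a - b) := by abel
      rw [h5]
      refine (norm_add_le _ _).trans ?_
      have h6 := T.le_opNorm (a - b)
      linarith
    exact hlip.continuousOn
  have hB : IsCompact (closedBall ω0 ρ) := isCompact_closedBall _ _
  have hb0 : ω0 ∈ closedBall ω0 ρ := mem_closedBall_self hρ0.le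
  have hΛ : ∀ ω ∈ closedBall ω0 ρ, ∀ u, ‖L ω u‖ ≤ Λ * ‖u‖ ∧ ‖u‖ ≤ Λ * ‖L ω u‖ :=
    fun ω hω u => h2 ω (hs2 hω) u
  refine ⟨ρ, hρ0, fun S hS hSB x K hK => ?_⟩
  refine tower_local (k := 2) (m := 2) (n := 4) rfl hB hcont hb0 hΛ (fun β hβ0 hβm => ?_)
    hS hSB x K hK
  classical
  set 𝓕 := locFamily (closedBall ω0 ρ) hB ω0 L hcont Λ hb0 hΛ with h𝓕
  let rt : E 2 → E 2 := fun ω => if ω ∈ closedBall ω0 ρ then ω else ω0
  have hrt : ∀ ω, rt ω ∈ closedBall ω0 ρ := by
    intro ω
    simp only [rt]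
    split_ifs with h
    · exact h
    · exact hb0
  have hLrt : ∀ ω : E 2, 𝓕.L ω = (L (rt ω) : E 2 →ₗ[ℝ] E 4) := by
    intro ω
    show (L (@ite (E 2) _ (Classical.propDecidable _) ω ω0) : E 2 →ₗ[ℝ] E 4) = _
    congr 2
  let F : E 2 → E 2 → ℝ := fun ω ω' => qd (L ω - L ω') (L ω - L ω') (L ω')
  refine 𝓕.spread_of_transversal' split4
    (fun ω ω' => |F (rt (ω : E 2)) (rt (ω' : E 2))|) ⟨?_, ?_⟩ hβ0 hβm
  · intro ω ω'
    refine ⟨LinearMap.id, -LinearMap.id, fun v => le_rfl, fun v => ?_, ?_⟩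
    · simp
    · rw [hLrt ω, hLrt ω']
      have h5 : ((L (rt ω) : E 2 →ₗ[ℝ] E 4) ∘ₗ (LinearMap.id : E 2 →ₗ[ℝ] E 2) +
          (L (rt ω') : E 2 →ₗ[ℝ] E 4) ∘ₗ (-(LinearMap.id : E 2 →ₗ[ℝ] E 2))) =
          ((L (rt ω) - L (rt ω') : V) : E 2 →ₗ[ℝ] E 4) := by
        ext v
        simp [sub_eq_add_neg]
      rw [h5, qd_det]
  · intro τ hτ0 hτ1
    set c : ℝ := min c1 c4 with hc
    have hc0 : 0 < c := lt_min hc1 hc4
    obtain ⟨C, hC, hint⟩ := plane_integral hτ0 hτ1 (‖ω0‖ + ρ) hc0
    refine ⟨C.toNNReal, fun ω' => ?_⟩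
    rw [ENNReal.coe_toNNReal hC]
    set q : E 2 := rt (ω' : E 2) with hq
    have hqB : q ∈ closedBall ω0 ρ := hrt _
    let G : E 2 → ℝ := (closedBall ω0 ρ).piecewise (fun ω => F ω q) (fun _ => 0)
    have hG : Measurable G := by
      refine ContinuousOn.measurable_piecewise ?_ continuousOn_const measurableSet_closedBall
      have e1 : ContinuousOn (fun ω => (L ω - L q, L ω - L q, L q)) (closedBall ω0 ρ) :=
        (hcont.sub continuousOn_const).prodMk ((hcont.sub continuousOn_const).prodMk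
          continuousOn_const)
      have e2 := qd_continuous.comp_continuousOn e1
      simp only [Function.comp_def] at e2
      exact e2
    have hGB : ∀ ω ∈ closedBall ω0 ρ, G ω = F ω q := fun ω hω => if_pos hω
    have hint' := hint (closedBall ω0 ρ) measurableSet_closedBall (fun ω hω => by
      have h6 : ‖ω‖ ≤ ‖ω0‖ + ρ := by
        rw [mem_closedBall, dist_eq_norm] at hω
        have h6 : ω = ω0 + (ω - ω0) := by abel
        rw [h6]
        exact (norm_add_le _ _).trans (by linarith)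
      exact ⟨(abs_coord_le ω 0).trans h6, (abs_coord_le ω 1).trans h6⟩) q G hG (by
        intro ω hω ω2 hω2 heq h5 h6
        rw [hGB ω hω, hGB ω2 hω2]
        have e1 : ω - ω2 = (ω 0 - ω2 0) • (EuclideanSpace.single 0 1 : E 2) := by
          ext i
          fin_cases i
          · simp
          · simp [heq]
        have e2 : ω2 - q = (ω2 0 - q 0) • (EuclideanSpace.single 0 1 : E 2) +
            (ω2 1 - q 1) • (EuclideanSpace.single 1 1 : E 2) := by
          ext i
          fin_cases i <;> simp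
        have e3 : |ω 0 - ω2 0| ≤ 2 * |ω2 1 - q 1| := by
          have e4 : ω 0 - ω2 0 = (ω 0 - q 0) - (ω2 0 - q 0) := by ring
          rw [e4]
          refine (abs_sub _ _).trans ?_
          linarith
        have e5 := h1 ω (hs1 hω) ω2 (hs1 hω2) q (hs1 hqB) _ _ _ e1 e2 h6 e3
        refine le_trans ?_ e5
        refine mul_le_mul_of_nonneg_right (min_le_left _ _) ?_
        positivity) (by
        intro ω hω ω2 hω2 heq h5 h6
        rw [hGB ω hω, hGB ω2 hω2]
        have e1 : ω - ω2 = (ω 1 - ω2 1) • (EuclideanSpace.single 1 1 : E 2) := by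
          ext i
          fin_cases i
          · simp [heq]
          · simp
        have e2 : ω2 - q = (ω2 1 - q 1) • (EuclideanSpace.single 1 1 : E 2) +
            (ω2 0 - q 0) • (EuclideanSpace.single 0 1 : E 2) := by
          ext i
          fin_cases i <;> simp
        have e3 : |ω 1 - ω2 1| ≤ 2 * |ω2 0 - q 0| := by
          have e4 : ω 1 - ω2 1 = (ω 1 - q 1) - (ω2 1 - q 1) := by ring
          rw [e4]
          refine (abs_sub _ _).trans ?_
          linarith
        have e5 := h4 ω (hs4 hω) ω2 (hs4 hω2) q (hs4 hqB) _ _ _ e1 e2 h6 e3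
        refine le_trans ?_ e5
        refine mul_le_mul_of_nonneg_right (min_le_right _ _) ?_
        positivity)
    refine le_trans (le_of_eq ?_) hint'
    show ∫⁻ ω : E 2, ENNReal.ofReal |F (rt ω) q| ^ (-τ) ∂(volume.restrict (closedBall ω0 ρ)) = _
    refine setLIntegral_congr_fun measurableSet_closedBall fun ω hω => ?_
    have h5 : rt ω = ω := if_pos hω
    simp only [h5, hGB ω hω]

end Run7.h750.LC
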