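import Mathlib
import Pool.Agent.Run7.h750.LC16
set_option autoImplicit false
set_option linter.unusedSectionVars false

/-! Differentiable families of planes of `ℝ^4`: non-degenerate focal form. -/

namespace Run7.h750.LC

open MeasureTheory Set Metric Filter
open scoped ENNReal NNReal Pointwise Topology

/-- Hyperbolic families, general isotropic directions. -/
theorem tower_hyp {L : E 2 → V} {T : E 2 →L[ℝ] V} {ω0 : E 2}
    (hT : HasStrictFDerivAt L T ω0) (hinj : Function.Injective (L ω0)) {v w : E 2}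
    (hv : qd (T v) (T v) (L ω0) = 0) (hw : qd (T w) (T w) (L ω0) = 0)
    (hb : qd (T v) (T w) (L ω0) + qd (T w) (T v) (L ω0) ≠ 0) :
    ∃ ρ > 0, ∀ S : Set (E 2), volume S ≠ 0 → S ⊆ closedBall ω0 ρ → ∀ (x : E 2 → E 4)
      (K : Set (E 4)), (∀ ω ∈ S, Tower 2 {u | x ω + L ω u ∈ K}) → Tower 4 K := by
  let M0 : E 2 →ₗ[ℝ] E 2 :=
    { toFun := fun a => a 0 • v + a 1 • w
      map_add' := fun a b => by
        simp only [PiLp.add_apply, add_smul]
        abel
      map_smul' := fun c a => by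
        simp only [PiLp.smul_apply, smul_eq_mul, mul_smul, RingHom.id_apply, smul_add] }
  have hM0 : Function.Injective M0 := by
    rw [← LinearMap.ker_eq_bot, LinearMap.ker_eq_bot']
    intro a ha
    have h0 : a 0 • v + a 1 • w = 0 := ha
    have h1 : T (a 0 • v + a 1 • w) = 0 := by rw [h0, map_zero]
    have hz1 : ∀ X Z : V, qd X 0 Z = 0 := fun X Z => by
      have e : (0 : ℝ) • (0 : E 2 →L[ℝ] E 4) = 0 := by
        ext1 u
        simp
      have h := qd_smul_right 0 X 0 Z
      rwa [e, zero_mul] at h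
    have hz2 : ∀ X Z : V, qd 0 X Z = 0 := fun X Z => by
      have e : (0 : ℝ) • (0 : E 2 →L[ℝ] E 4) = 0 := by
        ext1 u
        simp
      have h := qd_smul_left 0 0 X Z
      rwa [e, zero_mul] at h
    have h2 : qd (T v) (T (a 0 • v + a 1 • w)) (L ω0) + qd (T (a 0 • v + a 1 • w)) (T v) (L ω0) =
        a 1 * (qd (T v) (T w) (L ω0) + qd (T w) (T v) (L ω0)) := by
      rw [map_add, map_smul, map_smul, qd_add_right, qd_add_left, qd_smul_right, qd_smul_left,
        qd_smul_right, qd_smul_left, hv]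
      ring
    have h3 : qd (T w) (T (a 0 • v + a 1 • w)) (L ω0) + qd (T (a 0 • v + a 1 • w)) (T w) (L ω0) =
        a 0 * (qd (T v) (T w) (L ω0) + qd (T w) (T v) (L ω0)) := by
      rw [map_add, map_smul, map_smul, qd_add_right, qd_add_left, qd_smul_right, qd_smul_left,
        qd_smul_right, qd_smul_left, hw]
      ring
    rw [h1, hz1, hz2, add_zero] at h2 h3
    have h4 : a 1 = 0 := by
      rcases mul_eq_zero.1 h2.symm with h | h
      · exact h
      · exact absurd h hb
    have h5 : a 0 = 0 := by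
      rcases mul_eq_zero.1 h3.symm with h | h
      · exact h
      · exact absurd h hb
    ext i
    fin_cases i
    · exact h5
    · exact h4
  let Me : E 2 ≃ₗ[ℝ] E 2 := LinearEquiv.ofInjectiveEndo M0 hM0
  let M : E 2 ≃L[ℝ] E 2 := Me.toContinuousLinearEquiv
  have hM : ∀ a, M a = a 0 • v + a 1 • w := fun a => rfl
  have hMe0 : M (EuclideanSpace.single 0 1) = v := by
    rw [hM]
    simp
  have hMe1 : M (EuclideanSpace.single 1 1) = w := by
    rw [hM]
    simp
  set a0 : E 2 := M.symm ω0 with ha0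
  have hMa0 : M a0 = ω0 := M.apply_symm_apply ω0
  have hT' : HasStrictFDerivAt (fun a => L (M a)) (T.comp (M : E 2 →L[ℝ] E 2)) a0 := by
    refine HasStrictFDerivAt.comp a0 ?_ M.hasStrictFDerivAt
    rw [hMa0]
    exact hT
  obtain ⟨ρ, hρ, key⟩ := tower_hyp0 (L := fun a => L (M a)) hT' (by rw [hMa0]; exact hinj)
    (by
      simp only [ContinuousLinearMap.comp_apply, ContinuousLinearEquiv.coe_coe, hMe0, hMa0]
      exact hv)
    (by
      simp only [ContinuousLinearMap.comp_apply, ContinuousLinearEquiv.coe_coe, hMe1, hMa0]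
      exact hw)
    (by
      simp only [ContinuousLinearMap.comp_apply, ContinuousLinearEquiv.coe_coe, hMe0, hMe1, hMa0]
      exact hb)
  have hev : ∀ᶠ y in 𝓝 ω0, M.symm y ∈ closedBall a0 ρ :=
    M.symm.continuous.continuousAt.eventually_mem (closedBall_mem_nhds _ hρ)
  obtain ⟨ρ', hρ', hball⟩ := Metric.eventually_nhds_iff_ball.1 hev
  refine ⟨ρ' / 2, by positivity, fun S hS hSB x K hK => ?_⟩
  refine key (M ⁻¹' S) ?_ ?_ (fun a => x (M a)) K ?_
  · rw [Measure.addHaar_preimage_continuousLinearEquiv]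
    refine mul_ne_zero ?_ hS
    have h1 : LinearMap.det ((M.symm : E 2 →L[ℝ] E 2) : E 2 →ₗ[ℝ] E 2) ≠ 0 :=
      (LinearEquiv.isUnit_det' M.symm.toLinearEquiv).ne_zero
    exact (ENNReal.ofReal_pos.2 (abs_pos.2 h1)).ne'
  · intro a ha
    have h1 : M a ∈ ball ω0 ρ' := closedBall_subset_ball (by linarith) (hSB ha)
    have h2 := hball _ h1
    rwa [M.symm_apply_apply] at h2
  · intro a ha
    exact hK (M a) ha

theorem tower_ell4 {L : E 2 → V} {T : E 2 →L[ℝ] V} {ω0 : E 2}
    (hT : HasStrictFDerivAt L T ω0) (hinj : Function.Injective (L ω0))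
    (hell : ∀ v : E 2, v ≠ 0 → qd (T v) (T v) (L ω0) ≠ 0) :
    ∃ ρ > 0, ∀ S : Set (E 2), volume S ≠ 0 → S ⊆ closedBall ω0 ρ → ∀ (x : E 2 → E 4)
      (K : Set (E 4)), (∀ ω ∈ S, Tower 2 {u | x ω + L ω u ∈ K}) → Tower 4 K := by
  refine tower_elliptic (m := 2) (k := 2) (n := 4) (by norm_num) split4 hT hinj ?_
  intro v hv
  refine ⟨ContinuousLinearMap.id ℝ (E 2), ?_⟩
  have h1 : dd split4 (ContinuousLinearMap.id ℝ (E 2)) (T v) (L ω0) =
      qd (T v) (T v) (L ω0) := by
    rw [← qd_det]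
    rfl
  rw [h1]
  exact hell v hv

/-- The focal form of a differentiable family of planes in `ℝ^4`, a quadratic form on the space of
parameters: the determinant of the derivative in the direction `v` and of the plane. -/
noncomputable def focal (T : E 2 →L[ℝ] (E 2 →L[ℝ] E 4)) (Z : E 2 →L[ℝ] E 4) (v : E 2) : ℝ :=
  qd (T v) (T v) Z

/-- The focal form is non degenerate. -/
def NonParabolic (T : E 2 →L[ℝ] (E 2 →L[ℝ] E 4)) (Z : E 2 →L[ℝ] E 4) : Prop :=
  ∀ v, v ≠ 0 → ∃ w, focal T Z (v + w) ≠ focal T Z v + focal T Z w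

theorem tower_nonParabolic {L : E 2 → V} {T : E 2 →L[ℝ] V} {ω0 : E 2}
    (hT : HasStrictFDerivAt L T ω0) (hinj : Function.Injective (L ω0))
    (hn : NonParabolic T (L ω0)) :
    ∃ ρ > 0, ∀ S : Set (E 2), volume S ≠ 0 → S ⊆ closedBall ω0 ρ → ∀ (x : E 2 → E 4)
      (K : Set (E 4)), (∀ ω ∈ S, Tower 2 {u | x ω + L ω u ∈ K}) → Tower 4 K := by
  by_cases hell : ∀ v : E 2, v ≠ 0 → qd (T v) (T v) (L ω0) ≠ 0
  · exact tower_ell4 hT hinj hell
  · push Not at hell
    obtain ⟨v, hv0, hv⟩ := hell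
    obtain ⟨w, hw⟩ := hn v hv0
    simp only [focal] at hw
    rw [map_add, qd_add_left, qd_add_right, qd_add_right] at hw
    set b : ℝ := qd (T v) (T w) (L ω0) + qd (T w) (T v) (L ω0) with hb
    have hb0 : b ≠ 0 := by
      intro h0
      apply hw
      linarith
    set s : ℝ := -(qd (T w) (T w) (L ω0)) / b with hs
    have hsb : s * b = -(qd (T w) (T w) (L ω0)) := by
      rw [hs]
      field_simp
    refine tower_hyp hT hinj (v := v) (w := w + s • v) hv ?_ ?_
    · rw [map_add, map_smul]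
      simp only [qd_add_left, qd_add_right, qd_smul_left, qd_smul_right, hv]
      have h1 : s * qd (T v) (T w) (L ω0) + s * qd (T w) (T v) (L ω0) = s * b := by
        rw [hb]
        ring
      linarith
    · rw [map_add, map_smul]
      simp only [qd_add_left, qd_add_right, qd_smul_left, qd_smul_right, hv]
      have h1 : qd (T v) (T w) (L ω0) + s * 0 + (qd (T w) (T v) (L ω0) + s * 0) = b := by
        rw [hb]
        ring
      rw [h1]
      exact hb0

/-- **Line congruences in four dimensional space.** -/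
theorem tower_congruence {L : E 2 → (E 2 →L[ℝ] E 4)} {S : Set (E 2)} (hS : volume S ≠ 0)
    (hL : ∀ ω ∈ S, ∃ T : E 2 →L[ℝ] (E 2 →L[ℝ] E 4), HasStrictFDerivAt L T ω ∧
      Function.Injective (L ω) ∧ NonParabolic T (L ω))
    (x : E 2 → E 4) (K : Set (E 4)) (hK : ∀ ω ∈ S, Tower 2 {u | x ω + L ω u ∈ K}) :
    Tower 4 K := by
  obtain ⟨ω0, hω0, hpos⟩ := exists_mem_forall_mem_nhdsWithin_pos_measure (μ := volume) hS
  obtain ⟨T, hT, hinj, hn⟩ := hL ω0 hω0
  obtain ⟨ρ, hρ, key⟩ := tower_nonParabolic hT hinj hn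
  have h1 : S ∩ closedBall ω0 ρ ∈ 𝓝[S] ω0 :=
    inter_mem_nhdsWithin S (closedBall_mem_nhds _ hρ)
  exact key (S ∩ closedBall ω0 ρ) (hpos _ h1).ne' inter_subset_right x K
    fun ω hω => hK ω hω.1

end Run7.h750.LC
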