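import Mathlib
import Pool.Agent.Run7.h750.LC17
import Pool.Agent.Run7.h750.LC7
set_option autoImplicit false
set_option linter.unusedSectionVars false

/-! Elliptic families in general dimension; Kakeya sets in `ℝ^4` organised by a congruence. -/

namespace Run7.h750.LC

open MeasureTheory Set Metric Filter
open scoped ENNReal NNReal Pointwise Topology

/-- a coordinate free form of the elliptic condition -/
theorem exists_dd {k m n : ℕ} (e : E n ≃ₗ[ℝ] E m × E k) (Y Z : E k →L[ℝ] E n)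
    (hZ : Function.Injective Z)
    (h : LinearMap.range (Y : E k →ₗ[ℝ] E n) ⊔ LinearMap.range (Z : E k →ₗ[ℝ] E n) = ⊤) :
    ∃ J : E m →L[ℝ] E k, dd e J Y Z ≠ 0 := by
  set R : Submodule ℝ (E n) := LinearMap.range (Z : E k →ₗ[ℝ] E n) with hR
  have hn : n = m + k := by
    have h1 := e.finrank_eq
    rw [Module.finrank_prod] at h1
    simpa using h1
  have hRk : Module.finrank ℝ R = k := by
    have h1 := LinearMap.finrank_range_of_inj (f := (Z : E k →ₗ[ℝ] E n)) hZ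
    rw [← hR] at h1
    rw [h1]
    simp
  have hQ : Module.finrank ℝ (E n ⧸ R) = m := by
    have h1 := Submodule.finrank_quotient_add_finrank R
    rw [hRk, finrank_euclideanSpace, Fintype.card_fin] at h1
    omega
  let φ : E m ≃ₗ[ℝ] (E n ⧸ R) := LinearEquiv.ofFinrankEq _ _ (by
    rw [hQ, finrank_euclideanSpace, Fintype.card_fin])
  let π : E k →ₗ[ℝ] (E n ⧸ R) := R.mkQ ∘ₗ (Y : E k →ₗ[ℝ] E n)
  have hπ : LinearMap.range π = ⊤ := by
    rw [LinearMap.range_comp]
    have h1 : Submodule.map R.mkQ (LinearMap.range (Y : E k →ₗ[ℝ] E n) ⊔ R) =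
        Submodule.map R.mkQ (LinearMap.range (Y : E k →ₗ[ℝ] E n)) := by
      rw [Submodule.map_sup]
      have h2 : Submodule.map R.mkQ R = ⊥ := by
        rw [eq_bot_iff]
        rintro _ ⟨y, hy, rfl⟩
        rw [Submodule.mem_bot, Submodule.mkQ_apply, Submodule.Quotient.mk_eq_zero]
        exact hy
      rw [h2, sup_bot_eq]
    rw [← h1, h, Submodule.map_top, Submodule.range_mkQ]
  obtain ⟨g, hg⟩ := LinearMap.exists_rightInverse_of_surjective π hπ
  let J0 : E m →ₗ[ℝ] E k := g ∘ₗ φ.toLinearMap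
  have hJ0 : ∀ a, π (J0 a) = φ a := fun a => by
    have h1 := LinearMap.congr_fun hg (φ a)
    exact h1
  refine ⟨LinearMap.toContinuousLinearMap J0, ?_⟩
  set X : E m × E k →ₗ[ℝ] E n :=
    (((Y : E k →ₗ[ℝ] E n) ∘ₗ J0).coprod (Z : E k →ₗ[ℝ] E n)) with hX
  have hXi : Function.Injective X := by
    rw [← LinearMap.ker_eq_bot, LinearMap.ker_eq_bot']
    rintro ⟨a, u⟩ h1
    have h2 : Y (J0 a) + Z u = 0 := h1
    have h3 : π (J0 a) = 0 := by
      have h4 : R.mkQ (Y (J0 a) + Z u) = 0 := by rw [h2, map_zero]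
      rw [map_add] at h4
      have h5 : R.mkQ (Z u) = 0 := by
        rw [Submodule.mkQ_apply, Submodule.Quotient.mk_eq_zero]
        exact ⟨u, rfl⟩
      rw [h5, add_zero] at h4
      exact h4
    rw [hJ0] at h3
    have h4 : a = 0 := by
      have := φ.map_eq_zero_iff.1 h3
      exact this
    subst h4
    rw [map_zero, map_zero, zero_add] at h2
    have h5 : u = 0 := hZ (by rw [h2, map_zero])
    rw [h5]
    rfl
  have hdet : LinearMap.det (e.toLinearMap ∘ₗ X) ≠ 0 := by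
    intro h0
    have h1 := LinearMap.bot_lt_ker_of_det_eq_zero h0
    have h2 : LinearMap.ker (e.toLinearMap ∘ₗ X) = ⊥ := by
      rw [LinearMap.ker_eq_bot]
      exact e.injective.comp hXi
    rw [h2] at h1
    exact lt_irrefl _ h1
  exact hdet

/-- **Elliptic families of subspaces.** -/
theorem tower_elliptic_global {k m n : ℕ} (hm : 0 < m) (hn : n = m + k)
    {L : E m → (E k →L[ℝ] E n)} {S : Set (E m)} (hS : volume S ≠ 0)
    (hL : ∀ ω ∈ S, ∃ T : E m →L[ℝ] (E k →L[ℝ] E n), HasStrictFDerivAt L T ω ∧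
      Function.Injective (L ω) ∧ ∀ v, v ≠ 0 →
        LinearMap.range (T v : E k →ₗ[ℝ] E n) ⊔ LinearMap.range (L ω : E k →ₗ[ℝ] E n) = ⊤)
    (x : E m → E n) (K : Set (E n)) (hK : ∀ ω ∈ S, Tower k {u | x ω + L ω u ∈ K}) :
    Tower n K := by
  have e : E n ≃ₗ[ℝ] E m × E k := LinearEquiv.ofFinrankEq _ _ (by
    rw [Module.finrank_prod]
    simp [hn])
  obtain ⟨ω0, hω0, hpos⟩ := exists_mem_forall_mem_nhdsWithin_pos_measure (μ := volume) hS
  obtain ⟨T, hT, hinj, hell⟩ := hL ω0 hω0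
  obtain ⟨ρ, hρ, key⟩ := tower_elliptic hm e hT hinj
    (fun v hv => exists_dd e (T v) (L ω0) hinj (hell v hv))
  have h1 : S ∩ closedBall ω0 ρ ∈ 𝓝[S] ω0 :=
    inter_mem_nhdsWithin S (closedBall_mem_nhds _ hρ)
  exact key (S ∩ closedBall ω0 ρ) (hpos _ h1).ne' inter_subset_right x K
    fun ω hω => hK ω hω.1

/-- **Kakeya sets in four dimensional space organised by a line congruence.** -/
theorem kakeya_congruence {L : E 2 → (E 2 →L[ℝ] E 4)} {S : Set (E 2)} (hS : volume S ≠ 0)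
    (hL : ∀ ω ∈ S, ∃ T : E 2 →L[ℝ] (E 2 →L[ℝ] E 4), HasStrictFDerivAt L T ω ∧
      Function.Injective (L ω) ∧ NonParabolic T (L ω))
    (K : Set (E 4)) (x : E 2 → E 4)
    (h : ∀ ω ∈ S, ∃ Θ : Set ℝ, volume Θ ≠ 0 ∧ ∀ σ ∈ Θ, ∃ p : ℝ,
      volume {t : ℝ | x ω + L ω !₂[t, p + σ * t] ∈ K} ≠ 0) :
    dimH K = 4 := by
  have key := tower_congruence hS hL x K ?_
  · have h1 := key.dim
    simpa using h1
  · intro ω hω
    obtain ⟨Θ, hΘ, h2⟩ := h ω hω
    refine tower_plane hΘ fun σ hσ => ?_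
    obtain ⟨p, hp⟩ := h2 σ hσ
    exact ⟨p, hp⟩

end Run7.h750.LC
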