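import Mathlib
import Pool.Agent.TH539.Cap
import Pool.Agent.R462.KC.Polar
set_option autoImplicit false

/-! Averages of positive definite functions and of convolutions over translates of a symmetric
convex set. -/

namespace Run7.h750.PD

open MeasureTheory Set Metric Filter Topology
open scoped ENNReal NNReal Pointwise

variable {E : Type*} [NormedAddCommGroup E] [NormedSpace ℝ E] [FiniteDimensional ℝ E]
  [MeasureSpace E] [BorelSpace E] [(volume : Measure E).IsAddHaarMeasure]

theorem inter_ge {K : Set E} (hc : Convex ℝ K)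
    (hs : ∀ x ∈ K, -x ∈ K) (z : E) (hz : z ∈ K) :
    ENNReal.ofReal ((2⁻¹ : ℝ) ^ (Module.finrank ℝ E)) * volume K ≤
      volume {y | y ∈ K ∧ z + y ∈ K} := by
  have h1 : volume ((-((2⁻¹ : ℝ) • z)) +ᵥ ((2⁻¹ : ℝ) • K)) =
      ENNReal.ofReal ((2⁻¹ : ℝ) ^ (Module.finrank ℝ E)) * volume K := by
    rw [measure_vadd, Measure.addHaar_smul, abs_of_pos (by positivity)]
  rw [← h1]
  apply measure_mono
  rintro y ⟨k', ⟨k, hk, rfl⟩, rfl⟩
  simp only [vadd_eq_add, mem_ofPred_eq]
  constructor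
  · have := hc (hs z hz) hk (by norm_num : (0:ℝ) ≤ 2⁻¹) (by norm_num : (0:ℝ) ≤ 2⁻¹) (by norm_num)
    simpa [smul_neg] using this
  · have := hc hz hk (by norm_num : (0:ℝ) ≤ 2⁻¹) (by norm_num : (0:ℝ) ≤ 2⁻¹) (by norm_num)
    convert this using 1
    have : z = (2⁻¹ : ℝ) • z + (2⁻¹ : ℝ) • z := by rw [← add_smul]; norm_num
    nth_rewrite 1 [this]
    abel

theorem L1 {K : Set E} (hK : MeasurableSet K) (hc : Convex ℝ K)
    (hs : ∀ x ∈ K, -x ∈ K) (F : E → ℝ≥0∞) (hF : Measurable F) (a : E) :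
    ENNReal.ofReal ((2⁻¹ : ℝ) ^ (Module.finrank ℝ E)) * volume K * ∫⁻ z in K, F (z + a) ≤
      ∫⁻ x in K, ∫⁻ y in K, F (x - y + a) := by
  have hKi : Measurable (K.indicator (1 : E → ℝ≥0∞)) := measurable_one.indicator hK
  have e1 : ∫⁻ x in K, ∫⁻ y in K, F (x - y + a) =
      ∫⁻ y, ∫⁻ x, K.indicator 1 x * (K.indicator 1 y * F (x - y + a)) := by
    rw [lintegral_lintegral_swap (by
      have : Measurable fun p : E × E => F (p.1 - p.2 + a) := hF.comp (by fun_prop)
      exact this.aemeasurable)]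
    rw [← lintegral_indicator hK]
    apply lintegral_congr
    intro y
    by_cases hy : y ∈ K
    · rw [indicator_of_mem hy]
      rw [← lintegral_indicator hK]
      apply lintegral_congr
      intro x
      by_cases hx : x ∈ K
      · simp [hx, hy]
      · simp [hx]
    · rw [indicator_of_notMem hy]
      simp [hy]
  have e2 : ∀ y, ∫⁻ x, K.indicator 1 x * (K.indicator 1 y * F (x - y + a)) =
      ∫⁻ z, K.indicator 1 (z + y) * (K.indicator 1 y * F (z + a)) := by
    intro y
    rw [← lintegral_add_right_eq_self _ y]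
    apply lintegral_congr
    intro z
    rw [add_sub_cancel_right]
  rw [e1]
  simp_rw [e2]
  rw [lintegral_lintegral_swap (by
    have : Measurable fun p : E × E => K.indicator (1 : E → ℝ≥0∞) (p.2 + p.1) *
        (K.indicator 1 p.1 * F (p.2 + a)) := by
      refine (hKi.comp (by fun_prop)).mul ((hKi.comp measurable_fst).mul (hF.comp (by fun_prop)))
    exact this.aemeasurable)]
  have hFa : Measurable fun z : E => F (z + a) := hF.comp (measurable_add_const a)
  rw [← lintegral_const_mul _ hFa, ← lintegral_indicator hK]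
  apply lintegral_mono
  intro z
  by_cases hz : z ∈ K
  · simp only [indicator_of_mem hz]
    have e3 : ∀ y, K.indicator (1 : E → ℝ≥0∞) (z + y) * (K.indicator 1 y * F (z + a)) =
        {y | y ∈ K ∧ z + y ∈ K}.indicator (1 : E → ℝ≥0∞) y * F (z + a) := by
      intro y
      by_cases h1 : y ∈ K
      · by_cases h2 : z + y ∈ K
        · rw [indicator_of_mem h1, indicator_of_mem h2, indicator_of_mem (show y ∈
            {y | y ∈ K ∧ z + y ∈ K} from ⟨h1, h2⟩)]
          simp
        · rw [indicator_of_notMem h2, indicator_of_notMem (show y ∉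
            {y | y ∈ K ∧ z + y ∈ K} from fun h => h2 h.2)]
          simp
      · rw [indicator_of_notMem h1, indicator_of_notMem (show y ∉
            {y | y ∈ K ∧ z + y ∈ K} from fun h => h1 h.1)]
        simp
    simp_rw [e3]
    have hm : MeasurableSet {y | y ∈ K ∧ z + y ∈ K} :=
      hK.inter (hK.preimage (measurable_const_add z))
    rw [lintegral_mul_const _ (measurable_one.indicator hm), lintegral_indicator_one hm]
    exact mul_le_mul' (inter_ge hc hs z hz) le_rfl
  · simp [indicator_of_notMem hz]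

theorem L2 {K D : Set E} (hK : MeasurableSet K) (hD : MeasurableSet D)
    (hKD : ∀ x ∈ K, ∀ y ∈ K, x - y ∈ D) (F : E → ℝ≥0∞) :
    ∫⁻ x in K, ∫⁻ y in K, F (x - y) ≤ volume K * ∫⁻ z in D, F z := by
  have h1 : ∀ x ∈ K, ∫⁻ y in K, F (x - y) ≤ ∫⁻ z in D, F z := by
    intro x hx
    rw [← lintegral_indicator hK, ← lintegral_indicator hD]
    rw [← lintegral_sub_left_eq_self _ x]
    apply lintegral_mono
    intro z
    simp only
    by_cases hz : x - z ∈ K
    · rw [indicator_of_mem hz]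
      have h2 := hKD x hx (x - z) hz
      rw [sub_sub_cancel] at h2 ⊢
      rw [indicator_of_mem h2]
    · rw [indicator_of_notMem hz]
      exact zero_le
  calc _ ≤ ∫⁻ x in K, ∫⁻ z in D, F z := setLIntegral_mono' hK h1
    _ = _ := by rw [setLIntegral_const, mul_comm]

/-- the smoothed function -/
noncomputable def HH (K : Set E) (h : E → ℝ≥0∞) (w : E) : ℝ≥0∞ := ∫⁻ x in K, h (x - w)

/-- autocorrelation -/
noncomputable def AC (h : E → ℝ≥0∞) (z : E) : ℝ≥0∞ := ∫⁻ v, h (z + v) * h v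

/-- convolution -/
noncomputable def CV (h₁ h₂ : E → ℝ≥0∞) (z : E) : ℝ≥0∞ := ∫⁻ w, h₁ (z - w) * h₂ w

theorem AC_meas {h : E → ℝ≥0∞} (hh : Measurable h) :
    Measurable (AC h) := by
  unfold AC
  apply Measurable.lintegral_prod_right'
    (f := fun p : E × E => h (p.1 + p.2) * h p.2)
  exact (hh.comp (by fun_prop)).mul (hh.comp measurable_snd)

theorem CV_meas {h₁ h₂ : E → ℝ≥0∞} (hh₁ : Measurable h₁)
    (hh₂ : Measurable h₂) : Measurable (CV h₁ h₂) := by
  unfold CV
  apply Measurable.lintegral_prod_right'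
    (f := fun p : E × E => h₁ (p.1 - p.2) * h₂ p.2)
  exact (hh₁.comp (by fun_prop)).mul (hh₂.comp measurable_snd)

theorem HH_meas {K : Set E} {h : E → ℝ≥0∞} (hh : Measurable h) :
    Measurable (HH K h) := by
  unfold HH
  apply Measurable.lintegral_prod_right'
    (f := fun p : E × E => h (p.2 - p.1))
  exact hh.comp (by fun_prop)

theorem HH_sq {K : Set E} {h : E → ℝ≥0∞} (hh : Measurable h) :
    ∫⁻ w, HH K h w ^ 2 = ∫⁻ x in K, ∫⁻ y in K, AC h (x - y) := by
  have e1 : ∀ w, HH K h w ^ 2 = ∫⁻ x in K, ∫⁻ y in K, h (x - w) * h (y - w) := by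
    intro w
    unfold HH
    have hw : Measurable fun z : E => h (z - w) := hh.comp (measurable_sub_const w)
    rw [sq, ← lintegral_mul_const _ hw]
    apply lintegral_congr
    intro x
    rw [← lintegral_const_mul _ hw]
  simp_rw [e1]
  rw [lintegral_lintegral_swap (by
    have : Measurable fun p : E × E => ∫⁻ y in K, h (p.2 - p.1) * h (y - p.1) := by
      apply Measurable.lintegral_prod_right'
        (f := fun q : (E × E) × E => h (q.1.2 - q.1.1) * h (q.2 - q.1.1))
      exact (hh.comp (by fun_prop)).mul (hh.comp (by fun_prop))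
    exact this.aemeasurable)]
  apply lintegral_congr
  intro x
  rw [lintegral_lintegral_swap (by
    have : Measurable fun p : E × E => h (x - p.1) * h (p.2 - p.1) :=
      (hh.comp (by fun_prop)).mul (hh.comp (by fun_prop))
    exact this.aemeasurable)]
  apply lintegral_congr
  intro y
  unfold AC
  rw [← lintegral_sub_left_eq_self _ y]
  apply lintegral_congr
  intro v
  rw [sub_sub_cancel]
  congr 2
  abel

theorem sym_lintegral {K : Set E} (hK : MeasurableSet K) (hs : ∀ x ∈ K, -x ∈ K)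
    (F : E → ℝ≥0∞) : ∫⁻ y in K, F (-y) = ∫⁻ y in K, F y := by
  rw [← lintegral_indicator hK, ← lintegral_indicator hK]
  rw [← lintegral_neg_eq_self (fun y => K.indicator (fun y => F (-y)) y)]
  apply lintegral_congr
  intro y
  by_cases hy : y ∈ K
  · rw [indicator_of_mem hy, indicator_of_mem (hs y hy), neg_neg]
  · have : -y ∉ K := fun h => hy (by simpa using hs _ h)
    rw [indicator_of_notMem hy, indicator_of_notMem this]

theorem D_eq {K : Set E} (hK : MeasurableSet K) (hs : ∀ x ∈ K, -x ∈ K)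
    {h₁ h₂ : E → ℝ≥0∞} (hh₁ : Measurable h₁) (hh₂ : Measurable h₂) (a : E) :
    ∫⁻ x in K, ∫⁻ y in K, CV h₁ h₂ (x - y + a) = ∫⁻ w, HH K h₁ w * HH K h₂ (-(w + a)) := by
  have e1 : ∀ x y : E, CV h₁ h₂ (x - y + a) = ∫⁻ w, h₁ (x - w) * h₂ (w + (a - y)) := by
    intro x y
    unfold CV
    rw [← lintegral_add_right_eq_self _ (a - y)]
    apply lintegral_congr
    intro w
    congr 2
    abel
  simp_rw [e1]
  have e2 : ∀ x : E, ∫⁻ y in K, ∫⁻ w, h₁ (x - w) * h₂ (w + (a - y)) =
      ∫⁻ w, h₁ (x - w) * HH K h₂ (-(w + a)) := by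
    intro x
    rw [lintegral_lintegral_swap (by
      have : Measurable fun p : E × E => h₁ (x - p.2) * h₂ (p.2 + (a - p.1)) :=
        (hh₁.comp (by fun_prop)).mul (hh₂.comp (by fun_prop))
      exact this.aemeasurable)]
    apply lintegral_congr
    intro w
    have hw : Measurable fun y : E => h₂ (w + (a - y)) := hh₂.comp (by fun_prop)
    rw [lintegral_const_mul _ hw]
    congr 1
    unfold HH
    rw [← sym_lintegral hK hs (fun x => h₂ (x - -(w + a)))]
    apply lintegral_congr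
    intro y
    congr 1
    abel
  simp_rw [e2]
  rw [lintegral_lintegral_swap (by
    have : Measurable fun p : E × E => h₁ (p.1 - p.2) * HH K h₂ (-(p.2 + a)) :=
      (hh₁.comp (by fun_prop)).mul ((HH_meas hh₂).comp (by fun_prop))
    exact this.aemeasurable)]
  apply lintegral_congr
  intro w
  have hw : Measurable fun z : E => h₁ (z - w) := hh₁.comp (measurable_sub_const w)
  rw [lintegral_mul_const _ hw]
  rfl

theorem CSq {X : Type*} [MeasurableSpace X] (μ : Measure X) {f g : X → ℝ≥0∞}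
    (hf : AEMeasurable f μ) (hg : AEMeasurable g μ) :
    (∫⁻ x, f x * g x ∂μ) ^ 2 ≤ (∫⁻ x, f x ^ 2 ∂μ) * ∫⁻ x, g x ^ 2 ∂μ := by
  have h := ENNReal.lintegral_mul_le_Lp_mul_Lq μ Real.HolderConjugate.two_two hf hg
  have h2 := pow_le_pow_left' h 2
  refine h2.trans (le_of_eq ?_)
  simp only [Pi.mul_apply] at *
  rw [mul_pow, ← ENNReal.rpow_natCast, ← ENNReal.rpow_mul, ← ENNReal.rpow_natCast (_ ^ _),
    ← ENNReal.rpow_mul]
  simp

/-- the main inequality for convolutions -/
theorem conv_main {K : Set E} (hK : MeasurableSet K) (hc : Convex ℝ K) (hs : ∀ x ∈ K, -x ∈ K)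
    {D : Set E} (hD : MeasurableSet D) (hKD : ∀ x ∈ K, ∀ y ∈ K, x - y ∈ D)
    {h₁ h₂ : E → ℝ≥0∞} (hh₁ : Measurable h₁) (hh₂ : Measurable h₂) (a : E) :
    (ENNReal.ofReal ((2⁻¹ : ℝ) ^ (Module.finrank ℝ E)) * volume K *
      ∫⁻ z in K, CV h₁ h₂ (z + a)) ^ 2 ≤
      (volume K * ∫⁻ z in D, AC h₁ z) * (volume K * ∫⁻ z in D, AC h₂ z) := by
  have h1 := L1 hK hc hs (CV h₁ h₂) (CV_meas hh₁ hh₂) a
  rw [D_eq hK hs hh₁ hh₂ a] at h1
  refine (pow_le_pow_left' h1 2).trans ?_
  refine (CSq _ (HH_meas hh₁).aemeasurable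
    (((HH_meas hh₂).comp (by fun_prop : Measurable fun w : E => -(w + a)))).aemeasurable).trans ?_
  simp only [Function.comp]
  have e3 : ∫⁻ w, HH K h₂ (-(w + a)) ^ 2 = ∫⁻ w, HH K h₂ w ^ 2 := by
    rw [lintegral_add_right_eq_self (fun w => HH K h₂ (-w) ^ 2) a]
    exact lintegral_neg_eq_self (fun w => HH K h₂ w ^ 2)
  rw [e3, HH_sq hh₁, HH_sq hh₂]
  exact mul_le_mul' (L2 hK hD hKD _) (L2 hK hD hKD _)

end Run7.h750.PD
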