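import Pool.Agent.Run7.h750.PD1
set_option autoImplicit false
set_option linter.unusedSectionVars false

/-! Positive definite functions. -/

namespace Run7.h750.PD

open MeasureTheory Set Metric Filter Topology
open scoped ENNReal NNReal Pointwise

variable {E : Type*} [NormedAddCommGroup E] [NormedSpace ℝ E] [FiniteDimensional ℝ E]
  [MeasureSpace E] [BorelSpace E] [(volume : Measure E).IsAddHaarMeasure]

/-- positive definite, integrated form -/
def PosDef (g : E → ℝ) : Prop :=
  ∀ u : E → ℝ, Measurable u → (∃ M : ℝ, ∀ x, |u x| ≤ M) →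
    Bornology.IsBounded (Function.support u) → 0 ≤ ∫ x, ∫ y, u x * u y * g (x - y)

/-- the ENNReal form of the double integral -/
noncomputable def JE (K : Set E) (G : E → ℝ≥0∞) (s t : E) : ℝ≥0∞ :=
  ∫⁻ x, ∫⁻ y, K.indicator 1 (x + s) * K.indicator 1 (y + t) * G (x - y)

theorem JE_eq {K : Set E} (hK : MeasurableSet K) (G : E → ℝ≥0∞) (s t : E) :
    JE K G s t = ∫⁻ x in K, ∫⁻ y in K, G (x - y + (t - s)) := by
  unfold JE
  have e1 : ∫⁻ x, ∫⁻ y, K.indicator 1 (x + s) * K.indicator 1 (y + t) * G (x - y) =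
      ∫⁻ x, ∫⁻ y, K.indicator 1 x * K.indicator 1 y * G (x - y + (t - s)) := by
    rw [← lintegral_add_right_eq_self _ (-s)]
    apply lintegral_congr
    intro x
    rw [← lintegral_add_right_eq_self _ (-t)]
    apply lintegral_congr
    intro y
    rw [neg_add_cancel_right, neg_add_cancel_right]
    congr 2
    abel
  rw [e1, ← lintegral_indicator hK]
  apply lintegral_congr
  intro x
  by_cases hx : x ∈ K
  · rw [indicator_of_mem hx, indicator_of_mem hx, ← lintegral_indicator hK]
    apply lintegral_congr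
    intro y
    by_cases hy : y ∈ K
    · simp [hy]
    · simp [hy]
  · simp [hx]

theorem JE_lt_top {K : Set E} (hK : MeasurableSet K) (hb : Bornology.IsBounded K)
    {g : E → ℝ} (hg0 : ∀ x, 0 ≤ g x) (hgl : LocallyIntegrable g volume)
    (s t : E) : JE K (fun x => ENNReal.ofReal (g x)) s t < ∞ := by
  rw [JE_eq hK _]
  obtain ⟨R, hR⟩ := hb.subset_closedBall 0
  have hKR : ∀ x ∈ K, ‖x‖ ≤ R := fun x hx => by simpa using hR hx
  set D : Set E := closedBall 0 (2 * R + ‖t - s‖) with hD
  have h1 : ∫⁻ x in K, ∫⁻ y in K, ENNReal.ofReal (g (x - y + (t - s))) ≤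
      ∫⁻ x in K, ∫⁻ z in D, ENNReal.ofReal (g z) := by
    apply setLIntegral_mono' hK
    intro x hx
    rw [← lintegral_indicator hK, ← lintegral_indicator measurableSet_closedBall]
    rw [← lintegral_sub_left_eq_self _ (x + (t - s))]
    apply lintegral_mono
    intro z
    simp only
    by_cases hz : x + (t - s) - z ∈ K
    · rw [indicator_of_mem hz]
      have e2 : x - (x + (t - s) - z) + (t - s) = z := by abel
      rw [e2]
      have h2 : z ∈ D := by
        rw [hD, mem_closedBall_zero_iff]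
        calc ‖z‖ = ‖x - (x + (t - s) - z) + (t - s)‖ := by rw [e2]
          _ ≤ ‖x‖ + ‖x + (t - s) - z‖ + ‖t - s‖ :=
            (norm_add_le _ _).trans (by gcongr; exact norm_sub_le _ _)
          _ ≤ _ := by linarith [hKR x hx, hKR _ hz]
      rw [indicator_of_mem h2]
    · rw [indicator_of_notMem hz]
      exact zero_le
  refine h1.trans_lt ?_
  rw [setLIntegral_const]
  apply ENNReal.mul_lt_top
  · have h3 : IntegrableOn g D volume := hgl.integrableOn_isCompact (isCompact_closedBall _ _)
    have h4 := h3.hasFiniteIntegral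
    rw [hasFiniteIntegral_iff_ofReal (Filter.Eventually.of_forall hg0)] at h4
    exact h4
  · exact hb.measure_lt_top

/-- the product integrand -/
noncomputable def pi2 (K : Set E) (g : E → ℝ) (s t : E) (z : E × E) : ℝ :=
  K.indicator 1 (z.1 + s) * K.indicator 1 (z.2 + t) * g (z.1 - z.2)

theorem pi2_meas {K : Set E} (hK : MeasurableSet K) {g : E → ℝ} (hg : Measurable g) (s t : E) :
    Measurable (pi2 K g s t) := by
  have hKi : Measurable (K.indicator (1 : E → ℝ)) := measurable_one.indicator hK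
  unfold pi2
  exact ((hKi.comp (by fun_prop)).mul (hKi.comp (by fun_prop))).mul (hg.comp (by fun_prop))

theorem pi2_nonneg {K : Set E} {g : E → ℝ} (hg0 : ∀ x, 0 ≤ g x) (s t : E) (z : E × E) :
    0 ≤ pi2 K g s t z := by
  unfold pi2
  have h : ∀ x, 0 ≤ K.indicator (1 : E → ℝ) x := indicator_nonneg (fun _ _ => zero_le_one)
  exact mul_nonneg (mul_nonneg (h _) (h _)) (hg0 _)

theorem pi2_ofReal {K : Set E} {g : E → ℝ} (s t : E) (x y : E) :
    ENNReal.ofReal (pi2 K g s t (x, y)) = K.indicator 1 (x + s) * K.indicator 1 (y + t) *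
      ENNReal.ofReal (g (x - y)) := by
  unfold pi2
  by_cases h1 : x + s ∈ K <;> by_cases h2 : y + t ∈ K <;> simp [h1, h2]

theorem pi2_lint {K : Set E} (hK : MeasurableSet K) {g : E → ℝ} (hg : Measurable g) (s t : E) :
    ∫⁻ z, ENNReal.ofReal (pi2 K g s t z) ∂((volume : Measure E).prod volume) =
      JE K (fun x => ENNReal.ofReal (g x)) s t := by
  rw [lintegral_prod _ (pi2_meas hK hg s t).ennreal_ofReal.aemeasurable]
  unfold JE
  simp_rw [pi2_ofReal]

theorem pi2_int {K : Set E} (hK : MeasurableSet K) (hb : Bornology.IsBounded K)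
    {g : E → ℝ} (hg : Measurable g) (hg0 : ∀ x, 0 ≤ g x) (hgl : LocallyIntegrable g volume)
    (s t : E) : Integrable (pi2 K g s t) ((volume : Measure E).prod volume) := by
  refine ⟨(pi2_meas hK hg s t).aestronglyMeasurable, ?_⟩
  rw [hasFiniteIntegral_iff_ofReal (Filter.Eventually.of_forall (pi2_nonneg hg0 s t)),
    pi2_lint hK hg]
  exact JE_lt_top hK hb hg0 hgl s t

theorem pi2_val {K : Set E} (hK : MeasurableSet K) {g : E → ℝ} (hg : Measurable g)
    (hg0 : ∀ x, 0 ≤ g x) (s t : E) :
    ∫ z, pi2 K g s t z ∂((volume : Measure E).prod volume) =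
      (JE K (fun x => ENNReal.ofReal (g x)) s t).toReal := by
  rw [integral_eq_lintegral_of_nonneg_ae (Filter.Eventually.of_forall (pi2_nonneg hg0 s t))
    (pi2_meas hK hg s t).aestronglyMeasurable, pi2_lint hK hg]

theorem JE_symm {K : Set E} (hK : MeasurableSet K) {g : E → ℝ} (hg : Measurable g)
    (hev : ∀ x, g (-x) = g x) (s t : E) :
    JE K (fun x => ENNReal.ofReal (g x)) s t = JE K (fun x => ENNReal.ofReal (g x)) t s := by
  unfold JE
  have hKi : Measurable (K.indicator (1 : E → ℝ≥0∞)) := measurable_one.indicator hK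
  rw [lintegral_lintegral_swap (by
    have : Measurable fun p : E × E => K.indicator (1 : E → ℝ≥0∞) (p.1 + s) *
        K.indicator 1 (p.2 + t) * ENNReal.ofReal (g (p.1 - p.2)) :=
      ((hKi.comp (by fun_prop)).mul (hKi.comp (by fun_prop))).mul
        (hg.ennreal_ofReal.comp (by fun_prop))
    exact this.aemeasurable)]
  apply lintegral_congr
  intro y
  apply lintegral_congr
  intro x
  have h1 : g (y - x) = g (x - y) := by rw [← hev (x - y), neg_sub]
  simp only [h1]
  ring

/-- the double integral over translates is largest for the zero translation -/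
theorem pd_le {K : Set E} (hK : MeasurableSet K) (hb : Bornology.IsBounded K)
    {g : E → ℝ} (hg : Measurable g) (hg0 : ∀ x, 0 ≤ g x) (hgl : LocallyIntegrable g volume)
    (hev : ∀ x, g (-x) = g x) (hpd : PosDef g) (a : E) :
    ∫⁻ x in K, ∫⁻ y in K, ENNReal.ofReal (g (x - y + a)) ≤
      ∫⁻ x in K, ∫⁻ y in K, ENNReal.ofReal (g (x - y)) := by
  have hKi : Measurable (K.indicator (1 : E → ℝ)) := measurable_one.indicator hK
  set u : E → ℝ := fun x => K.indicator 1 x - K.indicator 1 (x + a) with hu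
  have hum : Measurable u := hKi.sub (hKi.comp (by fun_prop))
  have hi : ∀ x, 0 ≤ K.indicator (1 : E → ℝ) x ∧ K.indicator (1 : E → ℝ) x ≤ 1 := fun x =>
    ⟨indicator_nonneg (fun _ _ => zero_le_one) x, indicator_le_self' (fun _ _ => zero_le_one) x⟩
  have hub : ∀ x, |u x| ≤ 1 := by
    intro x
    rw [abs_le]
    constructor <;> simp only [hu] <;> linarith [(hi x).1, (hi x).2, (hi (x + a)).1, (hi (x + a)).2]
  obtain ⟨R, hR⟩ := hb.subset_closedBall 0
  have hus : Bornology.IsBounded (Function.support u) := by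
    apply (isBounded_closedBall (x := (0:E)) (r := R + ‖a‖)).subset
    intro x hx
    rw [mem_closedBall_zero_iff]
    by_contra hc
    push Not at hc
    have h1 : x ∉ K := fun h => by
      have := hR h
      rw [mem_closedBall_zero_iff] at this
      linarith [norm_nonneg a]
    have h2 : x + a ∉ K := fun h => by
      have := hR h
      rw [mem_closedBall_zero_iff] at this
      have h3 : ‖x‖ ≤ ‖x + a‖ + ‖a‖ := by
        calc ‖x‖ = ‖x + a - a‖ := by rw [add_sub_cancel_right]
          _ ≤ _ := norm_sub_le _ _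
      linarith
    apply hx
    simp [hu, h1, h2]
  have h0 := hpd u hum ⟨1, hub⟩ hus
  have hI := fun s t => pi2_int hK hb hg hg0 hgl s t
  have hsum : ∀ x y, u x * u y * g (x - y) =
      (pi2 K g 0 0 (x, y) + pi2 K g a a (x, y) - pi2 K g 0 a (x, y) - pi2 K g a 0 (x, y)) := by
    intro x y
    simp only [hu, pi2, add_zero]
    ring
  have hint : Integrable (fun z : E × E => pi2 K g 0 0 z + pi2 K g a a z - pi2 K g 0 a z -
      pi2 K g a 0 z) ((volume : Measure E).prod volume) :=
    (((hI 0 0).add (hI a a)).sub (hI 0 a)).sub (hI a 0)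
  have e1 : ∫ x, ∫ y, u x * u y * g (x - y) = (∫ z, pi2 K g 0 0 z ∂((volume : Measure E).prod
      volume)) + (∫ z, pi2 K g a a z ∂((volume : Measure E).prod volume)) -
      (∫ z, pi2 K g 0 a z ∂((volume : Measure E).prod volume)) -
      ∫ z, pi2 K g a 0 z ∂((volume : Measure E).prod volume) := by
    simp_rw [hsum]
    rw [integral_integral (f := fun x y => pi2 K g 0 0 (x, y) + pi2 K g a a (x, y) -
      pi2 K g 0 a (x, y) - pi2 K g a 0 (x, y)) hint]
    calc ∫ z : E × E, (pi2 K g 0 0 (z.1, z.2) + pi2 K g a a (z.1, z.2) - pi2 K g 0 a (z.1, z.2) -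
          pi2 K g a 0 (z.1, z.2)) ∂((volume : Measure E).prod volume)
        = ∫ z : E × E, (pi2 K g 0 0 z + pi2 K g a a z - pi2 K g 0 a z -
          pi2 K g a 0 z) ∂((volume : Measure E).prod volume) := rfl
      _ = _ := by
        have i1 : Integrable (fun z : E × E => pi2 K g 0 0 z + pi2 K g a a z)
            ((volume : Measure E).prod volume) := (hI 0 0).add (hI a a)
        have i2 : Integrable (fun z : E × E => pi2 K g 0 0 z + pi2 K g a a z - pi2 K g 0 a z)
            ((volume : Measure E).prod volume) := i1.sub (hI 0 a)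
        rw [integral_sub i2 (hI a 0), integral_sub i1 (hI 0 a), integral_add (hI 0 0) (hI a a)]
  rw [e1] at h0
  simp_rw [pi2_val hK hg hg0] at h0
  have e2 : JE K (fun x => ENNReal.ofReal (g x)) a a = JE K (fun x => ENNReal.ofReal (g x)) 0 0 := by
    rw [JE_eq hK _, JE_eq hK _]
    simp
  have e3 := JE_symm hK hg hev a 0
  rw [e2, e3] at h0
  have h1 : (JE K (fun x => ENNReal.ofReal (g x)) 0 a).toReal ≤
      (JE K (fun x => ENNReal.ofReal (g x)) 0 0).toReal := by linarith
  rw [ENNReal.toReal_le_toReal (JE_lt_top hK hb hg0 hgl 0 a).ne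
    (JE_lt_top hK hb hg0 hgl 0 0).ne, JE_eq hK _,
    JE_eq hK _] at h1
  simpa using h1

/-- the main inequality for positive definite functions -/
theorem pd_main {K : Set E} (hK : MeasurableSet K) (hb : Bornology.IsBounded K)
    (hc : Convex ℝ K) (hs : ∀ x ∈ K, -x ∈ K)
    {D : Set E} (hD : MeasurableSet D) (hKD : ∀ x ∈ K, ∀ y ∈ K, x - y ∈ D)
    {g : E → ℝ} (hg : Measurable g) (hg0 : ∀ x, 0 ≤ g x) (hgl : LocallyIntegrable g volume)
    (hev : ∀ x, g (-x) = g x) (hpd : PosDef g) (a : E) :
    ENNReal.ofReal ((2⁻¹ : ℝ) ^ (Module.finrank ℝ E)) * volume K *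
      ∫⁻ z in K, ENNReal.ofReal (g (z + a)) ≤
      volume K * ∫⁻ z in D, ENNReal.ofReal (g z) :=
  ((L1 hK hc hs (fun z => ENNReal.ofReal (g z)) hg.ennreal_ofReal a).trans
    (pd_le hK hb hg hg0 hgl hev hpd a)).trans
    (L2 hK hD hKD (fun z => ENNReal.ofReal (g z)))

end Run7.h750.PD
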