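import Pool.Agent.Run7.h750.PD2
set_option autoImplicit false
set_option linter.unusedSectionVars false

/-! Tubes centred at the origin. -/

namespace Run7.h750.PD

open MeasureTheory Set Metric Filter Topology
open scoped ENNReal NNReal Pointwise
open Pool.Agent.TH539 (tube surf)

abbrev V (m : ℕ) := EuclideanSpace ℝ (Fin (m + 1))

variable {m : ℕ}

/-- the centred tube -/
def T0 (δ : ℝ) (e : V m) : Set (V m) :=
  {y | |inner ℝ y e| ≤ 1 / 2 ∧ ‖y - (inner ℝ y e : ℝ) • e‖ ≤ δ}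

/-- the doubled centred tube -/
def D2 (δ : ℝ) (e : V m) : Set (V m) :=
  {y | |inner ℝ y e| ≤ 1 ∧ ‖y - (inner ℝ y e : ℝ) • e‖ ≤ 2 * δ}

theorem T0_eq (δ : ℝ) (e : V m) : T0 δ e = tube δ e 0 := by
  ext y; simp [T0, tube]

theorem T0_closed (δ : ℝ) (e : V m) : IsClosed (T0 δ e) := by
  have h1 : Continuous fun y : V m => |inner ℝ y e| := by fun_prop
  have h2 : Continuous fun y : V m => ‖y - (inner ℝ y e : ℝ) • e‖ := by fun_prop
  exact (isClosed_le h1 continuous_const).inter (isClosed_le h2 continuous_const)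

theorem D2_closed (δ : ℝ) (e : V m) : IsClosed (D2 δ e) := by
  have h1 : Continuous fun y : V m => |inner ℝ y e| := by fun_prop
  have h2 : Continuous fun y : V m => ‖y - (inner ℝ y e : ℝ) • e‖ := by fun_prop
  exact (isClosed_le h1 continuous_const).inter (isClosed_le h2 continuous_const)

theorem T0_bdd (δ : ℝ) {e : V m} (he : ‖e‖ = 1) : Bornology.IsBounded (T0 δ e) := by
  apply (isBounded_closedBall (x := (0 : V m)) (r := 1 / 2 + δ)).subset
  rintro y ⟨h1, h2⟩
  rw [mem_closedBall_zero_iff]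
  calc ‖y‖ = ‖(inner ℝ y e : ℝ) • e + (y - (inner ℝ y e : ℝ) • e)‖ := by congr 1; abel
    _ ≤ ‖(inner ℝ y e : ℝ) • e‖ + ‖y - (inner ℝ y e : ℝ) • e‖ := norm_add_le _ _
    _ ≤ 1 / 2 + δ := by
      rw [norm_smul, he, mul_one, Real.norm_eq_abs]
      exact add_le_add h1 h2

theorem T0_convex (δ : ℝ) (e : V m) : Convex ℝ (T0 δ e) := by
  intro x hx y hy a b ha hb hab
  constructor
  · rw [inner_add_left, inner_smul_left, inner_smul_left]
    simp only [conj_trivial]
    calc |a * inner ℝ x e + b * inner ℝ y e| ≤ |a * inner ℝ x e| + |b * inner ℝ y e| := abs_add_le _ _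
      _ = a * |inner ℝ x e| + b * |inner ℝ y e| := by
        rw [abs_mul, abs_mul, abs_of_nonneg ha, abs_of_nonneg hb]
      _ ≤ a * (1 / 2) + b * (1 / 2) := by
        gcongr
        · exact hx.1
        · exact hy.1
      _ = 1 / 2 := by rw [← add_mul, hab, one_mul]
  · have e1 : a • x + b • y - (inner ℝ (a • x + b • y) e : ℝ) • e =
        a • (x - (inner ℝ x e : ℝ) • e) + b • (y - (inner ℝ y e : ℝ) • e) := by
      rw [inner_add_left, inner_smul_left, inner_smul_left]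
      simp only [conj_trivial]
      module
    rw [e1]
    calc _ ≤ ‖a • (x - (inner ℝ x e : ℝ) • e)‖ + ‖b • (y - (inner ℝ y e : ℝ) • e)‖ := norm_add_le _ _
      _ = a * ‖x - (inner ℝ x e : ℝ) • e‖ + b * ‖y - (inner ℝ y e : ℝ) • e‖ := by
        rw [norm_smul, norm_smul, Real.norm_eq_abs, Real.norm_eq_abs, abs_of_nonneg ha,
          abs_of_nonneg hb]
      _ ≤ a * δ + b * δ := by
        gcongr
        · exact hx.2
        · exact hy.2
      _ = δ := by rw [← add_mul, hab, one_mul]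

theorem T0_symm (δ : ℝ) (e : V m) : ∀ x ∈ T0 δ e, -x ∈ T0 δ e := by
  rintro x ⟨h1, h2⟩
  constructor
  · rw [inner_neg_left, abs_neg]; exact h1
  · have e1 : -x - (inner ℝ (-x) e : ℝ) • e = -(x - (inner ℝ x e : ℝ) • e) := by
      rw [inner_neg_left]; module
    rw [e1, norm_neg]; exact h2

theorem T0_sub (δ : ℝ) (e : V m) : ∀ x ∈ T0 δ e, ∀ y ∈ T0 δ e, x - y ∈ D2 δ e := by
  rintro x ⟨h1, h2⟩ y ⟨h3, h4⟩
  constructor
  · rw [inner_sub_left]
    calc _ ≤ |inner ℝ x e| + |inner ℝ y e| := abs_sub _ _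
      _ ≤ 1 := by linarith
  · have e1 : x - y - (inner ℝ (x - y) e : ℝ) • e =
        (x - (inner ℝ x e : ℝ) • e) - (y - (inner ℝ y e : ℝ) • e) := by
      rw [inner_sub_left]; module
    rw [e1]
    calc _ ≤ ‖x - (inner ℝ x e : ℝ) • e‖ + ‖y - (inner ℝ y e : ℝ) • e‖ := norm_sub_le _ _
      _ ≤ 2 * δ := by linarith

theorem tube_int (δ : ℝ) (e a : V m) (F : V m → ℝ≥0∞) :
    ∫⁻ y in tube δ e a, F y = ∫⁻ z in T0 δ e, F (z + a) := by
  have hT : MeasurableSet (tube δ e a) := Pool.Agent.TH539.measurableSet_tube δ e a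
  rw [← lintegral_indicator hT, ← lintegral_indicator (T0_closed δ e).measurableSet]
  rw [← lintegral_add_right_eq_self _ a]
  apply lintegral_congr
  intro z
  have h1 : z + a ∈ tube δ e a ↔ z ∈ T0 δ e := by
    simp only [tube, T0, mem_ofPred_eq, add_sub_cancel_right]
  by_cases hz : z ∈ T0 δ e
  · rw [indicator_of_mem hz, indicator_of_mem (h1.2 hz)]
  · rw [indicator_of_notMem hz, indicator_of_notMem (fun h => hz (h1.1 h))]

theorem tube_vol (δ : ℝ) (e a : V m) : volume (tube δ e a) = volume (T0 δ e) := by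
  have := tube_int δ e a (fun _ => 1)
  simpa using this

/-- measure of a double cap -/
theorem cap (ω : V m) (hω : ‖ω‖ = 1) (ρ : ℝ) (hρ : 0 < ρ) :
    surf (m + 1) {e | ‖(e : V m) - (inner ℝ (e : V m) ω : ℝ) • ω‖ ≤ ρ} ≤
      ENNReal.ofReal ((m + 1) * 2 ^ (m + 1) * ρ ^ m) := by
  have hcont : Continuous fun e : sphere (0 : V m) 1 =>
    ‖(e : V m) - (inner ℝ (e : V m) ω : ℝ) • ω‖ := by fun_prop
  have hm : MeasurableSet {e : sphere (0 : V m) 1 |
      ‖(e : V m) - (inner ℝ (e : V m) ω : ℝ) • ω‖ ≤ ρ} :=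
    (isClosed_le hcont continuous_const).measurableSet
  have hsub : Ioo (0:ℝ) 1 • ((↑) '' {e : sphere (0 : V m) 1 |
      ‖(e : V m) - (inner ℝ (e : V m) ω : ℝ) • ω‖ ≤ ρ} : Set (V m)) ⊆
      (fun y => (2⁻¹:ℝ) • y) ⁻¹' tube (ρ / 2) ω 0 := by
    rintro y ⟨τ, ⟨h1, h2⟩, _, ⟨e, he, rfl⟩, rfl⟩
    have he1 : ‖(e : V m)‖ = 1 := by simp
    have he' : ‖(e : V m) - (inner ℝ (e : V m) ω : ℝ) • ω‖ ≤ ρ := he
    show _ ∧ _
    simp only [sub_zero, inner_smul_left, conj_trivial]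
    constructor
    · have h3 : |inner ℝ (e : V m) ω| ≤ 1 := by
        have := abs_real_inner_le_norm (e : V m) ω
        rwa [he1, hω, mul_one] at this
      rw [abs_mul, abs_mul, abs_of_pos h1, abs_of_pos (by norm_num : (0:ℝ) < 2⁻¹)]
      nlinarith [abs_nonneg (inner ℝ (e : V m) ω)]
    · have e1 : (2⁻¹:ℝ) • τ • (e : V m) - (2⁻¹ * (τ * inner ℝ (e : V m) ω)) • ω =
          (2⁻¹ * τ) • ((e : V m) - (inner ℝ (e : V m) ω : ℝ) • ω) := by module
      rw [e1, norm_smul, Real.norm_eq_abs, abs_of_pos (by positivity)]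
      nlinarith [norm_nonneg ((e : V m) - (inner ℝ (e : V m) ω : ℝ) • ω)]
  unfold surf
  rw [Measure.toSphere_apply' _ hm, finrank_euclideanSpace_fin]
  calc ((m + 1 : ℕ) : ℝ≥0∞) * volume (Ioo (0:ℝ) 1 • ((↑) '' {e : sphere (0 : V m) 1 |
        ‖(e : V m) - (inner ℝ (e : V m) ω : ℝ) • ω‖ ≤ ρ} : Set (V m)))
      ≤ ((m + 1 : ℕ) : ℝ≥0∞) * volume ((fun y => (2⁻¹:ℝ) • y) ⁻¹' tube (ρ / 2) ω 0) := by
        gcongr
    _ = ((m + 1 : ℕ) : ℝ≥0∞) * (ENNReal.ofReal (2 ^ (m + 1)) * volume (tube (ρ / 2) ω 0)) := by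
        rw [Measure.addHaar_preimage_smul _ (by norm_num : (2⁻¹:ℝ) ≠ 0),
          finrank_euclideanSpace_fin, abs_of_pos (by positivity), inv_pow, inv_inv]
    _ ≤ ((m + 1 : ℕ) : ℝ≥0∞) * (ENNReal.ofReal (2 ^ (m + 1)) * ENNReal.ofReal ((2 * (ρ / 2)) ^ m)) := by
        gcongr
        exact Pool.Agent.TH539.volume_tube_le (by positivity) hω
    _ = _ := by
        rw [← ENNReal.ofReal_mul (by positivity), ← ENNReal.ofReal_natCast,
          ← ENNReal.ofReal_mul (by positivity)]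
        congr 1
        push_cast
        rw [mul_div_cancel₀ _ (by norm_num : (2:ℝ) ≠ 0)]
        ring

theorem perp_symm {e ω : V m} (he : ‖e‖ = 1) (hω : ‖ω‖ = 1) :
    ‖e - (inner ℝ e ω : ℝ) • ω‖ = ‖ω - (inner ℝ ω e : ℝ) • e‖ := by
  have h : ∀ a b : V m, ‖a‖ = 1 → ‖b‖ = 1 →
      ‖a - (inner ℝ a b : ℝ) • b‖ ^ 2 = 1 - (inner ℝ a b) ^ 2 := by
    intro a b ha hb
    rw [norm_sub_sq_real, ha, norm_smul, hb, inner_smul_right, Real.norm_eq_abs, mul_one, sq_abs]
    ring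
  have h1 := h e ω he hω
  have h2 := h ω e hω he
  have h3 : (inner ℝ ω e : ℝ) = inner ℝ e ω := real_inner_comm _ _
  rw [h3] at h2 ⊢
  rw [← h2] at h1
  exact (sq_eq_sq₀ (norm_nonneg _) (norm_nonneg _)).1 h1

/-- the set of directions whose doubled tube contains a point -/
theorem dir_meas (δ : ℝ) (hδ : 0 < δ) (y : V m) (hy : y ≠ 0) :
    surf (m + 1) {e | y ∈ D2 δ (e : V m)} ≤
      ENNReal.ofReal ((m + 1) * 2 ^ (m + 1) * (2 * δ / ‖y‖) ^ m) := by
  have hy' : 0 < ‖y‖ := norm_pos_iff.2 hy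
  set ω : V m := ‖y‖⁻¹ • y with hω
  have hω1 : ‖ω‖ = 1 := by
    rw [hω, norm_smul, norm_inv, norm_norm, inv_mul_cancel₀ hy'.ne']
  refine (measure_mono ?_).trans (cap ω hω1 (2 * δ / ‖y‖) (by positivity))
  intro e he
  have he1 : ‖(e : V m)‖ = 1 := by simp
  have h2 := he.2
  show ‖(e : V m) - (inner ℝ (e : V m) ω : ℝ) • ω‖ ≤ 2 * δ / ‖y‖
  rw [perp_symm he1 hω1, le_div_iff₀ hy']
  have e1 : y - (inner ℝ y (e : V m) : ℝ) • (e : V m) =
      ‖y‖ • (ω - (inner ℝ ω (e : V m) : ℝ) • (e : V m)) := by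
    rw [hω, inner_smul_left, conj_trivial, smul_sub, smul_smul, smul_smul, ← mul_assoc,
      mul_inv_cancel₀ hy'.ne', one_smul, one_mul]
  rw [e1, norm_smul, norm_norm] at h2
  linarith

theorem dir_meas' (δ : ℝ) (hδ : 0 < δ) (e : V m) (he : ‖e‖ = 1) (τ : ℝ) (hτ : 0 < τ) :
    surf (m + 1) {u | τ • (u : V m) ∈ D2 δ e} ≤
      ENNReal.ofReal ((m + 1) * 2 ^ (m + 1) * (2 * δ / τ) ^ m) := by
  refine (measure_mono ?_).trans (cap e he (2 * δ / τ) (by positivity))
  intro u hu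
  have h2 := hu.2
  show ‖(u : V m) - (inner ℝ (u : V m) e : ℝ) • e‖ ≤ 2 * δ / τ
  rw [le_div_iff₀ hτ]
  have e1 : τ • (u : V m) - (inner ℝ (τ • (u : V m)) e : ℝ) • e =
      τ • ((u : V m) - (inner ℝ (u : V m) e : ℝ) • e) := by
    rw [inner_smul_left, conj_trivial]; module
  rw [e1, norm_smul, Real.norm_eq_abs, abs_of_pos hτ] at h2
  linarith

instance : IsFiniteMeasure (surf (m + 1)) := by
  unfold surf; infer_instance

/-- constant -/
noncomputable def C2 (m : ℕ) : ℝ := 2 ^ m * (surf (m + 1) univ).toReal +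
  (m + 1) * 2 ^ (m + 1) * 4 ^ m

theorem C2_pos (m : ℕ) : 0 < C2 m := by unfold C2; positivity

theorem ker_bd (δ : ℝ) (hδ : 0 < δ) (y : V m) :
    ENNReal.ofReal (δ + ‖y‖) ^ m * surf (m + 1) {e | y ∈ D2 δ (e : V m)} ≤
      ENNReal.ofReal (C2 m * δ ^ m) := by
  rcases le_or_gt ‖y‖ δ with h | h
  · calc _ ≤ ENNReal.ofReal (2 * δ) ^ m * surf (m + 1) univ := by
          gcongr
          · linarith
          · exact subset_univ _
      _ = ENNReal.ofReal ((2 * δ) ^ m * (surf (m + 1) univ).toReal) := by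
          rw [ENNReal.ofReal_mul (p := (2 * δ) ^ m) (by positivity),
            ENNReal.ofReal_toReal (measure_ne_top _ _), ENNReal.ofReal_pow (by positivity)]
      _ ≤ _ := by
          apply ENNReal.ofReal_le_ofReal
          unfold C2
          rw [mul_pow]
          have : 0 ≤ ((m:ℝ) + 1) * 2 ^ (m + 1) * 4 ^ m * δ ^ m := by positivity
          nlinarith
  · have hy : y ≠ 0 := by
      rintro rfl
      rw [norm_zero] at h
      linarith
    have hy' : 0 < ‖y‖ := norm_pos_iff.2 hy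
    calc _ ≤ ENNReal.ofReal (2 * ‖y‖) ^ m *
            ENNReal.ofReal ((m + 1) * 2 ^ (m + 1) * (2 * δ / ‖y‖) ^ m) := by
          gcongr
          · linarith
          · exact dir_meas δ hδ y hy
      _ = ENNReal.ofReal ((m + 1) * 2 ^ (m + 1) * 4 ^ m * δ ^ m) := by
          rw [← ENNReal.ofReal_pow (by positivity), ← ENNReal.ofReal_mul (by positivity)]
          congr 1
          have e1 : (2 * ‖y‖) ^ m * (2 * δ / ‖y‖) ^ m = 4 ^ m * δ ^ m := by
            rw [← mul_pow, ← mul_pow]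
            congr 1
            field_simp
            ring
          calc _ = (m + 1) * 2 ^ (m + 1) * ((2 * ‖y‖) ^ m * (2 * δ / ‖y‖) ^ m) := by ring
            _ = _ := by rw [e1]; ring
      _ ≤ _ := by
          apply ENNReal.ofReal_le_ofReal
          unfold C2
          have : 0 ≤ 2 ^ m * (surf (m + 1) univ).toReal * δ ^ m := by positivity
          nlinarith

theorem lint_inv (δ : ℝ) (hδ : 0 < δ) (hδ1 : δ < 1) :
    ∫⁻ τ in Ioc (0:ℝ) 3, ENNReal.ofReal ((δ + τ)⁻¹) ≤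
      ENNReal.ofReal (2 * (1 + Real.log (1 / δ))) := by
  have h1 : IntervalIntegrable (fun τ : ℝ => (δ + τ)⁻¹) volume 0 3 := by
    apply ContinuousOn.intervalIntegrable
    apply ContinuousOn.inv₀ (by fun_prop)
    intro x hx
    rw [uIcc_of_le (by norm_num)] at hx
    linarith [hx.1]
  rw [← ofReal_integral_eq_lintegral_ofReal]
  · apply ENNReal.ofReal_le_ofReal
    rw [← intervalIntegral.integral_of_le (by norm_num : (0:ℝ) ≤ 3),
      intervalIntegral.integral_comp_add_left (fun x => x⁻¹) δ,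
      integral_inv_of_pos (by linarith) (by linarith)]
    have h3 : Real.log ((δ + 3) / (δ + 0)) ≤ Real.log (4 * (1 / δ)) := by
      apply Real.log_le_log (by positivity)
      rw [add_zero, mul_one_div, div_le_div_iff_of_pos_right hδ]
      linarith
    have h4 : Real.log (4 * (1 / δ)) = Real.log 4 + Real.log (1 / δ) :=
      Real.log_mul (by norm_num) (by positivity)
    have h5 : Real.log 4 ≤ 2 := by
      have : Real.log 4 = 2 * Real.log 2 := by
        rw [show (4:ℝ) = 2 ^ 2 by norm_num, Real.log_pow]; norm_num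
      rw [this]
      linarith [Real.log_two_lt_d9]
    have h6 : 0 ≤ Real.log (1 / δ) := Real.log_nonneg (by rw [le_div_iff₀ hδ]; linarith)
    linarith
  · exact (intervalIntegrable_iff_integrableOn_Ioc_of_le (by norm_num)).1 h1
  · filter_upwards [ae_restrict_mem measurableSet_Ioc] with τ hτ
    have := hτ.1
    simp only [Pi.zero_apply]
    positivity

theorem lint_W (δ : ℝ) (hδ : 0 < δ) (hδ1 : δ < 1) (e : V m) (he : ‖e‖ = 1) :
    ∫⁻ y in D2 δ e, ENNReal.ofReal ((δ + ‖y‖)⁻¹) ≤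
      ENNReal.ofReal ((m + 1) * 2 ^ (m + 1) * 2 ^ m * 2 * δ ^ m * (1 + Real.log (1 / δ))) := by
  have hD : MeasurableSet (D2 δ e) := (D2_closed δ e).measurableSet
  have hW : Measurable fun y : V m => ENNReal.ofReal ((δ + ‖y‖)⁻¹) := by fun_prop
  rw [← lintegral_indicator hD, Pool.Agent.R462.KC.lintegral_polar volume (hW.indicator hD),
    finrank_euclideanSpace_fin, Nat.add_sub_cancel]
  have hsm : Measurable fun p : sphere (0 : V m) 1 × ℝ => p.2 • (p.1 : V m) :=
    (continuous_snd.smul (continuous_subtype_val.comp continuous_fst)).measurable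
  rw [lintegral_lintegral_swap (by
    have : Measurable fun p : sphere (0 : V m) 1 × ℝ => ENNReal.ofReal (p.2 ^ m) *
        (D2 δ e).indicator (fun y => ENNReal.ofReal ((δ + ‖y‖)⁻¹)) (p.2 • (p.1 : V m)) :=
      (by fun_prop : Measurable fun p : sphere (0 : V m) 1 × ℝ => ENNReal.ofReal (p.2 ^ m)).mul
        ((hW.indicator hD).comp hsm)
    exact this.aemeasurable)]
  have key : ∀ τ ∈ Ioi (0:ℝ), ∫⁻ u : sphere (0 : V m) 1, ENNReal.ofReal (τ ^ m) *
      (D2 δ e).indicator (fun y => ENNReal.ofReal ((δ + ‖y‖)⁻¹)) (τ • (u : V m))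
        ∂(volume : Measure (V m)).toSphere ≤
      (Ioc (0:ℝ) 3).indicator (fun τ => ENNReal.ofReal ((m + 1) * 2 ^ (m + 1) * (2 * δ) ^ m) *
        ENNReal.ofReal ((δ + τ)⁻¹)) τ := by
    intro τ hτ
    have hτ0 : 0 < τ := hτ
    have hu1 : ∀ u : sphere (0 : V m) 1, ‖τ • (u : V m)‖ = τ := by
      intro u
      have : ‖(u : V m)‖ = 1 := by simp
      rw [norm_smul, this, mul_one, Real.norm_eq_abs, abs_of_pos hτ0]
    by_cases h3 : τ ≤ 3
    · rw [indicator_of_mem (show τ ∈ Ioc (0:ℝ) 3 from ⟨hτ0, h3⟩)]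
      have hms : MeasurableSet {u : sphere (0 : V m) 1 | τ • (u : V m) ∈ D2 δ e} := by
        have : Continuous fun u : sphere (0 : V m) 1 => τ • (u : V m) := by fun_prop
        exact ((D2_closed δ e).preimage this).measurableSet
      calc _ = ∫⁻ u : sphere (0 : V m) 1, ENNReal.ofReal (τ ^ m) * ENNReal.ofReal ((δ + τ)⁻¹) *
            {u : sphere (0 : V m) 1 | τ • (u : V m) ∈ D2 δ e}.indicator 1 u
            ∂(volume : Measure (V m)).toSphere := by
            apply lintegral_congr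
            intro u
            by_cases hu : τ • (u : V m) ∈ D2 δ e
            · rw [indicator_of_mem hu, indicator_of_mem (show u ∈
                {u : sphere (0 : V m) 1 | τ • (u : V m) ∈ D2 δ e} from hu), hu1]
              simp
            · rw [indicator_of_notMem hu, indicator_of_notMem (show u ∉
                {u : sphere (0 : V m) 1 | τ • (u : V m) ∈ D2 δ e} from hu)]
              simp
        _ = ENNReal.ofReal (τ ^ m) * ENNReal.ofReal ((δ + τ)⁻¹) *
            surf (m + 1) {u : sphere (0 : V m) 1 | τ • (u : V m) ∈ D2 δ e} := by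
            rw [lintegral_const_mul _ (measurable_one.indicator hms), lintegral_indicator_one hms]
            rfl
        _ ≤ ENNReal.ofReal (τ ^ m) * ENNReal.ofReal ((δ + τ)⁻¹) *
            ENNReal.ofReal ((m + 1) * 2 ^ (m + 1) * (2 * δ / τ) ^ m) := by
            gcongr
            exact dir_meas' δ hδ e he τ hτ0
        _ = _ := by
            rw [← ENNReal.ofReal_mul (by positivity), ← ENNReal.ofReal_mul (by positivity),
              ← ENNReal.ofReal_mul (by positivity)]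
            congr 1
            rw [div_pow]
            field_simp
    · rw [indicator_of_notMem (fun h => h3 h.2)]
      apply le_of_eq
      rw [lintegral_eq_zero_iff (by
        exact ((hW.indicator hD).comp (by fun_prop : Measurable fun u : sphere (0 : V m) 1 =>
          τ • (u : V m))).const_mul _)]
      filter_upwards with u
      have : τ • (u : V m) ∉ D2 δ e := by
        rintro ⟨h4, h5⟩
        apply h3
        rw [← hu1 u]
        calc ‖τ • (u : V m)‖ = ‖(inner ℝ (τ • (u : V m)) e : ℝ) • e +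
              (τ • (u : V m) - (inner ℝ (τ • (u : V m)) e : ℝ) • e)‖ := by congr 1; abel
          _ ≤ ‖(inner ℝ (τ • (u : V m)) e : ℝ) • e‖ +
              ‖τ • (u : V m) - (inner ℝ (τ • (u : V m)) e : ℝ) • e‖ := norm_add_le _ _
          _ ≤ 1 + 2 * δ := by
            rw [norm_smul, he, mul_one, Real.norm_eq_abs]
            exact add_le_add h4 h5
          _ ≤ 3 := by linarith
      rw [indicator_of_notMem this]
      simp
  calc _ ≤ ∫⁻ τ in Ioi (0:ℝ), (Ioc (0:ℝ) 3).indicator (fun τ =>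
          ENNReal.ofReal ((m + 1) * 2 ^ (m + 1) * (2 * δ) ^ m) *
          ENNReal.ofReal ((δ + τ)⁻¹)) τ := setLIntegral_mono' measurableSet_Ioi key
    _ ≤ ∫⁻ τ, (Ioc (0:ℝ) 3).indicator (fun τ =>
          ENNReal.ofReal ((m + 1) * 2 ^ (m + 1) * (2 * δ) ^ m) *
          ENNReal.ofReal ((δ + τ)⁻¹)) τ := setLIntegral_le_lintegral _ _
    _ = ENNReal.ofReal ((m + 1) * 2 ^ (m + 1) * (2 * δ) ^ m) *
          ∫⁻ τ in Ioc (0:ℝ) 3, ENNReal.ofReal ((δ + τ)⁻¹) := by
        rw [lintegral_indicator measurableSet_Ioc, lintegral_const_mul _ (by fun_prop)]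
    _ ≤ ENNReal.ofReal ((m + 1) * 2 ^ (m + 1) * (2 * δ) ^ m) *
          ENNReal.ofReal (2 * (1 + Real.log (1 / δ))) := by
        gcongr
        exact lint_inv δ hδ hδ1
    _ = _ := by
        rw [← ENNReal.ofReal_mul (by positivity)]
        congr 1
        rw [mul_pow]
        ring

/-- Hölder with a weight -/
theorem holder_w {X : Type*} [MeasurableSpace X] (μ : Measure X) {F W : X → ℝ≥0∞}
    (hF : Measurable F) (hW : Measurable W) (hW0 : ∀ x, W x ≠ 0) (hWt : ∀ x, W x ≠ ∞) (k : ℕ) :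
    (∫⁻ x, F x ∂μ) ^ (k + 1) ≤ (∫⁻ x, F x ^ (k + 1) * W x ^ k ∂μ) * (∫⁻ x, (W x)⁻¹ ∂μ) ^ k := by
  have hk : (0:ℝ) < (k:ℝ) + 1 := by positivity
  have h := ENNReal.lintegral_mul_norm_pow_le (μ := μ) (f := fun x => F x ^ (k + 1) * W x ^ k)
    (g := fun x => (W x)⁻¹) ((hF.pow_const _).mul (hW.pow_const _)).aemeasurable
    hW.inv.aemeasurable (p := 1 / ((k:ℝ) + 1)) (q := (k:ℝ) / ((k:ℝ) + 1)) (by positivity)
    (by positivity) (by field_simp; ring)
  have e1 : ∀ x, (F x ^ (k + 1) * W x ^ k) ^ (1 / ((k:ℝ) + 1)) * (W x)⁻¹ ^ ((k:ℝ) / ((k:ℝ) + 1)) =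
      F x := by
    intro x
    rw [ENNReal.mul_rpow_of_nonneg _ _ (by positivity), ← ENNReal.rpow_natCast,
      ← ENNReal.rpow_natCast, ← ENNReal.rpow_mul, ← ENNReal.rpow_mul, ENNReal.inv_rpow, mul_assoc]
    have e2 : ((k + 1 : ℕ) : ℝ) * (1 / ((k:ℝ) + 1)) = 1 := by push_cast; field_simp
    have e3 : (k:ℝ) * (1 / ((k:ℝ) + 1)) = (k:ℝ) / ((k:ℝ) + 1) := by ring
    rw [e2, e3, ENNReal.rpow_one, ENNReal.mul_inv_cancel, mul_one]
    · exact (ENNReal.rpow_pos (pos_iff_ne_zero.2 (hW0 x)) (hWt x)).ne'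
    · exact ENNReal.rpow_ne_top_of_nonneg (by positivity) (hWt x)
  simp_rw [e1] at h
  have h2 := pow_le_pow_left' h (k + 1)
  refine h2.trans (le_of_eq ?_)
  rw [mul_pow, ← ENNReal.rpow_natCast, ← ENNReal.rpow_mul, ← ENNReal.rpow_natCast (_ ^ _),
    ← ENNReal.rpow_mul]
  have e2 : 1 / ((k:ℝ) + 1) * ((k + 1 : ℕ) : ℝ) = 1 := by push_cast; field_simp
  have e3 : (k:ℝ) / ((k:ℝ) + 1) * ((k + 1 : ℕ) : ℝ) = k := by push_cast; field_simp
  rw [e2, e3, ENNReal.rpow_one, ENNReal.rpow_natCast]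

/-- the centred maximal estimate -/
theorem centered (m : ℕ) : ∃ C : ℝ, 0 < C ∧ ∀ (δ : ℝ), 0 < δ → δ < 1 → ∀ F : V m → ℝ≥0∞,
    Measurable F →
    ∫⁻ e : sphere (0 : V m) 1, ((volume (T0 δ (e : V m)))⁻¹ *
      ∫⁻ y in D2 δ (e : V m), F y) ^ (m + 1) ∂(surf (m + 1)) ≤
      ENNReal.ofReal (C * (1 + Real.log (1 / δ)) ^ m) * ∫⁻ y, F y ^ (m + 1) := by
  obtain ⟨c, hc, hvol⟩ := Pool.Agent.H742R2.Kk.volume_tube m
  set C1 : ℝ := (m + 1) * 2 ^ (m + 1) * 2 ^ m * 2 with hC1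
  have hC1p : 0 < C1 := by positivity
  have hC2 := C2_pos m
  refine ⟨(c⁻¹) ^ (m + 1) * C1 ^ m * C2 m, by positivity, ?_⟩
  intro δ hδ hδ1 F hF
  have hL : 0 ≤ Real.log (1 / δ) := Real.log_nonneg (by rw [le_div_iff₀ hδ]; linarith)
  set L : ℝ := 1 + Real.log (1 / δ) with hLd
  have hLp : 0 < L := by linarith
  have hWm : Measurable fun y : V m => ENNReal.ofReal (δ + ‖y‖) := by fun_prop
  have hcl : IsClosed {p : sphere (0 : V m) 1 × V m | p.2 ∈ D2 δ (p.1 : V m)} := by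
    have h1 : Continuous fun p : sphere (0 : V m) 1 × V m => |inner ℝ p.2 (p.1 : V m)| := by
      fun_prop
    have h2 : Continuous fun p : sphere (0 : V m) 1 × V m =>
      ‖p.2 - (inner ℝ p.2 (p.1 : V m) : ℝ) • (p.1 : V m)‖ := by fun_prop
    exact (isClosed_le h1 continuous_const).inter (isClosed_le h2 continuous_const)
  have hpt : ∀ e : sphere (0 : V m) 1, ((volume (T0 δ (e : V m)))⁻¹ *
      ∫⁻ y in D2 δ (e : V m), F y) ^ (m + 1) ≤
      ENNReal.ofReal (((c * δ ^ m)⁻¹) ^ (m + 1) * (C1 * δ ^ m * L) ^ m) *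
        ∫⁻ y in D2 δ (e : V m), F y ^ (m + 1) * ENNReal.ofReal (δ + ‖y‖) ^ m := by
    intro e
    have he1 : ‖(e : V m)‖ = 1 := by simp
    have h1 : (volume (T0 δ (e : V m)))⁻¹ ≤ ENNReal.ofReal ((c * δ ^ m)⁻¹) := by
      rw [ENNReal.ofReal_inv_of_pos (by positivity), ENNReal.inv_le_inv, T0_eq]
      exact hvol δ e 0 hδ he1
    have h2 := holder_w ((volume : Measure (V m)).restrict (D2 δ (e : V m))) hF hWm
      (fun x => (ENNReal.ofReal_pos.2 (by positivity)).ne') (fun x => ENNReal.ofReal_ne_top) m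
    have h3 : ∫⁻ y in D2 δ (e : V m), (ENNReal.ofReal (δ + ‖y‖))⁻¹ ≤
        ENNReal.ofReal (C1 * δ ^ m * L) := by
      have := lint_W δ hδ hδ1 (e : V m) he1
      refine le_trans (le_of_eq ?_) this
      apply lintegral_congr
      intro y
      rw [ENNReal.ofReal_inv_of_pos (by positivity)]
    calc _ = (volume (T0 δ (e : V m)))⁻¹ ^ (m + 1) * (∫⁻ y in D2 δ (e : V m), F y) ^ (m + 1) :=
          mul_pow _ _ _
      _ ≤ ENNReal.ofReal ((c * δ ^ m)⁻¹) ^ (m + 1) *
          ((∫⁻ y in D2 δ (e : V m), F y ^ (m + 1) * ENNReal.ofReal (δ + ‖y‖) ^ m) *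
            ENNReal.ofReal (C1 * δ ^ m * L) ^ m) := by
          refine mul_le_mul' (pow_le_pow_left' h1 _) (h2.trans ?_)
          exact mul_le_mul' le_rfl (pow_le_pow_left' h3 _)
      _ = _ := by
          rw [← ENNReal.ofReal_pow (by positivity), ← ENNReal.ofReal_pow (by positivity),
            ENNReal.ofReal_mul (by positivity)]
          ring
  have hFW : Measurable fun y : V m => F y ^ (m + 1) * ENNReal.ofReal (δ + ‖y‖) ^ m :=
    (hF.pow_const _).mul (hWm.pow_const _)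
  have hswap : ∫⁻ e : sphere (0 : V m) 1, (∫⁻ y in D2 δ (e : V m),
      F y ^ (m + 1) * ENNReal.ofReal (δ + ‖y‖) ^ m) ∂(surf (m + 1)) =
      ∫⁻ y, F y ^ (m + 1) * (ENNReal.ofReal (δ + ‖y‖) ^ m *
        surf (m + 1) {e | y ∈ D2 δ (e : V m)}) := by
    have e1 : ∀ e : sphere (0 : V m) 1, ∫⁻ y in D2 δ (e : V m),
        F y ^ (m + 1) * ENNReal.ofReal (δ + ‖y‖) ^ m =
        ∫⁻ y, {p : sphere (0 : V m) 1 × V m | p.2 ∈ D2 δ (p.1 : V m)}.indicator 1 (e, y) *
          (F y ^ (m + 1) * ENNReal.ofReal (δ + ‖y‖) ^ m) := by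
      intro e
      rw [← lintegral_indicator (D2_closed δ (e : V m)).measurableSet]
      apply lintegral_congr
      intro y
      by_cases hy : y ∈ D2 δ (e : V m)
      · rw [indicator_of_mem hy, indicator_of_mem (show (e, y) ∈
          {p : sphere (0 : V m) 1 × V m | p.2 ∈ D2 δ (p.1 : V m)} from hy)]
        simp
      · rw [indicator_of_notMem hy, indicator_of_notMem (show (e, y) ∉
          {p : sphere (0 : V m) 1 × V m | p.2 ∈ D2 δ (p.1 : V m)} from hy)]
        simp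
    simp_rw [e1]
    rw [lintegral_lintegral_swap (by
      have : Measurable fun p : sphere (0 : V m) 1 × V m =>
          {p : sphere (0 : V m) 1 × V m | p.2 ∈ D2 δ (p.1 : V m)}.indicator (1 :
            sphere (0 : V m) 1 × V m → ℝ≥0∞) (p.1, p.2) *
          (F p.2 ^ (m + 1) * ENNReal.ofReal (δ + ‖p.2‖) ^ m) :=
        (measurable_one.indicator hcl.measurableSet).mul (hFW.comp measurable_snd)
      exact this.aemeasurable)]
    apply lintegral_congr
    intro y
    have hms : MeasurableSet {e : sphere (0 : V m) 1 | y ∈ D2 δ (e : V m)} := by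
      have : Continuous fun e : sphere (0 : V m) 1 => (e, y) := by fun_prop
      exact (hcl.preimage this).measurableSet
    calc _ = ∫⁻ e : sphere (0 : V m) 1, {e : sphere (0 : V m) 1 | y ∈ D2 δ (e : V m)}.indicator 1 e *
          (F y ^ (m + 1) * ENNReal.ofReal (δ + ‖y‖) ^ m) ∂(surf (m + 1)) := rfl
      _ = _ := by
          rw [lintegral_mul_const _ (measurable_one.indicator hms), lintegral_indicator_one hms]
          ring
  calc _ ≤ ∫⁻ e : sphere (0 : V m) 1,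
        ENNReal.ofReal (((c * δ ^ m)⁻¹) ^ (m + 1) * (C1 * δ ^ m * L) ^ m) *
        (∫⁻ y in D2 δ (e : V m), F y ^ (m + 1) * ENNReal.ofReal (δ + ‖y‖) ^ m)
        ∂(surf (m + 1)) := lintegral_mono hpt
    _ = ENNReal.ofReal (((c * δ ^ m)⁻¹) ^ (m + 1) * (C1 * δ ^ m * L) ^ m) *
        ∫⁻ y, F y ^ (m + 1) * (ENNReal.ofReal (δ + ‖y‖) ^ m *
        surf (m + 1) {e | y ∈ D2 δ (e : V m)}) := by
        rw [lintegral_const_mul' _ _ ENNReal.ofReal_ne_top, hswap]
    _ ≤ ENNReal.ofReal (((c * δ ^ m)⁻¹) ^ (m + 1) * (C1 * δ ^ m * L) ^ m) *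
        ∫⁻ y, F y ^ (m + 1) * ENNReal.ofReal (C2 m * δ ^ m) := by
        gcongr with y
        exact ker_bd δ hδ y
    _ = _ := by
        rw [lintegral_mul_const _ (hF.pow_const _), mul_comm (∫⁻ y, F y ^ (m + 1)), ← mul_assoc,
          ← ENNReal.ofReal_mul (by positivity)]
        congr 2
        set d : ℝ := δ ^ m with hd
        have hdp : 0 < d := by positivity
        rw [mul_inv, mul_pow, mul_pow, mul_pow]
        have : (d⁻¹) ^ (m + 1) * d ^ m * d = 1 := by
          rw [mul_assoc, ← pow_succ, ← mul_pow, inv_mul_cancel₀ hdp.ne', one_pow]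
        calc c⁻¹ ^ (m + 1) * d⁻¹ ^ (m + 1) * (C1 ^ m * d ^ m * L ^ m) * (C2 m * d)
            = c⁻¹ ^ (m + 1) * C1 ^ m * C2 m * L ^ m * ((d⁻¹) ^ (m + 1) * d ^ m * d) := by ring
          _ = _ := by rw [this, mul_one]

end Run7.h750.PD
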