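import Pool.Agent.Run7.h750.PD3
set_option autoImplicit false
set_option linter.unusedSectionVars false

/-! Young's inequality for autocorrelations and the final estimates. -/

namespace Run7.h750.PD

open MeasureTheory Set Metric Filter Topology
open scoped ENNReal NNReal Pointwise
open Pool.Agent.TH539 (tube surf kakeyaMax)

theorem holder2 {X : Type*} [MeasurableSpace X] (μ : Measure X) {A B : X → ℝ≥0∞}
    (hA : Measurable A) (hB : Measurable B) (k : ℕ) :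
    (∫⁻ x, A x ^ (1 / ((k:ℝ) + 1)) * B x ^ ((k:ℝ) / ((k:ℝ) + 1)) ∂μ) ^ (k + 1) ≤
      (∫⁻ x, A x ∂μ) * (∫⁻ x, B x ∂μ) ^ k := by
  have hk : (0:ℝ) < (k:ℝ) + 1 := by positivity
  have h := ENNReal.lintegral_mul_norm_pow_le (μ := μ) hA.aemeasurable hB.aemeasurable
    (p := 1 / ((k:ℝ) + 1)) (q := (k:ℝ) / ((k:ℝ) + 1)) (by positivity)
    (by positivity) (by field_simp; ring)
  refine (pow_le_pow_left' h (k + 1)).trans (le_of_eq ?_)
  rw [mul_pow, ← ENNReal.rpow_natCast, ← ENNReal.rpow_mul, ← ENNReal.rpow_natCast (_ ^ _),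
    ← ENNReal.rpow_mul]
  have e2 : 1 / ((k:ℝ) + 1) * ((k + 1 : ℕ) : ℝ) = 1 := by push_cast; field_simp
  have e3 : (k:ℝ) / ((k:ℝ) + 1) * ((k + 1 : ℕ) : ℝ) = k := by push_cast; field_simp
  rw [e2, e3, ENNReal.rpow_one, ENNReal.rpow_natCast]

section

variable {E : Type*} [NormedAddCommGroup E] [NormedSpace ℝ E] [FiniteDimensional ℝ E]
  [MeasureSpace E] [BorelSpace E] [(volume : Measure E).IsAddHaarMeasure]

theorem young {h : E → ℝ≥0∞} (hh : Measurable h) (k : ℕ) :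
    ∫⁻ z, AC h z ^ (k + 1) ≤
      (∫⁻ x, h x ^ (2 * ((k:ℝ) + 1) / ((k:ℝ) + 2))) ^ (k + 2) := by
  have hk1 : (0:ℝ) < (k:ℝ) + 1 := by positivity
  have hk2 : (0:ℝ) < (k:ℝ) + 2 := by positivity
  set u : E → ℝ≥0∞ := fun x => h x ^ (((k:ℝ) + 1) / ((k:ℝ) + 2)) with hu
  have hum : Measurable u := hh.pow_const _
  set P : ℝ≥0∞ := ∫⁻ x, u x ^ 2 with hP
  have hPe : ∫⁻ x, h x ^ (2 * ((k:ℝ) + 1) / ((k:ℝ) + 2)) = P := by
    rw [hP]
    apply lintegral_congr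
    intro x
    rw [hu]
    simp only
    rw [← ENNReal.rpow_natCast, ← ENNReal.rpow_mul]
    congr 1
    push_cast
    field_simp
  rw [hPe]
  have hb : ∀ z v, h (z + v) * h v = (u (z + v) ^ 2 * u v ^ 2) ^ (1 / ((k:ℝ) + 1)) *
      (u (z + v) * u v) ^ ((k:ℝ) / ((k:ℝ) + 1)) := by
    intro z v
    have e0 : ∀ x, h x = u x ^ ((((k:ℝ) + 2)) / ((k:ℝ) + 1)) := by
      intro x
      rw [hu]
      simp only
      rw [← ENNReal.rpow_mul]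
      have : ((k:ℝ) + 1) / ((k:ℝ) + 2) * (((k:ℝ) + 2) / ((k:ℝ) + 1)) = 1 := by field_simp
      rw [this, ENNReal.rpow_one]
    rw [e0 (z + v), e0 v, ← ENNReal.mul_rpow_of_nonneg _ _ (by positivity), ← mul_pow,
      ← ENNReal.rpow_natCast, ← ENNReal.rpow_mul, ← ENNReal.rpow_add_of_nonneg _ _ (by positivity)
      (by positivity)]
    congr 1
    push_cast
    field_simp
    ring
  have hsh : ∀ z, ∫⁻ v, u (z + v) ^ 2 = P := by
    intro z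
    rw [hP]
    exact lintegral_add_left_eq_self (fun x => u x ^ 2) z
  have hpt : ∀ z, AC h z ^ (k + 1) ≤ (∫⁻ v, u (z + v) ^ 2 * u v ^ 2) * P ^ k := by
    intro z
    have hz : Measurable fun v => u (z + v) := hum.comp (measurable_const_add z)
    have h1 := holder2 (volume : Measure E) (A := fun v => u (z + v) ^ 2 * u v ^ 2)
      (B := fun v => u (z + v) * u v) ((hz.pow_const _).mul (hum.pow_const _)) (hz.mul hum) k
    unfold AC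
    simp_rw [hb z]
    refine h1.trans (mul_le_mul' le_rfl (pow_le_pow_left' ?_ k))
    have h2 := CSq (volume : Measure E) hz.aemeasurable hum.aemeasurable
    rw [hsh z, ← sq] at h2
    exact (ENNReal.pow_le_pow_left_iff two_ne_zero).1 h2
  calc ∫⁻ z, AC h z ^ (k + 1) ≤ ∫⁻ z, (∫⁻ v, u (z + v) ^ 2 * u v ^ 2) * P ^ k := lintegral_mono hpt
    _ = (∫⁻ z, ∫⁻ v, u (z + v) ^ 2 * u v ^ 2) * P ^ k := by
        have : Measurable fun z => ∫⁻ v, u (z + v) ^ 2 * u v ^ 2 := by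
          apply Measurable.lintegral_prod_right' (f := fun p : E × E => u (p.1 + p.2) ^ 2 * u p.2 ^ 2)
          exact ((hum.comp (by fun_prop)).pow_const _).mul ((hum.comp measurable_snd).pow_const _)
        rw [lintegral_mul_const _ this]
    _ = (P * P) * P ^ k := by
        congr 1
        rw [lintegral_lintegral_swap (by
          have : Measurable fun p : E × E => u (p.1 + p.2) ^ 2 * u p.2 ^ 2 :=
            ((hum.comp (by fun_prop)).pow_const _).mul ((hum.comp measurable_snd).pow_const _)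
          exact this.aemeasurable)]
        have e1 : ∀ v, ∫⁻ z, u (z + v) ^ 2 * u v ^ 2 = P * u v ^ 2 := by
          intro v
          have hz : Measurable fun z => u (z + v) ^ 2 :=
            (hum.comp (measurable_add_const v)).pow_const _
          rw [lintegral_mul_const _ hz, lintegral_add_right_eq_self (fun x => u x ^ 2) v]
        simp_rw [e1]
        rw [lintegral_const_mul _ (hum.pow_const _)]
    _ = P ^ (k + 2) := by ring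

end

variable {m : ℕ}

theorem T0_vol_ne (δ : ℝ) (hδ : 0 < δ) (e : V m) (he : ‖e‖ = 1) :
    volume (T0 δ e) ≠ 0 ∧ volume (T0 δ e) ≠ ∞ := by
  constructor
  · obtain ⟨c, hc, h⟩ := Pool.Agent.H742R2.Kk.volume_tube m
    have h1 := h δ e 0 hδ he
    have h2 : 0 < ENNReal.ofReal (c * δ ^ m) := ENNReal.ofReal_pos.2 (by positivity)
    rw [T0_eq]
    exact (lt_of_lt_of_le h2 h1).ne'
  · exact (T0_bdd δ he).measure_lt_top.ne

theorem kmax_le (δ : ℝ) (e : V m) (f : V m → ℝ) (F : V m → ℝ≥0∞) (hf : ∀ᵐ x, ‖f x‖ₑ ≤ F x)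
    (B : ℝ≥0∞) (hB : ∀ a, (volume (T0 δ e))⁻¹ * ∫⁻ z in T0 δ e, F (z + a) ≤ B) :
    kakeyaMax δ f e ≤ B := by
  unfold kakeyaMax
  apply iSup_le
  intro a
  rw [tube_vol]
  refine le_trans (mul_le_mul' le_rfl ?_) (hB a)
  rw [← tube_int δ e a F]
  exact lintegral_mono_ae (ae_restrict_of_ae hf)

theorem pd_point (δ : ℝ) (hδ : 0 < δ) (e : V m) (he : ‖e‖ = 1)
    {g : V m → ℝ} (hg : Measurable g) (hg0 : ∀ x, 0 ≤ g x) (hgl : LocallyIntegrable g volume)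
    (hev : ∀ x, g (-x) = g x) (hpd : PosDef g) (f : V m → ℝ)
    (hf : ∀ᵐ x, ‖f x‖ₑ ≤ ENNReal.ofReal (g x)) :
    kakeyaMax δ f e ≤ 2 ^ (m + 1) *
      ((volume (T0 δ e))⁻¹ * ∫⁻ y in D2 δ e, ENNReal.ofReal (g y)) := by
  apply kmax_le δ e f (fun x => ENNReal.ofReal (g x)) hf
  intro a
  obtain ⟨ht0, htt⟩ := T0_vol_ne δ hδ e he
  have h := pd_main (T0_closed δ e).measurableSet (T0_bdd δ he) (T0_convex δ e) (T0_symm δ e)
    (D2_closed δ e).measurableSet (T0_sub δ e) hg hg0 hgl hev hpd a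
  rw [finrank_euclideanSpace_fin] at h
  set t := volume (T0 δ e)
  set I := ∫⁻ z in T0 δ e, ENNReal.ofReal (g (z + a))
  set J := ∫⁻ y in D2 δ e, ENNReal.ofReal (g y)
  have e1 : ENNReal.ofReal ((2⁻¹ : ℝ) ^ (m + 1)) = ((2 : ℝ≥0∞) ^ (m + 1))⁻¹ := by
    rw [ENNReal.ofReal_pow (by norm_num), ENNReal.ofReal_inv_of_pos (by norm_num),
      ENNReal.inv_pow]
    simp
  rw [e1] at h
  have h2 : (2 : ℝ≥0∞) ^ (m + 1) ≠ 0 := by positivity
  have h3 : (2 : ℝ≥0∞) ^ (m + 1) ≠ ∞ := by finiteness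
  have h4 : I ≤ 2 ^ (m + 1) * J := by
    have h5 : (2 ^ (m + 1) * t⁻¹) * (((2 : ℝ≥0∞) ^ (m + 1))⁻¹ * t * I) ≤
        (2 ^ (m + 1) * t⁻¹) * (t * J) := mul_le_mul' le_rfl h
    have e2 : (2 ^ (m + 1) * t⁻¹) * (((2 : ℝ≥0∞) ^ (m + 1))⁻¹ * t * I) = I := by
      calc _ = (2 ^ (m + 1) * ((2 : ℝ≥0∞) ^ (m + 1))⁻¹) * (t * t⁻¹) * I := by ring
        _ = I := by rw [ENNReal.mul_inv_cancel h2 h3, ENNReal.mul_inv_cancel ht0 htt]; simp
    have e3 : (2 ^ (m + 1) * t⁻¹) * (t * J) = 2 ^ (m + 1) * J := by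
      calc _ = (t * t⁻¹) * (2 ^ (m + 1) * J) := by ring
        _ = _ := by rw [ENNReal.mul_inv_cancel ht0 htt, one_mul]
    rwa [e2, e3] at h5
  calc t⁻¹ * I ≤ t⁻¹ * (2 ^ (m + 1) * J) := mul_le_mul' le_rfl h4
    _ = _ := by ring

theorem cv_point (δ : ℝ) (hδ : 0 < δ) (e : V m) (he : ‖e‖ = 1)
    {h₁ h₂ : V m → ℝ≥0∞} (hh₁ : Measurable h₁) (hh₂ : Measurable h₂) (f : V m → ℝ)
    (hf : ∀ᵐ x, ‖f x‖ₑ ≤ CV h₁ h₂ x) :
    kakeyaMax δ f e ≤ 2 ^ (m + 1) *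
      (((volume (T0 δ e))⁻¹ * ∫⁻ y in D2 δ e, AC h₁ y) ^ (1 / 2 : ℝ) *
      ((volume (T0 δ e))⁻¹ * ∫⁻ y in D2 δ e, AC h₂ y) ^ (1 / 2 : ℝ)) := by
  apply kmax_le δ e f (CV h₁ h₂) hf
  intro a
  obtain ⟨ht0, htt⟩ := T0_vol_ne δ hδ e he
  have h := conv_main (T0_closed δ e).measurableSet (T0_convex δ e) (T0_symm δ e)
    (D2_closed δ e).measurableSet (T0_sub δ e) hh₁ hh₂ a
  rw [finrank_euclideanSpace_fin] at h
  set t := volume (T0 δ e)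
  set I := ∫⁻ z in T0 δ e, CV h₁ h₂ (z + a)
  set J₁ := ∫⁻ y in D2 δ e, AC h₁ y
  set J₂ := ∫⁻ y in D2 δ e, AC h₂ y
  have e1 : ENNReal.ofReal ((2⁻¹ : ℝ) ^ (m + 1)) = ((2 : ℝ≥0∞) ^ (m + 1))⁻¹ := by
    rw [ENNReal.ofReal_pow (by norm_num), ENNReal.ofReal_inv_of_pos (by norm_num),
      ENNReal.inv_pow]
    simp
  rw [e1] at h
  have h2 : (2 : ℝ≥0∞) ^ (m + 1) ≠ 0 := by positivity
  have h3 : (2 : ℝ≥0∞) ^ (m + 1) ≠ ∞ := by finiteness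
  have h4 : (t⁻¹ * I) ^ 2 ≤ (2 ^ (m + 1)) ^ 2 * ((t⁻¹ * J₁) * (t⁻¹ * J₂)) := by
    have h5 : (2 ^ (m + 1) * t⁻¹ * t⁻¹) ^ 2 * (((2 : ℝ≥0∞) ^ (m + 1))⁻¹ * t * I) ^ 2 ≤
        (2 ^ (m + 1) * t⁻¹ * t⁻¹) ^ 2 * ((t * J₁) * (t * J₂)) := mul_le_mul' le_rfl h
    have e2 : (2 ^ (m + 1) * t⁻¹ * t⁻¹) ^ 2 * (((2 : ℝ≥0∞) ^ (m + 1))⁻¹ * t * I) ^ 2 =
        (t⁻¹ * I) ^ 2 := by
      calc _ = ((2 ^ (m + 1) * ((2 : ℝ≥0∞) ^ (m + 1))⁻¹) * (t * t⁻¹) * (t⁻¹ * I)) ^ 2 := by ring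
        _ = _ := by rw [ENNReal.mul_inv_cancel h2 h3, ENNReal.mul_inv_cancel ht0 htt]; simp
    have e3 : (2 ^ (m + 1) * t⁻¹ * t⁻¹) ^ 2 * ((t * J₁) * (t * J₂)) =
        (2 ^ (m + 1)) ^ 2 * ((t⁻¹ * J₁) * (t⁻¹ * J₂)) := by
      calc _ = (t * t⁻¹) * (t * t⁻¹) * ((2 ^ (m + 1)) ^ 2 * ((t⁻¹ * J₁) * (t⁻¹ * J₂))) := by ring
        _ = _ := by rw [ENNReal.mul_inv_cancel ht0 htt]; simp
    rwa [e2, e3] at h5
  have h6 := ENNReal.rpow_le_rpow h4 (by norm_num : (0:ℝ) ≤ 1 / 2)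
  have e4 : ∀ x : ℝ≥0∞, (x ^ 2) ^ (1 / 2 : ℝ) = x := by
    intro x
    rw [← ENNReal.rpow_natCast, ← ENNReal.rpow_mul]
    norm_num
  rwa [ENNReal.mul_rpow_of_nonneg _ _ (by norm_num), e4, e4,
    ENNReal.mul_rpow_of_nonneg _ _ (by norm_num)] at h6

theorem X_meas (δ : ℝ) (F : V m → ℝ≥0∞) (hF : Measurable F) :
    Measurable fun e : sphere (0 : V m) 1 => (volume (T0 δ (e : V m)))⁻¹ *
      ∫⁻ y in D2 δ (e : V m), F y := by
  have hcl : ∀ a b : ℝ, IsClosed {p : sphere (0 : V m) 1 × V m | |inner ℝ p.2 (p.1 : V m)| ≤ a ∧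
      ‖p.2 - (inner ℝ p.2 (p.1 : V m) : ℝ) • (p.1 : V m)‖ ≤ b} := by
    intro a b
    have h1 : Continuous fun p : sphere (0 : V m) 1 × V m => |inner ℝ p.2 (p.1 : V m)| := by
      fun_prop
    have h2 : Continuous fun p : sphere (0 : V m) 1 × V m =>
      ‖p.2 - (inner ℝ p.2 (p.1 : V m) : ℝ) • (p.1 : V m)‖ := by fun_prop
    exact (isClosed_le h1 continuous_const).inter (isClosed_le h2 continuous_const)
  apply Measurable.mul
  · apply Measurable.inv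
    exact measurable_measure_prodMk_left (hcl (1 / 2) δ).measurableSet
  · have e1 : ∀ e : sphere (0 : V m) 1, ∫⁻ y in D2 δ (e : V m), F y =
        ∫⁻ y, {p : sphere (0 : V m) 1 × V m | |inner ℝ p.2 (p.1 : V m)| ≤ 1 ∧
          ‖p.2 - (inner ℝ p.2 (p.1 : V m) : ℝ) • (p.1 : V m)‖ ≤ 2 * δ}.indicator
            (fun p => F p.2) (e, y) := by
      intro e
      rw [← lintegral_indicator (D2_closed δ (e : V m)).measurableSet]
      apply lintegral_congr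
      intro y
      by_cases hy : y ∈ D2 δ (e : V m)
      · rw [indicator_of_mem hy, indicator_of_mem (show (e, y) ∈
          {p : sphere (0 : V m) 1 × V m | |inner ℝ p.2 (p.1 : V m)| ≤ 1 ∧
          ‖p.2 - (inner ℝ p.2 (p.1 : V m) : ℝ) • (p.1 : V m)‖ ≤ 2 * δ} from hy)]
      · rw [indicator_of_notMem hy, indicator_of_notMem (show (e, y) ∉
          {p : sphere (0 : V m) 1 × V m | |inner ℝ p.2 (p.1 : V m)| ≤ 1 ∧
          ‖p.2 - (inner ℝ p.2 (p.1 : V m) : ℝ) • (p.1 : V m)‖ ≤ 2 * δ} from hy)]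
    simp_rw [e1]
    exact ((hF.comp measurable_snd).indicator (hcl 1 (2 * δ)).measurableSet).lintegral_prod_right'

/-- the final estimates -/
theorem final (m : ℕ) : ∃ C : ℝ, 0 < C ∧ ∀ (δ : ℝ), 0 < δ → δ < 1 →
    (∀ g : V m → ℝ, Measurable g → (∀ x, 0 ≤ g x) → LocallyIntegrable g volume →
      (∀ x, g (-x) = g x) → PosDef g → ∀ f : V m → ℝ, (∀ᵐ x, ‖f x‖ₑ ≤ ENNReal.ofReal (g x)) →
      ∫⁻ e : sphere (0 : V m) 1, kakeyaMax δ f (e : V m) ^ (m + 1) ∂(surf (m + 1)) ≤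
        ENNReal.ofReal (C * (1 + Real.log (1 / δ)) ^ m) * ∫⁻ y, ENNReal.ofReal (g y) ^ (m + 1)) ∧
    (∀ h₁ h₂ : V m → ℝ≥0∞, Measurable h₁ → Measurable h₂ → ∀ f : V m → ℝ,
      (∀ᵐ x, ‖f x‖ₑ ≤ CV h₁ h₂ x) →
      ∫⁻ e : sphere (0 : V m) 1, kakeyaMax δ f (e : V m) ^ (m + 1) ∂(surf (m + 1)) ≤
        ENNReal.ofReal (C * (1 + Real.log (1 / δ)) ^ m) *
        ((∫⁻ x, h₁ x ^ (2 * ((m:ℝ) + 1) / ((m:ℝ) + 2))) ^ (((m:ℝ) + 2) / 2) *
        (∫⁻ x, h₂ x ^ (2 * ((m:ℝ) + 1) / ((m:ℝ) + 2))) ^ (((m:ℝ) + 2) / 2))) := by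
  obtain ⟨C, hC, hcen⟩ := centered m
  refine ⟨(2 ^ (m + 1)) ^ (m + 1) * C, by positivity, ?_⟩
  intro δ hδ hδ1
  have hL : 0 ≤ Real.log (1 / δ) := Real.log_nonneg (by rw [le_div_iff₀ hδ]; linarith)
  have e0 : ENNReal.ofReal ((2 ^ (m + 1)) ^ (m + 1) * C * (1 + Real.log (1 / δ)) ^ m) =
      ((2 : ℝ≥0∞) ^ (m + 1)) ^ (m + 1) * ENNReal.ofReal (C * (1 + Real.log (1 / δ)) ^ m) := by
    rw [mul_assoc, ENNReal.ofReal_mul (by positivity), ENNReal.ofReal_pow (by positivity),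
      ENNReal.ofReal_pow (by positivity)]
    simp
  rw [e0]
  constructor
  · intro g hg hg0 hgl hev hpd f hf
    calc _ ≤ ∫⁻ e : sphere (0 : V m) 1, ((2 : ℝ≥0∞) ^ (m + 1)) ^ (m + 1) *
          ((volume (T0 δ (e : V m)))⁻¹ * ∫⁻ y in D2 δ (e : V m), ENNReal.ofReal (g y)) ^ (m + 1)
          ∂(surf (m + 1)) := by
          apply lintegral_mono
          intro e
          simp only
          rw [← mul_pow]
          exact pow_le_pow_left' (pd_point δ hδ (e : V m) (by simp) hg hg0 hgl hev hpd f hf) _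
      _ = ((2 : ℝ≥0∞) ^ (m + 1)) ^ (m + 1) * ∫⁻ e : sphere (0 : V m) 1,
          ((volume (T0 δ (e : V m)))⁻¹ * ∫⁻ y in D2 δ (e : V m), ENNReal.ofReal (g y)) ^ (m + 1)
          ∂(surf (m + 1)) := lintegral_const_mul' _ _ (by finiteness)
      _ ≤ _ := by
          rw [mul_assoc]
          exact mul_le_mul' le_rfl (hcen δ hδ hδ1 _ hg.ennreal_ofReal)
  · intro h₁ h₂ hh₁ hh₂ f hf
    set X : (V m → ℝ≥0∞) → sphere (0 : V m) 1 → ℝ≥0∞ := fun F e =>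
      (volume (T0 δ (e : V m)))⁻¹ * ∫⁻ y in D2 δ (e : V m), F y with hX
    set M := ENNReal.ofReal (C * (1 + Real.log (1 / δ)) ^ m) with hM
    have hpt : ∀ e : sphere (0 : V m) 1, kakeyaMax δ f (e : V m) ^ (m + 1) ≤
        ((2 : ℝ≥0∞) ^ (m + 1)) ^ (m + 1) * ((X (AC h₁) e ^ (m + 1)) ^ (1 / 2 : ℝ) *
          (X (AC h₂) e ^ (m + 1)) ^ (1 / 2 : ℝ)) := by
      intro e
      have h := pow_le_pow_left' (cv_point δ hδ (e : V m) (by simp) hh₁ hh₂ f hf) (m + 1)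
      refine h.trans (le_of_eq ?_)
      rw [mul_pow, mul_pow]
      have e5 : ∀ x : ℝ≥0∞, (x ^ (1 / 2 : ℝ)) ^ (m + 1) = (x ^ (m + 1)) ^ (1 / 2 : ℝ) := by
        intro x
        rw [← ENNReal.rpow_natCast, ← ENNReal.rpow_mul, ← ENNReal.rpow_natCast,
          ← ENNReal.rpow_mul, mul_comm]
      rw [e5, e5]
    have hX1 : ∀ h : V m → ℝ≥0∞, Measurable h →
        (∫⁻ e, X (AC h) e ^ (m + 1) ∂(surf (m + 1))) ^ (1 / 2 : ℝ) ≤
        M ^ (1 / 2 : ℝ) * (∫⁻ x, h x ^ (2 * ((m:ℝ) + 1) / ((m:ℝ) + 2))) ^ (((m:ℝ) + 2) / 2) := by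
      intro h hh
      have h1 := (hcen δ hδ hδ1 _ (AC_meas hh)).trans (mul_le_mul' le_rfl (young hh m))
      have h2 := ENNReal.rpow_le_rpow h1 (by norm_num : (0:ℝ) ≤ 1 / 2)
      rw [ENNReal.mul_rpow_of_nonneg _ _ (by norm_num), ← ENNReal.rpow_natCast _ (m + 2),
        ← ENNReal.rpow_mul] at h2
      have e6 : ((m + 2 : ℕ) : ℝ) * (1 / 2) = ((m:ℝ) + 2) / 2 := by push_cast; ring
      rw [e6] at h2
      exact h2
    calc _ ≤ ∫⁻ e : sphere (0 : V m) 1, ((2 : ℝ≥0∞) ^ (m + 1)) ^ (m + 1) *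
          ((X (AC h₁) e ^ (m + 1)) ^ (1 / 2 : ℝ) *
          (X (AC h₂) e ^ (m + 1)) ^ (1 / 2 : ℝ)) ∂(surf (m + 1)) := lintegral_mono hpt
      _ = ((2 : ℝ≥0∞) ^ (m + 1)) ^ (m + 1) * ∫⁻ e : sphere (0 : V m) 1,
          ((X (AC h₁) e ^ (m + 1)) ^ (1 / 2 : ℝ) *
          (X (AC h₂) e ^ (m + 1)) ^ (1 / 2 : ℝ)) ∂(surf (m + 1)) :=
          lintegral_const_mul' _ _ (by finiteness)
      _ ≤ ((2 : ℝ≥0∞) ^ (m + 1)) ^ (m + 1) *
          ((∫⁻ e, X (AC h₁) e ^ (m + 1) ∂(surf (m + 1))) ^ (1 / 2 : ℝ) *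
          (∫⁻ e, X (AC h₂) e ^ (m + 1) ∂(surf (m + 1))) ^ (1 / 2 : ℝ)) := by
          refine mul_le_mul' le_rfl ?_
          exact ENNReal.lintegral_mul_norm_pow_le
            ((X_meas δ _ (AC_meas hh₁)).pow_const _).aemeasurable
            ((X_meas δ _ (AC_meas hh₂)).pow_const _).aemeasurable (by norm_num) (by norm_num)
            (by norm_num)
      _ ≤ ((2 : ℝ≥0∞) ^ (m + 1)) ^ (m + 1) *
          ((M ^ (1 / 2 : ℝ) * (∫⁻ x, h₁ x ^ (2 * ((m:ℝ) + 1) / ((m:ℝ) + 2))) ^ (((m:ℝ) + 2) / 2)) *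
          (M ^ (1 / 2 : ℝ) *
            (∫⁻ x, h₂ x ^ (2 * ((m:ℝ) + 1) / ((m:ℝ) + 2))) ^ (((m:ℝ) + 2) / 2))) :=
          mul_le_mul' le_rfl (mul_le_mul' (hX1 h₁ hh₁) (hX1 h₂ hh₂))
      _ = _ := by
          have e7 : M ^ (1 / 2 : ℝ) * M ^ (1 / 2 : ℝ) = M := by
            rw [← ENNReal.rpow_add_of_nonneg _ _ (by norm_num) (by norm_num)]
            norm_num
          nth_rewrite 3 [← e7]
          ring

end Run7.h750.PD
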