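import Pool.Agent.Run7.h750.PD4
set_option autoImplicit false
set_option linter.unusedSectionVars false

/-! Points in many additive quadruples. -/

namespace Run7.h750.PD

open MeasureTheory Set Metric Filter Topology
open scoped ENNReal NNReal Pointwise
open Pool.Agent.TH539 (tube surf kakeyaMax)

section

variable {E : Type*} [NormedAddCommGroup E] [NormedSpace ℝ E] [FiniteDimensional ℝ E]
  [MeasureSpace E] [BorelSpace E] [(volume : Measure E).IsAddHaarMeasure]

/-- the measure of the representations `x = b + c - a` -/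
noncomputable def quads (A : Set E) (x : E) : ℝ≥0∞ :=
  ((volume : Measure E).prod volume) {p | p.1 ∈ A ∧ p.2 ∈ A ∧ p.1 + p.2 - x ∈ A}

/-- `1_A * 1_A` -/
noncomputable def rr (A : Set E) (w : E) : ℝ≥0∞ :=
  ∫⁻ b, A.indicator 1 b * A.indicator 1 (w - b)

theorem rr_meas {A : Set E} (hA : MeasurableSet A) : Measurable (rr A) := by
  have hAi : Measurable (A.indicator (1 : E → ℝ≥0∞)) := measurable_one.indicator hA
  unfold rr
  apply Measurable.lintegral_prod_right'
    (f := fun p : E × E => A.indicator (1 : E → ℝ≥0∞) p.2 * A.indicator 1 (p.1 - p.2))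
  exact (hAi.comp measurable_snd).mul (hAi.comp (by fun_prop))

theorem rr_le {A : Set E} (hA : MeasurableSet A) (w : E) : rr A w ≤ volume A := by
  unfold rr
  calc _ ≤ ∫⁻ b, A.indicator (1 : E → ℝ≥0∞) b := by
        apply lintegral_mono
        intro b
        have : A.indicator (1 : E → ℝ≥0∞) (w - b) ≤ 1 :=
          indicator_le_self' (fun _ _ => zero_le) _
        calc _ ≤ A.indicator (1 : E → ℝ≥0∞) b * 1 := mul_le_mul' le_rfl this
          _ = _ := mul_one _
    _ = volume A := lintegral_indicator_one hA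

theorem rr_int {A : Set E} (hA : MeasurableSet A) : ∫⁻ w, rr A w = volume A * volume A := by
  have hAi : Measurable (A.indicator (1 : E → ℝ≥0∞)) := measurable_one.indicator hA
  unfold rr
  rw [lintegral_lintegral_swap (by
    have : Measurable fun p : E × E => A.indicator (1 : E → ℝ≥0∞) p.2 * A.indicator 1 (p.1 - p.2) :=
      (hAi.comp measurable_snd).mul (hAi.comp (by fun_prop))
    exact this.aemeasurable)]
  have e1 : ∀ b, ∫⁻ w, A.indicator (1 : E → ℝ≥0∞) b * A.indicator 1 (w - b) =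
      A.indicator 1 b * volume A := by
    intro b
    have hb : Measurable fun w => A.indicator (1 : E → ℝ≥0∞) (w - b) :=
      hAi.comp (measurable_sub_const b)
    rw [lintegral_const_mul _ hb, lintegral_sub_right_eq_self (A.indicator (1 : E → ℝ≥0∞)) b,
      lintegral_indicator_one hA]
  simp_rw [e1]
  rw [lintegral_mul_const _ hAi, lintegral_indicator_one hA]

theorem quads_eq {A : Set E} (hA : MeasurableSet A) (x : E) :
    quads A x = ∫⁻ w, A.indicator 1 (w - x) * rr A w := by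
  have hAi : Measurable (A.indicator (1 : E → ℝ≥0∞)) := measurable_one.indicator hA
  have hS : MeasurableSet {p : E × E | p.1 ∈ A ∧ p.2 ∈ A ∧ p.1 + p.2 - x ∈ A} := by
    refine (hA.preimage measurable_fst).inter ((hA.preimage measurable_snd).inter ?_)
    exact hA.preimage (by fun_prop : Measurable fun p : E × E => p.1 + p.2 - x)
  have e1 : ∀ w, A.indicator (1 : E → ℝ≥0∞) (w - x) * rr A w =
      ∫⁻ b, A.indicator 1 (w - x) * (A.indicator 1 b * A.indicator 1 (w - b)) := by
    intro w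
    unfold rr
    have : Measurable fun b => A.indicator (1 : E → ℝ≥0∞) b * A.indicator 1 (w - b) :=
      hAi.mul (hAi.comp (by fun_prop))
    rw [lintegral_const_mul _ this]
  simp_rw [e1]
  rw [lintegral_lintegral_swap (by
    have : Measurable fun p : E × E => A.indicator (1 : E → ℝ≥0∞) (p.1 - x) *
        (A.indicator 1 p.2 * A.indicator 1 (p.1 - p.2)) :=
      (hAi.comp (by fun_prop)).mul ((hAi.comp measurable_snd).mul (hAi.comp (by fun_prop)))
    exact this.aemeasurable)]
  unfold quads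
  rw [← lintegral_indicator_one hS, lintegral_prod _ (measurable_one.indicator hS).aemeasurable]
  apply lintegral_congr
  intro b
  conv_rhs => rw [← lintegral_add_right_eq_self _ b]
  apply lintegral_congr
  intro c
  rw [add_sub_cancel_right, add_comm c b]
  by_cases h1 : b ∈ A <;> by_cases h2 : c ∈ A <;> by_cases h3 : b + c - x ∈ A <;>
    simp [h1, h2, h3, indicator]

theorem quads_meas {A : Set E} (hA : MeasurableSet A) : Measurable (quads A) := by
  have hAi : Measurable (A.indicator (1 : E → ℝ≥0∞)) := measurable_one.indicator hA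
  have : quads A = fun x => ∫⁻ w, A.indicator 1 (w - x) * rr A w := funext (quads_eq hA)
  rw [this]
  apply Measurable.lintegral_prod_right'
    (f := fun p : E × E => A.indicator (1 : E → ℝ≥0∞) (p.2 - p.1) * rr A p.2)
  exact (hAi.comp (by fun_prop)).mul ((rr_meas hA).comp measurable_snd)

/-- `h₁` -/
noncomputable def q1 (A : Set E) (x : E) : ℝ≥0∞ := A.indicator 1 (-x)

/-- `h₂` -/
noncomputable def q2 (η : ℝ) (A : Set E) (x : E) : ℝ≥0∞ :=
  (ENNReal.ofReal η * volume A ^ 2)⁻¹ * rr A x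

theorem q1_meas {A : Set E} (hA : MeasurableSet A) : Measurable (q1 A) := by
  have hAi : Measurable (A.indicator (1 : E → ℝ≥0∞)) := measurable_one.indicator hA
  exact hAi.comp measurable_neg

theorem q2_meas (η : ℝ) {A : Set E} (hA : MeasurableSet A) : Measurable (q2 η A) :=
  (rr_meas hA).const_mul _

theorem CV_q {η : ℝ} {A : Set E} (hA : MeasurableSet A) (x : E) :
    CV (q1 A) (q2 η A) x = (ENNReal.ofReal η * volume A ^ 2)⁻¹ * quads A x := by
  have hAi : Measurable (A.indicator (1 : E → ℝ≥0∞)) := measurable_one.indicator hA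
  have hmm : Measurable fun w : E => A.indicator (1 : E → ℝ≥0∞) (w - x) * rr A w :=
    (hAi.comp (measurable_sub_const x)).mul (rr_meas hA)
  rw [quads_eq hA, ← lintegral_const_mul _ hmm]
  unfold CV q1 q2
  apply lintegral_congr
  intro w
  rw [neg_sub]
  ring

theorem q1_int {A : Set E} (hA : MeasurableSet A) (p : ℝ) (hp : 0 < p) :
    ∫⁻ x, q1 A x ^ p = volume A := by
  have h1 : ∀ x, q1 A x ^ p = q1 A x := by
    intro x
    unfold q1
    by_cases h : -x ∈ A
    · rw [indicator_of_mem h]; simp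
    · rw [indicator_of_notMem h, ENNReal.zero_rpow_of_pos hp]
  simp_rw [h1]
  unfold q1
  rw [lintegral_neg_eq_self (fun x => A.indicator (1 : E → ℝ≥0∞) x), lintegral_indicator_one hA]

theorem q2_int {η : ℝ} (hη : 0 < η) {A : Set E} (hA : MeasurableSet A) (h0 : volume A ≠ 0)
    (ht : volume A ≠ ∞) (p : ℝ) (hp : 1 ≤ p) :
    ∫⁻ x, q2 η A x ^ p ≤ ENNReal.ofReal (η ^ (-p) * (volume A).toReal ^ (1 - p)) := by
  set a : ℝ := (volume A).toReal with ha
  have hap : 0 < a := ENNReal.toReal_pos h0 ht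
  have hav : volume A = ENNReal.ofReal a := (ENNReal.ofReal_toReal ht).symm
  have h1 : ∀ x, q2 η A x ^ p ≤ ENNReal.ofReal ((η * a ^ 2) ^ (-p) * a ^ (p - 1)) * rr A x := by
    intro x
    unfold q2
    rw [ENNReal.mul_rpow_of_nonneg _ _ (by linarith)]
    have h2 : rr A x ^ p ≤ ENNReal.ofReal (a ^ (p - 1)) * rr A x := by
      calc rr A x ^ p = rr A x ^ (p - 1) * rr A x := by
            conv_rhs => rw [← ENNReal.rpow_one (rr A x), ← ENNReal.rpow_mul, one_mul]
            rw [← ENNReal.rpow_add_of_nonneg _ _ (by linarith) (by norm_num)]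
            congr 1; ring
        _ ≤ volume A ^ (p - 1) * rr A x :=
            mul_le_mul' (ENNReal.rpow_le_rpow (rr_le hA x) (by linarith)) le_rfl
        _ = _ := by rw [hav, ENNReal.ofReal_rpow_of_pos hap]
    have h3 : ((ENNReal.ofReal η * volume A ^ 2)⁻¹) ^ p = ENNReal.ofReal ((η * a ^ 2) ^ (-p)) := by
      rw [hav, ← ENNReal.ofReal_pow hap.le, ← ENNReal.ofReal_mul hη.le,
        ← ENNReal.ofReal_inv_of_pos (by positivity), ENNReal.ofReal_rpow_of_pos (by positivity),
        Real.inv_rpow (by positivity), Real.rpow_neg (by positivity)]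
    rw [h3]
    refine (mul_le_mul' le_rfl h2).trans (le_of_eq ?_)
    rw [← mul_assoc, ← ENNReal.ofReal_mul (by positivity)]
  calc _ ≤ ∫⁻ x, ENNReal.ofReal ((η * a ^ 2) ^ (-p) * a ^ (p - 1)) * rr A x := lintegral_mono h1
    _ = ENNReal.ofReal ((η * a ^ 2) ^ (-p) * a ^ (p - 1)) * (volume A * volume A) := by
        rw [lintegral_const_mul _ (rr_meas hA), rr_int hA]
    _ = _ := by
        rw [hav, ← ENNReal.ofReal_mul hap.le, ← ENNReal.ofReal_mul (by positivity)]
        congr 1
        rw [Real.mul_rpow hη.le (by positivity), ← Real.rpow_natCast a 2, ← Real.rpow_mul hap.le]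
        have e1 : a * a = a ^ (2:ℝ) := by rw [← sq, ← Real.rpow_natCast]; norm_num
        rw [e1, mul_assoc, mul_assoc, ← Real.rpow_add hap, ← Real.rpow_add hap]
        congr 2
        push_cast
        ring

end

theorem quad_final (m : ℕ) (δ : ℝ) (B : ℝ≥0∞)
    (hB : ∀ h₁ h₂ : V m → ℝ≥0∞, Measurable h₁ → Measurable h₂ → ∀ f : V m → ℝ,
      (∀ᵐ x, ‖f x‖ₑ ≤ CV h₁ h₂ x) →
      ∫⁻ e : sphere (0 : V m) 1, kakeyaMax δ f (e : V m) ^ (m + 1) ∂(surf (m + 1)) ≤ B *
        ((∫⁻ x, h₁ x ^ (2 * ((m:ℝ) + 1) / ((m:ℝ) + 2))) ^ (((m:ℝ) + 2) / 2) *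
        (∫⁻ x, h₂ x ^ (2 * ((m:ℝ) + 1) / ((m:ℝ) + 2))) ^ (((m:ℝ) + 2) / 2)))
    (A : Set (V m)) (hA : MeasurableSet A) (h0 : volume A ≠ 0) (ht : volume A ≠ ∞)
    (η : ℝ) (hη : 0 < η) :
    ∫⁻ e : sphere (0 : V m) 1, kakeyaMax δ
      ({x : V m | ENNReal.ofReal η * volume A ^ 2 ≤ quads A x}.indicator 1) (e : V m) ^ (m + 1)
        ∂(surf (m + 1)) ≤ B * (ENNReal.ofReal (η⁻¹ ^ (m + 1)) * volume A) := by
  have hm2 : (0:ℝ) < (m:ℝ) + 2 := by positivity
  set p : ℝ := 2 * ((m:ℝ) + 1) / ((m:ℝ) + 2) with hp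
  have hp1 : 1 ≤ p := by
    rw [hp, le_div_iff₀ hm2]
    linarith [(Nat.cast_nonneg m : (0:ℝ) ≤ m)]
  have hd0 : ENNReal.ofReal η * volume A ^ 2 ≠ 0 :=
    mul_ne_zero (ENNReal.ofReal_pos.2 hη).ne' (pow_ne_zero _ h0)
  have hdt : ENNReal.ofReal η * volume A ^ 2 ≠ ∞ := by finiteness
  refine (hB (q1 A) (q2 η A) (q1_meas hA) (q2_meas η hA) _
    (Filter.Eventually.of_forall fun x => ?_)).trans (mul_le_mul' le_rfl ?_)
  · rw [CV_q hA]
    by_cases hx : x ∈ {x : V m | ENNReal.ofReal η * volume A ^ 2 ≤ quads A x}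
    · rw [indicator_of_mem hx]
      have hx' : ENNReal.ofReal η * volume A ^ 2 ≤ quads A x := hx
      simp only [Pi.one_apply, enorm_one]
      calc (1 : ℝ≥0∞) = (ENNReal.ofReal η * volume A ^ 2)⁻¹ * (ENNReal.ofReal η * volume A ^ 2) :=
            (ENNReal.inv_mul_cancel hd0 hdt).symm
        _ ≤ _ := mul_le_mul' le_rfl hx'
    · rw [indicator_of_notMem hx]
      simp
  · rw [q1_int hA p (by linarith)]
    set a : ℝ := (volume A).toReal with ha
    have hap : 0 < a := ENNReal.toReal_pos h0 ht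
    have hav : volume A = ENNReal.ofReal a := (ENNReal.ofReal_toReal ht).symm
    have h1 := ENNReal.rpow_le_rpow (q2_int hη hA h0 ht p hp1)
      (by positivity : (0:ℝ) ≤ ((m:ℝ) + 2) / 2)
    refine (mul_le_mul' le_rfl h1).trans (le_of_eq ?_)
    rw [← ha, hav, ENNReal.ofReal_rpow_of_pos hap, ENNReal.ofReal_rpow_of_pos (by positivity),
      ← ENNReal.ofReal_mul (by positivity), ← ENNReal.ofReal_mul (by positivity)]
    congr 1
    rw [Real.mul_rpow (by positivity) (by positivity), ← Real.rpow_mul hη.le,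
      ← Real.rpow_mul hap.le]
    have e1 : -p * (((m:ℝ) + 2) / 2) = -((m + 1 : ℕ) : ℝ) := by
      rw [hp]; push_cast; field_simp
    have e2 : (1 - p) * (((m:ℝ) + 2) / 2) = 1 - ((m:ℝ) + 2) / 2 := by
      rw [hp]; field_simp; ring
    rw [e1, e2, Real.rpow_neg hη.le, Real.rpow_natCast, inv_pow]
    calc a ^ (((m:ℝ) + 2) / 2) * ((η ^ (m + 1))⁻¹ * a ^ (1 - ((m:ℝ) + 2) / 2))
        = (η ^ (m + 1))⁻¹ * (a ^ (((m:ℝ) + 2) / 2) * a ^ (1 - ((m:ℝ) + 2) / 2)) := by ring
      _ = _ := by
          rw [← Real.rpow_add hap]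
          norm_num

end Run7.h750.PD
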