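import Mathlib
import Pool.Agent.TH539.Cap
set_option autoImplicit false
set_option linter.unusedSectionVars false

/-! Geometry of tubes and of sections of tubes. -/

namespace Run7.h750.RS

open MeasureTheory Set Metric
open scoped ENNReal NNReal Pointwise

abbrev V (n : ℕ) := EuclideanSpace ℝ (Fin n)

/-- tube -/
def tube {n : ℕ} (δ : ℝ) (a e : V n) : Set (V n) :=
  {y | |inner ℝ (y - a) e| ≤ 1 / 2 ∧ ‖(y - a) - (inner ℝ (y - a) e : ℝ) • e‖ ≤ δ}

theorem tube_closed {n : ℕ} (δ : ℝ) (a e : V n) : IsClosed (tube δ a e) := by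
  have h1 : Continuous fun y : V n => |inner ℝ (y - a) e| := by fun_prop
  have h2 : Continuous fun y : V n => ‖(y - a) - (inner ℝ (y - a) e : ℝ) • e‖ := by fun_prop
  exact (isClosed_le h1 continuous_const).inter (isClosed_le h2 continuous_const)

theorem tube_meas {n : ℕ} (δ : ℝ) (a e : V n) : MeasurableSet (tube δ a e) :=
  (tube_closed δ a e).measurableSet

theorem norm_perp_le {n : ℕ} {w e : V n} (he : ‖e‖ = 1) (t : ℝ) :
    ‖w - (inner ℝ w e : ℝ) • e‖ ≤ ‖w - t • e‖ := by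
  have h : ∀ r : ℝ, ‖w - r • e‖ ^ 2 = ‖w‖ ^ 2 - 2 * (r * inner ℝ w e) + r ^ 2 := by
    intro r
    rw [norm_sub_sq_real, inner_smul_right, norm_smul, he, mul_one, Real.norm_eq_abs, sq_abs]
  have h1 := h (inner ℝ w e)
  have h2 := h t
  have h3 : ‖w - (inner ℝ w e : ℝ) • e‖ ^ 2 ≤ ‖w - t • e‖ ^ 2 := by
    rw [h1, h2]
    nlinarith [sq_nonneg (t - inner ℝ w e)]
  exact (pow_le_pow_iff_left₀ (norm_nonneg _) (norm_nonneg _) (by norm_num)).1 h3

/-- the volume of a cylinder over a set of heights -/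
theorem vol_cyl {m : ℕ} (v a : V (m + 1)) (hv : ‖v‖ = 1) (I : Set ℝ) (hI : MeasurableSet I)
    (β : ℝ) (hβ : 0 ≤ β) :
    volume {y : V (m + 1) | (inner ℝ (y - a) v : ℝ) ∈ I ∧
      ‖(y - a) - (inner ℝ (y - a) v : ℝ) • v‖ ≤ β} ≤ volume I * ENNReal.ofReal ((2 * β) ^ m) := by
  have hon : Orthonormal ℝ (({0} : Set (Fin (m + 1))).domRestrict (fun _ => v)) := by
    rw [orthonormal_iff_ite]
    rintro ⟨i, hi⟩ ⟨j, hj⟩
    simp only [mem_singleton_iff] at hi hj
    subst hi; subst hj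
    change (inner ℝ v v : ℝ) = _
    rw [real_inner_self_eq_norm_sq, hv]
    simp
  obtain ⟨b, hb⟩ := hon.exists_orthonormalBasis_extension_of_card_eq (by simp)
  have hb0 : b 0 = v := hb 0 rfl
  set r : Fin (m + 1) → Set ℝ := Fin.cons I (fun _ => Icc (-β) β) with hr
  set B : Set (Fin (m + 1) → ℝ) := Set.pi univ r with hB
  have hBm : MeasurableSet B := MeasurableSet.univ_pi (fun i => by
    refine Fin.cases ?_ (fun j => ?_) i
    · simpa [hr] using hI
    · simp [hr])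
  have hvolB : volume B = volume I * ENNReal.ofReal ((2 * β) ^ m) := by
    rw [hB, volume_pi_pi, Fin.prod_univ_succ]
    simp only [hr, Fin.cons_zero, Fin.cons_succ, Real.volume_Icc, Finset.prod_const,
      Finset.card_univ, Fintype.card_fin]
    rw [← ENNReal.ofReal_pow (by linarith)]
    congr 3
    ring
  have hmp : MeasurePreserving (fun y : V (m + 1) =>
      (b.repr (y - a)).ofLp) volume volume := by
    have h1 : MeasurePreserving (fun y : V (m + 1) => y - a) volume volume :=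
      measurePreserving_sub_right volume a
    have h2 := b.measurePreserving_repr
    have h3 := PiLp.volume_preserving_ofLp (Fin (m + 1))
    exact h3.comp (h2.comp h1)
  rw [← hvolB, ← hmp.measure_preimage hBm.nullMeasurableSet]
  apply measure_mono
  rintro y ⟨h1, h2⟩
  simp only [mem_preimage, hB, mem_univ_pi]
  set w := y - a with hw
  have hv0 : (inner ℝ w v : ℝ) = b.repr w 0 := by
    rw [b.repr_apply_apply, hb0, real_inner_comm]
  intro i
  refine Fin.cases ?_ (fun j => ?_) i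
  · rw [← hv0]; simpa [hr] using h1
  · have h3 : b.repr w j.succ = inner ℝ (b j.succ) (w - (inner ℝ w v : ℝ) • v) := by
      rw [inner_sub_right, inner_smul_right, ← hb0, b.inner_eq_zero (Fin.succ_ne_zero j), mul_zero,
        sub_zero, b.repr_apply_apply]
    simp only [hr, Fin.cons_succ, mem_Icc]
    rw [← abs_le, h3]
    refine (abs_real_inner_le_norm _ _).trans ?_
    rw [b.norm_eq_one, one_mul]
    exact h2

theorem vol_tube_le {m : ℕ} (δ : ℝ) (hδ : 0 < δ) (a e : V (m + 1)) (he : ‖e‖ = 1) :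
    volume (tube δ a e) ≤ ENNReal.ofReal ((2 * δ) ^ m) := by
  have h := vol_cyl e a he (Icc (-(1 / 2)) (1 / 2)) measurableSet_Icc δ hδ.le
  rw [Real.volume_Icc] at h
  have e1 : ENNReal.ofReal (1 / 2 - -(1 / 2)) = 1 := by norm_num
  rw [e1, one_mul] at h
  refine le_trans (measure_mono ?_) h
  rintro y ⟨h1, h2⟩
  exact ⟨abs_le.1 h1, h2⟩

/-- the intersection with a slab -/
theorem vol_slab {m : ℕ} (δ : ℝ) (hδ : 0 < δ) (a b e ν : V (m + 1)) (he : ‖e‖ = 1)
    (hν : ‖ν‖ = 1) :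
    volume (tube δ a e ∩ {y | |inner ℝ (y - b) ν| ≤ δ}) ≤
      ENNReal.ofReal (5 * δ / (|inner ℝ e ν| + δ) * (2 * δ) ^ m) := by
  set τ : ℝ := inner ℝ e ν with hτ
  set c : ℝ := inner ℝ (a - b) ν with hc
  set I : Set ℝ := Icc (-(1 / 2)) (1 / 2) ∩ {s | |s * τ + c| ≤ 2 * δ} with hI
  have hIm : MeasurableSet I := by
    apply measurableSet_Icc.inter
    exact (isClosed_le (by fun_prop : Continuous fun s : ℝ => |s * τ + c|)
      continuous_const).measurableSet
  have hIv : volume I ≤ ENNReal.ofReal (5 * δ / (|τ| + δ)) := by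
    rcases le_or_gt |τ| (4 * δ) with h | h
    · calc volume I ≤ volume (Icc (-(1 / 2) : ℝ) (1 / 2)) := measure_mono inter_subset_left
        _ = 1 := by rw [Real.volume_Icc]; norm_num
        _ = ENNReal.ofReal 1 := ENNReal.ofReal_one.symm
        _ ≤ _ := by
          apply ENNReal.ofReal_le_ofReal
          rw [le_div_iff₀ (by positivity)]
          linarith
    · have hτ0 : 0 < |τ| := by linarith
      have hsub : I ⊆ Icc (-c / τ - 2 * δ / |τ|) (-c / τ + 2 * δ / |τ|) := by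
        rintro s ⟨_, hs⟩
        have hs' : |s * τ + c| ≤ 2 * δ := hs
        have hτn : τ ≠ 0 := abs_pos.1 hτ0
        have h1 : |s - -c / τ| ≤ 2 * δ / |τ| := by
          have e1 : s - -c / τ = (s * τ + c) / τ := by field_simp; ring
          rw [e1, abs_div]
          exact div_le_div_of_nonneg_right hs' hτ0.le
        rw [abs_le] at h1
        exact ⟨by linarith [h1.1], by linarith [h1.2]⟩
      refine (measure_mono hsub).trans ?_
      rw [Real.volume_Icc]
      apply ENNReal.ofReal_le_ofReal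
      have e2 : -c / τ + 2 * δ / |τ| - (-c / τ - 2 * δ / |τ|) = 4 * δ / |τ| := by ring
      rw [e2, div_le_div_iff₀ hτ0 (by positivity)]
      nlinarith
  have h := vol_cyl e a he I hIm δ hδ.le
  refine le_trans (measure_mono ?_) (h.trans ?_)
  · rintro y ⟨⟨h1, h2⟩, h3⟩
    have h3' : |inner ℝ (y - b) ν| ≤ δ := h3
    refine ⟨⟨abs_le.1 h1, ?_⟩, h2⟩
    show |inner ℝ (y - a) e * τ + c| ≤ 2 * δ
    have e3 : inner ℝ (y - a) e * τ + c = inner ℝ (y - b) ν -
        inner ℝ ((y - a) - (inner ℝ (y - a) e : ℝ) • e) ν := by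
      rw [hτ, hc, inner_sub_left (y - a), inner_smul_left, conj_trivial]
      have : y - b = (y - a) + (a - b) := by abel
      rw [this, inner_add_left]
      ring
    rw [e3]
    have h4 : |inner ℝ ((y - a) - (inner ℝ (y - a) e : ℝ) • e) ν| ≤ δ := by
      refine (abs_real_inner_le_norm _ _).trans ?_
      rw [hν, mul_one]
      exact h2
    calc _ ≤ |inner ℝ (y - b) ν| + |inner ℝ ((y - a) - (inner ℝ (y - a) e : ℝ) • e) ν| :=
          abs_sub _ _
      _ ≤ 2 * δ := by linarith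
  · rw [ENNReal.ofReal_mul (by positivity)]
    exact mul_le_mul' hIv le_rfl

variable {m : ℕ}

/-- the component orthogonal to the range of an isometry -/
noncomputable def perp (J : V (m + 1) →ₗᵢ[ℝ] V (m + 3)) (x : V (m + 3)) : V (m + 3) :=
  x - J ((J.toContinuousLinearMap.adjoint) x)

theorem adj (J : V (m + 1) →ₗᵢ[ℝ] V (m + 3)) (x : V (m + 3)) (z : V (m + 1)) :
    (inner ℝ (J z) x : ℝ) = inner ℝ z ((J.toContinuousLinearMap.adjoint) x) := by
  rw [ContinuousLinearMap.adjoint_inner_right]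
  rfl

theorem perp_orth (J : V (m + 1) →ₗᵢ[ℝ] V (m + 3)) (x : V (m + 3)) (z : V (m + 1)) :
    (inner ℝ (J z) (perp J x) : ℝ) = 0 := by
  unfold perp
  rw [inner_sub_right, adj, LinearIsometry.inner_map_map, sub_self]

set_option maxHeartbeats 2000000 in
/-- the volume of the section of a tube by a translate of the range -/
theorem vol_section (J : V (m + 1) →ₗᵢ[ℝ] V (m + 3)) (δ : ℝ) (hδ : 0 < δ) (hδ1 : δ < 1)
    (a e x : V (m + 3)) (he : ‖e‖ = 1) :
    volume {z : V (m + 1) | x - J z ∈ tube δ a e} ≤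
      ENNReal.ofReal (12 * 4 ^ m * δ ^ (m + 1) / (‖perp J e‖ + δ)) := by
  rcases eq_empty_or_nonempty {z : V (m + 1) | x - J z ∈ tube δ a e} with h0 | ⟨z0, hz0⟩
  · rw [h0]; simp
  set e' : V (m + 1) := (J.toContinuousLinearMap.adjoint) e with he'
  set p := perp J e with hp
  set ρ := ‖p‖ with hρ
  have hρ0 : 0 ≤ ρ := norm_nonneg _
  have hee : e = J e' + p := by rw [hp]; unfold perp; abel
  have hsq : ∀ (D : V (m + 1)) (s : ℝ), ‖J D - s • e‖ ^ 2 = ‖D - s • e'‖ ^ 2 + s ^ 2 * ρ ^ 2 := by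
    intro D s
    have e1 : J D - s • e = J (D - s • e') - s • p := by
      rw [hee, map_sub, map_smul]; module
    rw [e1, norm_sub_sq_real, inner_smul_right, perp_orth, LinearIsometry.norm_map, norm_smul,
      mul_pow, Real.norm_eq_abs, sq_abs]
    ring
  have h1 : 1 = ‖e'‖ ^ 2 + ρ ^ 2 := by
    have := hsq 0 (-1)
    rw [map_zero] at this
    simp only [neg_smul, one_smul, zero_sub, neg_neg] at this
    rw [he] at this
    linarith
  have hρ1 : ρ ≤ 1 := by nlinarith [sq_nonneg ‖e'‖]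
  obtain ⟨v, hv, hve⟩ : ∃ v : V (m + 1), ‖v‖ = 1 ∧ e' = ‖e'‖ • v := by
    by_cases h : e' = 0
    · refine ⟨EuclideanSpace.single 0 1, by simp, by rw [h]; simp⟩
    · have : 0 < ‖e'‖ := norm_pos_iff.2 h
      refine ⟨‖e'‖⁻¹ • e', ?_, ?_⟩
      · rw [norm_smul, norm_inv, norm_norm, inv_mul_cancel₀ this.ne']
      · rw [smul_smul, mul_inv_cancel₀ this.ne', one_smul]
  set α := 6 * δ / (ρ + δ) with hα
  have hα0 : 0 < α := by positivity
  have hcyl := vol_cyl v z0 hv (Icc (-α) α) measurableSet_Icc (2 * δ) (by positivity)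
  have hfin : volume (Icc (-α) α) * ENNReal.ofReal ((2 * (2 * δ)) ^ m) =
      ENNReal.ofReal (12 * 4 ^ m * δ ^ (m + 1) / (ρ + δ)) := by
    rw [Real.volume_Icc, ← ENNReal.ofReal_mul (by linarith)]
    congr 1
    have e4 : (2 * (2 * δ)) ^ m = 4 ^ m * δ ^ m := by rw [← mul_pow]; congr 1; ring
    rw [e4, hα, pow_succ]
    ring
  rw [← hfin]
  refine le_trans (measure_mono ?_) hcyl
  intro z hz
  have hz1 : |inner ℝ (x - J z - a) e| ≤ 1 / 2 ∧
      ‖(x - J z - a) - (inner ℝ (x - J z - a) e : ℝ) • e‖ ≤ δ := hz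
  have hz2 : |inner ℝ (x - J z0 - a) e| ≤ 1 / 2 ∧
      ‖(x - J z0 - a) - (inner ℝ (x - J z0 - a) e : ℝ) • e‖ ≤ δ := hz0
  set D := z - z0 with hD
  have hJD : J D = (x - J z0 - a) - (x - J z - a) := by rw [hD, map_sub]; abel
  set s : ℝ := inner ℝ (J D) e with hs
  have hs1 : |s| ≤ 1 := by
    rw [hs, hJD, inner_sub_left]
    calc _ ≤ |inner ℝ (x - J z0 - a) e| + |inner ℝ (x - J z - a) e| := abs_sub _ _
      _ ≤ 1 := by linarith [hz1.1, hz2.1]
  have hs2 : ‖J D - s • e‖ ≤ 2 * δ := by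
    have e2 : J D - s • e = ((x - J z0 - a) - (inner ℝ (x - J z0 - a) e : ℝ) • e) -
        ((x - J z - a) - (inner ℝ (x - J z - a) e : ℝ) • e) := by
      rw [hs, hJD, inner_sub_left]; module
    rw [e2]
    calc _ ≤ _ := norm_sub_le _ _
      _ ≤ 2 * δ := by linarith [hz1.2, hz2.2]
  have hsD : s = inner ℝ D e' := by rw [hs, adj]
  have h2 : ‖D - s • e'‖ ^ 2 + s ^ 2 * ρ ^ 2 ≤ (2 * δ) ^ 2 := by
    rw [← hsq]; exact pow_le_pow_left₀ (norm_nonneg _) hs2 2
  have h3 : ‖D - s • e'‖ ≤ 2 * δ := by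
    apply le_of_sq_le_sq _ (by positivity)
    nlinarith [mul_nonneg (sq_nonneg s) (sq_nonneg ρ)]
  have h4 : |s| * ρ ≤ 2 * δ := by
    apply le_of_sq_le_sq _ (by positivity)
    rw [mul_pow, sq_abs]
    nlinarith [sq_nonneg ‖D - s • e'‖]
  have h5 : |s| * (ρ + δ) ≤ 3 * δ := by nlinarith
  refine ⟨?_, ?_⟩
  · have h6 : |(inner ℝ D v : ℝ)| ≤ α := by
      rw [hα, le_div_iff₀ (by positivity)]
      rcases le_or_gt (1 / 2) ‖e'‖ with h | h
      · have h7 : |s| = ‖e'‖ * |(inner ℝ D v : ℝ)| := by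
          rw [hsD]
          nth_rewrite 1 [hve]
          rw [inner_smul_right, abs_mul, abs_of_nonneg (norm_nonneg _)]
        have h8 : |(inner ℝ D v : ℝ)| ≤ 2 * |s| := by
          rw [h7]; nlinarith [abs_nonneg (inner ℝ D v : ℝ)]
        have : |(inner ℝ D v : ℝ)| * (ρ + δ) ≤ 2 * |s| * (ρ + δ) := by gcongr
        linarith
      · have h7 : |s| ≤ ‖D‖ * ‖e'‖ := by rw [hsD]; exact abs_real_inner_le_norm _ _
        have h8 : ‖D‖ ≤ ‖D - s • e'‖ + |s| * ‖e'‖ := by
          calc ‖D‖ = ‖(D - s • e') + s • e'‖ := by congr 1; abel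
            _ ≤ _ := by
              refine (norm_add_le _ _).trans ?_
              rw [norm_smul, Real.norm_eq_abs]
        have h9 : |s| * ‖e'‖ ≤ ‖D‖ / 4 := by
          have : |s| * ‖e'‖ ≤ ‖D‖ * ‖e'‖ * ‖e'‖ := by gcongr
          have h10 : ‖e'‖ * ‖e'‖ ≤ 1 / 4 := by nlinarith [norm_nonneg e']
          nlinarith [norm_nonneg D]
        have h10 : ‖D‖ ≤ 3 * δ := by linarith
        have h11 : |(inner ℝ D v : ℝ)| ≤ ‖D‖ := by
          have := abs_real_inner_le_norm D v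
          rwa [hv, mul_one] at this
        nlinarith [abs_nonneg (inner ℝ D v : ℝ)]
    exact abs_le.1 h6
  · have h7 := norm_perp_le (w := D) hv (s * ‖e'‖)
    refine h7.trans ?_
    have : (s * ‖e'‖) • v = s • e' := by
      nth_rewrite 2 [hve]
      rw [smul_smul]
    rw [this]
    exact h3

/-- an orthonormal pair in the orthogonal complement of the range, the second vector is orthogonal
to `e` -/
theorem exists_pair (J : V (m + 1) →ₗᵢ[ℝ] V (m + 3)) (e : V (m + 3)) :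
    ∃ μ ν : V (m + 3), ‖μ‖ = 1 ∧ ‖ν‖ = 1 ∧ (inner ℝ μ ν : ℝ) = 0 ∧
      (∀ z, (inner ℝ (J z) μ : ℝ) = 0) ∧ (∀ z, (inner ℝ (J z) ν : ℝ) = 0) ∧
      (inner ℝ e ν : ℝ) = 0 := by
  set W := LinearMap.range J.toLinearMap with hW
  set U := Wᗮ with hU
  have hdim : Module.finrank ℝ U = 2 := by
    have h1 := W.finrank_add_finrank_orthogonal
    have h2 : Module.finrank ℝ W = m + 1 := by
      rw [hW, LinearMap.finrank_range_of_inj J.injective]; simp
    rw [h2] at h1
    simp only [finrank_euclideanSpace_fin] at h1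
    rw [← hU] at h1
    omega
  have hpU : perp J e ∈ U := by
    rw [hU, Submodule.mem_orthogonal]
    rintro u ⟨z, rfl⟩
    exact perp_orth J e z
  obtain ⟨b, hb⟩ : ∃ b : OrthonormalBasis (Fin 2) ℝ U,
      (inner ℝ (⟨perp J e, hpU⟩ : U) (b 1) : ℝ) = 0 := by
    by_cases h : (⟨perp J e, hpU⟩ : U) = 0
    · refine ⟨(stdOrthonormalBasis ℝ U).reindex (finCongr hdim), ?_⟩
      rw [h, inner_zero_left]
    · set q : U := ⟨perp J e, hpU⟩ with hq
      have hq0 : 0 < ‖q‖ := norm_pos_iff.2 h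
      have hon : Orthonormal ℝ (({0} : Set (Fin 2)).domRestrict (fun _ => ‖q‖⁻¹ • q)) := by
        rw [orthonormal_iff_ite]
        rintro ⟨i, hi⟩ ⟨j, hj⟩
        simp only [mem_singleton_iff] at hi hj
        subst hi; subst hj
        change (inner ℝ (‖q‖⁻¹ • q) (‖q‖⁻¹ • q) : ℝ) = _
        rw [real_inner_self_eq_norm_sq, norm_smul, norm_inv, norm_norm, inv_mul_cancel₀ hq0.ne']
        simp
      obtain ⟨b, hb⟩ := hon.exists_orthonormalBasis_extension_of_card_eq (by simp [hdim])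
      refine ⟨b, ?_⟩
      have hb0 : b 0 = ‖q‖⁻¹ • q := hb 0 rfl
      have hq2 : q = ‖q‖ • b 0 := by
        rw [hb0, smul_smul, mul_inv_cancel₀ hq0.ne', one_smul]
      rw [hq2, inner_smul_left, b.inner_eq_zero (by norm_num : (0 : Fin 2) ≠ 1), mul_zero]
  have horth : ∀ (u : U) (z : V (m + 1)), (inner ℝ (J z) (u : V (m + 3)) : ℝ) = 0 := by
    intro u z
    exact (Submodule.mem_orthogonal W _).1 u.2 (J z) ⟨z, rfl⟩
  refine ⟨(b 0 : U), (b 1 : U), ?_, ?_, ?_, horth _, horth _, ?_⟩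
  · exact b.norm_eq_one 0
  · exact b.norm_eq_one 1
  · exact b.inner_eq_zero (by norm_num : (0 : Fin 2) ≠ 1)
  · have h1 : (inner ℝ (perp J e) ((b 1 : U) : V (m + 3)) : ℝ) = 0 := hb
    have h2 : e = perp J e + J ((J.toContinuousLinearMap.adjoint) e) := by unfold perp; abel
    rw [h2, inner_add_left, h1, horth, add_zero]

theorem inner_le_perp (J : V (m + 1) →ₗᵢ[ℝ] V (m + 3)) (x μ : V (m + 3)) (hμ : ‖μ‖ = 1)
    (horth : ∀ z, (inner ℝ (J z) μ : ℝ) = 0) : |(inner ℝ x μ : ℝ)| ≤ ‖perp J x‖ := by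
  have h2 : x = perp J x + J ((J.toContinuousLinearMap.adjoint) x) := by unfold perp; abel
  have h3 : (inner ℝ x μ : ℝ) = inner ℝ (perp J x) μ := by
    nth_rewrite 1 [h2]
    rw [inner_add_left, horth, add_zero]
  rw [h3]
  refine (abs_real_inner_le_norm _ _).trans ?_
  rw [hμ, mul_one]

end Run7.h750.RS
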