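import Pool.Agent.Run7.h750.RS1
import Pool.Agent.R462.KC.Polar
set_option autoImplicit false
set_option linter.unusedSectionVars false

/-! Sums over separated directions. -/

namespace Run7.h750.RS

open MeasureTheory Set Metric
open scoped ENNReal NNReal Pointwise

/-- truncated kernel -/
noncomputable def hh (δ b : ℝ) (a : ℝ) : ℝ≥0∞ :=
  (Icc (-b) b).indicator (fun a => ENNReal.ofReal (1 / (|a| + δ))) a

theorem hh_meas (δ b : ℝ) : Measurable (hh δ b) := by
  unfold hh
  exact Measurable.indicator (by fun_prop) measurableSet_Icc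

theorem hh_int (δ b : ℝ) (hδ : 0 < δ) (hb : 0 ≤ b) :
    ∫⁻ a, hh δ b a ≤ ENNReal.ofReal (2 * Real.log (1 + b / δ)) := by
  set g : ℝ → ℝ≥0∞ := (Icc 0 b).indicator (fun a => ENNReal.ofReal ((δ + a)⁻¹)) with hg
  have hgm : Measurable g := Measurable.indicator (by fun_prop) measurableSet_Icc
  have h1 : ∀ a, hh δ b a ≤ g a + g (-a) := by
    intro a
    unfold hh
    by_cases ha : a ∈ Icc (-b) b
    · rw [indicator_of_mem ha]
      rcases le_total 0 a with h | h
      · refine le_trans (le_of_eq ?_) le_self_add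
        rw [hg, indicator_of_mem (show a ∈ Icc 0 b from ⟨h, ha.2⟩), abs_of_nonneg h, one_div,
          add_comm]
      · refine le_trans (le_of_eq ?_) le_add_self
        rw [hg, indicator_of_mem (show -a ∈ Icc 0 b from ⟨by linarith, by linarith [ha.1]⟩),
          abs_of_nonpos h, one_div, add_comm]
    · rw [indicator_of_notMem ha]; exact zero_le
  have h2 : ∫⁻ a, g a ≤ ENNReal.ofReal (Real.log (1 + b / δ)) := by
    rw [hg, lintegral_indicator measurableSet_Icc]
    have hI : IntervalIntegrable (fun τ : ℝ => (δ + τ)⁻¹) volume 0 b := by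
      apply ContinuousOn.intervalIntegrable
      apply ContinuousOn.inv₀ (by fun_prop)
      intro x hx
      rw [uIcc_of_le hb] at hx
      linarith [hx.1]
    rw [← restrict_Ioc_eq_restrict_Icc, ← ofReal_integral_eq_lintegral_ofReal]
    · apply ENNReal.ofReal_le_ofReal
      rw [← intervalIntegral.integral_of_le hb,
        intervalIntegral.integral_comp_add_left (fun x => x⁻¹) δ,
        integral_inv_of_pos (by linarith) (by linarith)]
      apply le_of_eq
      congr 1
      field_simp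
      ring
    · exact (intervalIntegrable_iff_integrableOn_Ioc_of_le hb).1 hI
    · filter_upwards [ae_restrict_mem measurableSet_Ioc] with τ hτ
      have := hτ.1
      simp only [Pi.zero_apply]
      positivity
  calc ∫⁻ a, hh δ b a ≤ ∫⁻ a, (g a + g (-a)) := lintegral_mono h1
    _ = (∫⁻ a, g a) + ∫⁻ a, g (-a) := lintegral_add_left hgm _
    _ = (∫⁻ a, g a) + ∫⁻ a, g a := by rw [lintegral_neg_eq_self g]
    _ ≤ ENNReal.ofReal (Real.log (1 + b / δ)) + ENNReal.ofReal (Real.log (1 + b / δ)) :=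
        add_le_add h2 h2
    _ = _ := by
        have : 0 ≤ Real.log (1 + b / δ) := Real.log_nonneg (by
          have : 0 ≤ b / δ := by positivity
          linarith)
        rw [← ENNReal.ofReal_add this this]
        congr 1
        ring

/-- Fubini for products of functions of one variable (after `Pool.Agent.H438R2.PD.A5`) -/
theorem lint_fin {n : ℕ} (f : Fin n → ℝ → ℝ≥0∞) (hf : ∀ i, Measurable (f i)) :
    ∫⁻ x : Fin n → ℝ, ∏ i, f i (x i) = ∏ i, ∫⁻ x, f i x := by
  induction n with
  | zero =>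
    simp [volume_pi]
  | succ n ih =>
    have h1 := (volume_preserving_piFinSuccAbove (fun _ : Fin (n + 1) => ℝ) 0).symm
    rw [← h1.lintegral_comp_emb (MeasurableEquiv.measurableEmbedding _)]
    have h4 : ∀ z : ℝ × (Fin n → ℝ), (∏ i, f i
        ((MeasurableEquiv.piFinSuccAbove (fun _ : Fin (n + 1) => ℝ) 0).symm z i)) =
        f 0 z.1 * ∏ i, f (Fin.succ i) (z.2 i) := by
      intro z
      rw [Fin.prod_univ_succ]
      rfl
    simp_rw [h4]
    rw [Fin.prod_univ_succ]
    have h2 : (volume : Measure (ℝ × (Fin n → ℝ))) = (volume : Measure ℝ).prod volume := rfl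
    have h3 : Measurable (fun x : Fin n → ℝ => ∏ i, f (Fin.succ i) (x i)) := by
      apply Finset.measurable_prod
      intro i _
      exact (hf _).comp (measurable_pi_apply i)
    rw [← ih (fun i => f (Fin.succ i)) (fun i => hf _), h2,
      lintegral_prod_mul (hf 0).aemeasurable h3.aemeasurable]

variable {k : ℕ}

/-- the integral over the ball -/
theorem ball_int (δ b : ℝ) (μ ν : V (k + 2)) (hμ : ‖μ‖ = 1) (hν : ‖ν‖ = 1)
    (hμν : (inner ℝ μ ν : ℝ) = 0) :
    ∫⁻ y : V (k + 2), (closedBall (0 : V (k + 2)) 2).indicator 1 y *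
      (hh δ b (inner ℝ y μ) * hh δ b (inner ℝ y ν)) ≤ 4 ^ k * (∫⁻ a, hh δ b a) ^ 2 := by
  have hon : Orthonormal ℝ (({0, 1} : Set (Fin (k + 2))).domRestrict
      (fun i => if i = 0 then μ else ν)) := by
    rw [orthonormal_iff_ite]
    rintro ⟨i, hi⟩ ⟨j, hj⟩
    simp only [mem_insert_iff, mem_singleton_iff] at hi hj
    have hμμ : (inner ℝ μ μ : ℝ) = 1 := by rw [real_inner_self_eq_norm_sq, hμ]; norm_num
    have hνν : (inner ℝ ν ν : ℝ) = 1 := by rw [real_inner_self_eq_norm_sq, hν]; norm_num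
    have hνμ : (inner ℝ ν μ : ℝ) = 0 := by rw [real_inner_comm]; exact hμν
    have h10 : (1 : Fin (k + 2)) ≠ 0 := by simp
    rcases hi with rfl | rfl <;> rcases hj with rfl | rfl <;>
      simp [hνμ, hμν, h10, h10.symm, hμ, hν]
  obtain ⟨B, hB⟩ := hon.exists_orthonormalBasis_extension_of_card_eq (by simp)
  have hB0 : B 0 = μ := by simpa using hB 0 (by simp)
  have hB1 : B 1 = ν := by simpa using hB 1 (by simp)
  set f : Fin (k + 2) → ℝ → ℝ≥0∞ :=
    Fin.cons (hh δ b) (Fin.cons (hh δ b) (fun _ => (Icc (-2 : ℝ) 2).indicator 1)) with hf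
  have hfm : ∀ i, Measurable (f i) := by
    intro i
    refine Fin.cases ?_ (fun j => ?_) i
    · simp only [hf, Fin.cons_zero]; exact hh_meas _ _
    · refine Fin.cases ?_ (fun l => ?_) j
      · simp only [hf, Fin.cons_succ, Fin.cons_zero]; exact hh_meas _ _
      · simp only [hf, Fin.cons_succ]
        exact measurable_one.indicator measurableSet_Icc
  have hmp : MeasurePreserving (fun y : V (k + 2) => (B.repr y).ofLp) volume volume :=
    (PiLp.volume_preserving_ofLp (Fin (k + 2))).comp B.measurePreserving_repr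
  have hfp : Measurable (fun x : Fin (k + 2) → ℝ => ∏ i, f i (x i)) := by
    apply Finset.measurable_prod
    intro i _
    exact (hfm _).comp (measurable_pi_apply i)
  calc _ ≤ ∫⁻ y : V (k + 2), ∏ i, f i ((B.repr y).ofLp i) := by
        apply lintegral_mono
        intro y
        simp only
        have hr : ∀ i, (B.repr y).ofLp i = inner ℝ y (B i) := by
          intro i
          rw [real_inner_comm]
          exact B.repr_apply_apply y i
        by_cases hy : y ∈ closedBall (0 : V (k + 2)) 2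
        · rw [indicator_of_mem hy, Fin.prod_univ_succ, Fin.prod_univ_succ]
          have h1 : ∀ l : Fin k, f (Fin.succ (Fin.succ l)) ((B.repr y).ofLp
              (Fin.succ (Fin.succ l))) = 1 := by
            intro l
            simp only [hf, Fin.cons_succ]
            rw [indicator_of_mem]
            · rfl
            · rw [hr]
              rw [mem_Icc, ← abs_le]
              have := abs_real_inner_le_norm y (B (Fin.succ (Fin.succ l)))
              rw [B.norm_eq_one, mul_one] at this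
              exact this.trans (by simpa using hy)
          rw [Finset.prod_congr rfl (fun l _ => h1 l), Finset.prod_const_one, mul_one]
          simp only [Pi.one_apply, one_mul, hf, Fin.cons_zero, Fin.cons_succ]
          rw [hr, hr]
          have e1 : (Fin.succ (0 : Fin (k + 1))) = (1 : Fin (k + 2)) := rfl
          rw [e1, hB0, hB1]
        · rw [indicator_of_notMem hy, zero_mul]
          exact zero_le
    _ = ∫⁻ x : Fin (k + 2) → ℝ, ∏ i, f i (x i) := hmp.lintegral_comp hfp
    _ = ∏ i, ∫⁻ x, f i x := lint_fin f hfm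
    _ = _ := by
        rw [Fin.prod_univ_succ, Fin.prod_univ_succ]
        simp only [hf, Fin.cons_zero, Fin.cons_succ]
        rw [lintegral_indicator_one measurableSet_Icc, Real.volume_Icc, Finset.prod_const,
          Finset.card_univ, Fintype.card_fin]
        have : ENNReal.ofReal (2 - -2) = 4 := by norm_num
        rw [this]
        ring

theorem hh_scale (δ b a τ : ℝ) (hδ : 0 < δ) (hτ : τ ∈ Icc (1:ℝ) 2) :
    hh δ b a ≤ 2 * hh δ (2 * b) (τ * a) := by
  unfold hh
  by_cases ha : a ∈ Icc (-b) b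
  · have hab : |a| ≤ b := abs_le.2 ha
    have h1 : τ * a ∈ Icc (-(2 * b)) (2 * b) := by
      rw [mem_Icc, ← abs_le, abs_mul, abs_of_pos (by linarith [hτ.1])]
      have := abs_nonneg a
      nlinarith [hτ.2]
    rw [indicator_of_mem ha, indicator_of_mem h1]
    have e1 : (2 : ℝ≥0∞) = ENNReal.ofReal 2 := by simp
    rw [e1, ← ENNReal.ofReal_mul (by norm_num)]
    apply ENNReal.ofReal_le_ofReal
    rw [abs_mul, abs_of_pos (by linarith [hτ.1] : (0:ℝ) < τ), ← mul_div_assoc, mul_one,
      div_le_div_iff₀ (by positivity) (by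
        have := abs_nonneg a
        have := hτ.1
        positivity)]
    nlinarith [hτ.2, abs_nonneg a]
  · rw [indicator_of_notMem ha]; exact zero_le

open Pool.Agent.TH539 (surf cap)

/-- the integral over the sphere -/
theorem sphere_int (δ b : ℝ) (hδ : 0 < δ) (μ ν : V (k + 2)) (hμ : ‖μ‖ = 1) (hν : ‖ν‖ = 1)
    (hμν : (inner ℝ μ ν : ℝ) = 0) :
    ∫⁻ u : sphere (0 : V (k + 2)) 1, hh δ b (inner ℝ (u : V (k + 2)) μ) *
      hh δ b (inner ℝ (u : V (k + 2)) ν) ∂(surf (k + 2)) ≤
      4 * (4 ^ k * (∫⁻ a, hh δ (2 * b) a) ^ 2) := by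
  have hGm : Measurable fun y : V (k + 2) => (closedBall (0 : V (k + 2)) 2).indicator 1 y *
      (hh δ (2 * b) (inner ℝ y μ) * hh δ (2 * b) (inner ℝ y ν)) := by
    apply Measurable.mul
    · exact measurable_one.indicator measurableSet_closedBall
    · exact ((hh_meas _ _).comp (by fun_prop)).mul ((hh_meas _ _).comp (by fun_prop))
  have hpt : ∀ u : sphere (0 : V (k + 2)) 1, hh δ b (inner ℝ (u : V (k + 2)) μ) *
      hh δ b (inner ℝ (u : V (k + 2)) ν) ≤ 4 * ∫⁻ τ in Ioi (0:ℝ), ENNReal.ofReal (τ ^ (k + 1)) *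
        ((closedBall (0 : V (k + 2)) 2).indicator 1 (τ • (u : V (k + 2))) *
      (hh δ (2 * b) (inner ℝ (τ • (u : V (k + 2))) μ) *
        hh δ (2 * b) (inner ℝ (τ • (u : V (k + 2))) ν))) := by
    intro u
    have hu : ‖(u : V (k + 2))‖ = 1 := by simp
    have h1 : ∀ τ ∈ Icc (1:ℝ) 2, hh δ b (inner ℝ (u : V (k + 2)) μ) *
        hh δ b (inner ℝ (u : V (k + 2)) ν) ≤ 4 * (ENNReal.ofReal (τ ^ (k + 1)) *
        ((closedBall (0 : V (k + 2)) 2).indicator 1 (τ • (u : V (k + 2))) *
      (hh δ (2 * b) (inner ℝ (τ • (u : V (k + 2))) μ) *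
        hh δ (2 * b) (inner ℝ (τ • (u : V (k + 2))) ν)))) := by
      intro τ hτ
      have hmem : τ • (u : V (k + 2)) ∈ closedBall (0 : V (k + 2)) 2 := by
        rw [mem_closedBall_zero_iff, norm_smul, hu, mul_one, Real.norm_eq_abs,
          abs_of_pos (by linarith [hτ.1])]
        exact hτ.2
      rw [indicator_of_mem hmem, inner_smul_left, inner_smul_left, conj_trivial]
      have h2 : (1 : ℝ≥0∞) ≤ ENNReal.ofReal (τ ^ (k + 1)) := by
        rw [← ENNReal.ofReal_one]
        exact ENNReal.ofReal_le_ofReal (one_le_pow₀ hτ.1)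
      calc _ ≤ (2 * hh δ (2 * b) (τ * inner ℝ (u : V (k + 2)) μ)) *
            (2 * hh δ (2 * b) (τ * inner ℝ (u : V (k + 2)) ν)) :=
            mul_le_mul' (hh_scale δ b _ τ hδ hτ) (hh_scale δ b _ τ hδ hτ)
        _ = 4 * (1 * (1 * (hh δ (2 * b) (τ * inner ℝ (u : V (k + 2)) μ) *
            hh δ (2 * b) (τ * inner ℝ (u : V (k + 2)) ν)))) := by ring
        _ ≤ _ := by
            refine mul_le_mul' le_rfl (mul_le_mul' h2 ?_)
            exact le_rfl
    calc _ = ∫⁻ τ in Icc (1:ℝ) 2, hh δ b (inner ℝ (u : V (k + 2)) μ) *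
          hh δ b (inner ℝ (u : V (k + 2)) ν) := by
          rw [setLIntegral_const, Real.volume_Icc]
          norm_num
      _ ≤ ∫⁻ τ in Icc (1:ℝ) 2, 4 * (ENNReal.ofReal (τ ^ (k + 1)) *
          ((closedBall (0 : V (k + 2)) 2).indicator 1 (τ • (u : V (k + 2))) *
          (hh δ (2 * b) (inner ℝ (τ • (u : V (k + 2))) μ) *
          hh δ (2 * b) (inner ℝ (τ • (u : V (k + 2))) ν)))) :=
          setLIntegral_mono' measurableSet_Icc h1
      _ ≤ ∫⁻ τ in Ioi (0:ℝ), 4 * (ENNReal.ofReal (τ ^ (k + 1)) *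
          ((closedBall (0 : V (k + 2)) 2).indicator 1 (τ • (u : V (k + 2))) *
          (hh δ (2 * b) (inner ℝ (τ • (u : V (k + 2))) μ) *
          hh δ (2 * b) (inner ℝ (τ • (u : V (k + 2))) ν)))) :=
          lintegral_mono_set (fun τ hτ => lt_of_lt_of_le one_pos hτ.1)
      _ = _ := by
          rw [lintegral_const_mul' _ _ (by norm_num)]
  have hpol := Pool.Agent.R462.KC.lintegral_polar (volume : Measure (V (k + 2))) hGm
  rw [finrank_euclideanSpace_fin] at hpol
  have hk : k + 2 - 1 = k + 1 := rfl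
  rw [hk] at hpol
  calc _ ≤ ∫⁻ u : sphere (0 : V (k + 2)) 1, 4 * (∫⁻ τ in Ioi (0:ℝ),
        ENNReal.ofReal (τ ^ (k + 1)) *
        ((closedBall (0 : V (k + 2)) 2).indicator 1 (τ • (u : V (k + 2))) *
      (hh δ (2 * b) (inner ℝ (τ • (u : V (k + 2))) μ) *
        hh δ (2 * b) (inner ℝ (τ • (u : V (k + 2))) ν)))) ∂(surf (k + 2)) := lintegral_mono hpt
    _ = 4 * ∫⁻ y : V (k + 2), (closedBall (0 : V (k + 2)) 2).indicator 1 y *
      (hh δ (2 * b) (inner ℝ y μ) * hh δ (2 * b) (inner ℝ y ν)) := by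
        rw [lintegral_const_mul' _ _ (by norm_num), hpol]
        rfl
    _ ≤ _ := mul_le_mul' le_rfl (ball_int δ (2 * b) μ ν hμ hν hμν)

/-- the sum over separated directions -/
theorem Dsum (k : ℕ) : ∃ C : ℝ, 0 < C ∧ ∀ (ι : Type) [Fintype ι] (δ : ℝ) (e : ι → V (k + 3))
    (μ ν : V (k + 3)), 0 < δ → δ < 1 → (∀ i, ‖e i‖ = 1) → (∀ i j, i ≠ j → δ ≤ ‖e i - e j‖) →
    ‖μ‖ = 1 → ‖ν‖ = 1 → (inner ℝ μ ν : ℝ) = 0 →
    ∑ i, ENNReal.ofReal (δ ^ (k + 2) * (1 / (|(inner ℝ (e i) μ : ℝ)| + δ) *
      (1 / (|(inner ℝ (e i) ν : ℝ)| + δ)))) ≤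
      ENNReal.ofReal (C * (1 + Real.log (1 + Fintype.card ι)) ^ 2) := by
  obtain ⟨c, hc, hcap⟩ := Pool.Agent.TH539.cap_ge (k + 2)
  refine ⟨1 + 9 * 4 ^ (k + 1) * 16 / c, by positivity, ?_⟩
  intro ι _ δ e μ ν hδ hδ1 he hsep hμ hν hμν
  set M : ℝ := (Fintype.card ι : ℝ) with hM
  rcases isEmpty_or_nonempty ι with hem | hne
  · simp
  have hM1 : 1 ≤ M := by
    rw [hM]; exact_mod_cast Fintype.card_pos
  set b : ℝ := (M + 1) * δ with hb
  have hb0 : 0 ≤ b := by positivity
  set H : sphere (0 : V (k + 3)) 1 → ℝ≥0∞ := fun u => hh δ b (inner ℝ (u : V (k + 3)) μ) *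
      hh δ b (inner ℝ (u : V (k + 3)) ν) with hH
  have hcapm : ∀ i, MeasurableSet (cap δ (e i)) := fun i =>
    Pool.Agent.TH539.measurableSet_cap δ (e i)
  have hdisj : Pairwise (Function.onFun Disjoint fun i => cap δ (e i)) := by
    intro i j hij
    rw [Function.onFun, Set.disjoint_left]
    intro u h1 h2
    have h1' : ‖(u : V (k + 3)) - e i‖ < δ / 2 := h1
    have h2' : ‖(u : V (k + 3)) - e j‖ < δ / 2 := h2
    have h3 : ‖e i - e j‖ ≤ ‖(u : V (k + 3)) - e j‖ + ‖(u : V (k + 3)) - e i‖ := by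
      have : e i - e j = ((u : V (k + 3)) - e j) - ((u : V (k + 3)) - e i) := by abel
      rw [this]
      exact norm_sub_le _ _
    linarith [hsep i j hij]
  have hin : ∀ (w : V (k + 3)), ‖w‖ = 1 → ∀ i, |(inner ℝ (e i) w : ℝ)| ≤ M * δ →
      ∀ u ∈ cap δ (e i), ENNReal.ofReal (1 / (|(inner ℝ (e i) w : ℝ)| + δ)) ≤
        ENNReal.ofReal (3 / 2) * hh δ b (inner ℝ (u : V (k + 3)) w) := by
    intro w hw i hi u hu
    have hu' : ‖(u : V (k + 3)) - e i‖ < δ / 2 := hu
    have h1 : |(inner ℝ (u : V (k + 3)) w : ℝ)| ≤ |(inner ℝ (e i) w : ℝ)| + δ / 2 := by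
      have h2 : (inner ℝ (u : V (k + 3)) w : ℝ) = inner ℝ (e i) w +
          inner ℝ ((u : V (k + 3)) - e i) w := by rw [inner_sub_left]; ring
      rw [h2]
      refine (abs_add_le _ _).trans ?_
      have h3 := abs_real_inner_le_norm ((u : V (k + 3)) - e i) w
      rw [hw, mul_one] at h3
      linarith
    have h4 : (inner ℝ (u : V (k + 3)) w : ℝ) ∈ Icc (-b) b := by
      rw [mem_Icc, ← abs_le, hb]
      linarith
    unfold hh
    rw [indicator_of_mem h4, ← ENNReal.ofReal_mul (by norm_num)]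
    apply ENNReal.ofReal_le_ofReal
    rw [← mul_div_assoc, mul_one, div_le_div_iff₀ (by positivity) (by positivity)]
    have := abs_nonneg (inner ℝ (e i) w : ℝ)
    linarith
  have hterm : ∀ i, ENNReal.ofReal (δ ^ (k + 2) * (1 / (|(inner ℝ (e i) μ : ℝ)| + δ) *
      (1 / (|(inner ℝ (e i) ν : ℝ)| + δ)))) ≤ ENNReal.ofReal (1 / M) +
      ENNReal.ofReal (9 / 4 / c) * ∫⁻ u in cap δ (e i), H u ∂(surf (k + 3)) := by
    intro i
    by_cases hi : |(inner ℝ (e i) μ : ℝ)| ≤ M * δ ∧ |(inner ℝ (e i) ν : ℝ)| ≤ M * δ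
    · refine le_trans ?_ le_add_self
      have h1 : ENNReal.ofReal (c * δ ^ (k + 2)) *
          (ENNReal.ofReal (1 / (|(inner ℝ (e i) μ : ℝ)| + δ)) *
          ENNReal.ofReal (1 / (|(inner ℝ (e i) ν : ℝ)| + δ))) ≤
          ENNReal.ofReal (9 / 4) * ∫⁻ u in cap δ (e i), H u ∂(surf (k + 3)) := by
        calc _ ≤ surf (k + 3) (cap δ (e i)) *
              (ENNReal.ofReal (1 / (|(inner ℝ (e i) μ : ℝ)| + δ)) *
              ENNReal.ofReal (1 / (|(inner ℝ (e i) ν : ℝ)| + δ))) :=
              mul_le_mul' (hcap δ (e i) hδ hδ1.le (he i)) le_rfl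
          _ = ∫⁻ u in cap δ (e i), (ENNReal.ofReal (1 / (|(inner ℝ (e i) μ : ℝ)| + δ)) *
              ENNReal.ofReal (1 / (|(inner ℝ (e i) ν : ℝ)| + δ))) ∂(surf (k + 3)) := by
              rw [setLIntegral_const, mul_comm]
          _ ≤ ∫⁻ u in cap δ (e i), ENNReal.ofReal (9 / 4) * H u ∂(surf (k + 3)) := by
              apply setLIntegral_mono' (hcapm i)
              intro u hu
              refine (mul_le_mul' (hin μ hμ i hi.1 u hu) (hin ν hν i hi.2 u hu)).trans
                (le_of_eq ?_)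
              have : ENNReal.ofReal (9 / 4) = ENNReal.ofReal (3 / 2) * ENNReal.ofReal (3 / 2) := by
                rw [← ENNReal.ofReal_mul (by norm_num)]; norm_num
              rw [this, hH]
              ring
          _ = _ := lintegral_const_mul' _ _ ENNReal.ofReal_ne_top
      have h2 := mul_le_mul' (le_refl (ENNReal.ofReal (1 / c))) h1
      have e1 : ENNReal.ofReal (1 / c) * (ENNReal.ofReal (c * δ ^ (k + 2)) *
          (ENNReal.ofReal (1 / (|(inner ℝ (e i) μ : ℝ)| + δ)) *
          ENNReal.ofReal (1 / (|(inner ℝ (e i) ν : ℝ)| + δ)))) =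
          ENNReal.ofReal (δ ^ (k + 2) * (1 / (|(inner ℝ (e i) μ : ℝ)| + δ) *
          (1 / (|(inner ℝ (e i) ν : ℝ)| + δ)))) := by
        rw [← ENNReal.ofReal_mul (by positivity), ← ENNReal.ofReal_mul (by positivity),
          ← ENNReal.ofReal_mul (by positivity)]
        congr 1
        field_simp
      have e2 : ENNReal.ofReal (1 / c) * (ENNReal.ofReal (9 / 4) *
          ∫⁻ u in cap δ (e i), H u ∂(surf (k + 3))) =
          ENNReal.ofReal (9 / 4 / c) * ∫⁻ u in cap δ (e i), H u ∂(surf (k + 3)) := by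
        rw [← mul_assoc, ← ENNReal.ofReal_mul (by positivity)]
        congr 2
        ring
      rwa [e1, e2] at h2
    · refine le_trans ?_ le_self_add
      apply ENNReal.ofReal_le_ofReal
      have hMδ : 0 < M * δ := by positivity
      have hp1 : 1 / (|(inner ℝ (e i) μ : ℝ)| + δ) * (1 / (|(inner ℝ (e i) ν : ℝ)| + δ)) ≤
          1 / (M * δ) * (1 / δ) := by
        have ha := abs_nonneg (inner ℝ (e i) μ : ℝ)
        have hb' := abs_nonneg (inner ℝ (e i) ν : ℝ)
        rw [not_and_or] at hi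
        rcases hi with h | h
        · push Not at h
          apply mul_le_mul _ _ (by positivity) (by positivity)
          · exact one_div_le_one_div_of_le hMδ (by linarith)
          · exact one_div_le_one_div_of_le hδ (by linarith)
        · push Not at h
          rw [mul_comm (1 / (M * δ))]
          apply mul_le_mul _ _ (by positivity) (by positivity)
          · exact one_div_le_one_div_of_le hδ (by linarith)
          · exact one_div_le_one_div_of_le hMδ (by linarith)
      calc _ ≤ δ ^ (k + 2) * (1 / (M * δ) * (1 / δ)) := by gcongr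
        _ = δ ^ k * (1 / M) := by
            rw [pow_add]; field_simp
        _ ≤ 1 * (1 / M) := by
            gcongr
            exact pow_le_one₀ hδ.le hδ1.le
        _ = 1 / M := one_mul _
  have hlog0 : 0 ≤ Real.log (1 + M) := Real.log_nonneg (by linarith)
  have hlog : 2 * Real.log (1 + 2 * b / δ) ≤ 4 * (1 + Real.log (1 + M)) := by
    have h1 : 1 + 2 * b / δ ≤ 3 * (1 + M) := by
      rw [hb]
      have : 2 * ((M + 1) * δ) / δ = 2 * (M + 1) := by field_simp
      rw [this]; linarith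
    have h2 : Real.log (1 + 2 * b / δ) ≤ Real.log 3 + Real.log (1 + M) := by
      rw [← Real.log_mul (by norm_num) (by positivity)]
      exact Real.log_le_log (by positivity) h1
    have h3 : Real.log 3 ≤ 2 := by
      rw [Real.log_le_iff_le_exp (by norm_num)]
      have := Real.add_one_le_exp (2:ℝ)
      linarith
    linarith
  calc _ ≤ ∑ i, (ENNReal.ofReal (1 / M) +
        ENNReal.ofReal (9 / 4 / c) * ∫⁻ u in cap δ (e i), H u ∂(surf (k + 3))) :=
        Finset.sum_le_sum fun i _ => hterm i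
    _ = ENNReal.ofReal 1 + ENNReal.ofReal (9 / 4 / c) *
        ∑ i, ∫⁻ u in cap δ (e i), H u ∂(surf (k + 3)) := by
        rw [Finset.sum_add_distrib, ← Finset.mul_sum]
        congr 1
        rw [Finset.sum_const, Finset.card_univ, nsmul_eq_mul, ← ENNReal.ofReal_natCast,
          ← ENNReal.ofReal_mul (by positivity)]
        congr 1
        rw [← hM]
        field_simp
    _ ≤ ENNReal.ofReal 1 + ENNReal.ofReal (9 / 4 / c) * ∫⁻ u, H u ∂(surf (k + 3)) := by
        gcongr
        calc ∑ i, ∫⁻ u in cap δ (e i), H u ∂(surf (k + 3))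
            = ∑' i, ∫⁻ u in cap δ (e i), H u ∂(surf (k + 3)) := (tsum_fintype _).symm
          _ = ∫⁻ u in ⋃ i, cap δ (e i), H u ∂(surf (k + 3)) :=
              (lintegral_iUnion hcapm hdisj _).symm
          _ ≤ _ := setLIntegral_le_lintegral _ _
    _ ≤ ENNReal.ofReal 1 + ENNReal.ofReal (9 / 4 / c) *
        (4 * (4 ^ (k + 1) * (ENNReal.ofReal (2 * Real.log (1 + 2 * b / δ))) ^ 2)) := by
        gcongr
        refine (sphere_int δ b hδ μ ν hμ hν hμν).trans ?_
        gcongr
        exact hh_int δ (2 * b) hδ (by positivity)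
    _ ≤ ENNReal.ofReal 1 + ENNReal.ofReal (9 / 4 / c) *
        (4 * (4 ^ (k + 1) * (ENNReal.ofReal (4 * (1 + Real.log (1 + M)))) ^ 2)) := by
        gcongr
    _ ≤ _ := by
        have e3 : (4 * (4 ^ (k + 1) * (ENNReal.ofReal (4 * (1 + Real.log (1 + M)))) ^ 2) : ℝ≥0∞) =
            ENNReal.ofReal (4 * (4 ^ (k + 1) * (4 * (1 + Real.log (1 + M))) ^ 2)) := by
          have hX : 0 ≤ 4 * (1 + Real.log (1 + M)) := by positivity
          generalize 4 * (1 + Real.log (1 + M)) = X at hX
          rw [ENNReal.ofReal_mul (by norm_num), ENNReal.ofReal_mul (by positivity),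
            ENNReal.ofReal_pow hX, ENNReal.ofReal_pow (by norm_num)]
          norm_num
        rw [e3, ← ENNReal.ofReal_mul (by positivity), ← ENNReal.ofReal_add (by norm_num)
          (by positivity)]
        apply ENNReal.ofReal_le_ofReal
        have h5 : 1 ≤ (1 + Real.log (1 + M)) ^ 2 := one_le_pow₀ (by linarith)
        have e4 : 9 / 4 / c * (4 * (4 ^ (k + 1) * (4 * (1 + Real.log (1 + M))) ^ 2)) =
            9 * 4 ^ (k + 1) * 16 / c * (1 + Real.log (1 + M)) ^ 2 := by ring
        rw [e4, add_mul, one_mul]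
        linarith

end Run7.h750.RS
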