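import Pool.Agent.Run7.h750.RS2
set_option autoImplicit false
set_option linter.unusedSectionVars false

/-! Random shifts in a subspace of codimension two. -/

namespace Run7.h750.RS

open MeasureTheory Set Metric ProbabilityTheory
open scoped ENNReal NNReal Pointwise

variable {m : ℕ} {Ω : Type} [MeasurableSpace Ω] (P : Measure Ω) [IsProbabilityMeasure P]
  (J : V (m + 1) →ₗᵢ[ℝ] V (m + 3))

/-- indicator of a tube shifted by `J (X ω)` -/
noncomputable def ind (δ : ℝ) (a e : V (m + 3)) (X : Ω → V (m + 1)) (ω : Ω) (x : V (m + 3)) :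
    ℝ≥0∞ := (tube δ a e).indicator 1 (x - J (X ω))

theorem ind_meas (δ : ℝ) (a e : V (m + 3)) (X : Ω → V (m + 1)) (hX : Measurable X) :
    Measurable fun z : Ω × V (m + 3) => ind J δ a e X z.1 z.2 := by
  unfold ind
  have h1 : Measurable fun z : Ω × V (m + 3) => z.2 - J (X z.1) :=
    measurable_snd.sub (J.continuous.measurable.comp (hX.comp measurable_fst))
  exact (measurable_one.indicator (tube_meas δ a e)).comp h1

theorem ind_meas' (δ : ℝ) (a e : V (m + 3)) (X : Ω → V (m + 1)) (hX : Measurable X)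
    (x : V (m + 3)) : Measurable fun ω : Ω => ind J δ a e X ω x := by
  unfold ind
  have h1 : Measurable fun ω : Ω => x - J (X ω) :=
    measurable_const.sub (J.continuous.measurable.comp hX)
  exact (measurable_one.indicator (tube_meas δ a e)).comp h1

theorem ind_meas_swap (δ : ℝ) (a e : V (m + 3)) (X : Ω → V (m + 1)) (hX : Measurable X) :
    Measurable fun z : V (m + 3) × Ω => ind J δ a e X z.2 z.1 := by
  unfold ind
  have h1 : Measurable fun z : V (m + 3) × Ω => z.1 - J (X z.2) :=
    measurable_fst.sub (J.continuous.measurable.comp (hX.comp measurable_snd))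
  exact (measurable_one.indicator (tube_meas δ a e)).comp h1

/-- the law is bounded by a multiple of Lebesgue measure -/
def Spread (A : ℝ) (X : Ω → V (m + 1)) : Prop :=
  ∀ B : Set (V (m + 1)), MeasurableSet B → P (X ⁻¹' B) ≤ ENNReal.ofReal A * volume B

theorem sup_bound (A δ : ℝ) (hA : 0 ≤ A) (hδ : 0 < δ) (hδ1 : δ < 1) (a e : V (m + 3))
    (he : ‖e‖ = 1) (X : Ω → V (m + 1)) (hX : Measurable X) (hs : Spread P A X) (x : V (m + 3)) :
    ∫⁻ ω, ind J δ a e X ω x ∂P ≤
      ENNReal.ofReal (A * (12 * 4 ^ m * δ ^ (m + 1) / (‖perp J e‖ + δ))) := by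
  have hB : MeasurableSet {z : V (m + 1) | x - J z ∈ tube δ a e} := by
    have : Continuous fun z : V (m + 1) => x - J z := by fun_prop
    exact ((tube_closed δ a e).preimage this).measurableSet
  have e1 : ∀ ω, ind J δ a e X ω x =
      (X ⁻¹' {z : V (m + 1) | x - J z ∈ tube δ a e}).indicator 1 ω := by
    intro ω
    unfold ind
    by_cases h : x - J (X ω) ∈ tube δ a e
    · rw [indicator_of_mem h, indicator_of_mem (show ω ∈ X ⁻¹' {z : V (m + 1) |
        x - J z ∈ tube δ a e} from h)]
      rfl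
    · rw [indicator_of_notMem h, indicator_of_notMem (show ω ∉ X ⁻¹' {z : V (m + 1) |
        x - J z ∈ tube δ a e} from h)]
  simp_rw [e1]
  rw [lintegral_indicator_one (hX hB), ENNReal.ofReal_mul hA]
  exact (hs _ hB).trans (mul_le_mul' le_rfl (vol_section J δ hδ hδ1 a e x he))

set_option maxHeartbeats 2000000 in
theorem pair_bound (A δ : ℝ) (hA : 0 ≤ A) (hδ : 0 < δ) (hδ1 : δ < 1) (a e a' e' : V (m + 3))
    (he : ‖e‖ = 1) (he' : ‖e'‖ = 1) (X X' : Ω → V (m + 1)) (hX : Measurable X)
    (hX' : Measurable X') (hs : Spread P A X) (hind : IndepFun X X' P) (ν : V (m + 3))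
    (hν : ‖ν‖ = 1) (hνJ : ∀ z, (inner ℝ (J z) ν : ℝ) = 0) (heν : (inner ℝ e ν : ℝ) = 0) :
    ∫⁻ ω, (∫⁻ x, ind J δ a e X ω x * ind J δ a' e' X' ω x) ∂P ≤
      ENNReal.ofReal (A * (12 * 4 ^ m * δ ^ (m + 1) / (‖perp J e‖ + δ))) *
      ENNReal.ofReal (5 * δ / (|(inner ℝ e' ν : ℝ)| + δ) * (2 * δ) ^ (m + 2)) := by
  set κ := ENNReal.ofReal (A * (12 * 4 ^ m * δ ^ (m + 1) / (‖perp J e‖ + δ))) with hκ
  set S : Set (V (m + 3)) := {x | |(inner ℝ (x - a) ν : ℝ)| ≤ δ} with hS
  have hSm : MeasurableSet S := by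
    have : Continuous fun x : V (m + 3) => |(inner ℝ (x - a) ν : ℝ)| := by fun_prop
    exact (isClosed_le this continuous_const).measurableSet
  have hm1 := ind_meas J δ a e X hX
  have hm2 := ind_meas J δ a' e' X' hX'
  have hSi : Measurable (S.indicator (1 : V (m + 3) → ℝ≥0∞)) := measurable_one.indicator hSm
  rw [lintegral_lintegral_swap (by exact (hm1.mul hm2).aemeasurable)]
  have hpt : ∀ x, ∫⁻ ω, ind J δ a e X ω x * ind J δ a' e' X' ω x ∂P ≤
      κ * ∫⁻ ω, S.indicator 1 x * ind J δ a' e' X' ω x ∂P := by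
    intro x
    have hx1 : Measurable fun ω => ind J δ a e X ω x := ind_meas' J δ a e X hX x
    have hx2 : Measurable fun ω => ind J δ a' e' X' ω x := ind_meas' J δ a' e' X' hX' x
    have h1 : ∀ ω, ind J δ a e X ω x ≤ S.indicator 1 x * ind J δ a e X ω x := by
      intro ω
      by_cases hx : x ∈ S
      · rw [indicator_of_mem hx]; simp
      · have h2 : x - J (X ω) ∉ tube δ a e := by
          intro h
          apply hx
          have h3 := h.2
          show |(inner ℝ (x - a) ν : ℝ)| ≤ δ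
          have h4 : (inner ℝ (x - a) ν : ℝ) = inner ℝ ((x - J (X ω) - a) -
              (inner ℝ (x - J (X ω) - a) e : ℝ) • e) ν := by
            rw [inner_sub_left (x - J (X ω) - a), inner_smul_left, heν, mul_zero, sub_zero]
            have : x - a = (x - J (X ω) - a) + J (X ω) := by abel
            rw [this, inner_add_left, hνJ, add_zero]
          rw [h4]
          refine (abs_real_inner_le_norm _ _).trans ?_
          rw [hν, mul_one]
          exact h3
        unfold ind
        rw [indicator_of_notMem h2]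
        exact zero_le
    have hindep : IndepFun (fun ω => ind J δ a e X ω x) (fun ω => ind J δ a' e' X' ω x) P := by
      have hφ : Measurable fun z : V (m + 1) => (tube δ a e).indicator (1 : V (m + 3) → ℝ≥0∞)
          (x - J z) := (measurable_one.indicator (tube_meas δ a e)).comp
            (by fun_prop : Measurable fun z : V (m + 1) => x - J z)
      have hφ' : Measurable fun z : V (m + 1) => (tube δ a' e').indicator (1 : V (m + 3) → ℝ≥0∞)
          (x - J z) := (measurable_one.indicator (tube_meas δ a' e')).comp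
            (by fun_prop : Measurable fun z : V (m + 1) => x - J z)
      exact hind.comp hφ hφ'
    calc _ ≤ ∫⁻ ω, (S.indicator 1 x * ind J δ a e X ω x) * ind J δ a' e' X' ω x ∂P :=
          lintegral_mono fun ω => mul_le_mul' (h1 ω) le_rfl
      _ = S.indicator 1 x * ∫⁻ ω, ind J δ a e X ω x * ind J δ a' e' X' ω x ∂P := by
          have h12 : Measurable fun ω => ind J δ a e X ω x * ind J δ a' e' X' ω x := hx1.mul hx2
          rw [← lintegral_const_mul _ h12]
          simp_rw [mul_assoc]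
      _ = S.indicator 1 x * ((∫⁻ ω, ind J δ a e X ω x ∂P) *
            ∫⁻ ω, ind J δ a' e' X' ω x ∂P) := by
          congr 1
          exact lintegral_mul_eq_lintegral_mul_lintegral_of_indepFun hx1 hx2 hindep
      _ ≤ S.indicator 1 x * (κ * ∫⁻ ω, ind J δ a' e' X' ω x ∂P) := by
          gcongr
          exact sup_bound P J A δ hA hδ hδ1 a e he X hX hs x
      _ = κ * (S.indicator 1 x * ∫⁻ ω, ind J δ a' e' X' ω x ∂P) := by ring
      _ = _ := by rw [lintegral_const_mul _ hx2]
  calc _ ≤ ∫⁻ x, κ * ∫⁻ ω, S.indicator 1 x * ind J δ a' e' X' ω x ∂P := lintegral_mono hpt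
    _ = κ * ∫⁻ x, ∫⁻ ω, S.indicator 1 x * ind J δ a' e' X' ω x ∂P :=
        lintegral_const_mul' _ _ ENNReal.ofReal_ne_top
    _ = κ * ∫⁻ ω, (∫⁻ x, S.indicator 1 x * ind J δ a' e' X' ω x) ∂P := by
        congr 1
        rw [lintegral_lintegral_swap]
        have : Measurable fun z : V (m + 3) × Ω => S.indicator 1 z.1 *
            ind J δ a' e' X' z.2 z.1 :=
          (hSi.comp measurable_fst).mul (ind_meas_swap J δ a' e' X' hX')
        exact this.aemeasurable
    _ ≤ κ * ∫⁻ ω, ENNReal.ofReal (5 * δ / (|(inner ℝ e' ν : ℝ)| + δ) * (2 * δ) ^ (m + 2)) ∂P := by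
        refine mul_le_mul' le_rfl (lintegral_mono fun ω => ?_)
        calc ∫⁻ x, S.indicator 1 x * ind J δ a' e' X' ω x
            = ∫⁻ x, S.indicator 1 (x + J (X' ω)) * ind J δ a' e' X' ω (x + J (X' ω)) :=
              (lintegral_add_right_eq_self (fun x => S.indicator 1 x * ind J δ a' e' X' ω x)
                (J (X' ω))).symm
          _ = ∫⁻ x, (tube δ a' e' ∩ S).indicator 1 x := by
              apply lintegral_congr
              intro x
              have h1 : x + J (X' ω) ∈ S ↔ x ∈ S := by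
                show |(inner ℝ (x + J (X' ω) - a) ν : ℝ)| ≤ δ ↔ |(inner ℝ (x - a) ν : ℝ)| ≤ δ
                have : x + J (X' ω) - a = (x - a) + J (X' ω) := by abel
                rw [this, inner_add_left, hνJ, add_zero]
              unfold ind
              rw [add_sub_cancel_right]
              by_cases h2 : x ∈ S <;> by_cases h3 : x ∈ tube δ a' e'
              · rw [indicator_of_mem (h1.2 h2), indicator_of_mem h3, indicator_of_mem (show x ∈
                  tube δ a' e' ∩ S from ⟨h3, h2⟩)]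
                simp
              · rw [indicator_of_notMem h3, indicator_of_notMem (show x ∉ tube δ a' e' ∩ S from
                  fun h => h3 h.1), mul_zero]
              · rw [indicator_of_notMem (show x + J (X' ω) ∉ S from fun h => h2 (h1.1 h)),
                  indicator_of_notMem (show x ∉ tube δ a' e' ∩ S from fun h => h2 h.2), zero_mul]
              · rw [indicator_of_notMem h3, indicator_of_notMem (show x ∉ tube δ a' e' ∩ S from
                  fun h => h3 h.1), mul_zero]
          _ = volume (tube δ a' e' ∩ S) := lintegral_indicator_one ((tube_meas δ a' e').inter hSm)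
          _ ≤ _ := vol_slab δ hδ a' a e' ν he' hν
    _ = _ := by rw [lintegral_const, measure_univ, mul_one]

theorem ind_int (δ : ℝ) (a e : V (m + 3)) (X : Ω → V (m + 1)) (ω : Ω) :
    ∫⁻ x, ind J δ a e X ω x = volume (tube δ a e) := by
  unfold ind
  rw [lintegral_sub_right_eq_self (fun x => (tube δ a e).indicator (1 : V (m + 3) → ℝ≥0∞) x)
    (J (X ω)), lintegral_indicator_one (tube_meas δ a e)]

variable {ι : Type} [Fintype ι]

/-- the counting function -/
noncomputable def Sm (δ : ℝ) (a e : ι → V (m + 3)) (X : ι → Ω → V (m + 1)) (z : Ω × V (m + 3)) :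
    ℝ≥0∞ := ∑ i, ind J δ (a i) (e i) (X i) z.1 z.2

theorem Sm_meas (δ : ℝ) (a e : ι → V (m + 3)) (X : ι → Ω → V (m + 1))
    (hX : ∀ i, Measurable (X i)) : Measurable (Sm J δ a e X) := by
  unfold Sm
  exact Finset.measurable_sum _ fun i _ => ind_meas J δ (a i) (e i) (X i) (hX i)

theorem Sm_int (δ : ℝ) (a e : ι → V (m + 3)) (X : ι → Ω → V (m + 1))
    (hX : ∀ i, Measurable (X i)) :
    ∫⁻ z, Sm J δ a e X z ∂(P.prod volume) = ∑ i, volume (tube δ (a i) (e i)) := by
  unfold Sm
  rw [lintegral_finsetSum _ fun i _ => ind_meas J δ (a i) (e i) (X i) (hX i)]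
  apply Finset.sum_congr rfl
  intro i _
  rw [lintegral_prod _ (ind_meas J δ (a i) (e i) (X i) (hX i)).aemeasurable]
  simp_rw [ind_int]
  rw [lintegral_const, measure_univ, mul_one]

set_option maxHeartbeats 2000000 in
/-- the `L²` bound -/
theorem L2bound (m : ℕ) : ∃ C : ℝ, 1 ≤ C ∧ ∀ (J : V (m + 1) →ₗᵢ[ℝ] V (m + 3)) (Ω : Type)
    [MeasurableSpace Ω] (P : Measure Ω) [IsProbabilityMeasure P] (ι : Type) [Fintype ι] (A δ : ℝ)
    (a e : ι → V (m + 3)) (X : ι → Ω → V (m + 1)), 1 ≤ A → 0 < δ → δ < 1 → (∀ i, ‖e i‖ = 1) →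
    (∀ i j, i ≠ j → δ ≤ ‖e i - e j‖) → (∀ i, Measurable (X i)) → (∀ i, Spread P A (X i)) →
    (∀ i j, i ≠ j → IndepFun (X i) (X j) P) →
    ∫⁻ z, Sm J δ a e X z ^ 2 ∂(P.prod volume) ≤
      ENNReal.ofReal (C * A * (1 + Real.log (1 + Fintype.card ι)) ^ 2 *
        (δ ^ (m + 2) * Fintype.card ι)) := by
  obtain ⟨C, hC, hD⟩ := Dsum m
  set K : ℝ := 12 * 4 ^ m * (5 * 2 ^ (m + 2)) with hK
  have hKp : 0 < K := by positivity
  refine ⟨2 ^ (m + 2) + 2 * K * C, by
    have : (1:ℝ) ≤ 2 ^ (m + 2) := one_le_pow₀ (by norm_num)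
    have : 0 < 2 * K * C := by positivity
    linarith, ?_⟩
  intro J Ω _ P _ ι _ A δ a e X hA hδ hδ1 he hsep hX hspr hind
  classical
  set M : ℝ := (Fintype.card ι : ℝ) with hM
  have hA0 : 0 ≤ A := by linarith
  choose μ ν hμ hν hμν hμJ hνJ heν using fun i => exists_pair J (e i)
  set q : ι → ι → ℝ := fun i j => δ ^ (m + 2) * (1 / (|(inner ℝ (e j) (μ i) : ℝ)| + δ) *
      (1 / (|(inner ℝ (e j) (ν i) : ℝ)| + δ))) with hq
  have hqD : ∀ i, ∑ j, ENNReal.ofReal (q i j) ≤
      ENNReal.ofReal (C * (1 + Real.log (1 + M)) ^ 2) := fun i =>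
    hD ι δ e (μ i) (ν i) hδ hδ1 he hsep (hμ i) (hν i) (hμν i)
  set κ : ℝ≥0∞ := ENNReal.ofReal (A * K * δ ^ (m + 2)) with hκ
  -- one ordered pair
  have hone : ∀ i j, i ≠ j → ‖perp J (e j)‖ ≤ ‖perp J (e i)‖ →
      ∫⁻ ω, (∫⁻ x, ind J δ (a i) (e i) (X i) ω x * ind J δ (a j) (e j) (X j) ω x) ∂P ≤
        κ * ENNReal.ofReal (q i j) := by
    intro i j hij hρ
    refine (pair_bound P J A δ hA0 hδ hδ1 (a i) (e i) (a j) (e j) (he i) (he j) (X i) (X j)
      (hX i) (hX j) (hspr i) (hind i j hij) (ν i) (hν i) (hνJ i) (heν i)).trans ?_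
    rw [hκ, ← ENNReal.ofReal_mul (by positivity), ← ENNReal.ofReal_mul (by positivity)]
    apply ENNReal.ofReal_le_ofReal
    have h1 : |(inner ℝ (e j) (μ i) : ℝ)| ≤ ‖perp J (e i)‖ :=
      (inner_le_perp J (e j) (μ i) (hμ i) (hμJ i)).trans hρ
    have h2 : 1 / (‖perp J (e i)‖ + δ) ≤ 1 / (|(inner ℝ (e j) (μ i) : ℝ)| + δ) :=
      one_div_le_one_div_of_le (by positivity) (by linarith)
    calc A * (12 * 4 ^ m * δ ^ (m + 1) / (‖perp J (e i)‖ + δ)) *
          (5 * δ / (|(inner ℝ (e j) (ν i) : ℝ)| + δ) * (2 * δ) ^ (m + 2))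
        = A * K * δ ^ (m + 2) * (δ ^ (m + 2) * (1 / (‖perp J (e i)‖ + δ) *
          (1 / (|(inner ℝ (e j) (ν i) : ℝ)| + δ)))) := by
          rw [hK, mul_pow, pow_succ δ (m + 1)]
          ring
      _ ≤ A * K * δ ^ (m + 2) * (δ ^ (m + 2) * (1 / (|(inner ℝ (e j) (μ i) : ℝ)| + δ) *
          (1 / (|(inner ℝ (e j) (ν i) : ℝ)| + δ)))) := by gcongr
      _ = _ := rfl
  have hpair : ∀ i j, i ≠ j →
      ∫⁻ ω, (∫⁻ x, ind J δ (a i) (e i) (X i) ω x * ind J δ (a j) (e j) (X j) ω x) ∂P ≤
        κ * ENNReal.ofReal (q i j) + κ * ENNReal.ofReal (q j i) := by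
    intro i j hij
    rcases le_total ‖perp J (e j)‖ ‖perp J (e i)‖ with h | h
    · exact (hone i j hij h).trans le_self_add
    · refine le_trans (le_of_eq ?_) ((hone j i hij.symm h).trans le_add_self)
      apply lintegral_congr
      intro ω
      apply lintegral_congr
      intro x
      rw [mul_comm]
  have hdiag : ∀ i, ∫⁻ ω, (∫⁻ x, ind J δ (a i) (e i) (X i) ω x * ind J δ (a i) (e i) (X i) ω x) ∂P ≤
      ENNReal.ofReal ((2 * δ) ^ (m + 2)) := by
    intro i
    have h1 : ∀ ω x, ind J δ (a i) (e i) (X i) ω x * ind J δ (a i) (e i) (X i) ω x =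
        ind J δ (a i) (e i) (X i) ω x := by
      intro ω x
      unfold ind
      by_cases h : x - J (X i ω) ∈ tube δ (a i) (e i)
      · rw [indicator_of_mem h]; simp
      · rw [indicator_of_notMem h]; simp
    simp_rw [h1, ind_int]
    rw [lintegral_const, measure_univ, mul_one]
    exact vol_tube_le δ hδ (a i) (e i) (he i)
  have hexp : ∀ z, Sm J δ a e X z ^ 2 = ∑ i, ∑ j, ind J δ (a i) (e i) (X i) z.1 z.2 *
      ind J δ (a j) (e j) (X j) z.1 z.2 := by
    intro z
    unfold Sm
    rw [sq, Finset.sum_mul_sum]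
  have hmm : ∀ i j, Measurable fun z : Ω × V (m + 3) => ind J δ (a i) (e i) (X i) z.1 z.2 *
      ind J δ (a j) (e j) (X j) z.1 z.2 := fun i j =>
    (ind_meas J δ (a i) (e i) (X i) (hX i)).mul (ind_meas J δ (a j) (e j) (X j) (hX j))
  calc _ = ∑ i, ∑ j, ∫⁻ ω, (∫⁻ x, ind J δ (a i) (e i) (X i) ω x *
        ind J δ (a j) (e j) (X j) ω x) ∂P := by
        simp_rw [hexp]
        rw [lintegral_finsetSum _ fun i _ => Finset.measurable_sum _ fun j _ => hmm i j]
        apply Finset.sum_congr rfl
        intro i _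
        rw [lintegral_finsetSum _ fun j _ => hmm i j]
        apply Finset.sum_congr rfl
        intro j _
        rw [lintegral_prod _ (hmm i j).aemeasurable]
    _ ≤ ∑ i, ∑ j, ((if i = j then ENNReal.ofReal ((2 * δ) ^ (m + 2)) else 0) +
        (κ * ENNReal.ofReal (q i j) + κ * ENNReal.ofReal (q j i))) := by
        apply Finset.sum_le_sum
        intro i _
        apply Finset.sum_le_sum
        intro j _
        by_cases hij : i = j
        · subst hij
          rw [if_pos rfl]
          exact (hdiag i).trans le_self_add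
        · rw [if_neg hij, zero_add]
          exact hpair i j hij
    _ = (∑ _i : ι, ENNReal.ofReal ((2 * δ) ^ (m + 2))) + (κ * ∑ i, ∑ j, ENNReal.ofReal (q i j) +
        κ * ∑ i, ∑ j, ENNReal.ofReal (q i j)) := by
        simp_rw [Finset.sum_add_distrib]
        congr 1
        · apply Finset.sum_congr rfl
          intro i _
          rw [Finset.sum_ite_eq]
          simp
        · congr 1
          · simp_rw [← Finset.mul_sum]
          · rw [Finset.sum_comm]
            simp_rw [← Finset.mul_sum]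
    _ ≤ ENNReal.ofReal (M * (2 * δ) ^ (m + 2)) +
        (κ * ENNReal.ofReal (M * (C * (1 + Real.log (1 + M)) ^ 2)) +
        κ * ENNReal.ofReal (M * (C * (1 + Real.log (1 + M)) ^ 2))) := by
        have h1 : ∑ i, ∑ j, ENNReal.ofReal (q i j) ≤
            ENNReal.ofReal (M * (C * (1 + Real.log (1 + M)) ^ 2)) := by
          calc _ ≤ ∑ _i : ι, ENNReal.ofReal (C * (1 + Real.log (1 + M)) ^ 2) :=
                Finset.sum_le_sum fun i _ => hqD i
            _ = _ := by
                rw [Finset.sum_const, Finset.card_univ, nsmul_eq_mul, ← ENNReal.ofReal_natCast,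
                  ← ENNReal.ofReal_mul (by positivity)]
        gcongr
        rw [Finset.sum_const, Finset.card_univ, nsmul_eq_mul, ← ENNReal.ofReal_natCast,
          ← ENNReal.ofReal_mul (by positivity)]
    _ ≤ _ := by
        have hlog : 0 ≤ Real.log (1 + M) := Real.log_nonneg (by
          have : 0 ≤ M := by positivity
          linarith)
        rw [hκ, ← ENNReal.ofReal_mul (by positivity), ← ENNReal.ofReal_add (by positivity)
          (by positivity), ← ENNReal.ofReal_add (by positivity) (by positivity)]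
        apply ENNReal.ofReal_le_ofReal
        have h5 : 1 ≤ A * (1 + Real.log (1 + M)) ^ 2 := by
          have : 1 ≤ (1 + Real.log (1 + M)) ^ 2 := one_le_pow₀ (by linarith)
          nlinarith
        have h6 : M * (2 * δ) ^ (m + 2) ≤ 2 ^ (m + 2) * (A * (1 + Real.log (1 + M)) ^ 2) *
            (δ ^ (m + 2) * M) := by
          rw [mul_pow]
          have : 0 ≤ 2 ^ (m + 2) * (δ ^ (m + 2) * M) := by positivity
          nlinarith
        calc _ ≤ 2 ^ (m + 2) * (A * (1 + Real.log (1 + M)) ^ 2) * (δ ^ (m + 2) * M) +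
              (A * K * δ ^ (m + 2) * (M * (C * (1 + Real.log (1 + M)) ^ 2)) +
              A * K * δ ^ (m + 2) * (M * (C * (1 + Real.log (1 + M)) ^ 2))) := by gcongr
          _ = _ := by ring

end Run7.h750.RS
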